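import Pool.Agent.MJX.Defs
import Pool.Agent.MJT.AbsB

/-!
The statement about rooted states with the marks forgotten.
-/

namespace Pool.Agent.MJX

open MvPolynomial Pool.Agent.MJR Pool.Agent.MJT

noncomputable section

/-- Forgetting the marks of a rooted state. -/
structure HatSt (K : Type) [Field K] (al kap : K) (T : CM K →ₗ[K] Lam K)
    (That : AM K kap →ₗ[K] LW K) : Prop where
  r : ∀ x : AM K kap, That (Rop al kap x) = Zf al (That x)
  i : ∀ f : CM K, That (iA kap f) = Polynomial.C (T f)
  c : ∀ x : AM K kap, T (cA x) = Tr (That x)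

end

end Pool.Agent.MJX
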