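import Pool.Agent.MJX.ZMod
import Pool.Agent.MJX.XDefs

/-!
Forgetting the marks of a rooted state.
-/

namespace Pool.Agent.MJX

open MvPolynomial Pool.Agent.MJR Pool.Agent.MJT
open scoped Nat

noncomputable section

variable {K : Type} [Field K] {kap : K}

namespace HatM

/-- The number of marks, closed states. -/
def Ey (K : Type) [Field K] : Derivation K (CM K) (CM K) :=
  mkDerivation K fun v => match v with
    | Sum.inl _ => 0
    | Sum.inr c => (X (Sum.inr c) : CM K)

/-- The number of marks. -/
def NA (kap : K) : AM K kap →ₗ[K] AM K kap :=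
  FO (iA kap ∘ₗ (Ey K).toLinearMap) fun x => match x with
    | Sum.inl _ => 0
    | Sum.inr (j, a) => sg (Sum.inr (j, a)) 1

/-- The part without marks, closed states. -/
def ev (K : Type) [Field K] : CM K →ₐ[K] Lam K :=
  aeval fun v => match v with
    | Sum.inl k => (X k : Lam K)
    | Sum.inr _ => 0

/-- The part without marks. -/
def ev0 (kap : K) : AM K kap →ₗ[K] LW K :=
  Finsupp.lsum K fun x => match x with
    | Sum.inl j => (Polynomial.monomial j).restrictScalars K ∘ₗ (ev K).toLinearMap
    | Sum.inr _ => 0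

theorem Ey_mul (f g : CM K) : Ey K (f * g) = f * Ey K g + g * Ey K f := (Ey K).leibniz f g

theorem Ey_inl (k : ℕ) : Ey K (X (Sum.inl k)) = 0 := by
  unfold Ey
  rw [mkDerivation_X]

theorem Ey_inr (c : ℕ) : Ey K (X (Sum.inr c)) = X (Sum.inr c) := by
  unfold Ey
  rw [mkDerivation_X]

theorem Ey_C (t : K) : Ey K (C t) = 0 := by
  rw [← algebraMap_eq, Derivation.map_algebraMap]

theorem ev_inl (k : ℕ) : ev K (X (Sum.inl k)) = X k := by
  unfold ev
  rw [aeval_X]

theorem ev_inr (c : ℕ) : ev K (X (Sum.inr c)) = 0 := by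
  unfold ev
  rw [aeval_X]

theorem ev_Ey (f : CM K) : ev K (Ey K f) = 0 := by
  induction f using MvPolynomial.induction_on with
  | C t => rw [Ey_C, map_zero]
  | add p q hp hq => rw [map_add, map_add, hp, hq, add_zero]
  | mul_X p v hp =>
    rw [Ey_mul, map_add, map_mul, map_mul, hp, mul_zero, add_zero]
    rcases v with k | c
    · rw [Ey_inl, map_zero, mul_zero]
    · rw [Ey_inr, ev_inr, mul_zero]

theorem Ey_dl (c : ℕ) (f : CM K) : Ey K (dl K c f) = dl K c (Ey K f) := by
  induction f using MvPolynomial.induction_on with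
  | C t => rw [Ey_C, ZModM.dl_C, map_zero, map_zero]
  | add p q hp hq => rw [map_add, map_add, map_add, map_add, hp, hq]
  | mul_X p v hp =>
    have hb : Ey K (dl K c (X v)) = dl K c (Ey K (X v)) := by
      rcases v with k | a
      · rw [Ey_inl, ZModM.dl_inl, map_zero, map_zero]
      · rw [Ey_inr, ZModM.dl_inr, Ey_inr]
    rw [ZModM.dl_mul, Ey_mul, map_add, map_add, Ey_mul, Ey_mul, ZModM.dl_mul, ZModM.dl_mul, hp,
      hb]
    ring

theorem Ey_zc (tau : K) (f : CM K) : Ey K (zc tau f) = zc tau (Ey K f) - zc tau f := by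
  induction f using MvPolynomial.induction_on with
  | C t => rw [Ey_C, ZModM.zc_C, map_zero, map_zero, sub_zero]
  | add p q hp hq =>
    rw [map_add, map_add, map_add, map_add, hp, hq]
    ring
  | mul_X p v hp =>
    rw [mul_comm p]
    rcases v with k | c
    · rw [ZModM.zc_inl, Ey_mul, Ey_inl, mul_zero, add_zero, Ey_mul, Ey_inl, mul_zero, add_zero,
        ZModM.zc_inl, hp]
      ring
    · have h2 : Ey K ((2 * tau) • dl K c p) = (2 * tau) • dl K c (Ey K p) := by
        rw [← Ey_dl]
        exact (Ey K).toLinearMap.map_smul _ _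
      rw [ZModM.zc_inr, map_add, map_add, Ey_mul, Ey_mul, Ey_mul, Ey_inl, Ey_inr, hp, h2,
        map_add, ZModM.zc_inr, mul_comm p (X (Sum.inr c)), ZModM.zc_inr]
      ring

theorem NA_smul (f : CM K) (x : AM K kap) : NA kap (f • x) = f • NA kap x + Ey K f • x := by
  unfold NA
  rw [FO_smul _ ?_]
  · rw [LinearMap.comp_apply, ZModM.iA_apply, AM_smul_mul, one_mul]
    rfl
  · intro f g
    change iA kap (Ey K (f * g)) = f • iA kap (Ey K g) + g • iA kap (Ey K f)
    rw [ZModM.iA_apply, ZModM.iA_apply, ZModM.iA_apply, Ey_mul, add_smul, mul_smul, mul_smul]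

theorem NA_e0 (j : ℕ) : NA kap (wA ^ j) = 0 := by
  unfold NA
  rw [w_pow, FO_sg, LinearMap.comp_apply, ZModM.iA_apply, one_smul, zero_add]
  change (Ey K 1) • (1 : AM K kap) * _ = 0
  rw [Derivation.map_one_eq_zero, zero_smul, zero_mul]

theorem NA_e1 (j a : ℕ) : NA kap (wA ^ j * mA * wA ^ a) = wA ^ j * mA * wA ^ a := by
  unfold NA
  rw [w_m_w, FO_sg, LinearMap.comp_apply, ZModM.iA_apply, one_smul]
  change _ + (Ey K 1) • (1 : AM K kap) * _ = _
  rw [Derivation.map_one_eq_zero, zero_smul, zero_mul, add_zero]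

theorem NA_zd (j a : ℕ) (f : CM K) : NA kap (zd kap j a f) = zd kap j a f +
    zd kap j a (Ey K f) - zd kap j a f := by
  induction f using MvPolynomial.induction_on with
  | C t => rw [ZModM.zd_C, Ey_C, map_zero, map_zero, add_zero, sub_zero]
  | add p q hp hq =>
    rw [map_add, map_add, map_add, map_add, hp, hq]
    abel
  | mul_X p v hp =>
    rw [add_sub_cancel_left] at hp
    rw [add_sub_cancel_left, ZModM.zd_mul, map_add, NA_smul, NA_smul, hp, Ey_mul, map_add,
      ZModM.zd_mul, ZModM.zd_mul]
    rcases v with k | c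
    · rw [ZModM.zd_inl, map_zero, Ey_inl, map_zero]
      module
    · have h1 : NA kap (zd kap j a (X (Sum.inr c) : CM K)) = zd kap j a (X (Sum.inr c)) := by
        rw [ZModM.zd_inr, map_add, ← w_m_w, ← w_m_w, NA_e1, NA_e1]
      rw [h1, Ey_inr]
      module

theorem NA_zA (tau : K) (x : AM K kap) :
    NA kap (zA tau kap x) = zA tau kap (NA kap x) - zA tau kap x := by
  refine sg_induction (P := fun x => NA kap (zA tau kap x) =
    zA tau kap (NA kap x) - zA tau kap x) x ?_ ?_ ?_
  · simp
  · intro x y hx hy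
    rw [map_add, map_add, map_add, map_add, hx, hy]
    abel
  · intro i f
    rcases i with j | ⟨j, a⟩
    · rw [ZModM.zA_inl, NA_smul, NA_e0, smul_zero, zero_add, sg_inl, NA_smul, NA_e0, smul_zero,
        zero_add, ← sg_inl j (Ey K f), ZModM.zA_inl, Ey_zc, sub_smul]
    · have h1 : NA kap (zd kap j a f) = zd kap j a (Ey K f) := by
        rw [NA_zd]
        abel
      rw [ZModM.zA_inr, map_add, map_add, NA_smul, NA_e1, NA_smul, NA_e0, smul_zero, zero_add,
        LinearMap.map_smul (NA kap) tau, h1, sg_inr, NA_smul, NA_e1, map_add, ← sg_inr j a f,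
        ← sg_inr j a (Ey K f), ZModM.zA_inr, ZModM.zA_inr, Ey_zc]
      module

/-! ### The part without marks -/

theorem ev0_inl (j : ℕ) (f : CM K) :
    ev0 kap (sg (Sum.inl j) f) = Polynomial.monomial j (ev K f) :=
  Finsupp.lsum_single K _ _ _

theorem ev0_inr (j a : ℕ) (f : CM K) : ev0 kap (sg (Sum.inr (j, a)) f) = 0 :=
  Finsupp.lsum_single K _ _ _

theorem ev0_smul (f : CM K) (x : AM K kap) :
    ev0 kap (f • x) = Polynomial.C (ev K f) * ev0 kap x := by
  refine sg_induction (P := fun x => ev0 kap (f • x) = Polynomial.C (ev K f) * ev0 kap x) x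
    ?_ ?_ ?_
  · simp
  · intro x y hx hy
    rw [smul_add, map_add, hx, hy, map_add, mul_add]
  · intro i g
    rcases i with j | ⟨j, a⟩
    · rw [smul_sg, ev0_inl, ev0_inl, map_mul, Polynomial.C_mul_monomial]
    · rw [smul_sg, ev0_inr, ev0_inr, mul_zero]

theorem ev0_w (x : AM K kap) : ev0 kap (x * wA) = Polynomial.X * ev0 kap x := by
  refine sg_induction (P := fun x => ev0 kap (x * wA) = Polynomial.X * ev0 kap x) x ?_ ?_ ?_
  · simp
  · intro x y hx hy
    rw [add_mul, map_add, hx, hy, map_add, mul_add]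
  · intro i g
    rcases i with j | ⟨j, a⟩
    · rw [sg_mul_w, ev0_inl, ev0_inl, Polynomial.X_mul_monomial]
    · rw [sg1_mul_w, ev0_inr, ev0_inr, mul_zero]

theorem ev0_m (x : AM K kap) : ev0 kap (x * mA) = 0 := by
  refine sg_induction (P := fun x => ev0 kap (x * mA) = 0) x ?_ ?_ ?_
  · simp
  · intro x y hx hy
    rw [add_mul, map_add, hx, hy, add_zero]
  · intro i g
    rcases i with j | ⟨j, a⟩
    · rw [sg_mul_m, ev0_inr]
    · rw [sg1_mul_m, ev0_inr]

theorem ev0_rv (x : AM K kap) : ev0 kap (rv x) = ev0 kap x := by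
  refine sg_induction (P := fun x => ev0 kap (rv x) = ev0 kap x) x ?_ ?_ ?_
  · simp
  · intro x y hx hy
    rw [map_add, map_add, hx, hy, map_add]
  · intro i g
    rcases i with j | ⟨j, a⟩
    · rw [rv_inl]
    · rw [rv_inr, ev0_inr, ev0_inr]

theorem ev0_one : ev0 kap 1 = 1 := by
  rw [one_def, ev0_inl, map_one, Polynomial.monomial_zero_left, Polynomial.C_1]

theorem ev0_iA (f : CM K) : ev0 kap (iA kap f) = Polynomial.C (ev K f) := by
  rw [ZModM.iA_apply, ev0_smul, ev0_one, mul_one]

theorem Tr_ev0 (x : AM K kap) : Tr (ev0 kap x) = ev K (cA x) := by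
  refine sg_induction (P := fun x => Tr (ev0 kap x) = ev K (cA x)) x ?_ ?_ ?_
  · simp
  · intro x y hx hy
    rw [map_add, map_add, hx, hy, map_add, map_add]
  · intro i g
    rcases i with j | ⟨j, a⟩
    · rw [ev0_inl, cA_inl]
      by_cases hj : j = 0
      · rw [hj, if_pos rfl, mul_zero, map_zero, Polynomial.monomial_zero_left, Tr_C]
      · rw [if_neg hj, map_mul, ev_inl, Tr_monomial j hj, mul_comm]
    · rw [ev0_inr, cA_inr, map_mul, ev_inr, mul_zero, map_zero]

theorem ev0_NA (x : AM K kap) : ev0 kap (NA kap x) = 0 := by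
  refine sg_induction (P := fun x => ev0 kap (NA kap x) = 0) x ?_ ?_ ?_
  · simp
  · intro x y hx hy
    rw [map_add, map_add, hx, hy, add_zero]
  · intro i g
    rcases i with j | ⟨j, a⟩
    · rw [sg_inl, NA_smul, NA_e0, smul_zero, zero_add, ev0_smul, ev_Ey, map_zero, zero_mul]
    · rw [sg_inr, NA_smul, NA_e1, map_add, ev0_smul, ev0_smul, w_m_w, ev0_inr, mul_zero,
        mul_zero, add_zero]

theorem ev0_oA (al : K) (f : CM K) : al • ev0 kap (oA kap f) = U al (ev K f) := by
  induction f using MvPolynomial.induction_on with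
  | C t =>
    have h1 : ev K (C t) = C t := by rw [← algebraMap_eq, AlgHom.commutes, algebraMap_eq]
    rw [h1, U_C, ← algebraMap_eq, Derivation.map_algebraMap, map_zero, smul_zero]
  | add p q hp hq => rw [map_add, map_add, map_add, map_add, smul_add, hp, hq]
  | mul_X p v hp =>
    have hb : al • ev0 kap (oA kap (X v : CM K)) = U al (ev K (X v)) := by
      rcases v with k | c
      · rw [ZModM.oA_inl, ev_inl, U_X, LinearMap.map_smul (ev0 kap), w_pow, ev0_inl, map_one,
          Polynomial.smul_monomial, Polynomial.smul_monomial, smul_smul, smul_eq_C_mul, mul_one]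
      · rw [ZModM.oA_inr, ev_inr, map_zero]
        unfold Ow
        rw [map_sum]
        have h2 : ∀ l ∈ Finset.range (c + 1), ev0 kap (wA ^ l * mA * wA ^ (c - l)) = 0 := by
          intro l _
          rw [w_m_w, ev0_inr]
        rw [Finset.sum_congr rfl h2, Finset.sum_const_zero, smul_zero]
    rw [Derivation.leibniz, map_add, ev0_smul, ev0_smul, map_mul, U_mul, smul_add,
      ← mul_smul_comm, ← mul_smul_comm, hp, hb]

theorem ev0_Rop {al : K} (hR : RSt K al kap) (x : AM K kap) :
    ev0 kap (Rop al kap x) = Zf al (ev0 kap x) := by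
  have hext : ev0 kap ∘ₗ Rop al kap = Zf al ∘ₗ ev0 kap := by
    apply lin_ext
    · intro f
      have h1 : Zf al (Polynomial.C (ev K f)) = U al (ev K f) := by
        change Z al (Polynomial.C (ev K f)) + Polynomial.C (Tr (Polynomial.C (ev K f))) = _
        rw [Z_C, Tr_C, map_zero, add_zero]
      rw [LinearMap.comp_apply, LinearMap.comp_apply, ev0_smul, ev0_one, mul_one, h1, hR.smul,
        hR.one, smul_zero, zero_add, mul_one, LinearMap.map_smul (ev0 kap), ev0_oA]
    · intro x hx
      rw [LinearMap.comp_apply, LinearMap.comp_apply] at hx ⊢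
      rw [hR.w, map_add, map_add, ev0_w, hx, ev0_smul, ev0_one, mul_one, ← Tr_ev0,
        LinearMap.map_smul (ev0 kap), ev0_rv, ev0_w, AbsM.Zf_X_mul]
      abel
    · intro x hx
      rw [LinearMap.comp_apply, LinearMap.comp_apply] at hx ⊢
      rw [hR.m, map_add, map_add, ev0_m, ev0_smul, ev0_one, mul_one, ← Tr_ev0,
        LinearMap.map_smul (ev0 kap), ev0_rv, ev0_m]
      simp
  exact LinearMap.congr_fun hext x

/-! ### Eigenvectors -/

theorem NA_pow (tau : K) (n : ℕ) (x : AM K kap) (hx : NA kap x = (n : K) • x) (k : ℕ) :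
    NA kap ((zA tau kap ^ k) x) = ((n : K) - (k : K)) • (zA tau kap ^ k) x := by
  induction k with
  | zero => rw [pow_zero, Module.End.one_apply, hx, Nat.cast_zero, sub_zero]
  | succ k ih =>
    rw [pow_succ', Module.End.mul_apply, NA_zA, ih, LinearMap.map_smul (zA tau kap),
      Nat.cast_add, Nat.cast_one]
    module

theorem ev0_pow [CharZero K] (tau : K) (n : ℕ) (x : AM K kap) (hx : NA kap x = (n : K) • x)
    (k : ℕ) (hk : k ≠ n) : ev0 kap ((zA tau kap ^ k) x) = 0 := by
  have h1 := ev0_NA ((zA tau kap ^ k) x)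
  rw [NA_pow tau n x hx, LinearMap.map_smul (ev0 kap)] at h1
  have h2 : (n : K) - (k : K) ≠ 0 := by
    rw [sub_ne_zero]
    exact_mod_cast hk.symm
  exact (smul_eq_zero.mp h1).resolve_left h2

/-- Products of eigenvectors. -/
def MonS (K : Type) [Field K] : Submonoid (CM K) where
  carrier := {f | ∃ n : ℕ, Ey K f = (n : K) • f}
  one_mem' := ⟨0, by rw [Derivation.map_one_eq_zero, Nat.cast_zero, zero_smul]⟩
  mul_mem' := by
    rintro f g ⟨n, hn⟩ ⟨m, hm⟩
    refine ⟨n + m, ?_⟩
    rw [Ey_mul, hn, hm, Nat.cast_add, mul_smul_comm, mul_smul_comm, mul_comm g f, add_smul,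
      add_comm]

theorem X_mem_MonS (v : ℕ ⊕ ℕ) : (X v : CM K) ∈ MonS K := by
  rcases v with k | c
  · exact ⟨0, by rw [Ey_inl, Nat.cast_zero, zero_smul]⟩
  · exact ⟨1, by rw [Ey_inr, Nat.cast_one, one_smul]⟩

theorem C_mem_MonS (t : K) : (C t : CM K) ∈ MonS K :=
  ⟨0, by rw [Ey_C, Nat.cast_zero, zero_smul]⟩

theorem eig_induction {P : CM K → Prop} (f : CM K) (ha : ∀ f g, P f → P g → P (f + g))
    (he : ∀ (n : ℕ) (f : CM K), Ey K f = (n : K) • f → P f) : P f := by
  induction f using MvPolynomial.induction_on' with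
  | monomial u a =>
    have h1 : (monomial u a : CM K) ∈ MonS K := by
      rw [monomial_eq]
      refine Submonoid.mul_mem _ (C_mem_MonS a) ?_
      unfold Finsupp.prod
      exact Submonoid.prod_mem _ fun v _ => Submonoid.pow_mem _ (X_mem_MonS v) _
    obtain ⟨n, hn⟩ := h1
    exact he n _ hn
  | add p q hp hq => exact ha p q hp hq

theorem eigA_induction {P : AM K kap → Prop} (x : AM K kap) (ha : ∀ x y, P x → P y → P (x + y))
    (he : ∀ (n : ℕ) (x : AM K kap), NA kap x = (n : K) • x → P x) : P x := by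
  refine sg_induction (P := P) x (he 0 0 (by simp)) ha ?_
  intro i f
  refine eig_induction (P := fun f => P (sg i f)) f ?_ ?_
  · intro f g hf hg
    rw [sg_add]
    exact ha _ _ hf hg
  · intro n f hf
    rcases i with j | ⟨j, a⟩
    · refine he n _ ?_
      rw [sg_inl, NA_smul, NA_e0, smul_zero, zero_add, hf, smul_assoc]
    · refine he (n + 1) _ ?_
      rw [sg_inr, NA_smul, NA_e1, hf, smul_assoc, Nat.cast_add, Nat.cast_one]
      module

theorem fin_supp [CharZero K] (tau : K) (x : AM K kap) :
    (Function.support fun k : ℕ => ((k ! : K))⁻¹ • ev0 kap ((zA tau kap ^ k) x)).Finite := by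
  refine eigA_induction (P := fun x => (Function.support fun k : ℕ =>
    ((k ! : K))⁻¹ • ev0 kap ((zA tau kap ^ k) x)).Finite) x ?_ ?_
  · intro x y hx hy
    refine (hx.union hy).subset ?_
    intro k hk
    by_contra h
    rw [Set.mem_union, not_or, Function.mem_support, Function.mem_support, not_not,
      not_not] at h
    apply hk
    change ((k ! : K))⁻¹ • ev0 kap ((zA tau kap ^ k) (x + y)) = 0
    rw [map_add, map_add, smul_add, h.1, h.2, add_zero]
  · intro n x hx
    refine (Set.finite_singleton n).subset ?_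
    intro k hk
    by_contra h
    apply hk
    change ((k ! : K))⁻¹ • ev0 kap ((zA tau kap ^ k) x) = 0
    rw [ev0_pow tau n x hx k h, smul_zero]

/-- Forgetting the marks. -/
def hat [CharZero K] (tau kap : K) : AM K kap →ₗ[K] LW K where
  toFun x := ∑ᶠ k : ℕ, ((k ! : K))⁻¹ • ev0 kap ((zA tau kap ^ k) x)
  map_add' x y := by
    rw [← finsum_add_distrib (fin_supp tau x) (fin_supp tau y)]
    refine finsum_congr fun k => ?_
    rw [map_add, map_add, smul_add]
  map_smul' c x := by
    rw [RingHom.id_apply, smul_finsum' c (fin_supp tau x)]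
    refine finsum_congr fun k => ?_
    rw [map_smul, map_smul, smul_comm]

theorem hat_apply [CharZero K] (tau : K) (x : AM K kap) : hat tau kap x =
    ∑ᶠ k : ℕ, ((k ! : K))⁻¹ • ev0 kap ((zA tau kap ^ k) x) := rfl

theorem hat_eig [CharZero K] (tau : K) (n : ℕ) (x : AM K kap) (hx : NA kap x = (n : K) • x) :
    hat tau kap x = ((n ! : K))⁻¹ • ev0 kap ((zA tau kap ^ n) x) := by
  rw [hat_apply]
  refine finsum_eq_single _ n fun k hk => ?_
  rw [ev0_pow tau n x hx k hk, smul_zero]

/-! ### States without marks -/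

/-- A parameter for the marks. -/
def Ph (K : Type) [Field K] : CM K →ₐ[K] Polynomial (CM K) :=
  aeval fun v => match v with
    | Sum.inl k => Polynomial.C (X (Sum.inl k))
    | Sum.inr c => Polynomial.X * Polynomial.C (X (Sum.inr c))

theorem Ph_inl (k : ℕ) : Ph K (X (Sum.inl k)) = Polynomial.C (X (Sum.inl k)) := by
  unfold Ph
  rw [aeval_X]

theorem Ph_inr (c : ℕ) :
    Ph K (X (Sum.inr c)) = Polynomial.X * Polynomial.C (X (Sum.inr c)) := by
  unfold Ph
  rw [aeval_X]

theorem Ph_C (t : K) : Ph K (C t) = Polynomial.C (C t) := by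
  rw [← algebraMap_eq, AlgHom.commutes]
  rfl

theorem Ph_Ey (f : CM K) :
    Polynomial.X * Polynomial.derivative (Ph K f) = Ph K (Ey K f) := by
  induction f using MvPolynomial.induction_on with
  | C t => rw [Ey_C, Ph_C, Polynomial.derivative_C, mul_zero, map_zero]
  | add p q hp hq => rw [map_add, map_add, map_add, map_add, mul_add, hp, hq]
  | mul_X p v hp =>
    have hb : Polynomial.X * Polynomial.derivative (Ph K (X v)) = Ph K (Ey K (X v)) := by
      rcases v with k | c
      · rw [Ey_inl, Ph_inl, Polynomial.derivative_C, mul_zero, map_zero]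
      · rw [Ey_inr, Ph_inr]
        simp
    rw [Ey_mul, map_mul, Polynomial.derivative_mul, map_add, map_mul, map_mul, ← hp, ← hb]
    ring

/-- States without marks. -/
def sL (K : Type) [Field K] : Lam K →ₐ[K] CM K := aeval fun k => X (Sum.inl k)

theorem Ph_one (f : CM K) : (Ph K f).eval 1 = f := by
  induction f using MvPolynomial.induction_on with
  | C t => rw [Ph_C, Polynomial.eval_C]
  | add p q hp hq => rw [map_add, Polynomial.eval_add, hp, hq]
  | mul_X p v hp =>
    rw [map_mul, Polynomial.eval_mul, hp]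
    rcases v with k | c
    · rw [Ph_inl, Polynomial.eval_C]
    · rw [Ph_inr, Polynomial.eval_mul, Polynomial.eval_C, Polynomial.eval_X, one_mul]

theorem Ph_zero (f : CM K) : (Ph K f).eval 0 = sL K (ev K f) := by
  induction f using MvPolynomial.induction_on with
  | C t =>
    have h1 : ev K (C t) = C t := by rw [← algebraMap_eq, AlgHom.commutes, algebraMap_eq]
    have h2 : sL K (C t) = C t := by rw [← algebraMap_eq, AlgHom.commutes, algebraMap_eq]
    rw [Ph_C, Polynomial.eval_C, h1, h2]
  | add p q hp hq => rw [map_add, Polynomial.eval_add, hp, hq, map_add, map_add]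
  | mul_X p v hp =>
    rw [map_mul, Polynomial.eval_mul, hp, map_mul, map_mul]
    rcases v with k | c
    · rw [Ph_inl, Polynomial.eval_C, ev_inl]
      unfold sL
      rw [aeval_X]
    · rw [Ph_inr, Polynomial.eval_mul, Polynomial.eval_C, Polynomial.eval_X, ev_inr, zero_mul,
        mul_zero, map_zero, mul_zero]

theorem free [CharZero K] (f : CM K) (hf : Ey K f = 0) : f = sL K (ev K f) := by
  have h1 := Ph_Ey f
  rw [hf, map_zero] at h1
  have h2 : Polynomial.derivative (Ph K f) = 0 :=
    (mul_eq_zero.mp h1).resolve_left Polynomial.X_ne_zero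
  have h3 := Polynomial.derivative_eq_zero.mp h2
  rw [Polynomial.natDegree_eq_zero] at h3
  obtain ⟨c, hc⟩ := h3
  rw [← Ph_zero, ← hc, Polynomial.eval_C]
  have h4 := Ph_one f
  rw [← hc, Polynomial.eval_C] at h4
  exact h4.symm

/-! ### The operator `T` -/

variable {tau : K} {T : CM K →ₗ[K] Lam K}

theorem T_sL (hT : IsT tau T) (g : Lam K) : T (sL K g) = g := by
  induction g using MvPolynomial.induction_on with
  | C t =>
    have h2 : sL K (C t) = C t := by rw [← algebraMap_eq, AlgHom.commutes, algebraMap_eq]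
    have h3 : (C t : CM K) = t • 1 := by rw [smul_eq_C_mul, mul_one]
    rw [h2, h3, map_smul, hT.one, smul_eq_C_mul, mul_one]
  | add p q hp hq => rw [map_add, map_add, hp, hq]
  | mul_X p k hp =>
    have h1 : sL K (X k) = X (Sum.inl k) := by
      unfold sL
      rw [aeval_X]
    rw [map_mul, h1, mul_comm, hT.p, hp, mul_comm]

theorem T_free [CharZero K] (hT : IsT tau T) (f : CM K) (hf : Ey K f = 0) : T f = ev K f := by
  nth_rewrite 1 [free f hf]
  rw [T_sL hT]

theorem lc_Ey (f : CM K) :
    Finsupp.linearCombination (CM K) (fun d => (X (Sum.inr d) : CM K)) (dy K f) = Ey K f := by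
  induction f using MvPolynomial.induction_on with
  | C t => rw [ZModM.dy_C, Ey_C, map_zero]
  | add p q hp hq => rw [map_add, map_add, map_add, hp, hq]
  | mul_X p v hp =>
    rw [ZModM.dy_mul, map_add, map_smul, map_smul, hp, Ey_mul, smul_eq_mul, smul_eq_mul]
    rcases v with k | a
    · rw [ZModM.dy_inl, Ey_inl, map_zero]
    · rw [ZModM.dy_inr, Ey_inr, Finsupp.linearCombination_single, one_smul]

theorem T_zc (hT : IsT tau T) (f : CM K) : T (zc tau f) = T (Ey K f) := by
  rw [← lc_Ey, ZModM.zc_apply]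
  refine Finsupp.induction_linear (dy K f) ?_ ?_ ?_
  · simp
  · intro s t hs ht
    rw [map_add, map_add, map_add, map_add, hs, ht]
  · intro d g
    rw [ZModM.ls_single, Finsupp.linearCombination_single, smul_eq_mul, mul_comm g, hT.y]

theorem Ey_zc_pow (n : ℕ) (f : CM K) (hf : Ey K f = (n : K) • f) :
    Ey K ((zc tau ^ n) f) = 0 := by
  induction n generalizing f with
  | zero => rw [pow_zero, Module.End.one_apply, hf, Nat.cast_zero, zero_smul]
  | succ n ih =>
    rw [pow_succ, Module.End.mul_apply]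
    apply ih
    rw [Ey_zc, hf, map_smul, Nat.cast_add, Nat.cast_one]
    module

theorem T_zc_pow (hT : IsT tau T) (n : ℕ) (f : CM K) (hf : Ey K f = (n : K) • f) :
    T ((zc tau ^ n) f) = (n ! : K) • T f := by
  induction n generalizing f with
  | zero => rw [pow_zero, Module.End.one_apply, Nat.factorial_zero, Nat.cast_one, one_smul]
  | succ n ih =>
    rw [pow_succ, Module.End.mul_apply, ih (zc tau f), T_zc hT, hf, map_smul, smul_smul,
      Nat.factorial_succ, Nat.cast_mul, mul_comm]
    rw [Ey_zc, hf, map_smul, Nat.cast_add, Nat.cast_one]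
    module

theorem ev_zc_pow [CharZero K] (hT : IsT tau T) (n : ℕ) (f : CM K)
    (hf : Ey K f = (n : K) • f) : ev K ((zc tau ^ n) f) = (n ! : K) • T f := by
  rw [← T_zc_pow hT n f hf, T_free hT _ (Ey_zc_pow n f hf)]

theorem cA_NA (x : AM K kap) : cA (NA kap x) = Ey K (cA x) := by
  refine sg_induction (P := fun x => cA (NA kap x) = Ey K (cA x)) x ?_ ?_ ?_
  · simp
  · intro x y hx hy
    rw [map_add, map_add, hx, hy, map_add, map_add]
  · intro i f
    rcases i with j | ⟨j, a⟩
    · rw [sg_inl, NA_smul, NA_e0, smul_zero, zero_add, ← sg_inl, ← sg_inl, cA_inl, cA_inl,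
        Ey_mul]
      by_cases hj : j = 0
      · rw [if_pos hj, map_zero]
        ring
      · rw [if_neg hj, Ey_inl]
        ring
    · rw [sg_inr, NA_smul, NA_e1, map_add, ← sg_inr, ← sg_inr, cA_inr, cA_inr, Ey_mul, Ey_inr]
      ring

end HatM

open HatM in
/-- Forgetting the marks of rooted states. -/
theorem hatSt [CharZero K] {al : K} (hR : RSt K al kap) (hZ : ZSt K al kap)
    {T : CM K →ₗ[K] Lam K} (hT : IsT (al * kap) T) :
    HatSt K al kap T (hat (al * kap) kap) where
  r := by
    intro x
    have h1 : ∀ k : ℕ, (zA (al * kap) kap ^ k) (Rop al kap x) =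
        Rop al kap ((zA (al * kap) kap ^ k) x) := by
      intro k
      induction k with
      | zero => rfl
      | succ k ih => rw [pow_succ', Module.End.mul_apply, Module.End.mul_apply, ih, hZ.r]
    have h2 := (Zf al).toAddMonoidHom.map_finsum (fin_supp (al * kap) x)
    rw [hat_apply, hat_apply]
    refine Eq.trans ?_ h2.symm
    refine finsum_congr fun k => ?_
    rw [h1, ev0_Rop hR]
    change _ = Zf al (_ • _)
    rw [map_smul]
  i := by
    intro f
    refine eig_induction (P := fun f => hat (al * kap) kap (iA kap f) = Polynomial.C (T f)) f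
      ?_ ?_
    · intro f g hf hg
      rw [map_add, map_add, hf, hg, map_add, map_add]
    · intro n f hf
      have h0 : NA kap (iA kap f) = (n : K) • iA kap f := by
        have h := NA_smul (kap := kap) f 1
        have h1 := NA_e0 (K := K) (kap := kap) 0
        rw [pow_zero] at h1
        rw [h1, smul_zero, zero_add, hf, smul_assoc] at h
        exact h
      have h1 : ∀ k : ℕ, (zA (al * kap) kap ^ k) (iA kap f) = iA kap ((zc (al * kap) ^ k) f) := by
        intro k
        induction k with
        | zero => rfl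
        | succ k ih =>
          rw [pow_succ', Module.End.mul_apply, ih, pow_succ', Module.End.mul_apply]
          exact hZ.one _
      have h3 : (n ! : K) ≠ 0 := by exact_mod_cast n.factorial_ne_zero
      rw [hat_eig (al * kap) n _ h0, h1, ev0_iA, ev_zc_pow hT n f hf, Polynomial.smul_C,
        smul_smul, inv_mul_cancel₀ h3, one_smul]
  c := by
    intro x
    refine eigA_induction (P := fun x => T (cA x) = Tr (hat (al * kap) kap x)) x ?_ ?_
    · intro x y hx hy
      rw [map_add, map_add, hx, hy, map_add, map_add]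
    · intro n x hx
      have h0 : Ey K (cA x) = (n : K) • cA x := by
        rw [← cA_NA, hx, ksmul, map_smul, smul_eq_mul, smul_eq_C_mul]
      have h1 : ∀ k : ℕ, cA ((zA (al * kap) kap ^ k) x) = (zc (al * kap) ^ k) (cA x) := by
        intro k
        induction k with
        | zero => rfl
        | succ k ih => rw [pow_succ', Module.End.mul_apply, hZ.c, ih, pow_succ',
            Module.End.mul_apply]
      have h3 : (n ! : K) ≠ 0 := by exact_mod_cast n.factorial_ne_zero
      rw [hat_eig (al * kap) n _ hx, map_smul, Tr_ev0, h1, ev_zc_pow hT n _ h0, smul_smul,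
        inv_mul_cancel₀ h3, one_smul]

end

end Pool.Agent.MJX
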