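import Pool.Agent.MJX.FullMod
import Pool.Agent.MJT.AbsB

/-!
The relations of the insertion process for the arc model.
-/

namespace Pool.Agent.MJX

open MvPolynomial Pool.Agent.MJR Pool.Agent.MJT

noncomputable section

variable {K : Type} [Field K] {kap : K}

theorem o0_inl (k : ℕ) : o0 kap (X (Sum.inl k)) = (k : K) • wA ^ k := by
  unfold o0
  rw [mkDerivation_X]

theorem o0_inr (c : ℕ) : o0 kap (X (Sum.inr c)) = Ow0 kap c := by
  unfold o0
  rw [mkDerivation_X]

theorem cD1 {al : K} (hC : CloseSt K al kap) (l : AM K kap)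
    (hl : ∀ x : AM K kap, Full al kap (x * l) = Full al kap x * l + Rb al kap (x * l))
    (x : AM K kap) : Dc al kap (cA (x * l)) = cA (Full al kap x * l) := by
  have h1 := hC.cD (x * l)
  have h2 : D0 al kap (x * l) = Full al kap (x * l) - Rop al kap (x * l) := rfl
  rw [← h1, h2, hl, map_sub, map_add, hC.cR]
  ring

theorem FullT0 {al : K} (hR : RSt K al kap) (hT : TSt K al kap) (hF : FullSt K al kap)
    (hTh : ThetaSt K al kap) (hB : BaseSt K al kap) (hC : CloseSt K al kap) (x : AM K kap) :
    Full al kap (T0 al kap x) = T0 al kap (Full al kap x) := by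
  have hext : Full al kap ∘ₗ T0 al kap = T0 al kap ∘ₗ Full al kap := by
    apply lin_ext
    · intro f
      rw [LinearMap.comp_apply, LinearMap.comp_apply]
      rw [hT.smul0, hT.one0, smul_zero, zero_add, mul_one, LinearMap.map_smul (Full al kap) al,
        hB.b0, hF.one, map_add, LinearMap.map_smul (T0 al kap) al, hT.smul0, hT.one0, smul_zero,
        zero_add, mul_one, smul_add]
    · intro x hx
      rw [LinearMap.comp_apply, LinearMap.comp_apply] at hx ⊢
      have h1 := hTh.t0 (x * wA)
      rw [hF.w x, map_add (T0 al kap), ← h1, hT.w0, hT.w0, map_add, map_add, map_add, map_add,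
        hF.w, hx, LinearMap.map_smul (Full al kap) (al - 1),
        LinearMap.map_smul (Rb al kap) (al - 1), hF.one, hF.w, hF.rev, Rb_smul hR,
        Rb_one hR, smul_zero, zero_add, one_mul, cD1 hC wA hF.w, smul_add]
      abel
    · intro x hx
      rw [LinearMap.comp_apply, LinearMap.comp_apply] at hx ⊢
      rw [hF.m x, map_add (T0 al kap), ← hTh.t0, hT.m0, hT.m0, hF.m, hx]
  exact LinearMap.congr_fun hext x

theorem FullT1 {al : K} (hR : RSt K al kap) (hT : TSt K al kap) (hF : FullSt K al kap)
    (hTh : ThetaSt K al kap) (hB : BaseSt K al kap) (hC : CloseSt K al kap) (x : AM K kap) :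
    Full al kap (T1 al kap x) = T1 al kap (Full al kap x) := by
  have hext : Full al kap ∘ₗ T1 al kap = T1 al kap ∘ₗ Full al kap := by
    apply lin_ext
    · intro f
      rw [LinearMap.comp_apply, LinearMap.comp_apply]
      rw [hT.smul1, hT.one1, smul_zero, zero_add, mul_one, LinearMap.map_smul (Full al kap) al,
        hB.b1, hF.one, map_add, LinearMap.map_smul (T1 al kap) al, hT.smul1, hT.one1, smul_zero,
        zero_add, mul_one, smul_add]
    · intro x hx
      rw [LinearMap.comp_apply, LinearMap.comp_apply] at hx ⊢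
      rw [hF.w x, map_add (T1 al kap), ← hTh.t1, hT.w1, hT.w1, hF.w, hx]
    · intro x hx
      rw [LinearMap.comp_apply, LinearMap.comp_apply] at hx ⊢
      have h1 := hTh.t1 (x * mA)
      rw [hF.m x, map_add (T1 al kap), ← h1, hT.m1, hT.m1, map_add, map_add, map_add, map_add,
        hF.m, hx, LinearMap.map_smul (Full al kap) (al - 1),
        LinearMap.map_smul (Rb al kap) (al - 1), hF.one, hF.m, hF.rev, Rb_smul hR,
        Rb_one hR, smul_zero, zero_add, one_mul, cD1 hC mA hF.m, smul_add]
      abel
  exact LinearMap.congr_fun hext x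

theorem FullR {al : K} (hR : RSt K al kap) (hT : TSt K al kap) (hF : FullSt K al kap)
    (hTh : ThetaSt K al kap) (hB : BaseSt K al kap) (hC : CloseSt K al kap) (x : AM K kap) :
    Full al kap (Rop al kap x) = Rop al kap (Full al kap x) := by
  rw [hT.sum x, hT.sum (Full al kap x), map_add, map_add, map_smul, map_sub, hF.rev,
    FullT0 hR hT hF hTh hB hC, FullT1 hR hT hF hTh hB hC]

theorem D0_apply (al : K) (x : AM K kap) : D0 al kap x = Full al kap x - Rop al kap x := rfl

theorem A_apply (al u v : K) (x : AM K kap) :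
    Aop al kap u v x = wA * (u • x + T0 al kap x) + v • (mA * x) := rfl

theorem mc_apply (f : CM K) (x : AM K kap) : mc f x = f • x := by
  change (f • (1 : AM K kap)) * x = f • x
  rw [AM_smul_mul, one_mul]

theorem bh_apply (al u v : K) (x : AM K kap) : bh al kap u v x =
    u • ((X (Sum.inl 1) : CM K) • x) + v • ((X (Sum.inr 0) : CM K) • x) + al • EA kap x := by
  change u • mc (X (Sum.inl 1)) x + v • mc (X (Sum.inr 0)) x + al • EA kap x = _
  rw [mc_apply, mc_apply]

theorem bc_apply (al u v : K) (f : CM K) : bc al u v f =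
    u • ((X (Sum.inl 1) : CM K) * f) + v • ((X (Sum.inr 0) : CM K) * f) + al • Ec K f := rfl

theorem Aop_smul {al : K} (hT : TSt K al kap) (u v : K) (f : CM K) (x : AM K kap) :
    Aop al kap u v (f • x) = f • Aop al kap u v x + al • (wA * (o0 kap f * x)) := by
  rw [A_apply, A_apply, hT.smul0, AM_mul_smul f mA x, smul_comm u f, smul_comm v f,
    ← add_assoc, ← smul_add f, mul_add wA (f • _), AM_mul_smul, mul_smul_comm, smul_add f]
  abel

theorem Ow_zero : Ow kap 0 = (mA : AM K kap) := by
  unfold Ow
  rw [Finset.sum_range_one, Nat.sub_zero, pow_zero, one_mul, mul_one]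

theorem Ow0_zero : Ow0 kap 0 = (0 : AM K kap) := by
  unfold Ow0
  rw [Finset.sum_range_zero]

/-- The relations. -/
theorem relX [CharZero K] {al : K} (hR : RSt K al kap) (hT : TSt K al kap)
    (hF : FullSt K al kap) (hTh : ThetaSt K al kap) (hB : BaseSt K al kap)
    (hC : CloseSt K al kap) (hE : ESt K al kap) (u v : K) :
    Rel al (Aop al kap u v) (Rop al kap) (D0 al kap) (bh al kap u v) (Dc al kap) (bc al u v)
      (iA kap) (cK : AM K kap →ₗ[K] CM K) 1 := by
  have hw : ∀ y : AM K kap, D0 al kap (wA * y) = wA * Full al kap y := by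
    intro y
    rw [D0_apply, hF.wl]
    abel
  have hm : ∀ y : AM K kap, D0 al kap (mA * y) = mA * Full al kap y := by
    intro y
    rw [D0_apply, hF.ml]
    abel
  have hop1 : o0 kap (X (Sum.inl 1)) = (wA : AM K kap) := by
    rw [o0_inl, Nat.cast_one, one_smul, pow_one]
  have hop2 : o0 kap (X (Sum.inr 0)) = (0 : AM K kap) := by
    rw [o0_inr, Ow0_zero]
  have hoA1 : oA kap (X (Sum.inl 1)) = (wA : AM K kap) := by
    rw [oA_inl, Nat.cast_one, one_smul, pow_one]
  have hoA2 : oA kap (X (Sum.inr 0)) = (mA : AM K kap) := by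
    rw [oA_inr, Ow_zero]
  have hcw : cA (wA : AM K kap) = X (Sum.inl 1) := by
    rw [wA, cA_inl, if_neg one_ne_zero, one_mul]
  have hcm : cA (mA : AM K kap) = X (Sum.inr 0) := by
    rw [mA, cA_inr, one_mul]
  have hRw : Rop al kap (wA : AM K kap) = (X (Sum.inl 1) : CM K) • (1 : AM K kap)
      + (al - 1) • wA := by
    have h := hR.w 1
    rw [one_mul, hR.one, zero_mul, zero_add, rv_w, hcw] at h
    exact h
  have hRm : Rop al kap (mA : AM K kap) = (X (Sum.inr 0) : CM K) • (1 : AM K kap)
      + (al - 1) • mA := by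
    have h := hR.m 1
    rw [one_mul, hR.one, zero_mul, zero_add, rv_m, hcm] at h
    exact h
  have hD1 : Dc al kap (X (Sum.inl 1)) = 0 := by
    rw [Dc_apply, hoA1, hRw, map_add, cA_one, zero_add, cA_ksmul, hcw, smul_eq_C_mul,
      smul_eq_C_mul, sub_self, mul_zero]
  have hD2 : Dc al kap (X (Sum.inr 0)) = 0 := by
    rw [Dc_apply, hoA2, hRm, map_add, cA_one, zero_add, cA_ksmul, hcm, smul_eq_C_mul,
      smul_eq_C_mul, sub_self, mul_zero]
  have hE1 : Ec K (1 : CM K) = 0 := Derivation.map_one_eq_zero _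
  have hi : ∀ f : CM K, iA kap f = f • (1 : AM K kap) := fun _ => rfl
  have hc : ∀ x : AM K kap, (cK : AM K kap →ₗ[K] CM K) x = cA x := fun _ => rfl
  refine ⟨?_, ?_, ?_, ?_, ?_, ?_, ?_, ?_, ?_, ?_, ?_, ?_, ?_⟩
  · intro x
    have h1 : Aop al kap u v (D0 al kap x) + Aop al kap u v (Rop al kap x) =
        Aop al kap u v (Full al kap x) := by
      rw [← map_add]
      congr 1
      rw [D0_apply]
      abel
    rw [h1, A_apply, A_apply, map_add, map_smul, hw, hm, map_add, map_smul,
      FullT0 hR hT hF hTh hB hC]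
  · intro x
    rw [D0_apply, D0_apply, map_sub, FullR hR hT hF hTh hB hC]
  · intro x
    rw [bh_apply, bh_apply, map_add, map_add, LinearMap.map_smul (Aop al kap u v) u,
      LinearMap.map_smul (Aop al kap u v) v, LinearMap.map_smul (Aop al kap u v) al, Aop_smul hT,
      Aop_smul hT, hop1, hop2, A_apply al u v (EA kap x), hE.t0, zero_mul, mul_zero, smul_zero,
      add_zero, A_apply al u v x, map_add (EA kap), LinearMap.map_smul (EA kap) v, hE.wl, hE.ml,
      map_add, LinearMap.map_smul (EA kap) u]
    simp only [mul_add, smul_add, mul_smul_comm, ← mul_assoc]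
    module
  · intro x
    rw [bh_apply, bh_apply, map_add, map_add, LinearMap.map_smul (Rop al kap) u,
      LinearMap.map_smul (Rop al kap) v, LinearMap.map_smul (Rop al kap) al, hR.smul, hR.smul,
      hoA1, hoA2, hE.r, A_apply]
    simp only [mul_add, smul_add, mul_smul_comm]
    module
  · intro x
    rw [hc, hc, hC.cD]
  · intro x
    rw [hc, hc, bh_apply, bc_apply, map_add, map_add, cA_ksmul, cA_ksmul, cA_ksmul, cA_smul,
      cA_smul, hE.c, smul_eq_C_mul, smul_eq_C_mul, smul_eq_C_mul]
  · intro x
    rw [hi, hi, bh_apply, bc_apply, hE.smul, hE.one, smul_zero, zero_add, add_smul, add_smul,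
      smul_assoc, smul_assoc, smul_assoc, mul_smul, mul_smul]
  · intro x
    rw [hi, hi, D0_apply, hF.one, hR.smul, hR.one, smul_zero, zero_add, mul_one,
      add_sub_cancel_right]
  · rw [hi, one_smul, hR.one]
  · exact hF.Dc_one
  · rw [bc_apply, hE1, smul_zero, add_zero, mul_one, mul_one, map_add, map_smul, map_smul, hD1,
      hD2, smul_zero, smul_zero, add_zero]
  · intro x
    rw [hi, hc, A_apply, hT.smul0, hT.one0, smul_zero, zero_add, mul_one, mul_add, map_add,
      map_add, mul_smul_comm u, mul_smul_comm al, cA_ksmul, cA_ksmul, cA_ksmul, AM_mul_smul,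
      AM_mul_smul, mul_one, mul_one, cA_smul, cA_smul, hcw, hcm, hE.co, bc_apply, smul_eq_C_mul,
      smul_eq_C_mul, smul_eq_C_mul]
    ring
  · rw [hi, hi, one_smul, A_apply, hT.one0, add_zero, mul_smul_comm, mul_one, mul_one, map_add,
      map_smul, map_smul, hRw, hRm, bc_apply, hE1, smul_zero, add_zero, mul_one, mul_one,
      add_smul, smul_assoc, smul_assoc]
    module

end

end Pool.Agent.MJX
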