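import Pool.Agent.MJX.TMod

/-!
Opening and the pairs of gaps.
-/

namespace Pool.Agent.MJX

open MvPolynomial Pool.Agent.MJR Finset

noncomputable section

variable {K : Type} [Field K] {kap : K}

namespace Bs

/-- A linear map with the Leibniz rule which vanishes at the variables is zero. -/
theorem der_zero {M : Type} [AddCommGroup M] [Module (CM K) M] (F : CM K → M)
    (hadd : ∀ f g, F (f + g) = F f + F g) (hC : ∀ c : K, F (C c) = 0)
    (hmul : ∀ f g, F (f * g) = f • F g + g • F f) (hX : ∀ v, F (X v) = 0) (f : CM K) :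
    F f = 0 := by
  induction f using MvPolynomial.induction_on with
  | C c => exact hC c
  | add f g hf hg => rw [hadd, hf, hg, add_zero]
  | mul_X f v hf => rw [hmul, hf, hX, smul_zero, smul_zero, add_zero]

theorem oA_p (k : ℕ) : oA kap (X (Sum.inl k)) = (k : K) • wA ^ k := by
  unfold oA
  rw [mkDerivation_X]

theorem oA_y (c : ℕ) : oA kap (X (Sum.inr c)) = Ow kap c := by
  unfold oA
  rw [mkDerivation_X]

theorem o0_p (k : ℕ) : o0 kap (X (Sum.inl k)) = (k : K) • wA ^ k := by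
  unfold o0
  rw [mkDerivation_X]

theorem o0_y (c : ℕ) : o0 kap (X (Sum.inr c)) = Ow0 kap c := by
  unfold o0
  rw [mkDerivation_X]

theorem o1_p (k : ℕ) : o1 kap (X (Sum.inl k)) = 0 := by
  unfold o1
  rw [mkDerivation_X]

theorem o1_y (c : ℕ) : o1 kap (X (Sum.inr c)) = wA ^ c * mA := by
  unfold o1
  rw [mkDerivation_X]

theorem o_sum : oA kap = o0 kap + o1 kap := by
  apply MvPolynomial.derivation_ext
  rintro (k | c)
  · rw [Derivation.add_apply, oA_p, o0_p, o1_p, add_zero]
  · rw [Derivation.add_apply, oA_y, o0_y, o1_y]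
    simp only [Ow, Ow0, Finset.sum_range_succ, Nat.sub_self, pow_zero, mul_one]

theorem o_sum' (f : CM K) : oA kap f = o0 kap f + o1 kap f := by
  rw [o_sum, Derivation.add_apply]

/-! ### The sums -/

/-- `u^i v^j` over `i + j = c` -/
theorem Ow_eq (c : ℕ) : Ow kap c =
    ∑ q ∈ antidiagonal c, wA ^ q.1 * mA * wA ^ q.2 := by
  unfold Ow
  rw [Finset.Nat.sum_antidiagonal_eq_sum_range_succ (fun i j => wA ^ i * mA * wA ^ j)]

theorem Ow_zero : Ow kap 0 = mA := by
  rw [Ow_eq, Finset.Nat.antidiagonal_zero, Finset.sum_singleton, pow_zero, one_mul, mul_one]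

theorem Ow_succ (c : ℕ) : Ow kap (c + 1) = Ow kap c * wA + wA ^ (c + 1) * mA := by
  rw [Ow_eq, Ow_eq, Finset.Nat.sum_antidiagonal_succ', Finset.sum_mul, add_comm, pow_zero,
    mul_one]
  refine congrArg₂ (· + ·) (Finset.sum_congr rfl fun q _ => ?_) rfl
  rw [mul_assoc (wA ^ q.1 * mA), ← pow_succ]

theorem Ow_succ' (c : ℕ) : Ow kap (c + 1) = wA * Ow kap c + mA * wA ^ (c + 1) := by
  rw [Ow_eq, Ow_eq, Finset.Nat.sum_antidiagonal_succ, Finset.mul_sum, add_comm, pow_zero,
    one_mul]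
  refine congrArg₂ (· + ·) (Finset.sum_congr rfl fun q _ => ?_) rfl
  rw [pow_succ', mul_assoc, mul_assoc, mul_assoc]

theorem rv_Ow (c : ℕ) : rv (Ow kap c) = Ow kap c := by
  rw [Ow_eq, map_sum, ← Finset.Nat.sum_antidiagonal_swap]
  refine Finset.sum_congr rfl fun q _ => ?_
  rw [rv_wmw]
  rfl

theorem cA_Ow (c : ℕ) : cA (Ow kap c) = ((c : CM K) + 1) * X (Sum.inr c) := by
  rw [Ow_eq, map_sum]
  have h : ∀ q ∈ antidiagonal c, cA (wA ^ q.1 * mA * wA ^ q.2 : AM K kap) =
      X (Sum.inr c) := by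
    intro q hq
    rw [cA_wmw, Finset.HasAntidiagonal.mem_antidiagonal.mp hq]
  rw [Finset.sum_congr rfl h, Finset.sum_const, Finset.Nat.card_antidiagonal, nsmul_eq_mul]
  push_cast
  rfl

theorem rv_w_pow (k : ℕ) : rv (wA ^ k : AM K kap) = wA ^ k := by
  rw [w_pow, rv_inl]

theorem rv_oA (f : CM K) : rv (oA kap f) = oA kap f := by
  have h := der_zero (fun f => rv (oA kap f) - oA kap f) (fun f g => by
    simp only [map_add]
    abel) (fun c => by
    simp only [← algebraMap_eq, Derivation.map_algebraMap, map_zero, sub_zero])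
    (fun f g => by
      simp only [Derivation.leibniz, map_add, map_smul, smul_sub]
      abel) (by
      rintro (k | c)
      · simp only [oA_p, ksmul, map_smul, rv_w_pow, sub_self]
      · simp only [oA_y, rv_Ow, sub_self]) f
  exact sub_eq_zero.mp h

/-- `p_s` with `p_0 = 0` -/
def ph (K : Type) [Field K] (s : ℕ) : CM K := if s = 0 then 0 else X (Sum.inl s)

theorem cA_w_pow (s : ℕ) : cA (wA ^ s : AM K kap) = ph K s := by
  rw [w_pow, cA_inl, one_mul]
  rfl

theorem ph_zero : ph K 0 = 0 := if_pos rfl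

theorem o0_ph (s : ℕ) : o0 kap (ph K s) = (s : K) • wA ^ s := by
  unfold ph
  split_ifs with h
  · rw [h, map_zero, Nat.cast_zero, zero_smul]
  · exact o0_p s

theorem o1_ph (s : ℕ) : o1 kap (ph K s) = 0 := by
  unfold ph
  split_ifs with h
  · exact map_zero _
  · exact o1_p s

theorem rW_eq (b : K) (j : ℕ) : rW b kap j =
    ∑ q ∈ antidiagonal j, ph K q.1 • (wA ^ q.2 : AM K kap) + (b * j) • (wA ^ j : AM K kap) := by
  induction j with
  | zero =>
    rw [Finset.Nat.antidiagonal_zero, Finset.sum_singleton, ph_zero, zero_smul, Nat.cast_zero,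
      mul_zero, zero_smul, add_zero]
    rfl
  | succ j ih =>
    rw [rW, ih, Finset.Nat.sum_antidiagonal_succ', add_mul, Finset.sum_mul]
    have h1 : ∀ q ∈ antidiagonal j, (ph K q.1 • (wA ^ q.2 : AM K kap)) * wA =
        ph K q.1 • (wA ^ (q.2 + 1) : AM K kap) := by
      intro q _
      rw [smul_mul_assoc, ← pow_succ]
    rw [Finset.sum_congr rfl h1, smul_mul_assoc, ← pow_succ, pow_zero]
    have h2 : ph K (j + 1) = X (Sum.inl (j + 1)) := if_neg (Nat.succ_ne_zero j)
    rw [h2]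
    push_cast
    module

theorem rW_comm (b : K) (j : ℕ) : wA * rW b kap j = rW b kap j * wA := by
  rw [rW_eq, mul_add, add_mul, Finset.mul_sum, Finset.sum_mul]
  congr 1
  · refine Finset.sum_congr rfl fun q _ => ?_
    rw [AM_mul_smul, AM_smul_mul, ← pow_succ, ← pow_succ']
  · rw [mul_smul_comm, smul_mul_assoc, ← pow_succ, ← pow_succ']

theorem rv_rW (b : K) (j : ℕ) : rv (rW b kap j) = rW b kap j := by
  rw [rW_eq, map_add, map_sum, ksmul, map_smul, rv_w_pow]
  congr 1
  refine Finset.sum_congr rfl fun q _ => ?_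
  rw [map_smul, rv_w_pow]


/-! ### The touches of the end gap -/

theorem Rb_apply (al : K) (x : AM K kap) : Rb al kap x = rv (Rop al kap (rv x)) := rfl

theorem Rb_smul {al : K} (hR : RSt K al kap) (f : CM K) (x : AM K kap) :
    Rb al kap (f • x) = f • Rb al kap x + al • (x * oA kap f) := by
  rw [Rb_apply, Rb_apply, map_smul, hR.smul, map_add, map_smul, ksmul, map_smul, rv_mul, rv_rv,
    rv_oA, ← ksmul]

theorem R_w (al : K) (j : ℕ) : Rop al kap (wA ^ j) = rW (al - 1) kap j := by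
  rw [w_pow, Rop_inl, one_smul, Derivation.map_one_eq_zero, smul_zero, zero_mul, add_zero]

theorem Rb_w (al : K) (j : ℕ) : Rb al kap (wA ^ j) = rW (al - 1) kap j := by
  rw [Rb_apply, rv_w_pow, R_w, rv_rW]

theorem T0_w (al : K) (j : ℕ) : T0 al kap (wA ^ j) = rW (al - 1) kap j := by
  rw [w_pow, T0_inl, one_smul, Derivation.map_one_eq_zero, smul_zero, zero_mul, add_zero]

theorem T1_w (al : K) (j : ℕ) : T1 al kap (wA ^ j) = 0 := by
  rw [w_pow, T1_inl, Derivation.map_one_eq_zero, smul_zero, zero_mul]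

theorem T1_wmw (al : K) (j a : ℕ) : T1 al kap (wA ^ j * mA * wA ^ a) = sM (al - 1) kap j a := by
  rw [w_m_w, T1_inr, one_smul, Derivation.map_one_eq_zero, smul_zero, zero_mul, add_zero]

theorem cA_mw (a : ℕ) : cA (mA * wA ^ a : AM K kap) = X (Sum.inr a) := by
  have h := cA_wmw (K := K) (kap := kap) 0 a
  rwa [pow_zero, one_mul, zero_add] at h

theorem cA_wm (a : ℕ) : cA (wA ^ a * mA : AM K kap) = X (Sum.inr a) := by
  rw [cA_comm, cA_mw]

theorem rv_mw (a : ℕ) : rv (mA * wA ^ a : AM K kap) = wA ^ a * mA := by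
  rw [rv_mul, rv_w_pow, rv_m]

theorem rv_wm (a : ℕ) : rv (wA ^ a * mA : AM K kap) = mA * wA ^ a := by
  rw [rv_mul, rv_w_pow, rv_m]

/-- `∑ y_s w^t` -/
def Ys (kap : K) (c : ℕ) : AM K kap :=
  ∑ q ∈ antidiagonal c, (X (Sum.inr q.1) : CM K) • wA ^ q.2

theorem Ys_succ (c : ℕ) : Ys kap (c + 1) = Ys kap c * wA + (X (Sum.inr (c + 1)) : CM K) • 1 := by
  unfold Ys
  rw [Finset.Nat.sum_antidiagonal_succ', Finset.sum_mul, add_comm, pow_zero]
  refine congrArg₂ (· + ·) (Finset.sum_congr rfl fun q _ => ?_) rfl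
  rw [AM_smul_mul, ← pow_succ]

theorem rv_Ys (c : ℕ) : rv (Ys kap c) = Ys kap c := by
  unfold Ys
  rw [map_sum]
  refine Finset.sum_congr rfl fun q _ => ?_
  rw [map_smul, rv_w_pow]

theorem R_mw {al : K} (hR : RSt K al kap) (c : ℕ) :
    Rop al kap (mA * wA ^ c) = Ys kap c + (al - 1) • Ow kap c := by
  induction c with
  | zero =>
    have h := hR.m 1
    rw [one_mul, hR.one, zero_mul, zero_add] at h
    rw [pow_zero, mul_one, h, rv_m]
    have h1 := cA_mw (K := K) (kap := kap) 0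
    rw [pow_zero, mul_one] at h1
    rw [h1, Ow_zero, Ys, Finset.Nat.antidiagonal_zero, Finset.sum_singleton, pow_zero]
  | succ c ih =>
    rw [pow_succ, ← mul_assoc, hR.w, ih, mul_assoc, ← pow_succ, cA_mw, rv_mw, Ys_succ, Ow_succ,
      add_mul, smul_mul_assoc, smul_add]
    abel

theorem Rb_wm {al : K} (hR : RSt K al kap) (c : ℕ) :
    Rb al kap (wA ^ c * mA) = Ys kap c + (al - 1) • Ow kap c := by
  rw [Rb_apply, rv_wm, R_mw hR, map_add, rv_Ys, ksmul, map_smul, rv_Ow]

theorem T1_Ow (al : K) (c : ℕ) : T1 al kap (Ow kap c) = Ys kap c + (al - 1) • Ow kap c := by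
  rw [Ow_eq, map_sum, Ys, Finset.smul_sum, ← Finset.sum_add_distrib]
  refine Finset.sum_congr rfl fun q _ => ?_
  rw [T1_wmw]
  rfl

/-- `∑ p_s w^t` -/
def SW (kap : K) (c : ℕ) : AM K kap := ∑ q ∈ antidiagonal c, ph K q.1 • wA ^ q.2

/-- `∑ p_s Ow_t` -/
def SP (kap : K) (c : ℕ) : AM K kap := ∑ q ∈ antidiagonal c, ph K q.1 • Ow kap q.2

/-- `∑ (s + 1) y_s w^t` -/
def SY (kap : K) (c : ℕ) : AM K kap :=
  ∑ q ∈ antidiagonal c, (((q.1 : CM K) + 1) * X (Sum.inr q.1)) • wA ^ q.2

theorem SW_succ (c : ℕ) : SW kap (c + 1) = SW kap c * wA + ph K (c + 1) • 1 := by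
  unfold SW
  rw [Finset.Nat.sum_antidiagonal_succ', Finset.sum_mul, add_comm, pow_zero]
  refine congrArg₂ (· + ·) (Finset.sum_congr rfl fun q _ => ?_) rfl
  rw [AM_smul_mul, ← pow_succ]

theorem SP_succ (c : ℕ) : SP kap (c + 1) = SP kap c * wA + SW kap (c + 1) * mA := by
  rw [SP, SW, Finset.Nat.sum_antidiagonal_succ', Finset.Nat.sum_antidiagonal_succ', SP,
    Finset.sum_mul, add_mul, Finset.sum_mul, pow_zero, Ow_zero, AM_smul_mul, one_mul,
    add_left_comm, ← Finset.sum_add_distrib]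
  refine congrArg₂ (· + ·) rfl (Finset.sum_congr rfl fun q _ => ?_)
  rw [Ow_succ, AM_smul_mul, AM_smul_mul, smul_add]

theorem SY_succ (c : ℕ) : SY kap (c + 1) = SY kap c * wA +
    (((c : CM K) + 2) * X (Sum.inr (c + 1))) • 1 := by
  unfold SY
  rw [Finset.Nat.sum_antidiagonal_succ', Finset.sum_mul, add_comm, pow_zero]
  refine congrArg₂ (· + ·) (Finset.sum_congr rfl fun q _ => ?_) ?_
  · rw [AM_smul_mul, ← pow_succ]
  · congr 2
    push_cast
    ring

theorem rv_SP (c : ℕ) : rv (SP kap c) = SP kap c := by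
  unfold SP
  rw [map_sum]
  refine Finset.sum_congr rfl fun q _ => ?_
  rw [map_smul, rv_Ow]

theorem rv_SY (c : ℕ) : rv (SY kap c) = SY kap c := by
  unfold SY
  rw [map_sum]
  refine Finset.sum_congr rfl fun q _ => ?_
  rw [map_smul, rv_w_pow]

theorem rW_eq' (b : K) (j : ℕ) : rW b kap j =
    SW kap j + (C b * (j : CM K)) • (wA ^ j : AM K kap) := by
  rw [rW_eq, SW, ksmul]
  congr 2
  rw [C_mul, map_natCast]

theorem R_Ow_succ {al : K} (hR : RSt K al kap) (c : ℕ) : Rop al kap (Ow kap (c + 1)) =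
    Rop al kap (Ow kap c) * wA + rW (al - 1) kap (c + 1) * mA +
      cA (Ow kap (c + 1)) • (1 : AM K kap) + (al - 1) • Ow kap (c + 1) := by
  have h1 := congrArg (fun z => rv z) (Ow_succ (kap := kap) c)
  simp only [rv_Ow, map_add] at h1
  have h2 := congrArg (fun z => cA z) (Ow_succ (kap := kap) c)
  simp only [map_add] at h2
  rw [h2]
  nth_rewrite 2 [h1]
  rw [Ow_succ, map_add, hR.w, hR.m, R_w]
  module

/-- The touches of the front gap of the openings. -/
theorem R_Ow {al : K} (hR : RSt K al kap) (c : ℕ) : Rop al kap (Ow kap c) =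
    SP kap c + SY kap c + (C (al - 1) * ((c : CM K) + 1)) • Ow kap c := by
  induction c with
  | zero =>
    have h := R_mw hR 0
    rw [pow_zero, mul_one] at h
    rw [Ow_zero, h, Ow_zero, Ys, SP, SY, Finset.Nat.antidiagonal_zero, Finset.sum_singleton,
      Finset.sum_singleton, Finset.sum_singleton, ph_zero, ksmul]
    push_cast
    module
  | succ c ih =>
    rw [R_Ow_succ hR, ih, SP_succ, SY_succ, rW_eq', cA_Ow, ksmul, Ow_succ]
    simp only [add_mul, AM_smul_mul]
    push_cast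
    module


theorem map_K_smul {M N : Type} [AddCommGroup M] [AddCommGroup N] [Module K M] [Module K N]
    (F : M →ₗ[K] N) (c : K) (x : M) : F (c • x) = c • F x := F.map_smul c x

theorem oA_C (c : K) : oA kap (C c) = 0 := by
  rw [← algebraMap_eq, Derivation.map_algebraMap]

theorem o0_C (c : K) : o0 kap (C c) = 0 := by
  rw [← algebraMap_eq, Derivation.map_algebraMap]

theorem o1_C (c : K) : o1 kap (C c) = 0 := by
  rw [← algebraMap_eq, Derivation.map_algebraMap]

theorem Rb_oA {al : K} (hR : RSt K al kap) (hT : TSt K al kap) (f : CM K) :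
    Rb al kap (oA kap f) = T0 al kap (oA kap f) + T1 al kap (oA kap f) := by
  have h := der_zero (fun f => Rb al kap (oA kap f) -
      (T0 al kap (oA kap f) + T1 al kap (oA kap f))) (fun f g => by
    simp only [map_add]
    abel) (fun c => by
    simp only [oA_C, map_zero, sub_zero, add_zero])
    (fun f g => by
      simp only [Derivation.leibniz, map_add, Rb_smul hR, hT.smul0, hT.smul1]
      rw [o_sum' f, o_sum' g]
      simp only [mul_add, add_mul, smul_sub, smul_add]
      abel) (by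
      rintro (k | c)
      · simp only [oA_p, map_K_smul, Rb_w, T0_w, T1_w, smul_zero, add_zero, sub_self]
      · simp only [oA_y]
        have h1 : Rb al kap (Ow kap c) = Rop al kap (Ow kap c) := by
          rw [Rb_apply, rv_Ow, R_Ow hR, map_add, map_add, rv_SP, rv_SY, map_smul, rv_Ow]
        rw [h1, hT.sum, rv_Ow, sub_self, smul_zero, add_zero, sub_self]) f
  exact sub_eq_zero.mp h

theorem Rb_Ow {al : K} (hR : RSt K al kap) (c : ℕ) : Rb al kap (Ow kap c) =
    SP kap c + SY kap c + (C (al - 1) * ((c : CM K) + 1)) • Ow kap c := by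
  rw [Rb_apply, rv_Ow, R_Ow hR, map_add, map_add, rv_SP, rv_SY, map_smul, rv_Ow]

theorem Rb_o1 {al : K} (hR : RSt K al kap) (hT : TSt K al kap) (f : CM K) :
    Rb al kap (o1 kap f) = T1 al kap (oA kap f) := by
  have h := der_zero (fun f => Rb al kap (o1 kap f) - T1 al kap (oA kap f)) (fun f g => by
    simp only [map_add]
    abel) (fun c => by
    simp only [oA_C, o1_C, map_zero, sub_zero])
    (fun f g => by
      simp only [Derivation.leibniz, map_add, Rb_smul hR, hT.smul1, smul_sub]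
      abel) (by
      rintro (k | c)
      · simp only [oA_p, o1_p, map_K_smul, T1_w, smul_zero, map_zero, sub_self]
      · simp only [oA_y, o1_y]
        rw [Rb_wm hR, T1_Ow, sub_self]) f
  exact sub_eq_zero.mp h

theorem Rb_o0 {al : K} (hR : RSt K al kap) (hT : TSt K al kap) (f : CM K) :
    Rb al kap (o0 kap f) = T0 al kap (oA kap f) := by
  have h := Rb_oA hR hT f
  rw [o_sum' f, map_add, ← o_sum' f, Rb_o1 hR hT f] at h
  exact add_right_cancel h

/-! ### The derivations without the last letter -/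

/-- `Ow (c - 1)` -/
def OwP (kap : K) : ℕ → AM K kap
  | 0 => 0
  | c + 1 => Ow kap c

/-- `o0` without the last zero -/
def q0 (kap : K) : Derivation K (CM K) (AM K kap) :=
  mkDerivation K fun v => match v with
    | Sum.inl k => (k : K) • wA ^ (k - 1)
    | Sum.inr c => OwP kap c

/-- `o1` without the last mark -/
def q1 (kap : K) : Derivation K (CM K) (AM K kap) :=
  mkDerivation K fun v => match v with
    | Sum.inl _ => 0
    | Sum.inr c => wA ^ c

theorem q0_p (k : ℕ) : q0 kap (X (Sum.inl k)) = (k : K) • wA ^ (k - 1) := by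
  unfold q0
  rw [mkDerivation_X]

theorem q0_y (c : ℕ) : q0 kap (X (Sum.inr c)) = OwP kap c := by
  unfold q0
  rw [mkDerivation_X]

theorem q1_p (k : ℕ) : q1 kap (X (Sum.inl k)) = 0 := by
  unfold q1
  rw [mkDerivation_X]

theorem q1_y (c : ℕ) : q1 kap (X (Sum.inr c)) = wA ^ c := by
  unfold q1
  rw [mkDerivation_X]

theorem q0_C (c : K) : q0 kap (C c) = 0 := by
  rw [← algebraMap_eq, Derivation.map_algebraMap]

theorem q1_C (c : K) : q1 kap (C c) = 0 := by
  rw [← algebraMap_eq, Derivation.map_algebraMap]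

theorem OwP_succ (c : ℕ) : OwP kap (c + 1) = OwP kap c * wA + wA ^ c * mA := by
  rcases c with _ | c
  · rw [OwP, OwP, Ow_zero, zero_mul, zero_add, pow_zero, one_mul]
  · rw [OwP, OwP, Ow_succ]

theorem Ow0_eq (c : ℕ) : Ow0 kap c = OwP kap c * wA := by
  have h : Ow kap c = Ow0 kap c + wA ^ c * mA := by
    simp only [Ow, Ow0, Finset.sum_range_succ, Nat.sub_self, pow_zero, mul_one]
  have h2 : Ow kap c = OwP kap (c + 1) := rfl
  rw [h2, OwP_succ] at h
  exact (add_right_cancel h).symm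

theorem o0_eq (f : CM K) : o0 kap f = q0 kap f * wA := by
  have h := der_zero (fun f => o0 kap f - q0 kap f * wA) (fun f g => by
    simp only [map_add, add_mul]
    abel) (fun c => by
    simp only [o0_C, q0_C, zero_mul, sub_zero])
    (fun f g => by
      simp only [Derivation.leibniz, add_mul, AM_smul_mul, smul_sub]
      abel) (by
      rintro (k | c)
      · simp only [o0_p, q0_p, smul_mul_assoc, ← pow_succ]
        rcases k with _ | k
        · simp
        · rw [Nat.add_sub_cancel, sub_self]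
      · simp only [o0_y, q0_y, Ow0_eq, sub_self]) f
  exact sub_eq_zero.mp h

theorem o1_eq (f : CM K) : o1 kap f = q1 kap f * mA := by
  have h := der_zero (fun f => o1 kap f - q1 kap f * mA) (fun f g => by
    simp only [map_add, add_mul]
    abel) (fun c => by
    simp only [o1_C, q1_C, zero_mul, sub_zero])
    (fun f g => by
      simp only [Derivation.leibniz, add_mul, AM_smul_mul, smul_sub]
      abel) (by
      rintro (k | c)
      · simp only [o1_p, q1_p, zero_mul, sub_zero]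
      · simp only [o1_y, q1_y, sub_self]) f
  exact sub_eq_zero.mp h


/-! ### The defect of `Full` -/

/-- The defect of `Full`. -/
def Nf (al kap : K) (f : CM K) (x : AM K kap) : AM K kap :=
  Full al kap (f • x) - f • Full al kap x - Dc al kap f • x

theorem Nf_addr (al : K) (f : CM K) (x y : AM K kap) :
    Nf al kap f (x + y) = Nf al kap f x + Nf al kap f y := by
  simp only [Nf, smul_add, map_add]
  abel

theorem Nf_addl (al : K) (f g : CM K) (x : AM K kap) :
    Nf al kap (f + g) x = Nf al kap f x + Nf al kap g x := by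
  simp only [Nf, add_smul, map_add]
  abel

theorem Nf_zero (al : K) (f : CM K) : Nf al kap f 0 = 0 := by
  simp only [Nf, smul_zero, map_zero, sub_zero]

theorem Nf_ksmul (al : K) (f : CM K) (c : K) (x : AM K kap) :
    Nf al kap f (c • x) = c • Nf al kap f x := by
  unfold Nf
  rw [smul_comm f c x, map_K_smul, map_K_smul, smul_comm f c, smul_comm _ c x, smul_sub, smul_sub]

theorem Dc_C {al : K} (hF : FullSt K al kap) (c : K) : Dc al kap (C c) = 0 := by
  have h : (C c : CM K) = c • 1 := by rw [smul_eq_C_mul, mul_one]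
  rw [h, map_K_smul, hF.Dc_one, smul_zero]

theorem Nf_C {al : K} (hF : FullSt K al kap) (c : K) (x : AM K kap) :
    Nf al kap (C c) x = 0 := by
  rw [Nf, Dc_C hF, ← ksmul, ← ksmul, map_K_smul, zero_smul, sub_zero, sub_self]

theorem Full_one {al : K} (hF : FullSt K al kap) : Full al kap (1 : AM K kap) = 0 := by
  have h := hF.one 1
  rwa [one_smul, hF.Dc_one, zero_smul, zero_add, Derivation.map_one_eq_zero, smul_zero] at h

theorem Nf_one {al : K} (hF : FullSt K al kap) (f : CM K) :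
    Nf al kap f 1 = al • oA kap f := by
  rw [Nf, hF.one, Full_one hF, smul_zero, sub_zero, add_sub_cancel_left]

theorem Nf_w {al : K} (hR : RSt K al kap) (hF : FullSt K al kap) (f : CM K) (x : AM K kap) :
    Nf al kap f (x * wA) = Nf al kap f x * wA + al • (x * wA * oA kap f) := by
  simp only [Nf]
  rw [← AM_smul_mul, hF.w, hF.w, AM_smul_mul f x wA, Rb_smul hR, sub_mul, sub_mul, smul_add,
    AM_smul_mul, AM_smul_mul]
  abel

theorem Nf_m {al : K} (hR : RSt K al kap) (hF : FullSt K al kap) (f : CM K) (x : AM K kap) :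
    Nf al kap f (x * mA) = Nf al kap f x * mA + al • (x * mA * oA kap f) := by
  simp only [Nf]
  rw [← AM_smul_mul, hF.m, hF.m, AM_smul_mul f x mA, Rb_smul hR, sub_mul, sub_mul, smul_add,
    AM_smul_mul, AM_smul_mul]
  abel

theorem Nf_base {al : K} (hF : FullSt K al kap) (f h : CM K) :
    Nf al kap f (h • (1 : AM K kap)) =
      (C al * cA (oA kap f * oA kap h)) • (1 : AM K kap) + (C al * h) • oA kap f := by
  rw [Nf, smul_smul, hF.one, hF.one, hF.Dc_mul, Derivation.leibniz, ksmul, ksmul, smul_eq_C_mul]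
  module

theorem Nf_mul {al : K} (hR : RSt K al kap) (hF : FullSt K al kap) (f g : CM K)
    (x : AM K kap) : Nf al kap (f * g) x = f • Nf al kap g x + g • Nf al kap f x := by
  refine word_induction (P := fun x => Nf al kap (f * g) x =
    f • Nf al kap g x + g • Nf al kap f x) x ?_ ?_ ?_ ?_
  · intro x y hx hy
    rw [Nf_addr, Nf_addr, Nf_addr, hx, hy, smul_add, smul_add]
    abel
  · intro h
    rw [Nf_base hF, Nf_base hF, Nf_base hF, Derivation.leibniz, add_mul, AM_smul_mul,
      AM_smul_mul, map_add, map_smul, map_smul, smul_eq_mul, smul_eq_mul]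
    module
  · intro x hx
    rw [Nf_w hR hF, Nf_w hR hF, Nf_w hR hF, hx, Derivation.leibniz, ksmul, ksmul, ksmul]
    simp only [add_mul, mul_add, AM_smul_mul, AM_mul_smul]
    module
  · intro x hx
    rw [Nf_m hR hF, Nf_m hR hF, Nf_m hR hF, hx, Derivation.leibniz, ksmul, ksmul, ksmul]
    simp only [add_mul, mul_add, AM_smul_mul, AM_mul_smul]
    module

theorem Nf_smul {al : K} (hR : RSt K al kap) (hF : FullSt K al kap) (f g : CM K)
    (x : AM K kap) : Nf al kap f (g • x) =
      g • Nf al kap f x + (C al * cA (oA kap f * oA kap g)) • x := by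
  have h := Nf_mul hR hF f g x
  have h2 : Nf al kap f (g • x) = Nf al kap (f * g) x - f • Nf al kap g x
      + (C al * cA (oA kap f * oA kap g)) • x := by
    simp only [Nf]
    rw [smul_smul, hF.Dc_mul, smul_eq_C_mul]
    module
  rw [h2, h]
  abel

/-- The defect of the openings. -/
def Gam (al kap : K) (o q : Derivation K (CM K) (AM K kap)) (l : AM K kap) (f g : CM K) :
    AM K kap :=
  (Nf al kap f (q g) + Nf al kap g (q f)) * l - (C al : CM K) • o (cA (oA kap f * oA kap g))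

theorem Gam_comm (al : K) (o q : Derivation K (CM K) (AM K kap)) (l : AM K kap) (f g : CM K) :
    Gam al kap o q l f g = Gam al kap o q l g f := by
  unfold Gam
  rw [cA_comm, add_comm]

theorem Gam_mul {al : K} (hR : RSt K al kap) (hF : FullSt K al kap)
    (o q : Derivation K (CM K) (AM K kap)) (l : AM K kap) (hq : ∀ f, o f = q f * l)
    (f g h : CM K) : Gam al kap o q l f (g * h) =
      g • Gam al kap o q l f h + h • Gam al kap o q l f g := by
  unfold Gam
  rw [Derivation.leibniz, Derivation.leibniz, mul_add, map_add, AM_mul_smul, AM_mul_smul,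
    map_smul, map_smul, smul_eq_mul, smul_eq_mul, map_add, Derivation.leibniz,
    Derivation.leibniz, Nf_addr, Nf_smul hR hF, Nf_smul hR hF, Nf_mul hR hF, hq h, hq g]
  simp only [add_mul, AM_smul_mul]
  module

theorem Gam_zero {al : K} (hR : RSt K al kap) (hF : FullSt K al kap)
    (o q : Derivation K (CM K) (AM K kap)) (l : AM K kap) (hq : ∀ f, o f = q f * l)
    (hX : ∀ u v, Gam al kap o q l (X u) (X v) = 0) (f g : CM K) :
    Gam al kap o q l f g = 0 := by
  have hC : ∀ (f : CM K) (c : K), Gam al kap o q l f (C c) = 0 := by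
    intro f c
    have hqC : q (C c) = 0 := by rw [← algebraMap_eq, Derivation.map_algebraMap]
    rw [Gam, Nf_C hF, hqC, Nf_zero, oA_C, mul_zero, map_zero, map_zero, smul_zero, add_zero,
      zero_mul, sub_zero]
  have hadd : ∀ f g h : CM K, Gam al kap o q l f (g + h) =
      Gam al kap o q l f g + Gam al kap o q l f h := by
    intro f g h
    unfold Gam
    rw [map_add, map_add, Nf_addr, Nf_addl, mul_add, map_add, map_add, smul_add, add_mul,
      add_mul, add_mul, add_mul, add_mul]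
    abel
  refine der_zero (fun g => Gam al kap o q l f g) (hadd f) (hC f)
    (Gam_mul hR hF o q l hq f) (fun v => ?_) g
  simp only [Gam_comm al o q l f]
  exact der_zero (fun f => Gam al kap o q l (X v) f) (hadd _) (hC _)
    (Gam_mul hR hF o q l hq _) (fun u => hX v u) f

theorem Full_q {al : K} (hF : FullSt K al kap)
    (o q : Derivation K (CM K) (AM K kap)) (l : AM K kap) (hq : ∀ f, o f = q f * l)
    (hG : ∀ f g, Gam al kap o q l f g = 0)
    (hX : ∀ v, Full al kap (q (X v)) * l = o (Dc al kap (X v))) (f : CM K) :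
    Full al kap (q f) * l = o (Dc al kap f) := by
  have h := der_zero (fun f => Full al kap (q f) * l - o (Dc al kap f)) (fun f g => by
    simp only [map_add, add_mul]
    abel) (fun c => by
    have hqC : q (C c) = 0 := by rw [← algebraMap_eq, Derivation.map_algebraMap]
    simp only [hqC, Dc_C hF, map_zero, zero_mul, sub_zero])
    (fun f g => by
      have h1 : ∀ (f : CM K) (x : AM K kap), Full al kap (f • x) =
          Nf al kap f x + f • Full al kap x + Dc al kap f • x := by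
        intro f x
        rw [Nf]
        abel
      have h2 := hG f g
      rw [Gam, sub_eq_zero] at h2
      simp only [Derivation.leibniz, hF.Dc_mul, map_add, h1]
      rw [smul_eq_C_mul, Derivation.leibniz, ← algebraMap_eq, Derivation.map_algebraMap,
        algebraMap_eq, ← h2, hq f, hq g]
      simp only [add_mul, AM_smul_mul]
      module) (fun v => by
      simp only [hX, sub_self]) f
  exact sub_eq_zero.mp h


/-! ### Polynomials in three variables -/

/-- Polynomials in `u, v, z`. -/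
abbrev P3 (K : Type) [Field K] := MvPolynomial (Fin 3) K

/-- `u^i v^j z^s ↦ y_s w^i m w^j` -/
def Psi (kap : K) (y : ℕ → CM K) : P3 K →ₗ[K] AM K kap :=
  (MvPolynomial.basisMonomials (Fin 3) K).constr K fun s =>
    y (s 2) • (wA ^ s 0 * mA * wA ^ s 1)

theorem Psi_mono (y : ℕ → CM K) (s : Fin 3 →₀ ℕ) (c : K) : Psi kap y (monomial s c) =
    c • (y (s 2) • (wA ^ s 0 * mA * wA ^ s 1 : AM K kap)) := by
  have h : (monomial s c : P3 K) = c • (MvPolynomial.basisMonomials (Fin 3) K s) := by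
    rw [MvPolynomial.coe_basisMonomials, smul_monomial, smul_eq_mul, mul_one]
  rw [h, map_smul, Psi, Module.Basis.constr_basis]

theorem Psi_u (y : ℕ → CM K) (P : P3 K) : Psi kap y (X 0 * P) = wA * Psi kap y P := by
  induction P using MvPolynomial.induction_on' with
  | monomial s c =>
    have e0 : (Finsupp.single (0 : Fin 3) 1 + s : Fin 3 →₀ ℕ) 0 = s 0 + 1 := by
      rw [Finsupp.add_apply, Finsupp.single_eq_same, add_comm]
    have e1 : (Finsupp.single (0 : Fin 3) 1 + s : Fin 3 →₀ ℕ) 1 = s 1 := by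
      rw [Finsupp.add_apply, Finsupp.single_eq_of_ne (by decide), zero_add]
    have e2 : (Finsupp.single (0 : Fin 3) 1 + s : Fin 3 →₀ ℕ) 2 = s 2 := by
      rw [Finsupp.add_apply, Finsupp.single_eq_of_ne (by decide), zero_add]
    rw [X, monomial_mul, one_mul, Psi_mono, Psi_mono, mul_smul_comm, AM_mul_smul, e0, e1, e2,
      pow_succ', mul_assoc, mul_assoc, mul_assoc]
  | add P Q hP hQ => rw [mul_add, map_add, map_add, hP, hQ, mul_add]

theorem Psi_v (y : ℕ → CM K) (P : P3 K) : Psi kap y (X 1 * P) = Psi kap y P * wA := by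
  induction P using MvPolynomial.induction_on' with
  | monomial s c =>
    have e0 : (Finsupp.single (1 : Fin 3) 1 + s : Fin 3 →₀ ℕ) 0 = s 0 := by
      rw [Finsupp.add_apply, Finsupp.single_eq_of_ne (by decide), zero_add]
    have e1 : (Finsupp.single (1 : Fin 3) 1 + s : Fin 3 →₀ ℕ) 1 = s 1 + 1 := by
      rw [Finsupp.add_apply, Finsupp.single_eq_same, add_comm]
    have e2 : (Finsupp.single (1 : Fin 3) 1 + s : Fin 3 →₀ ℕ) 2 = s 2 := by
      rw [Finsupp.add_apply, Finsupp.single_eq_of_ne (by decide), zero_add]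
    rw [X, monomial_mul, one_mul, Psi_mono, Psi_mono, smul_mul_assoc, AM_smul_mul, e0, e1, e2,
      pow_succ, mul_assoc, mul_assoc, mul_assoc]
  | add P Q hP hQ => rw [mul_add, map_add, map_add, hP, hQ, add_mul]

theorem Psi_upow (y : ℕ → CM K) (i : ℕ) (P : P3 K) :
    Psi kap y (X 0 ^ i * P) = wA ^ i * Psi kap y P := by
  induction i with
  | zero => rw [pow_zero, pow_zero, one_mul, one_mul]
  | succ i ih => rw [pow_succ', mul_assoc, Psi_u, ih, ← mul_assoc, ← pow_succ']

theorem Psi_vpow (y : ℕ → CM K) (i : ℕ) (P : P3 K) :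
    Psi kap y (X 1 ^ i * P) = Psi kap y P * wA ^ i := by
  induction i with
  | zero => rw [pow_zero, pow_zero, one_mul, mul_one]
  | succ i ih => rw [pow_succ', mul_assoc, Psi_v, ih, mul_assoc, ← pow_succ]

theorem Psi_C (y : ℕ → CM K) (c : K) (P : P3 K) :
    Psi kap y (C c * P) = c • Psi kap y P := by
  rw [← smul_eq_C_mul, map_K_smul]

theorem Psi_z (y : ℕ → CM K) (s : ℕ) : Psi kap y (X 2 ^ s) = y s • (mA : AM K kap) := by
  rw [X_pow_eq_monomial, Psi_mono]
  simp

theorem Psi_mon (y : ℕ → CM K) (i j s : ℕ) : Psi kap y (X 0 ^ i * (X 1 ^ j * X 2 ^ s)) =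
    y s • (wA ^ i * mA * wA ^ j : AM K kap) := by
  rw [Psi_upow, Psi_vpow, Psi_z, AM_smul_mul, AM_mul_smul, mul_assoc]

/-- `∑ a^i b^j` over `i + j = c` -/
def hh (c : ℕ) (a b : P3 K) : P3 K := ∑ q ∈ antidiagonal c, a ^ q.1 * b ^ q.2

theorem hh_zero (a b : P3 K) : hh 0 a b = 1 := by
  rw [hh, Finset.Nat.antidiagonal_zero, Finset.sum_singleton, pow_zero, pow_zero, mul_one]

theorem hh_succ (c : ℕ) (a b : P3 K) : hh (c + 1) a b = hh c a b * b + a ^ (c + 1) := by
  rw [hh, hh, Finset.Nat.sum_antidiagonal_succ', Finset.sum_mul, add_comm, pow_zero, mul_one]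
  refine congrArg₂ (· + ·) (Finset.sum_congr rfl fun q _ => ?_) rfl
  ring

theorem hh_comm (c : ℕ) (a b : P3 K) : hh c a b = hh c b a := by
  rw [hh, hh, ← Finset.Nat.sum_antidiagonal_swap]
  refine Finset.sum_congr rfl fun q _ => ?_
  rw [mul_comm]
  rfl

theorem hh_mul (c : ℕ) (a b : P3 K) : (a - b) * hh c a b = a ^ (c + 1) - b ^ (c + 1) := by
  induction c with
  | zero => rw [hh_zero]; ring
  | succ c ih =>
    rw [hh_succ]
    linear_combination b * ih

theorem Psi_hh (y : ℕ → CM K) (i : ℕ) (P : P3 K) : Psi kap y (hh i (X 0) (X 1) * P) =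
    ∑ q ∈ antidiagonal i, wA ^ q.1 * Psi kap y P * wA ^ q.2 := by
  rw [hh, Finset.sum_mul, map_sum]
  refine Finset.sum_congr rfl fun q _ => ?_
  rw [mul_assoc, Psi_upow, Psi_vpow, mul_assoc]

theorem Psi_Ow (y : ℕ → CM K) (c s : ℕ) : Psi kap y (hh c (X 0) (X 1) * X 2 ^ s) =
    y s • Ow kap c := by
  rw [Psi_hh, Ow_eq, Finset.smul_sum]
  refine Finset.sum_congr rfl fun q _ => ?_
  rw [Psi_z, AM_mul_smul, AM_smul_mul]

/-- The polynomials without `z`. -/
def Phi (kap : K) : P3 K →ₗ[K] AM K kap := Psi kap fun _ => 1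

theorem Phi_Ow (c : ℕ) : Phi kap (hh c (X 0) (X 1)) = Ow kap c := by
  have h := Psi_Ow (kap := kap) (fun _ => 1) c 0
  rwa [pow_zero, mul_one, one_smul] at h

theorem Phi_one : Phi kap 1 = mA := by
  have h := Psi_z (kap := kap) (fun _ => 1) 0
  rwa [pow_zero, one_smul] at h

theorem uv_ne : (X 0 - X 1 : P3 K) ≠ 0 := by
  rw [sub_ne_zero]
  intro h
  have := MvPolynomial.X_injective (R := K) h
  exact absurd this (by decide)

/-! ### The generators -/

theorem Nf_p_w {al : K} (hR : RSt K al kap) (hF : FullSt K al kap) (k i : ℕ) :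
    Nf al kap (X (Sum.inl k)) (wA ^ i) = (al * k * (i + 1)) • wA ^ (i + k) := by
  induction i with
  | zero => rw [pow_zero, Nf_one hF, oA_p, Nat.cast_zero, zero_add, mul_one, mul_smul, zero_add]
  | succ i ih =>
    rw [pow_succ, Nf_w hR hF, ih, oA_p, smul_mul_assoc, mul_smul_comm, ← pow_succ, ← pow_succ,
      ← pow_add]
    have e1 : i + k + 1 = i + 1 + k := by omega
    rw [e1]
    push_cast
    module

/-- The polynomials of the values on `p_k` and the openings. -/
def Ek (K : Type) [Field K] (k : ℕ) : ℕ → P3 K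
  | 0 => X 0 ^ k + X 1 ^ k
  | j + 1 => X 1 * Ek K k j + X 1 ^ k * hh (j + 1) (X 0) (X 1) +
      C ((j : K) + 2) * X 0 ^ (j + 1 + k)

theorem Phi_u_pow (i : ℕ) : Phi kap (X 0 ^ i) = wA ^ i * mA := by
  have h := Psi_upow (kap := kap) (fun _ => 1) i 1
  rw [mul_one] at h
  exact h.trans (congrArg _ Phi_one)

theorem Phi_v_pow (i : ℕ) : Phi kap (X 1 ^ i) = mA * wA ^ i := by
  have h := Psi_vpow (kap := kap) (fun _ => 1) i 1
  rw [mul_one] at h
  exact h.trans (congrArg (fun z => z * wA ^ i) Phi_one)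

theorem Nf_p_Ow {al : K} (hR : RSt K al kap) (hF : FullSt K al kap) (k j : ℕ) :
    Nf al kap (X (Sum.inl k)) (Ow kap j) = (al * k) • Phi kap (Ek K k j) := by
  induction j with
  | zero =>
    have h := Nf_m hR hF (X (Sum.inl k)) (1 : AM K kap)
    rw [one_mul, Nf_one hF, oA_p] at h
    rw [Ow_zero, h, Ek, map_add, Phi_u_pow, Phi_v_pow]
    simp only [smul_mul_assoc, mul_smul_comm]
    module
  | succ j ih =>
    have h1 : Phi kap (X 1 * Ek K k j) = Phi kap (Ek K k j) * wA := Psi_v _ _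
    have h2 : Phi kap (X 1 ^ k * hh (j + 1) (X 0) (X 1)) = Ow kap (j + 1) * wA ^ k := by
      have h := Psi_vpow (kap := kap) (fun _ => 1) k (hh (j + 1) (X 0) (X 1))
      exact h.trans (congrArg (fun z => z * wA ^ k) (Phi_Ow _))
    have h3 : Phi kap (C ((j : K) + 2) * X 0 ^ (j + 1 + k)) =
        ((j : K) + 2) • (wA ^ (j + 1 + k) * mA) := by
      have h := Psi_C (kap := kap) (fun _ => 1) ((j : K) + 2) (X 0 ^ (j + 1 + k))
      exact h.trans (congrArg _ (Phi_u_pow _))
    rw [Ek, map_add, map_add, h1, h2, h3]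
    rw [Ow_succ, Nf_addr, Nf_w hR hF, Nf_m hR hF, ih, Nf_p_w hR hF, oA_p]
    simp only [smul_mul_assoc, mul_smul_comm, add_mul]
    push_cast
    module

theorem Ek_eq (k j : ℕ) : (X 0 - X 1) * Ek K k j =
    C ((j : K) + 2) * (X 0 ^ (k + j + 1) - X 1 ^ (k + j + 1)) -
      (X 0 ^ k - X 1 ^ k) * hh (j + 1) (X 0) (X 1) := by
  induction j with
  | zero =>
    rw [Ek, hh_succ, hh_zero]
    simp only [map_add, map_natCast, map_ofNat]
    push_cast
    ring
  | succ j ih =>
    have h1 := hh_mul (K := K) (j + 1) (X 0) (X 1)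
    rw [Ek, hh_succ (j + 1)]
    simp only [map_add, map_natCast, map_ofNat] at ih ⊢
    push_cast
    linear_combination X 1 * ih + X 1 ^ k * h1

theorem Ek_eq' (k j : ℕ) : Ek K (k + 1) j + hh k (X 0) (X 1) * hh (j + 1) (X 0) (X 1) =
    C ((j : K) + 2) * hh (k + 1 + j) (X 0) (X 1) := by
  apply mul_left_cancel₀ (uv_ne (K := K))
  have h1 := Ek_eq (K := K) (k + 1) j
  have h2 := hh_mul (K := K) k (X 0) (X 1)
  have h3 := hh_mul (K := K) (k + 1 + j) (X 0) (X 1)
  linear_combination h1 + hh (j + 1) (X 0) (X 1) * h2 - C ((j : K) + 2) * h3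

theorem Nf_y_w {al : K} (hR : RSt K al kap) (hF : FullSt K al kap) (c i : ℕ) :
    Nf al kap (X (Sum.inr c)) (wA ^ i) =
      al • ∑ q ∈ antidiagonal i, wA ^ q.1 * Ow kap c * wA ^ q.2 := by
  induction i with
  | zero =>
    rw [pow_zero, Nf_one hF, oA_y, Finset.Nat.antidiagonal_zero, Finset.sum_singleton, pow_zero,
      one_mul, mul_one]
  | succ i ih =>
    rw [pow_succ, Nf_w hR hF, ih, oA_y, smul_mul_assoc, ← smul_add, ← pow_succ,
      Finset.Nat.sum_antidiagonal_succ', Finset.sum_mul, add_comm, pow_zero, mul_one]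
    refine congrArg _ (congrArg₂ (· + ·) rfl (Finset.sum_congr rfl fun q _ => ?_))
    rw [mul_assoc (wA ^ q.1 * Ow kap c), ← pow_succ]

theorem Nf_y_w' {al : K} (hR : RSt K al kap) (hF : FullSt K al kap) (c i : ℕ) :
    Nf al kap (X (Sum.inr c)) (wA ^ i) =
      al • Phi kap (hh i (X 0) (X 1) * hh c (X 0) (X 1)) := by
  have h := Psi_hh (kap := kap) (fun _ => 1) i (hh c (X 0) (X 1))
  have h2 : Phi kap (hh i (X 0) (X 1) * hh c (X 0) (X 1)) =
      ∑ q ∈ antidiagonal i, wA ^ q.1 * Phi kap (hh c (X 0) (X 1)) * wA ^ q.2 := h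
  rw [h2, Nf_y_w hR hF, Phi_Ow]

/-- `p_k` and `y_c`, opening after a zero -/
theorem gen_py (al : K) (hR : RSt K al kap) (hF : FullSt K al kap) (k c : ℕ) :
    Nf al kap (X (Sum.inl k)) (OwP kap c) +
      Nf al kap (X (Sum.inr c)) ((k : K) • wA ^ (k - 1)) =
      (al * k * (c + 1)) • OwP kap (k + c) := by
  rw [Nf_ksmul]
  rcases k with _ | k
  · rcases c with _ | c
    · rw [OwP, Nf_zero, Nat.cast_zero, zero_smul, mul_zero, zero_mul, zero_smul, add_zero]
    · rw [OwP, Nf_p_Ow hR hF, Nat.cast_zero, zero_smul, mul_zero, zero_mul, zero_smul,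
        zero_smul, add_zero]
  · rw [Nat.add_sub_cancel, Nf_y_w' hR hF]
    rcases c with _ | c
    · rw [OwP, Nf_zero, hh_zero, mul_one, Phi_Ow, add_zero, OwP, smul_smul, zero_add]
      push_cast
      congr 1
      ring
    · have e : k + 1 + (c + 1) = (k + 1 + c) + 1 := by omega
      rw [e, OwP, OwP, Nf_p_Ow hR hF]
      have h1 := congrArg (Phi kap) (Ek_eq' (K := K) k c)
      have h2 : Phi kap (C ((c : K) + 2) * hh (k + 1 + c) (X 0) (X 1)) =
          ((c : K) + 2) • Ow kap (k + 1 + c) := by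
        have h := Psi_C (kap := kap) (fun _ => 1) ((c : K) + 2) (hh (k + 1 + c) (X 0) (X 1))
        exact h.trans (congrArg _ (Phi_Ow _))
      rw [map_add, h2] at h1
      rw [smul_smul, mul_comm _ al, ← smul_add, h1, smul_smul]
      congr 1
      push_cast
      ring


theorem mul_wm (a b e f : ℕ) : (wA ^ a * mA * wA ^ b * (wA ^ e * mA * wA ^ f) : AM K kap) =
    (C kap * X (Sum.inr (b + e)) : CM K) • (wA ^ a * mA * wA ^ f) := by
  rw [w_m_w, w_m_w, sg_mul_sg, bp, one_mul, one_smul, w_m_w, smul_sg, mul_one]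

/-- The marks. -/
def yy (K : Type) [Field K] (s : ℕ) : CM K := X (Sum.inr s)

theorem Nf_y_w_m {al : K} (hR : RSt K al kap) (hF : FullSt K al kap) (c d : ℕ) :
    Nf al kap (X (Sum.inr c)) (wA ^ d) * mA =
      (al * kap) • Psi kap (yy K) (hh c (X 0) (X 2) * hh d (X 0) (X 2)) := by
  rw [Nf_y_w hR hF, smul_mul_assoc, mul_smul]
  refine congrArg _ ?_
  rw [mul_comm (hh c _ _), hh, hh, Finset.sum_mul, Finset.sum_mul, map_sum, Finset.smul_sum]
  refine Finset.sum_congr rfl fun q _ => ?_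
  rw [Finset.mul_sum, map_sum, Finset.smul_sum, Ow_eq, Finset.mul_sum, Finset.sum_mul,
    Finset.sum_mul]
  refine Finset.sum_congr rfl fun r _ => ?_
  have e : (X 0 ^ q.1 * X 2 ^ q.2 * (X 0 ^ r.1 * X 2 ^ r.2) : P3 K) =
      X 0 ^ (q.1 + r.1) * (X 1 ^ 0 * X 2 ^ (r.2 + q.2)) := by ring
  have h := mul_wm (K := K) (kap := kap) (q.1 + r.1) r.2 q.2 0
  rw [pow_zero, mul_one, pow_add] at h
  rw [e, Psi_mon, ksmul, smul_smul, pow_zero, mul_one]
  rw [mul_one] at h
  refine Eq.trans ?_ (h.trans ?_)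
  · simp only [mul_assoc]
  · rw [pow_add]
    rfl

theorem Ow_Ow (c d : ℕ) : Ow kap d * Ow kap c =
    kap • Psi kap (yy K) (hh d (X 0) (X 2) * hh c (X 1) (X 2)) := by
  rw [hh_comm c, hh, hh, Finset.sum_mul, map_sum, Finset.smul_sum, Ow_eq, Ow_eq, Finset.sum_mul]
  refine Finset.sum_congr rfl fun q _ => ?_
  rw [Finset.mul_sum, Finset.mul_sum, map_sum, Finset.smul_sum]
  refine Finset.sum_congr rfl fun r _ => ?_
  have e : (X 0 ^ q.1 * X 2 ^ q.2 * (X 2 ^ r.1 * X 1 ^ r.2) : P3 K) =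
      X 0 ^ q.1 * (X 1 ^ r.2 * X 2 ^ (q.2 + r.1)) := by ring
  rw [e, Psi_mon, mul_wm, ksmul, smul_smul]
  rfl

/-- The polynomials of the values on `y_c` and the openings. -/
def Qk (K : Type) [Field K] (c : ℕ) : ℕ → P3 K
  | 0 => 0
  | d + 1 => X 1 * Qk K c d + hh d (X 0) (X 2) * hh c (X 1) (X 2) +
      hh c (X 0) (X 2) * hh d (X 0) (X 2)

theorem Nf_y_OwP {al : K} (hR : RSt K al kap) (hF : FullSt K al kap) (c d : ℕ) :
    Nf al kap (X (Sum.inr c)) (OwP kap d) = (al * kap) • Psi kap (yy K) (Qk K c d) := by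
  induction d with
  | zero => rw [OwP, Nf_zero, Qk, map_zero, smul_zero]
  | succ d ih =>
    have h1 : Nf al kap (X (Sum.inr c)) (OwP kap (d + 1)) =
        Nf al kap (X (Sum.inr c)) (OwP kap d) * wA + Nf al kap (X (Sum.inr c)) (wA ^ d) * mA +
          al • (OwP kap (d + 1) * Ow kap c) := by
      rw [OwP_succ, Nf_addr, Nf_w hR hF, Nf_m hR hF, oA_y, add_mul, smul_add]
      abel
    rw [h1, ih, Nf_y_w_m hR hF, OwP, Ow_Ow, Qk, map_add, map_add, Psi_v, smul_mul_assoc]
    module

theorem Qk_eq (c d : ℕ) : (X 0 - X 1) * Qk K c d =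
    (hh c (X 0) (X 2) + hh c (X 1) (X 2)) * (hh d (X 0) (X 2) - hh d (X 1) (X 2)) := by
  induction d with
  | zero =>
    rw [Qk, hh_zero, hh_zero]
    ring
  | succ d ih =>
    have h1 : hh (d + 1) (X 0) (X 2) = X 0 * hh d (X 0) (X 2) + (X 2 : P3 K) ^ (d + 1) := by
      rw [hh_comm, hh_succ, hh_comm d]
      ring
    have h2 : hh (d + 1) (X 1) (X 2) = X 1 * hh d (X 1) (X 2) + (X 2 : P3 K) ^ (d + 1) := by
      rw [hh_comm, hh_succ, hh_comm d]
      ring
    rw [Qk, h1, h2]
    linear_combination X 1 * ih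

theorem cA_Ow_Ow (c d : ℕ) : cA (Ow kap c * Ow kap d) =
    ∑ q ∈ antidiagonal c, ∑ r ∈ antidiagonal d,
      C kap * (X (Sum.inr (q.2 + r.1)) * X (Sum.inr (q.1 + r.2))) := by
  rw [Ow_eq, Ow_eq, Finset.sum_mul, map_sum]
  refine Finset.sum_congr rfl fun q _ => ?_
  rw [Finset.mul_sum, map_sum]
  refine Finset.sum_congr rfl fun r _ => ?_
  rw [mul_wm, map_smul, cA_wmw, smul_eq_mul, mul_assoc]

/-- Symmetric double sums. -/
def Sk (K : Type) [Field K] (c d : ℕ) (φ : ℕ → P3 K) : P3 K :=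
  ∑ q ∈ antidiagonal c, ∑ r ∈ antidiagonal d,
    (X 2 ^ (q.2 + r.1) * φ (q.1 + r.2) + X 2 ^ (q.1 + r.2) * φ (q.2 + r.1))

theorem Sk_pow (c d : ℕ) (a : P3 K) : Sk K c d (fun n => a ^ n) =
    2 * (hh c a (X 2) * hh d a (X 2)) := by
  have h1 : hh c a (X 2) * hh d a (X 2) = ∑ q ∈ antidiagonal c, ∑ r ∈ antidiagonal d,
      X 2 ^ (q.2 + r.1) * a ^ (q.1 + r.2) := by
    rw [hh_comm d, hh, hh, Finset.sum_mul_sum]
    refine Finset.sum_congr rfl fun q _ => Finset.sum_congr rfl fun r _ => ?_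
    ring
  have h2 : hh c a (X 2) * hh d a (X 2) = ∑ q ∈ antidiagonal c, ∑ r ∈ antidiagonal d,
      X 2 ^ (q.1 + r.2) * a ^ (q.2 + r.1) := by
    rw [hh_comm c, hh, hh, Finset.sum_mul_sum]
    refine Finset.sum_congr rfl fun q _ => Finset.sum_congr rfl fun r _ => ?_
    ring
  rw [two_mul]
  nth_rewrite 1 [h1]
  rw [h2, Sk, ← Finset.sum_add_distrib]
  refine Finset.sum_congr rfl fun q _ => ?_
  rw [← Finset.sum_add_distrib]

/-- `∑ u^i v^j` over `i + j = n - 1` -/
def gg (K : Type) [Field K] : ℕ → P3 K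
  | 0 => 0
  | n + 1 => hh n (X 0) (X 1)

theorem gg_mul (n : ℕ) : (X 0 - X 1) * gg K n = X 0 ^ n - X 1 ^ n := by
  rcases n with _ | n
  · rw [gg, mul_zero, pow_zero, pow_zero, sub_self]
  · rw [gg, hh_mul]

theorem Sk_gg (c d : ℕ) : (X 0 - X 1) * Sk K c d (gg K) =
    Sk K c d (fun n => X 0 ^ n) - Sk K c d (fun n => X 1 ^ n) := by
  unfold Sk
  rw [Finset.mul_sum, ← Finset.sum_sub_distrib]
  refine Finset.sum_congr rfl fun q _ => ?_
  rw [Finset.mul_sum, ← Finset.sum_sub_distrib]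
  refine Finset.sum_congr rfl fun r _ => ?_
  have h1 := gg_mul (K := K) (q.1 + r.2)
  have h2 := gg_mul (K := K) (q.2 + r.1)
  linear_combination X 2 ^ (q.2 + r.1) * h1 + X 2 ^ (q.1 + r.2) * h2

theorem Qk_Sk (c d : ℕ) : Qk K c d + Qk K d c = Sk K c d (gg K) := by
  apply mul_left_cancel₀ (uv_ne (K := K))
  rw [Sk_gg, Sk_pow, Sk_pow]
  have h1 := Qk_eq (K := K) c d
  have h2 := Qk_eq (K := K) d c
  linear_combination h1 + h2

theorem Psi_z_gg (s n : ℕ) : Psi kap (yy K) (X 2 ^ s * gg K n) =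
    (X (Sum.inr s) : CM K) • OwP kap n := by
  rcases n with _ | n
  · rw [gg, mul_zero, map_zero, OwP, smul_zero]
  · rw [gg, mul_comm, Psi_Ow, OwP]
    rfl


theorem D_C_mul (D : Derivation K (CM K) (AM K kap)) (c : K) (f : CM K) :
    D (C c * f) = c • D f := by
  rw [← smul_eq_C_mul, Derivation.map_smul]

/-- `y_c` and `y_d`, opening after a zero -/
theorem gen_yy0 {al : K} (hR : RSt K al kap) (hF : FullSt K al kap) (c d : ℕ) :
    (Nf al kap (X (Sum.inr c)) (OwP kap d) + Nf al kap (X (Sum.inr d)) (OwP kap c)) * wA =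
      (C al : CM K) • o0 kap (cA (Ow kap c * Ow kap d)) := by
  have key : (kap • Psi kap (yy K) (Sk K c d (gg K))) * wA =
      o0 kap (cA (Ow kap c * Ow kap d)) := by
    rw [Sk, cA_Ow_Ow, map_sum, map_sum, Finset.smul_sum, Finset.sum_mul]
    refine Finset.sum_congr rfl fun q _ => ?_
    rw [map_sum, map_sum, Finset.smul_sum, Finset.sum_mul]
    refine Finset.sum_congr rfl fun r _ => ?_
    rw [map_add, Psi_z_gg, Psi_z_gg, D_C_mul, Derivation.leibniz, o0_y, o0_y, Ow0_eq, Ow0_eq,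
      smul_mul_assoc, add_mul, AM_smul_mul, AM_smul_mul]
  rw [Nf_y_OwP hR hF, Nf_y_OwP hR hF, ← smul_add, ← map_add, Qk_Sk, ← key, mul_smul, ← ksmul,
    smul_mul_assoc]

/-- `y_c` and `y_d`, opening after a mark -/
theorem gen_yy1 {al : K} (hR : RSt K al kap) (hF : FullSt K al kap) (c d : ℕ) :
    (Nf al kap (X (Sum.inr c)) (wA ^ d) + Nf al kap (X (Sum.inr d)) (wA ^ c)) * mA =
      (C al : CM K) • o1 kap (cA (Ow kap c * Ow kap d)) := by
  have key : kap • Psi kap (yy K) (Sk K c d (fun n => X 0 ^ n)) =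
      o1 kap (cA (Ow kap c * Ow kap d)) := by
    rw [Sk, cA_Ow_Ow, map_sum, map_sum, Finset.smul_sum]
    refine Finset.sum_congr rfl fun q _ => ?_
    rw [map_sum, map_sum, Finset.smul_sum]
    refine Finset.sum_congr rfl fun r _ => ?_
    have h1 : ∀ s n : ℕ, Psi kap (yy K) (X 2 ^ s * X 0 ^ n) =
        (X (Sum.inr s) : CM K) • (wA ^ n * mA : AM K kap) := by
      intro s n
      have e : (X 2 ^ s * X 0 ^ n : P3 K) = X 0 ^ n * (X 1 ^ 0 * X 2 ^ s) := by ring
      rw [e, Psi_mon, pow_zero, mul_one]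
      rfl
    rw [map_add, h1, h1, D_C_mul, Derivation.leibniz, o1_y, o1_y]
  rw [add_mul, Nf_y_w_m hR hF, Nf_y_w_m hR hF, ← smul_add, ← map_add, ← key, Sk_pow, mul_smul,
    ← ksmul]
  congr 3
  ring

/-- `p_j` and `p_k` -/
theorem gen_pp {al : K} (hR : RSt K al kap) (hF : FullSt K al kap) (j k : ℕ) :
    (Nf al kap (X (Sum.inl j)) ((k : K) • wA ^ (k - 1)) +
      Nf al kap (X (Sum.inl k)) ((j : K) • wA ^ (j - 1))) * wA =
      (al * j * k * (j + k)) • wA ^ (j + k) := by
  rw [Nf_ksmul, Nf_ksmul, Nf_p_w hR hF, Nf_p_w hR hF]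
  rcases j with _ | j
  · simp
  · rcases k with _ | k
    · simp
    · rw [Nat.add_sub_cancel, Nat.add_sub_cancel, add_mul, smul_mul_assoc, smul_mul_assoc,
        smul_mul_assoc, smul_mul_assoc, ← pow_succ, ← pow_succ]
      have e1 : k + (j + 1) + 1 = j + 1 + (k + 1) := by omega
      have e2 : j + (k + 1) + 1 = j + 1 + (k + 1) := by omega
      rw [e1, e2]
      push_cast
      module

theorem Gam0 {al : K} (hR : RSt K al kap) (hF : FullSt K al kap) (f g : CM K) :
    Gam al kap (o0 kap) (q0 kap) wA f g = 0 := by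
  refine Gam_zero hR hF _ _ _ o0_eq ?_ f g
  have hpy : ∀ k c : ℕ, Gam al kap (o0 kap) (q0 kap) wA (X (Sum.inl k)) (X (Sum.inr c)) = 0 := by
    intro k c
    rw [Gam, q0_y, q0_p, gen_py al hR hF, oA_p, oA_y, smul_mul_assoc, smul_mul_assoc,
      ksmul (k : K), map_smul]
    have h1 : cA (wA ^ k * Ow kap c) = ((c : CM K) + 1) * X (Sum.inr (k + c)) := by
      rw [Ow_eq, Finset.mul_sum, map_sum]
      have h : ∀ q ∈ antidiagonal c, cA (wA ^ k * (wA ^ q.1 * mA * wA ^ q.2) : AM K kap) =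
          X (Sum.inr (k + c)) := by
        intro q hq
        rw [← mul_assoc, ← mul_assoc, ← pow_add, cA_wmw, add_assoc,
          Finset.HasAntidiagonal.mem_antidiagonal.mp hq]
      rw [Finset.sum_congr rfl h, Finset.sum_const, Finset.Nat.card_antidiagonal, nsmul_eq_mul]
      push_cast
      rfl
    have h2 : ((c : CM K) + 1) * X (Sum.inr (k + c)) = C ((c : K) + 1) * X (Sum.inr (k + c)) := by
      rw [map_add, map_natCast, map_one]
    rw [h1, h2, smul_eq_mul, D_C_mul, D_C_mul, o0_y, Ow0_eq, ← ksmul, smul_smul,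
      smul_smul, mul_assoc al, sub_self]
  rintro (j | c) (k | d)
  · rw [Gam, q0_p, q0_p, gen_pp hR hF, oA_p, oA_p, smul_mul_assoc, mul_smul_comm, ← pow_add,
      smul_smul, ksmul ((j : K) * k), map_smul, cA_w_pow, smul_eq_mul, D_C_mul, o0_ph, ← ksmul,
      smul_smul, smul_smul]
    push_cast
    rw [sub_eq_zero]
    congr 1
    ring
  · exact hpy j d
  · rw [Gam_comm]
    exact hpy k c
  · rw [Gam, q0_y, q0_y, gen_yy0 hR hF, oA_y, oA_y, sub_self]

theorem Gam1 {al : K} (hR : RSt K al kap) (hF : FullSt K al kap) (f g : CM K) :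
    Gam al kap (o1 kap) (q1 kap) mA f g = 0 := by
  refine Gam_zero hR hF _ _ _ o1_eq ?_ f g
  have hpy : ∀ k c : ℕ, Gam al kap (o1 kap) (q1 kap) mA (X (Sum.inl k)) (X (Sum.inr c)) = 0 := by
    intro k c
    rw [Gam, q1_y, q1_p, Nf_zero, add_zero, Nf_p_w hR hF, oA_p, oA_y, smul_mul_assoc,
      smul_mul_assoc, ksmul (k : K), map_smul]
    have h1 : cA (wA ^ k * Ow kap c) = ((c : CM K) + 1) * X (Sum.inr (k + c)) := by
      rw [Ow_eq, Finset.mul_sum, map_sum]
      have h : ∀ q ∈ antidiagonal c, cA (wA ^ k * (wA ^ q.1 * mA * wA ^ q.2) : AM K kap) =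
          X (Sum.inr (k + c)) := by
        intro q hq
        rw [← mul_assoc, ← mul_assoc, ← pow_add, cA_wmw, add_assoc,
          Finset.HasAntidiagonal.mem_antidiagonal.mp hq]
      rw [Finset.sum_congr rfl h, Finset.sum_const, Finset.Nat.card_antidiagonal, nsmul_eq_mul]
      push_cast
      rfl
    have h2 : ((c : CM K) + 1) * X (Sum.inr (k + c)) = C ((c : K) + 1) * X (Sum.inr (k + c)) := by
      rw [map_add, map_natCast, map_one]
    rw [h1, h2, smul_eq_mul, D_C_mul, D_C_mul, o1_y, ← ksmul, smul_smul,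
      smul_smul, mul_assoc al, add_comm c k, sub_self]
  rintro (j | c) (k | d)
  · rw [Gam, q1_p, q1_p, Nf_zero, Nf_zero, oA_p, oA_p, smul_mul_assoc, mul_smul_comm, ← pow_add,
      smul_smul, ksmul ((j : K) * k), map_smul, cA_w_pow, smul_eq_mul, D_C_mul, o1_ph, smul_zero,
      smul_zero, add_zero, zero_mul, sub_zero]
  · exact hpy j d
  · rw [Gam_comm]
    exact hpy k c
  · rw [Gam, q1_y, q1_y, gen_yy1 hR hF, oA_y, oA_y, sub_self]


/-! ### The values of `Full` -/

/-- triangular numbers -/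
def tr : ℕ → ℕ
  | 0 => 0
  | j + 1 => tr j + (j + 1)

theorem tr_eq (j : ℕ) : 2 * tr j = j * (j + 1) := by
  induction j with
  | zero => rfl
  | succ j ih =>
    rw [tr]
    linarith

/-- `∑ (t + 1) p_s w^t` -/
def SW2 (kap : K) (c : ℕ) : AM K kap :=
  ∑ q ∈ antidiagonal c, (((q.2 : CM K) + 1) * ph K q.1) • wA ^ q.2

/-- `∑ (t + 2) p_s Ow_t` -/
def SP2 (kap : K) (c : ℕ) : AM K kap :=
  ∑ q ∈ antidiagonal c, (((q.2 : CM K) + 2) * ph K q.1) • Ow kap q.2

/-- `∑ (s + 1) (t + 1) y_s w^t` -/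
def SY2 (kap : K) (c : ℕ) : AM K kap :=
  ∑ q ∈ antidiagonal c, (((q.1 : CM K) + 1) * ((q.2 : CM K) + 1) * X (Sum.inr q.1)) • wA ^ q.2

theorem SW2_succ (c : ℕ) : SW2 kap (c + 1) = SW2 kap c * wA + SW kap (c + 1) := by
  rw [SW2, SW, Finset.Nat.sum_antidiagonal_succ', Finset.Nat.sum_antidiagonal_succ', SW2,
    Finset.sum_mul, add_left_comm, ← Finset.sum_add_distrib]
  refine congrArg₂ (· + ·) ?_ (Finset.sum_congr rfl fun q _ => ?_)
  · push_cast
    rw [zero_add, one_mul]
  · rw [AM_smul_mul, ← pow_succ]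
    push_cast
    module

theorem SP2_succ (c : ℕ) : SP2 kap (c + 1) =
    SP2 kap c * wA + SW2 kap (c + 1) * mA + SP kap (c + 1) := by
  have h0 : SW2 kap (c + 1) = ph K (c + 1) • 1 +
      ∑ q ∈ antidiagonal c, (((q.2 : CM K) + 2) * ph K q.1) • wA ^ (q.2 + 1) := by
    rw [SW2, Finset.Nat.sum_antidiagonal_succ', pow_zero]
    refine congrArg₂ (· + ·) ?_ (Finset.sum_congr rfl fun q _ => ?_)
    · push_cast
      rw [zero_add, one_mul]
    · push_cast
      module
  have h1 : SP kap (c + 1) = ph K (c + 1) • mA +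
      ∑ q ∈ antidiagonal c, ph K q.1 • Ow kap (q.2 + 1) := by
    rw [SP, Finset.Nat.sum_antidiagonal_succ', Ow_zero]
  have h2 : SP2 kap (c + 1) = (2 * ph K (c + 1)) • mA +
      ∑ q ∈ antidiagonal c, (((q.2 : CM K) + 3) * ph K q.1) • Ow kap (q.2 + 1) := by
    rw [SP2, Finset.Nat.sum_antidiagonal_succ', Ow_zero]
    refine congrArg₂ (· + ·) ?_ (Finset.sum_congr rfl fun q _ => ?_)
    · push_cast
      rw [zero_add]
    · push_cast
      module
  have h3 : SP2 kap c * wA + (∑ q ∈ antidiagonal c,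
      (((q.2 : CM K) + 2) * ph K q.1) • wA ^ (q.2 + 1)) * mA =
      ∑ q ∈ antidiagonal c, (((q.2 : CM K) + 2) * ph K q.1) • Ow kap (q.2 + 1) := by
    rw [SP2, Finset.sum_mul, Finset.sum_mul, ← Finset.sum_add_distrib]
    refine Finset.sum_congr rfl fun q _ => ?_
    rw [Ow_succ, AM_smul_mul, AM_smul_mul, smul_add]
  have h4 : (∑ q ∈ antidiagonal c, (((q.2 : CM K) + 3) * ph K q.1) • Ow kap (q.2 + 1)) =
      (∑ q ∈ antidiagonal c, (((q.2 : CM K) + 2) * ph K q.1) • Ow kap (q.2 + 1)) +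
      ∑ q ∈ antidiagonal c, ph K q.1 • Ow kap (q.2 + 1) := by
    rw [← Finset.sum_add_distrib]
    refine Finset.sum_congr rfl fun q _ => ?_
    module
  rw [h2, h4, ← h3, h0, h1, add_mul, AM_smul_mul, one_mul]
  module

theorem SY2_succ (c : ℕ) : SY2 kap (c + 1) = SY2 kap c * wA + SY kap (c + 1) := by
  rw [SY2, SY, Finset.Nat.sum_antidiagonal_succ', Finset.Nat.sum_antidiagonal_succ', SY2,
    Finset.sum_mul, add_left_comm, ← Finset.sum_add_distrib]
  refine congrArg₂ (· + ·) ?_ (Finset.sum_congr rfl fun q _ => ?_)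
  · push_cast
    rw [zero_add, mul_one]
  · rw [AM_smul_mul, ← pow_succ]
    push_cast
    module

theorem Full_w {al : K} (hF : FullSt K al kap) (j : ℕ) : Full al kap (wA ^ j) =
    SW2 kap j + (C (al - 1) * (tr j : CM K)) • (wA ^ j : AM K kap) := by
  induction j with
  | zero =>
    rw [pow_zero, Full_one hF, SW2, Finset.Nat.antidiagonal_zero, Finset.sum_singleton, ph_zero,
      tr, Nat.cast_zero, mul_zero, mul_zero, zero_smul, zero_smul, add_zero]
  | succ j ih =>
    rw [pow_succ, hF.w, ih, ← pow_succ, Rb_w, rW_eq', SW2_succ, tr, add_mul, AM_smul_mul,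
      ← pow_succ]
    push_cast
    module

theorem Full_Ow {al : K} (hR : RSt K al kap) (hF : FullSt K al kap) (j : ℕ) :
    Full al kap (Ow kap j) =
      SP2 kap j + SY2 kap j + (C (al - 1) * (tr (j + 1) : CM K)) • Ow kap j := by
  induction j with
  | zero =>
    have h := hF.m 1
    rw [one_mul, Full_one hF, zero_mul, zero_add, ← Ow_zero, Rb_Ow hR] at h
    rw [h, SP, SY, SP2, SY2, tr, tr]
    simp only [Finset.Nat.antidiagonal_zero, Finset.sum_singleton, ph_zero]
    push_cast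
    module
  | succ j ih =>
    have h1 : Full al kap (Ow kap (j + 1)) = Full al kap (Ow kap j) * wA +
        Full al kap (wA ^ (j + 1)) * mA + Rb al kap (Ow kap (j + 1)) := by
      rw [Ow_succ, map_add, hF.w, hF.m, map_add]
      abel
    have e : tr (j + 1 + 1) = tr (j + 1) + (j + 1 + 1) := rfl
    have h2 : Ow kap j * wA = Ow kap (j + 1) - wA ^ (j + 1) * mA := by
      rw [Ow_succ, add_sub_cancel_right]
    rw [h1, ih, Full_w hF, Rb_Ow hR, SP2_succ, SY2_succ, e]
    simp only [add_mul, AM_smul_mul, h2]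
    push_cast
    module

theorem two_Dc [CharZero K] (al : K) (f : CM K) : (2 : K) • Dc al kap f =
    cA (Rop al kap (oA kap f)) - (al - 1) • cA (oA kap f) := by
  unfold Dc
  rw [LinearMap.smul_apply, smul_smul, mul_inv_cancel₀ (two_ne_zero), one_smul]
  rfl

theorem cancel_two [CharZero K] {M : Type} [AddCommGroup M] [Module K M] {x y : M}
    (h : (2 : K) • x = (2 : K) • y) : x = y := by
  have h1 := congrArg (fun z => (2 : K)⁻¹ • z) h
  simp only [smul_smul, inv_mul_cancel₀ (two_ne_zero (α := K)), one_smul] at h1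
  exact h1

theorem two_Dc_p [CharZero K] (al : K) (k : ℕ) : (2 : K) • Dc al kap (X (Sum.inl k)) =
    (k : K) • (∑ q ∈ antidiagonal k, ph K q.1 * ph K q.2 +
      ((al - 1) * (k - 1)) • ph K k) := by
  rw [two_Dc, oA_p, map_K_smul, R_w, rW_eq, ksmul, map_smul, map_add, map_sum, ksmul, map_smul,
    cA_w_pow, ksmul, map_smul, cA_w_pow]
  have h1 : ∀ q ∈ antidiagonal k, cA (ph K q.1 • (wA ^ q.2 : AM K kap)) = ph K q.1 * ph K q.2 := by
    intro q _
    rw [map_smul, cA_w_pow, smul_eq_mul]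
  rw [Finset.sum_congr rfl h1]
  simp only [smul_eq_mul, smul_eq_C_mul, map_mul, map_sub, map_natCast, map_one]
  ring

theorem Dc_y [CharZero K] {al : K} (hR : RSt K al kap) (c : ℕ) : Dc al kap (X (Sum.inr c)) =
    ∑ q ∈ antidiagonal c, (((q.2 : CM K) + 1) * ph K q.1) * X (Sum.inr q.2) +
      (C (al - 1) * (tr c : CM K)) * X (Sum.inr c) := by
  apply cancel_two (K := K)
  have h1 : cA (SP kap c) = ∑ q ∈ antidiagonal c,
      (((q.2 : CM K) + 1) * ph K q.1) * X (Sum.inr q.2) := by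
    rw [SP, map_sum]
    refine Finset.sum_congr rfl fun q _ => ?_
    rw [map_smul, cA_Ow, smul_eq_mul]
    ring
  have h2 : cA (SY kap c) = ∑ q ∈ antidiagonal c,
      (((q.2 : CM K) + 1) * ph K q.1) * X (Sum.inr q.2) := by
    rw [SY, map_sum, ← Finset.Nat.sum_antidiagonal_swap]
    refine Finset.sum_congr rfl fun q _ => ?_
    rw [map_smul, cA_w_pow, smul_eq_mul]
    simp only [Prod.fst_swap, Prod.snd_swap]
    ring
  have h3 : (2 * (tr c : CM K)) = (c : CM K) * ((c : CM K) + 1) := by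
    have := tr_eq c
    exact_mod_cast congrArg (Nat.cast : ℕ → CM K) this
  rw [two_Dc, oA_y, R_Ow hR, map_add, map_add, h1, h2, map_smul, cA_Ow]
  simp only [smul_eq_mul, smul_eq_C_mul, map_sub, map_one, map_ofNat]
  linear_combination (C al - 1) * X (Sum.inr c) * (-h3)

theorem SW2_w (k : ℕ) : ∑ q ∈ antidiagonal (k + 1), ph K q.1 • ((q.2 : K) • wA ^ q.2) =
    SW2 kap k * wA := by
  rw [Finset.Nat.sum_antidiagonal_succ', Nat.cast_zero, zero_smul, smul_zero, zero_add, SW2,
    Finset.sum_mul]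
  refine Finset.sum_congr rfl fun q _ => ?_
  rw [AM_smul_mul, ← pow_succ, ksmul, smul_smul]
  congr 1
  push_cast
  rw [map_add, map_natCast, map_one]
  ring

theorem o0_pp (k : ℕ) : ∑ q ∈ antidiagonal (k + 1), o0 kap (ph K q.1 * ph K q.2) =
    (2 : K) • (SW2 kap k * wA) := by
  have h : ∀ q ∈ antidiagonal (k + 1), o0 kap (ph K q.1 * ph K q.2) =
      ph K q.1 • ((q.2 : K) • wA ^ q.2) + ph K q.2 • ((q.1 : K) • wA ^ q.1) := by
    intro q _
    rw [Derivation.leibniz, o0_ph, o0_ph]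
  rw [Finset.sum_congr rfl h, Finset.sum_add_distrib, SW2_w]
  have h2 := Finset.Nat.sum_antidiagonal_swap (n := k + 1)
    (f := fun q : ℕ × ℕ => ph K q.1 • ((q.2 : K) • (wA ^ q.2 : AM K kap)))
  simp only [Prod.fst_swap, Prod.snd_swap] at h2
  rw [h2, SW2_w, two_smul]

theorem Full_q0_p [CharZero K] {al : K} (hF : FullSt K al kap) (k : ℕ) :
    Full al kap (q0 kap (X (Sum.inl k))) * wA = o0 kap (Dc al kap (X (Sum.inl k))) := by
  apply cancel_two (K := K)
  rw [← Derivation.map_smul, two_Dc_p, q0_p, map_K_smul, Derivation.map_smul, map_add, map_sum,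
    Derivation.map_smul, o0_ph]
  rcases k with _ | k
  · simp
  · rw [Nat.add_sub_cancel, Full_w hF, o0_pp, smul_mul_assoc, add_mul, AM_smul_mul, ← pow_succ]
    have h3 : (2 * (tr k : CM K)) = (k : CM K) * ((k : CM K) + 1) := by
      have := tr_eq k
      exact_mod_cast congrArg (Nat.cast : ℕ → CM K) this
    have h4 : (2 : K) • ((C (al - 1) * (tr k : CM K)) • (wA ^ (k + 1) : AM K kap)) =
        ((al - 1) * k * (k + 1)) • wA ^ (k + 1) := by
      rw [ksmul, ksmul, smul_smul]
      congr 1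
      simp only [map_mul, map_add, map_sub, map_natCast, map_one, map_ofNat]
      linear_combination (C al - 1) * h3
    rw [smul_comm (2 : K), smul_add, h4]
    push_cast
    rw [smul_smul ((al - 1) * ((k : K) + 1 - 1))]
    congr 3
    ring

theorem Full_q0_y [CharZero K] {al : K} (hR : RSt K al kap) (hF : FullSt K al kap) (c : ℕ) :
    Full al kap (q0 kap (X (Sum.inr c))) * wA = o0 kap (Dc al kap (X (Sum.inr c))) := by
  rw [Dc_y hR, q0_y, map_add, map_sum]
  have hC : ∀ n : ℕ, o0 kap (n : CM K) = 0 := by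
    intro n
    have : (n : CM K) = C (n : K) := (map_natCast _ _).symm
    rw [this, o0_C]
  have h0 : ∀ q ∈ antidiagonal c,
      o0 kap (((q.2 : CM K) + 1) * ph K q.1 * X (Sum.inr q.2)) =
      (((q.2 : CM K) + 1) * ph K q.1) • (OwP kap q.2 * wA) +
      (((q.2 : CM K) + 1) * X (Sum.inr q.2)) • ((q.1 : K) • wA ^ q.1) := by
    intro q _
    rw [Derivation.leibniz, Derivation.leibniz, map_add, hC, Derivation.map_one_eq_zero,
      add_zero, smul_zero, add_zero, o0_ph, o0_y, Ow0_eq, smul_smul, mul_comm (X (Sum.inr q.2))]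
  have h1 : o0 kap ((C (al - 1) * (tr c : CM K)) * X (Sum.inr c)) =
      (C (al - 1) * (tr c : CM K)) • (OwP kap c * wA) := by
    rw [Derivation.leibniz, Derivation.leibniz, hC, o0_C, smul_zero, smul_zero, add_zero,
      smul_zero, add_zero, o0_y, Ow0_eq]
  rw [Finset.sum_congr rfl h0, h1, Finset.sum_add_distrib]
  rcases c with _ | c
  · rw [OwP, map_zero, zero_mul, smul_zero, add_zero, Finset.Nat.antidiagonal_zero,
      Finset.sum_singleton, Finset.sum_singleton, ph_zero, Nat.cast_zero, Nat.cast_zero,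
      mul_zero, zero_smul, zero_smul, smul_zero, add_zero]
  · rw [OwP, Full_Ow hR hF, Finset.Nat.sum_antidiagonal_succ', OwP, zero_mul, smul_zero,
      zero_add, Finset.Nat.sum_antidiagonal_succ, Nat.cast_zero, zero_smul, smul_zero, zero_add,
      add_mul, add_mul, AM_smul_mul]
    refine congrArg₂ (· + ·) (congrArg₂ (· + ·) ?_ ?_) rfl
    · rw [SP2, Finset.sum_mul]
      refine Finset.sum_congr rfl fun q _ => ?_
      rw [OwP, AM_smul_mul]
      congr 1
      push_cast
      ring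
    · rw [SY2, Finset.sum_mul, ← Finset.Nat.sum_antidiagonal_swap]
      refine Finset.sum_congr rfl fun q _ => ?_
      rw [AM_smul_mul, ← pow_succ, ksmul, smul_smul]
      simp only [Prod.fst_swap, Prod.snd_swap]
      congr 1
      push_cast
      rw [map_add, map_natCast, map_one]
      ring

theorem Full_q1_p [CharZero K] {al : K} (k : ℕ) :
    Full al kap (q1 kap (X (Sum.inl k))) * mA = o1 kap (Dc al kap (X (Sum.inl k))) := by
  apply cancel_two (K := K)
  rw [← Derivation.map_smul, two_Dc_p, q1_p, map_zero, zero_mul, smul_zero, Derivation.map_smul,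
    map_add, map_sum, Derivation.map_smul, o1_ph, smul_zero, add_zero]
  have h : ∀ q ∈ antidiagonal k, o1 kap (ph K q.1 * ph K q.2) = 0 := by
    intro q _
    rw [Derivation.leibniz, o1_ph, o1_ph, smul_zero, smul_zero, add_zero]
  rw [Finset.sum_congr rfl h, Finset.sum_const_zero, smul_zero]

theorem Full_q1_y [CharZero K] {al : K} (hR : RSt K al kap) (hF : FullSt K al kap) (c : ℕ) :
    Full al kap (q1 kap (X (Sum.inr c))) * mA = o1 kap (Dc al kap (X (Sum.inr c))) := by
  rw [Dc_y hR, q1_y, map_add, map_sum, Full_w hF, add_mul, SW2, Finset.sum_mul, AM_smul_mul]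
  have hC : ∀ n : ℕ, o1 kap (n : CM K) = 0 := by
    intro n
    have : (n : CM K) = C (n : K) := (map_natCast _ _).symm
    rw [this, o1_C]
  have h1 : o1 kap ((C (al - 1) * (tr c : CM K)) * X (Sum.inr c)) =
      (C (al - 1) * (tr c : CM K)) • (wA ^ c * mA) := by
    rw [Derivation.leibniz, Derivation.leibniz, hC, o1_C, smul_zero, smul_zero, add_zero,
      smul_zero, add_zero, o1_y]
  rw [h1]
  refine congrArg₂ (· + ·) (Finset.sum_congr rfl fun q _ => ?_) rfl
  rw [Derivation.leibniz, Derivation.leibniz, map_add, hC, Derivation.map_one_eq_zero,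
    add_zero, smul_zero, add_zero, o1_ph, smul_zero, smul_zero, add_zero, o1_y, AM_smul_mul]

end Bs

open Bs in
/-- Opening and the pairs of gaps. -/
theorem base [CharZero K] {al : K} (hR : RSt K al kap) (hT : TSt K al kap)
    (hF : FullSt K al kap) : BaseSt K al kap where
  b0 := by
    intro f
    have h := Full_q hF (o0 kap) (q0 kap) wA o0_eq (Gam0 hR hF) (by
      rintro (k | c)
      · exact Full_q0_p hF k
      · exact Full_q0_y hR hF c) f
    rw [← h, ← Rb_o0 hR hT f, o0_eq f, hF.w]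
  b1 := by
    intro f
    have h := Full_q hF (o1 kap) (q1 kap) mA o1_eq (Gam1 hR hF) (by
      rintro (k | c)
      · exact Full_q1_p k
      · exact Full_q1_y hR hF c) f
    rw [← h, ← Rb_o1 hR hT f, o1_eq f, hF.m]

end

end Pool.Agent.MJX
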