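import Pool.Agent.MJX.FullMod

/-!
Closing of the root.
-/

namespace Pool.Agent.MJX

open MvPolynomial Pool.Agent.MJR

noncomputable section

variable {K : Type} [Field K] {kap : K}

theorem oA_1 : oA kap (1 : CM K) = 0 := Derivation.map_one_eq_zero _

theorem cA_w_pow (n : ℕ) : cA (wA ^ (n + 1) : AM K kap) = X (Sum.inl (n + 1)) := by
  rw [w_pow, cA_inl, if_neg (Nat.succ_ne_zero n), one_mul]

theorem cA_wm (n : ℕ) : cA (wA ^ n * mA : AM K kap) = X (Sum.inr n) := by
  have h := cA_wmw (K := K) (kap := kap) n 0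
  rwa [pow_zero, mul_one, add_zero] at h

/-- Closing the touches of the front gap. -/
theorem cA_rM (b : K) (l a : ℕ) : cA (rM b kap l a) =
    cA (rW b kap l * mA * wA ^ a) + cA (wA ^ l * mA * rW b kap a)
      + C b * X (Sum.inr (l + a)) := by
  rw [rM_eq, add_mul, add_mul, smul_mul_assoc, one_mul, smul_mul_assoc, ← cut_half, map_add,
    map_add, map_add, cA_smul, cA_ksmul, map_sum, mul_assoc mA, ← pow_add]
  have h2 : cA (mA * wA ^ (l + a) : AM K kap) = X (Sum.inr (l + a)) := by
    have h := cA_wmw (K := K) (kap := kap) 0 (l + a)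
    rwa [pow_zero, one_mul, zero_add] at h
  rw [h2]
  have h3 : ∀ r ∈ Finset.range a, cA ((X (Sum.inr (l + (r + 1))) : CM K) •
        (wA ^ (a - 1 - r) : AM K kap)
      + b • (wA ^ (r + 1) * mA * wA ^ l * wA ^ (a - 1 - r))) =
      X (Sum.inr (l + (r + 1))) * cA (wA ^ (a - 1 - r) : AM K kap)
        + C b * X (Sum.inr (l + a)) := by
    intro r hr
    have hr' := Finset.mem_range.mp hr
    have e2 : r + 1 + (l + (a - 1 - r)) = l + a := by omega
    rw [map_add, cA_smul, cA_ksmul, mul_assoc _ (wA ^ l), ← pow_add, cA_wmw, e2]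
  rw [Finset.sum_congr rfl h3]
  ring

theorem cA_rM_symm (b : K) (j a : ℕ) : cA (rM b kap j a) = cA (rM b kap a j) := by
  have h : ∀ l n : ℕ, cA (rW b kap l * mA * wA ^ n) = cA (wA ^ n * mA * rW b kap l) := by
    intro l n
    rw [← cA_rv, rv_mul, rv_mul, rv_rW, rv_m, rv_w_pow, ← mul_assoc]
  rw [cA_rM, cA_rM, h, h, add_comm j a, add_comm (cA (wA ^ a * mA * rW b kap j))]

theorem cR' {al : K} (x : AM K kap) : cA (Rop al kap x) = cA (Rb al kap x) := by
  rw [Rb_apply, cA_rv]
  refine sg_induction (P := fun x => cA (Rop al kap x) = cA (Rop al kap (rv x))) x ?_ ?_ ?_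
  · simp only [map_zero]
  · intro x y hx hy
    rw [map_add, map_add, map_add, map_add, map_add, hx, hy]
  · intro i f
    rcases i with j | ⟨j, a⟩
    · rw [rv_inl]
    · rw [rv_inr, Rop_inr, Rop_inr, map_add, map_add, cA_smul, cA_smul, cA_rM_symm _ j a,
        smul_mul_assoc, smul_mul_assoc, cA_ksmul, cA_ksmul]
      congr 2
      rw [← cA_rv, rv_mul, rv_oA, rv_inr, cA_comm]

/-- Closed words of zeros. -/
theorem cA_rW (b : K) (n t : ℕ) : cA (rW b kap n * wA ^ (t + 1)) =
    ∑ l ∈ Finset.range n, X (Sum.inl (l + 1)) * X (Sum.inl (n + t - l))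
      + C (b * (n : K)) * X (Sum.inl (n + t + 1)) := by
  induction n generalizing t with
  | zero =>
    rw [rW, zero_mul, map_zero, Finset.sum_range_zero, Nat.cast_zero, mul_zero, C_0, zero_mul,
      add_zero]
  | succ n ih =>
    rw [rW, add_mul, add_mul, map_add, map_add, mul_assoc, ← pow_succ', ih, smul_mul_assoc,
      one_mul, cA_smul, cA_w_pow, smul_mul_assoc, cA_ksmul, ← pow_add, Finset.sum_range_succ]
    have e1 : n + 1 + (t + 1) = (n + t + 1) + 1 := by omega
    have e2 : n + 1 + t - n = t + 1 := by omega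
    have e3 : n + (t + 1) = n + t + 1 := by omega
    have e4 : n + 1 + t = n + t + 1 := by omega
    rw [e1, cA_w_pow, e2, e3, e4]
    push_cast
    rw [mul_add, mul_one, map_add]
    ring

/-- Cut sums. -/
theorem sum_cut {M : Type} [AddCommGroup M] [Module K M] (N : ℕ) (g : ℕ → M) :
    ∑ i ∈ Finset.range N, ∑ l ∈ Finset.range (i + 1), g l =
      ∑ l ∈ Finset.range N, ((N : K) - l) • g l := by
  induction N with
  | zero => rw [Finset.sum_range_zero, Finset.sum_range_zero]
  | succ N ih =>
    rw [Finset.sum_range_succ, ih, Finset.sum_range_succ, Finset.sum_range_succ, ← add_assoc,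
      ← Finset.sum_add_distrib]
    congr 1
    · refine Finset.sum_congr rfl fun l _ => ?_
      push_cast
      module
    · push_cast
      module

theorem sum_refl_half [CharZero K] (N : ℕ) (g : ℕ → CM K)
    (hg : ∀ l ∈ Finset.range N, g (N - 1 - l) = g l) :
    ∑ l ∈ Finset.range N, ((N : K) - l) • g l =
      (2 : K)⁻¹ • (((N : K) + 1) • ∑ l ∈ Finset.range N, g l) := by
  have h1 : ∑ l ∈ Finset.range N, ((N : K) - l) • g l =
      ∑ l ∈ Finset.range N, ((l : K) + 1) • g l := by
    rw [← Finset.sum_range_reflect]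
    refine Finset.sum_congr rfl fun l hl => ?_
    have hl' := Finset.mem_range.mp hl
    rw [hg l hl]
    congr 1
    have e : (N - 1 - l) + l + 1 = N := by omega
    have e2 := congrArg (fun z : ℕ => (z : K)) e
    simp only [Nat.cast_add, Nat.cast_one] at e2
    linear_combination -e2
  have h2 : (2 : K) • ∑ l ∈ Finset.range N, ((N : K) - l) • g l =
      ((N : K) + 1) • ∑ l ∈ Finset.range N, g l := by
    rw [two_smul]
    nth_rewrite 2 [h1]
    rw [← Finset.sum_add_distrib, Finset.smul_sum]
    refine Finset.sum_congr rfl fun l _ => ?_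
    module
  rw [← h2, smul_smul, inv_mul_cancel₀ two_ne_zero, one_smul]

theorem FW_one {al : K} (hF : FullSt K al kap) (j t : ℕ)
    (y : AM K kap) : FW al kap j 1 * (wA ^ t * y) =
    ∑ i ∈ Finset.range j, rW (al - 1) kap (i + 1) * (wA ^ (j - (i + 1) + t) * y) := by
  induction j generalizing t with
  | zero =>
    rw [FW_zero, hF.Dc_one, zero_smul, zero_add, oA_1, smul_zero, zero_mul,
      Finset.sum_range_zero]
  | succ j ih =>
    have h1 : Rb al kap (sg (Sum.inl (j + 1)) 1) = rW (al - 1) kap (j + 1) := by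
      rw [Rb_apply, rv_inl, Rop_inl, one_smul, oA_1, smul_zero, zero_mul, add_zero, rv_rW]
    rw [FW_succ, h1, add_mul, mul_assoc, ← mul_assoc wA, ← pow_succ', ih,
      Finset.sum_range_succ, Nat.sub_self, zero_add]
    congr 1
    refine Finset.sum_congr rfl fun i hi => ?_
    have hi' := Finset.mem_range.mp hi
    have e : j - (i + 1) + (t + 1) = j + 1 - (i + 1) + t := by omega
    rw [e]

theorem sum_gauss [CharZero K] (c : K) (j : ℕ) :
    ∑ i ∈ Finset.range j, c * ((i + 1 : ℕ) : K) = (2 : K)⁻¹ * (c * ((j : K) * ((j : K) + 1))) := by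
  have h2 : (2 : K) ≠ 0 := two_ne_zero
  induction j with
  | zero => simp
  | succ j ih =>
    rw [Finset.sum_range_succ, ih]
    push_cast
    field_simp
    ring

/-- The pairs of gaps of `p_(j+1)`. -/
theorem Dc_p [CharZero K] {al : K} (hF : FullSt K al kap) (j : ℕ) :
    cA (FW al kap j 1 * wA) = Dc al kap (X (Sum.inl (j + 1))) := by
  have h0 := FW_one hF j 1 (1 : AM K kap)
  rw [pow_one, mul_one] at h0
  have h1 : ∀ i ∈ Finset.range j, cA (rW (al - 1) kap (i + 1) * (wA ^ (j - (i + 1) + 1) * 1)) =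
      ∑ l ∈ Finset.range (i + 1), X (Sum.inl (l + 1)) * X (Sum.inl (j - l))
        + C ((al - 1) * ((i + 1 : ℕ) : K)) * X (Sum.inl (j + 1)) := by
    intro i hi
    have hi' := Finset.mem_range.mp hi
    have e : i + 1 + (j - (i + 1)) = j := by omega
    rw [mul_one, cA_rW, e]
  have h2 := sum_refl_half j (fun l => (X (Sum.inl (l + 1)) * X (Sum.inl (j - l)) : CM K)) (by
    intro l hl
    have hl' := Finset.mem_range.mp hl
    have e1 : j - 1 - l + 1 = j - l := by omega
    have e2 : j - (j - 1 - l) = l + 1 := by omega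
    simp only [e1, e2]
    ring)
  have h3 : ∑ i ∈ Finset.range j, (C ((al - 1) * ((i + 1 : ℕ) : K)) * X (Sum.inl (j + 1)) : CM K) =
      C ((2 : K)⁻¹ * ((al - 1) * ((j : K) * ((j : K) + 1)))) * X (Sum.inl (j + 1)) := by
    rw [← Finset.sum_mul, ← map_sum, sum_gauss]
  have h4 : cA (rW (al - 1) kap (j + 1)) =
      ∑ l ∈ Finset.range j, X (Sum.inl (l + 1)) * X (Sum.inl (j - l))
      + C ((al - 1) * ((j : K) + 1)) * X (Sum.inl (j + 1)) := by
    have h := cA_rW (kap := kap) (al - 1) j 0
    rw [zero_add, pow_one, add_zero] at h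
    rw [rW, map_add, map_add, h, cA_one, cA_ksmul, cA_w_pow, mul_add, map_add, mul_one]
    ring
  rw [h0, map_sum, Finset.sum_congr rfl h1, Finset.sum_add_distrib, sum_cut (K := K), h2, h3,
    Dc_apply, oA_inl, LinearMap.map_smul (Rop al kap), cA_ksmul, cA_ksmul, w_pow, Rop_inl,
    one_smul, oA_1, smul_zero, zero_mul, add_zero, h4, cA_inl, if_neg (Nat.succ_ne_zero j)]
  simp only [smul_eq_C_mul]
  push_cast
  simp only [map_mul, map_add, map_one]
  ring

/-- The pairs of gaps of `y_j`. -/
theorem Dc_y [CharZero K] {al : K} (hF : FullSt K al kap) (j : ℕ) :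
    cA (FW al kap j 1 * mA) = Dc al kap (X (Sum.inr j)) := by
  have h0 := FW_one hF j 0 (mA : AM K kap)
  rw [pow_zero, one_mul] at h0
  rw [h0, map_sum, DcY, Finset.sum_range_succ', rW, zero_mul, zero_mul, map_zero, add_zero]
  refine Finset.sum_congr rfl fun i hi => ?_
  rw [add_zero, cA_comm (rW (al - 1) kap (i + 1) * mA), ← mul_assoc, ← mul_assoc, rW_comm_pow]

theorem cD_w [CharZero K] {al : K} (hR : RSt K al kap) (hF : FullSt K al kap) (j : ℕ)
    (f : CM K) : cA (FW al kap j f * wA) = Dc al kap (f * X (Sum.inl (j + 1))) := by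
  have h1 := FW_smul hR (kap := kap) j f 1
  rw [mul_one, oA_1, mul_zero, map_zero, zero_smul, smul_zero, add_zero, one_smul] at h1
  rw [h1, add_mul, add_mul, map_add, map_add, smul_mul_assoc, cA_smul, Dc_p hF, smul_mul_assoc,
    cA_smul, sg_mul_w, cA_inl, if_neg (Nat.succ_ne_zero j), one_mul, smul_mul_assoc, cA_ksmul,
    Finset.sum_mul, map_sum, hF.Dc_mul, oA_inl, mul_smul_comm, cA_ksmul, smul_eq_C_mul]
  have h2 : ∀ q ∈ Finset.range (j + 1), cA (wA ^ q * oA kap f * wA ^ (j - q) * wA) =
      cA (oA kap f * wA ^ (j + 1)) := by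
    intro q hq
    have hq' := Finset.mem_range.mp hq
    have e : j - q + 1 + q = j + 1 := by omega
    rw [mul_assoc, mul_assoc, cA_comm, mul_assoc, ← pow_succ, ← pow_add, e]
  rw [Finset.sum_congr rfl h2, Finset.sum_const, Finset.card_range, nsmul_eq_mul]
  push_cast
  simp only [map_add, map_one, map_natCast]
  ring

theorem cD_m [CharZero K] {al : K} (hR : RSt K al kap) (hF : FullSt K al kap) (j : ℕ)
    (f : CM K) : cA (FW al kap j f * mA) = Dc al kap (f * X (Sum.inr j)) := by
  have h1 := FW_smul hR (kap := kap) j f 1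
  rw [mul_one, oA_1, mul_zero, map_zero, zero_smul, smul_zero, add_zero, one_smul] at h1
  rw [h1, add_mul, add_mul, map_add, map_add, smul_mul_assoc, cA_smul, Dc_y hF, smul_mul_assoc,
    cA_smul, sg_mul_m, cA_inr, add_zero, one_mul, smul_mul_assoc, cA_ksmul,
    Finset.sum_mul, map_sum, hF.Dc_mul, oA_inr, smul_eq_C_mul]
  have h2 : ∑ q ∈ Finset.range (j + 1), cA (wA ^ q * oA kap f * wA ^ (j - q) * mA) =
      cA (oA kap f * Ow kap j) := by
    unfold Ow
    rw [Finset.mul_sum, map_sum, ← Finset.sum_range_reflect]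
    refine Finset.sum_congr rfl fun q hq => ?_
    have hq' := Finset.mem_range.mp hq
    have e : j + 1 - 1 - q = j - q := by omega
    have e2 : j - (j - q) = q := by omega
    rw [e, e2, mul_assoc, mul_assoc, cA_comm]
    simp only [mul_assoc]
  rw [h2]
  ring

theorem close [CharZero K] {al : K} (hR : RSt K al kap) (hF : FullSt K al kap) :
    CloseSt K al kap where
  cR := cR'
  cD := by
    have hD : ∀ x : AM K kap, D0 al kap x = Full al kap x - Rop al kap x := fun _ => rfl
    have hw : ∀ x : AM K kap, cA (D0 al kap (x * wA)) = cA (Full al kap x * wA) := by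
      intro x
      rw [hD, map_sub, hF.w, map_add, cR', add_sub_cancel_right]
    have hw' : ∀ x : AM K kap, cA (D0 al kap (wA * x)) = cA (Full al kap x * wA) := by
      intro x
      rw [hD, hF.wl, add_sub_cancel_right, cA_comm]
    have hm : ∀ x : AM K kap, cA (D0 al kap (x * mA)) = cA (Full al kap x * mA) := by
      intro x
      rw [hD, map_sub, hF.m, map_add, cR', add_sub_cancel_right]
    intro x
    refine sg_induction (P := fun x => cA (D0 al kap x) = Dc al kap (cA x)) x ?_ ?_ ?_
    · rw [map_zero, map_zero, map_zero]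
    · intro x y hx hy
      rw [map_add, map_add, map_add, map_add, hx, hy]
    · intro i f
      rcases i with j | ⟨j, a⟩
      · rcases j with _ | j
        · rw [hD, Full_inl, FW_zero, Rop_inl, rW, smul_zero, zero_add, cA_inl, if_pos rfl, mul_zero,
            map_zero, ← one_def, mul_one, add_sub_cancel_right, cA_one]
        · rw [← sg_mul_w, hw, Full_inl, cD_w hR hF, sg_mul_w, cA_inl,
            if_neg (Nat.succ_ne_zero j)]
      · induction a generalizing j with
        | zero => rw [← sg_mul_m, hm, Full_inl, cD_m hR hF, sg_mul_m, cA_inr, add_zero]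
        | succ a ih =>
          have h1 : (wA * sg (Sum.inr (j, a)) f : AM K kap) = sg (Sum.inr (j + 1, a)) f := by
            rw [wA, sg_mul_sg, bp, one_mul, ← sg_eq, add_comm 1 j]
          have e : j + 1 + a = j + (a + 1) := by omega
          rw [← sg1_mul_w, hw, ← hw', h1, ih, sg1_mul_w, cA_inr, cA_inr, e]

end

end Pool.Agent.MJX
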