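import Pool.Agent.MJX.TMod

/-!
The rules for doubling.
-/

namespace Pool.Agent.MJX

open MvPolynomial Pool.Agent.MJR

noncomputable section

variable {K : Type} [Field K] {kap : K}

namespace EModM

theorem iA_apply (f : CM K) : iA kap f = f • (1 : AM K kap) := rfl

theorem Ec_mul (f g : CM K) : Ec K (f * g) = f * Ec K g + g * Ec K f := (Ec K).leibniz f g

theorem Ec_inl (k : ℕ) : Ec K (X (Sum.inl k)) = (k : K) • (X (Sum.inl (k + 1)) : CM K) := by
  unfold Ec
  rw [mkDerivation_X]

theorem Ec_inr (c : ℕ) : Ec K (X (Sum.inr c)) = (c : K) • (X (Sum.inr (c + 1)) : CM K) := by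
  unfold Ec
  rw [mkDerivation_X]

theorem EA_inl (j : ℕ) (f : CM K) : EA kap (sg (Sum.inl j) f) =
    f • ((j : K) • wA ^ (j + 1)) + Ec K f • wA ^ j := by
  unfold EA
  rw [FO_sg, LinearMap.comp_apply, iA_apply, AM_smul_mul, one_mul, sg_inl, one_smul]
  rfl

theorem EA_inr (j a : ℕ) (f : CM K) : EA kap (sg (Sum.inr (j, a)) f) =
    f • ((j : K) • (wA ^ (j + 1) * mA * wA ^ a) + (a : K) • (wA ^ j * mA * wA ^ (a + 1))) +
      Ec K f • (wA ^ j * mA * wA ^ a) := by
  unfold EA
  rw [FO_sg, LinearMap.comp_apply, iA_apply, AM_smul_mul, one_mul, sg_inr, one_smul]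
  rfl

theorem EA_smul (f : CM K) (x : AM K kap) : EA kap (f • x) = f • EA kap x + Ec K f • x := by
  unfold EA
  rw [FO_smul _ ?_]
  · rw [LinearMap.comp_apply, iA_apply, AM_smul_mul, one_mul]
    rfl
  · intro f g
    change iA kap (Ec K (f * g)) = f • iA kap (Ec K g) + g • iA kap (Ec K f)
    rw [iA_apply, iA_apply, iA_apply, Ec_mul, add_smul, mul_smul, mul_smul]

theorem EA_one : EA kap (1 : AM K kap) = 0 := by
  rw [one_def, EA_inl, Nat.cast_zero, zero_smul, smul_zero, Derivation.map_one_eq_zero,
    zero_smul, add_zero]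

theorem EA_w (x : AM K kap) : EA kap (x * wA) = EA kap x * wA + x * wA * wA := by
  refine sg_induction (P := fun x => EA kap (x * wA) = EA kap x * wA + x * wA * wA) x ?_ ?_ ?_
  · simp
  · intro x y hx hy
    rw [add_mul, map_add, map_add, hx, hy, add_mul, add_mul]
    abel
  · intro i f
    rcases i with j | ⟨j, a⟩
    · rw [sg_mul_w, EA_inl, EA_inl, sg_mul_w, sg_inl]
      simp only [add_mul, smul_mul_assoc, ← pow_succ, ksmul, Nat.cast_add, Nat.cast_one, C_add,
        C_1]
      module
    · rw [sg1_mul_w, EA_inr, EA_inr, sg1_mul_w, sg_inr]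
      simp only [add_mul, smul_mul_assoc, mul_assoc, ← pow_succ, ksmul, Nat.cast_add,
        Nat.cast_one, C_add, C_1]
      module

theorem EA_m (x : AM K kap) : EA kap (x * mA) = EA kap x * mA := by
  refine sg_induction (P := fun x => EA kap (x * mA) = EA kap x * mA) x ?_ ?_ ?_
  · simp
  · intro x y hx hy
    rw [add_mul, map_add, map_add, hx, hy, add_mul]
  · intro i f
    rcases i with j | ⟨j, a⟩
    · rw [sg_mul_m, EA_inr, EA_inl]
      simp only [add_mul, smul_mul_assoc, pow_zero, mul_one, Nat.cast_zero, zero_smul, add_zero]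
    · have h1 : ∀ i c : ℕ, (wA ^ i * mA * wA ^ c * mA : AM K kap) =
          (C kap * X (Sum.inr c) : CM K) • (wA ^ i * mA) := by
        intro i c
        rw [mul_assoc (wA ^ i), mul_assoc (wA ^ i), m_w_m, AM_mul_smul]
      have h2 : Ec K (f * (C kap * X (Sum.inr a))) =
          f * (C kap * ((a : K) • (X (Sum.inr (a + 1)) : CM K))) +
            C kap * X (Sum.inr a) * Ec K f := by
        rw [Ec_mul, Ec_mul, Ec_inr, ← algebraMap_eq, Derivation.map_algebraMap, mul_zero,
          add_zero]
      rw [sg1_mul_m, EA_inr, EA_inr, h2]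
      simp only [add_mul, smul_mul_assoc, pow_zero, mul_one, Nat.cast_zero, zero_smul, add_zero,
        h1, ksmul, smul_eq_C_mul]
      module

theorem EA_rev (x : AM K kap) : rv (EA kap x) = EA kap (rv x) := by
  refine sg_induction (P := fun x => rv (EA kap x) = EA kap (rv x)) x ?_ ?_ ?_
  · simp
  · intro x y hx hy
    rw [map_add, map_add, map_add, map_add, hx, hy]
  · intro i f
    rcases i with j | ⟨j, a⟩
    · rw [rv_inl, EA_inl, ksmul, map_add, map_smul, map_smul, map_smul, w_pow, w_pow, rv_inl,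
        rv_inl]
    · rw [rv_inr, EA_inr, EA_inr, ksmul, ksmul, ksmul, ksmul, map_add, map_smul, map_smul,
        map_add, map_smul, map_smul, rv_wmw, rv_wmw, rv_wmw, add_comm (_ • (wA ^ (a + 1) * _ * _))]

theorem EA_wl (x : AM K kap) : EA kap (wA * x) = wA * EA kap x + wA * wA * x := by
  have h1 : wA * x = rv (rv x * wA) := by rw [rv_mul, rv_rv, rv_w]
  rw [h1, ← EA_rev, EA_w, map_add, rv_mul, rv_mul, rv_mul, rv_rv, rv_w, ← EA_rev, rv_rv,
    ← mul_assoc]

theorem EA_ml (x : AM K kap) : EA kap (mA * x) = mA * EA kap x := by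
  have h1 : mA * x = rv (rv x * mA) := by rw [rv_mul, rv_rv, rv_m]
  rw [h1, ← EA_rev, EA_m, rv_mul, rv_m, ← EA_rev, rv_rv]

theorem EA_c (x : AM K kap) : cA (EA kap x) = Ec K (cA x) := by
  refine sg_induction (P := fun x => cA (EA kap x) = Ec K (cA x)) x ?_ ?_ ?_
  · simp
  · intro x y hx hy
    rw [map_add, map_add, map_add, map_add, hx, hy]
  · intro i f
    rcases i with j | ⟨j, a⟩
    · rw [EA_inl, cA_inl, ksmul, map_add, map_smul, map_smul, map_smul, w_pow, w_pow, cA_inl,
        cA_inl, if_neg (Nat.succ_ne_zero j), Ec_mul]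
      by_cases hj : j = 0
      · rw [if_pos hj, hj]
        simp
      · rw [if_neg hj, Ec_inl]
        simp only [smul_eq_mul, smul_eq_C_mul]
        ring
    · rw [EA_inr, cA_inr, ksmul, ksmul, map_add, map_smul, map_smul, map_add, map_smul, map_smul,
        cA_wmw, cA_wmw, cA_wmw, Ec_mul, Ec_inr]
      have e1 : j + 1 + a = j + a + 1 := by ring
      have e2 : j + (a + 1) = j + a + 1 := by ring
      simp only [smul_eq_mul, smul_eq_C_mul, e1, e2, Nat.cast_add, C_add]
      ring

theorem o0_mul (f g : CM K) : o0 kap (f * g) = f • o0 kap g + g • o0 kap f :=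
  (o0 kap).leibniz f g

theorem o1_mul (f g : CM K) : o1 kap (f * g) = f • o1 kap g + g • o1 kap f :=
  (o1 kap).leibniz f g

theorem o0_inl (k : ℕ) : o0 kap (X (Sum.inl k) : CM K) = (k : K) • wA ^ k := by
  unfold o0
  rw [mkDerivation_X]

theorem o0_inr (c : ℕ) : o0 kap (X (Sum.inr c) : CM K) = Ow0 kap c := by
  unfold o0
  rw [mkDerivation_X]

theorem o1_inl (k : ℕ) : o1 kap (X (Sum.inl k) : CM K) = 0 := by
  unfold o1
  rw [mkDerivation_X]

theorem o1_inr (c : ℕ) : o1 kap (X (Sum.inr c) : CM K) = wA ^ c * mA := by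
  unfold o1
  rw [mkDerivation_X]

theorem o0_C (c : K) : o0 kap (C c : CM K) = 0 := by
  rw [← algebraMap_eq, Derivation.map_algebraMap]

theorem o1_C (c : K) : o1 kap (C c : CM K) = 0 := by
  rw [← algebraMap_eq, Derivation.map_algebraMap]

theorem Ec_C (c : K) : Ec K (C c : CM K) = 0 := by
  rw [← algebraMap_eq, Derivation.map_algebraMap]

theorem o0_smul (c : K) (f : CM K) : o0 kap (c • f) = c • o0 kap f :=
  (o0 kap).toLinearMap.map_smul c f

theorem o1_smul (c : K) (f : CM K) : o1 kap (c • f) = c • o1 kap f :=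
  (o1 kap).toLinearMap.map_smul c f

theorem EA_co (f : CM K) : cA (wA * o0 kap f) = Ec K f := by
  induction f using MvPolynomial.induction_on with
  | C c => rw [o0_C, Ec_C, mul_zero, map_zero]
  | add p q hp hq => rw [map_add, map_add, mul_add, map_add, hp, hq]
  | mul_X p v hp =>
    have hb : cA (wA * o0 kap (X v : CM K)) = Ec K (X v) := by
      rcases v with k | c
      · rw [o0_inl, Ec_inl, ksmul, AM_mul_smul, map_smul, ← pow_succ', w_pow, cA_inl,
          if_neg (Nat.succ_ne_zero k), smul_eq_mul, one_mul, smul_eq_C_mul]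
      · rw [o0_inr, Ec_inr, Ow0, Finset.mul_sum, map_sum]
        have h1 : ∀ l ∈ Finset.range c, cA (wA * (wA ^ l * mA * wA ^ (c - l)) : AM K kap) =
            (X (Sum.inr (c + 1)) : CM K) := by
          intro l hl
          have hl' := Finset.mem_range.mp hl
          rw [← mul_assoc, ← mul_assoc, ← pow_succ', cA_wmw]
          congr 2
          omega
        rw [Finset.sum_congr rfl h1, Finset.sum_const, Finset.card_range, smul_eq_C_mul,
          map_natCast, nsmul_eq_mul]
    rw [o0_mul, Ec_mul, mul_add, map_add, AM_mul_smul, AM_mul_smul, map_smul, map_smul, hp, hb]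
    rfl

theorem EA_o1 (f : CM K) : o1 kap (Ec K f) = EA kap (o1 kap f) := by
  induction f using MvPolynomial.induction_on with
  | C c => rw [o1_C, Ec_C, map_zero, map_zero]
  | add p q hp hq => rw [map_add, map_add, map_add, map_add, hp, hq]
  | mul_X p v hp =>
    have hb : o1 kap (Ec K (X v)) = EA kap (o1 kap (X v : CM K)) := by
      rcases v with k | c
      · rw [Ec_inl, o1_smul, o1_inl, o1_inl, smul_zero, map_zero]
      · rw [Ec_inr, o1_smul, o1_inr, o1_inr, EA_m, w_pow c, EA_inl, Derivation.map_one_eq_zero,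
          one_smul, zero_smul, add_zero, smul_mul_assoc]
    rw [Ec_mul, o1_mul, map_add, o1_mul, o1_mul, hp, hb, map_add, EA_smul, EA_smul]
    abel

theorem EA_o0 (f : CM K) : o0 kap (Ec K f) = EA kap (o0 kap f) + wA * o0 kap f := by
  induction f using MvPolynomial.induction_on with
  | C c => rw [o0_C, Ec_C, map_zero, map_zero, mul_zero, add_zero]
  | add p q hp hq =>
    rw [map_add, map_add, map_add, map_add, hp, hq, mul_add]
    abel
  | mul_X p v hp =>
    have hb : o0 kap (Ec K (X v)) = EA kap (o0 kap (X v : CM K)) + wA * o0 kap (X v : CM K) := by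
      rcases v with k | c
      · rw [Ec_inl, o0_smul, o0_inl, o0_inl, ksmul (k : K) (wA ^ k), EA_smul, Ec_C, zero_smul,
          add_zero, w_pow k, EA_inl, Derivation.map_one_eq_zero, zero_smul, add_zero, one_smul,
          AM_mul_smul, ← w_pow, ← pow_succ']
        simp only [ksmul, Nat.cast_add, Nat.cast_one, C_add, C_1]
        module
      · rw [Ec_inr, o0_smul, o0_inr, o0_inr]
        unfold Ow0
        rw [map_sum, Finset.mul_sum, ← Finset.sum_add_distrib, Finset.smul_sum]
        have h1 : ∀ l ∈ Finset.range c, EA kap (wA ^ l * mA * wA ^ (c - l) : AM K kap) +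
            wA * (wA ^ l * mA * wA ^ (c - l)) =
            ((l + 1 : ℕ) : K) • (wA ^ (l + 1) * mA * wA ^ (c + 1 - (l + 1))) +
              ((c - l : ℕ) : K) • (wA ^ l * mA * wA ^ (c + 1 - l)) := by
          intro l hl
          have hl' := Finset.mem_range.mp hl
          have e1 : c + 1 - (l + 1) = c - l := by omega
          have e2 : c + 1 - l = c - l + 1 := by omega
          rw [w_m_w, EA_inr, Derivation.map_one_eq_zero, zero_smul, add_zero, one_smul, ← w_m_w,
            ← mul_assoc, ← mul_assoc, ← pow_succ', e1, e2]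
          simp only [ksmul, Nat.cast_add, Nat.cast_one, C_add, C_1]
          module
        have h2 : ∑ l ∈ Finset.range c,
            ((l + 1 : ℕ) : K) • (wA ^ (l + 1) * mA * wA ^ (c + 1 - (l + 1)) : AM K kap) =
            ∑ l ∈ Finset.range (c + 1), (l : K) • (wA ^ l * mA * wA ^ (c + 1 - l)) := by
          rw [Finset.sum_range_succ', Nat.cast_zero, zero_smul, add_zero]
        have h3 : ∑ l ∈ Finset.range c,
            ((c - l : ℕ) : K) • (wA ^ l * mA * wA ^ (c + 1 - l) : AM K kap) =
            ∑ l ∈ Finset.range (c + 1), ((c - l : ℕ) : K) • (wA ^ l * mA * wA ^ (c + 1 - l)) := by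
          rw [Finset.sum_range_succ, Nat.sub_self, Nat.cast_zero, zero_smul, add_zero]
        rw [Finset.sum_congr rfl h1, Finset.sum_add_distrib, h2, h3, ← Finset.sum_add_distrib]
        refine Finset.sum_congr rfl fun l hl => ?_
        have hl' := Finset.mem_range.mp hl
        rw [← add_smul, ← Nat.cast_add]
        congr 3
        omega
    rw [Ec_mul, o0_mul, map_add, o0_mul, o0_mul, hp, hb, map_add, EA_smul, EA_smul, mul_add,
      AM_mul_smul, AM_mul_smul, smul_add, smul_add]
    abel

end EModM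

open EModM in
theorem eSt [CharZero K] (al : K) (hk : al * kap ^ 2 = (al - 1) * kap + 1) : ESt K al kap := by
  have hT := tSt (kap := kap) al hk
  have ht1 : ∀ x : AM K kap, T1 al kap (EA kap x) = EA kap (T1 al kap x) := by
    intro x
    have h := lin_ext (F := T1 al kap ∘ₗ EA kap) (G := EA kap ∘ₗ T1 al kap) ?_ ?_ ?_
    · exact LinearMap.congr_fun h x
    · intro f
      simp only [LinearMap.comp_apply]
      rw [EA_smul, EA_one, smul_zero, zero_add, hT.smul1, hT.smul1, hT.one1, smul_zero, smul_zero,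
        zero_add, zero_add, mul_one, mul_one, map_smul, EA_o1]
    · intro x hx
      simp only [LinearMap.comp_apply] at hx ⊢
      rw [EA_w, map_add, hT.w1, hT.w1, hT.w1, hx, EA_w]
    · intro x hx
      simp only [LinearMap.comp_apply] at hx ⊢
      rw [EA_m, hT.m1, hx, hT.m1, map_add, map_add, EA_m, EA_smul, EA_one, smul_zero, zero_add,
        ← EA_m x, EA_c, ksmul (al - 1) (rv x * mA), EA_smul, Ec_C, zero_smul, add_zero,
        EA_m (rv x), EA_rev, ksmul]
  have ht0 : ∀ x : AM K kap,
      T0 al kap (EA kap x) = EA kap (T0 al kap x) + wA * T0 al kap x := by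
    intro x
    have h := lin_ext (F := T0 al kap ∘ₗ EA kap)
      (G := EA kap ∘ₗ T0 al kap + LinearMap.mulLeft K wA ∘ₗ T0 al kap) ?_ ?_ ?_
    · exact LinearMap.congr_fun h x
    · intro f
      simp only [LinearMap.comp_apply, LinearMap.add_apply, LinearMap.mulLeft_apply]
      rw [EA_smul, EA_one, smul_zero, zero_add, hT.smul0, hT.smul0, hT.one0, smul_zero, smul_zero,
        zero_add, zero_add, mul_one, mul_one, map_smul, EA_o0, smul_add, mul_smul_comm]
    · intro x hx
      simp only [LinearMap.comp_apply, LinearMap.add_apply, LinearMap.mulLeft_apply] at hx ⊢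
      have h1 : Ec K (cA (x * wA)) = cA (EA kap x * wA) + cA (x * wA * wA) := by
        rw [← EA_c, EA_w, map_add]
      have h2 : T0 al kap (x * wA * wA) = T0 al kap x * wA * wA + cA (x * wA) • wA +
          (al - 1) • (rv x * wA * wA) + cA (x * wA * wA) • (1 : AM K kap) +
            (al - 1) • (wA * rv x * wA) := by
        rw [hT.w0 (x * wA), hT.w0 x, rv_mul, rv_w]
        simp only [add_mul, smul_mul_assoc, one_mul]
      rw [EA_w, map_add, hT.w0 (EA kap x), hx, h2, hT.w0 x, map_add, map_add, EA_w, EA_smul,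
        EA_one, smul_zero, zero_add, h1, ksmul (al - 1) (rv x * wA), EA_smul, Ec_C, zero_smul,
        add_zero, EA_w, EA_rev]
      simp only [add_mul, mul_add, smul_add, add_smul, ksmul, AM_mul_smul, mul_one, mul_assoc]
      abel
    · intro x hx
      simp only [LinearMap.comp_apply, LinearMap.add_apply, LinearMap.mulLeft_apply] at hx ⊢
      rw [EA_m, hT.m0, hx, hT.m0, EA_m, add_mul, mul_assoc]
  exact
    { smul := EA_smul
      one := EA_one
      w := EA_w
      m := EA_m
      wl := EA_wl
      ml := EA_ml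
      c := EA_c
      rev := EA_rev
      co := EA_co
      t0 := ht0
      r := by
        intro x
        have h3 : ∀ c : K, EA kap (c • x) = c • EA kap x := fun c => map_smul _ c x
        rw [hT.sum, hT.sum, ht0, ht1, EA_rev]
        simp only [map_add, map_sub, map_smul]
        module }

end

end Pool.Agent.MJX
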