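import Pool.Agent.MJX.St

/-!
The touches of the end gap commute with the touches of the letters.
-/

namespace Pool.Agent.MJX

open MvPolynomial Pool.Agent.MJR Finset

noncomputable section

namespace Thx

/-! ### Sums over triangles -/

section tri

variable {M : Type} [AddCommMonoid M]

theorem tri1 (c : ℕ) (G : ℕ → ℕ → ℕ → M) :
    ∑ l ∈ range c, ∑ i ∈ range (c - l), G l i (c - l - i) =
      ∑ l ∈ range (c + 1), ∑ i ∈ range l, G i (c - l) (l - i) := by
  rw [sum_sigma', sum_sigma']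
  refine sum_nbij' (fun x => ⟨c - x.2, x.1⟩) (fun x => ⟨x.2, c - x.1⟩) ?_ ?_ ?_ ?_ ?_
  · rintro ⟨l, i⟩ h
    simp only [mem_sigma, mem_range] at h ⊢
    omega
  · rintro ⟨l, i⟩ h
    simp only [mem_sigma, mem_range] at h ⊢
    omega
  · rintro ⟨l, i⟩ h
    simp only [mem_sigma, mem_range] at h ⊢
    have h1 : c - (c - i) = i := by omega
    rw [h1]
  · rintro ⟨l, i⟩ h
    simp only [mem_sigma, mem_range] at h ⊢
    have h1 : c - (c - l) = l := by omega
    rw [h1]
  · rintro ⟨l, i⟩ h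
    simp only [mem_sigma, mem_range] at h ⊢
    have h1 : c - (c - i) = i := by omega
    have h2 : c - l - i = c - i - l := by omega
    rw [h1, h2]

theorem tri2 (c : ℕ) (G : ℕ → ℕ → ℕ → M) :
    ∑ l ∈ range c, ∑ i ∈ range (c - l), G l i (c - l - i) =
      ∑ l ∈ range (c + 1), ∑ i ∈ range (c - l), G i l (c - l - i) := by
  rw [sum_sigma', sum_sigma']
  refine sum_nbij' (fun x => ⟨x.2, x.1⟩) (fun x => ⟨x.2, x.1⟩) ?_ ?_ ?_ ?_ ?_
  · rintro ⟨l, i⟩ h
    simp only [mem_sigma, mem_range] at h ⊢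
    omega
  · rintro ⟨l, i⟩ h
    simp only [mem_sigma, mem_range] at h ⊢
    omega
  · rintro ⟨l, i⟩ h
    rfl
  · rintro ⟨l, i⟩ h
    rfl
  · rintro ⟨l, i⟩ h
    simp only [mem_sigma, mem_range] at h ⊢
    have h2 : c - l - i = c - i - l := by omega
    rw [h2]

theorem tri3 (c : ℕ) (G : ℕ → ℕ → ℕ → M) :
    ∑ l ∈ range c, ∑ i ∈ range (l + 1), G (l - i) (c - l) i =
      ∑ l ∈ range (c + 1), ∑ i ∈ range (c - l), G l (c - l - i) i := by
  rw [sum_sigma', sum_sigma']
  refine sum_nbij' (fun x => ⟨x.1 - x.2, x.2⟩) (fun x => ⟨x.1 + x.2, x.2⟩) ?_ ?_ ?_ ?_ ?_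
  · rintro ⟨l, i⟩ h
    simp only [mem_sigma, mem_range] at h ⊢
    omega
  · rintro ⟨l, i⟩ h
    simp only [mem_sigma, mem_range] at h ⊢
    omega
  · rintro ⟨l, i⟩ h
    simp only [mem_sigma, mem_range] at h ⊢
    have h1 : l - i + i = l := by omega
    rw [h1]
  · rintro ⟨l, i⟩ h
    simp only [mem_sigma, mem_range] at h ⊢
    have h1 : l + i - i = l := by omega
    rw [h1]
  · rintro ⟨l, i⟩ h
    simp only [mem_sigma, mem_range] at h ⊢
    have h1 : c - (l - i) - i = c - l := by omega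
    rw [h1]

theorem tri4 (c : ℕ) (G : ℕ → ℕ → ℕ → M) :
    ∑ l ∈ range c, ∑ i ∈ range (l + 1), G i (c - l) (l - i) =
      ∑ l ∈ range (c + 1), ∑ i ∈ range l, G i (l - i) (c - l) := by
  rw [sum_sigma', sum_sigma']
  refine sum_nbij' (fun x => ⟨c - x.1 + x.2, x.2⟩) (fun x => ⟨c - x.1 + x.2, x.2⟩) ?_ ?_ ?_ ?_ ?_
  · rintro ⟨l, i⟩ h
    simp only [mem_sigma, mem_range] at h ⊢
    omega
  · rintro ⟨l, i⟩ h
    simp only [mem_sigma, mem_range] at h ⊢
    omega
  · rintro ⟨l, i⟩ h
    simp only [mem_sigma, mem_range] at h ⊢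
    have h1 : c - (c - l + i) + i = l := by omega
    rw [h1]
  · rintro ⟨l, i⟩ h
    simp only [mem_sigma, mem_range] at h ⊢
    have h1 : c - (c - l + i) + i = l := by omega
    rw [h1]
  · rintro ⟨l, i⟩ h
    simp only [mem_sigma, mem_range] at h ⊢
    have h1 : c - l + i - i = c - l := by omega
    have h2 : c - (c - l + i) = l - i := by omega
    rw [h1, h2]

end tri

section ms
variable {K V : Type} [Field K] [AddCommGroup V] [Module K V]

theorem ms1 (F : ℕ → V) (t : ℕ) : ∑ k ∈ range (t + 1), (k : K) • F k +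
    ∑ k ∈ range (t + 1), ∑ q ∈ range k, F q = (t : K) • ∑ q ∈ range (t + 1), F q := by
  induction t with
  | zero => simp
  | succ t ih =>
    rw [sum_range_succ _ (t + 1), sum_range_succ _ (t + 1), sum_range_succ F (t + 1)]
    have e : ∑ k ∈ range (t + 1), (k : K) • F k + ((t + 1 : ℕ) : K) • F (t + 1) +
        (∑ k ∈ range (t + 1), ∑ q ∈ range k, F q + ∑ q ∈ range (t + 1), F q) =
        (∑ k ∈ range (t + 1), (k : K) • F k + ∑ k ∈ range (t + 1), ∑ q ∈ range k, F q) +
        ((t + 1 : ℕ) : K) • F (t + 1) + ∑ q ∈ range (t + 1), F q := by abel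
    rw [e, ih]
    push_cast
    module

theorem ms2 (F : ℕ → V) (t : ℕ) : ∑ k ∈ range t, (k : K) • F k +
    ∑ k ∈ range t, ∑ q ∈ range (k + 1), F q = (t : K) • ∑ q ∈ range t, F q := by
  induction t with
  | zero => simp
  | succ t ih =>
    rw [sum_range_succ _ t, sum_range_succ _ t, sum_range_succ F t]
    have e : ∑ k ∈ range t, (k : K) • F k + (t : K) • F t +
        (∑ k ∈ range t, ∑ q ∈ range (k + 1), F q + (∑ q ∈ range t, F q + F t)) =
        (∑ k ∈ range t, (k : K) • F k + ∑ k ∈ range t, ∑ q ∈ range (k + 1), F q) +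
        (t : K) • F t + (∑ q ∈ range t, F q + F t) := by abel
    rw [e, ih]
    push_cast
    module

theorem ms3 (F : ℕ → V) (t : ℕ) : ∑ k ∈ range t, ((t - k : ℕ) : K) • F k =
    ∑ k ∈ range t, ∑ q ∈ range (k + 1), F q := by
  induction t with
  | zero => simp
  | succ t ih =>
    rw [sum_range_succ _ t, sum_range_succ _ t, ← ih]
    have e : ∑ k ∈ range t, ((t + 1 - k : ℕ) : K) • F k =
        ∑ k ∈ range t, ((t - k : ℕ) : K) • F k + ∑ k ∈ range t, F k := by
      rw [← sum_add_distrib]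
      apply sum_congr rfl
      intro k hk
      have hk' := mem_range.1 hk
      have h1 : t + 1 - k = (t - k) + 1 := by omega
      rw [h1]
      push_cast
      module
    rw [e, sum_range_succ F t, Nat.add_sub_cancel_left]
    push_cast
    module

theorem ms4 (F : ℕ → V) (s t : ℕ) : ∑ l ∈ range t, F (s + t - (l + 1)) + ∑ k ∈ range s, F k =
    ∑ k ∈ range (s + t), F k := by
  rw [sum_range_add, add_comm]
  congr 1
  rw [← sum_range_reflect]
  apply sum_congr rfl
  intro k hk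
  have hk' := mem_range.1 hk
  congr 1
  omega

theorem msal (F : ℕ → V) (j a : ℕ) :
    ∑ i ∈ range a, ((a - i : ℕ) : K) • F i +
      ∑ i ∈ range (j + 1), ∑ l ∈ range (j + a - i), F (j + a - l) =
    ∑ i ∈ range j, ((j - i : ℕ) : K) • F (j + a - i) +
      ∑ i ∈ range a, ∑ k ∈ range (j + a - i + 1), F k := by
  obtain ⟨h, hh⟩ : ∃ h : ℕ → V, h = fun t => ∑ q ∈ range t, F q := ⟨_, rfl⟩
  have hh' : ∀ t, ∑ q ∈ range t, F q = h t := fun t => by rw [hh]
  have k4 : ∀ t, t ≤ j + a + 1 → ∑ l ∈ range t, F (j + a - l) = h (j + a + 1) - h (j + a + 1 - t) := by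
    intro t ht
    have h1 := ms4 F (j + a + 1 - t) t
    have h2 : j + a + 1 - t + t = j + a + 1 := by omega
    rw [h2, hh', hh'] at h1
    rw [eq_sub_iff_add_eq, ← h1]
    congr 1
    apply sum_congr rfl
    intro l _
    congr 1
    omega
  have kk : ∀ s t, ∑ i ∈ range t, h (s + t - i) = ∑ k ∈ range (s + t), h (k + 1) -
      ∑ k ∈ range s, h (k + 1) := by
    intro s t
    rw [eq_sub_iff_add_eq, ← ms4 (fun k => h (k + 1)) s t]
    congr 1
    apply sum_congr rfl
    intro i hi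
    have hi' := mem_range.1 hi
    congr 1
    omega
  rw [ms3, ms3 (fun i => F (j + a - i))]
  have e1 : ∑ i ∈ range (j + 1), ∑ l ∈ range (j + a - i), F (j + a - l) =
      ∑ i ∈ range (j + 1), (h (j + a + 1) - h (i + 1)) := by
    apply sum_congr rfl
    intro i hi
    have hi' := mem_range.1 hi
    rw [k4 _ (by omega)]
    congr 2
    omega
  have e2 : ∑ k ∈ range j, ∑ q ∈ range (k + 1), F (j + a - q) =
      ∑ k ∈ range j, (h (j + a + 1) - h (a + j - k)) := by
    apply sum_congr rfl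
    intro i hi
    have hi' := mem_range.1 hi
    rw [k4 _ (by omega)]
    congr 2
    omega
  have e3 : ∑ i ∈ range a, ∑ k ∈ range (j + a - i + 1), F k =
      ∑ i ∈ range a, h ((j + 1) + a - i) := by
    apply sum_congr rfl
    intro i hi
    have hi' := mem_range.1 hi
    rw [hh']
    congr 1
    omega
  rw [e1, e2, e3]
  simp only [hh', sum_sub_distrib, sum_const, card_range, kk]
  have e4 : j + 1 + a = a + j + 1 := by omega
  have e5 : j + a + 1 = a + j + 1 := by omega
  rw [e4, e5, sum_range_succ _ (a + j)]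
  module

theorem msbb (F : ℕ → V) (j a : ℕ) :
    (a : K) • ∑ l ∈ range a, F (j + a - l) + ∑ k ∈ range (j + 1), ((j + a - k : ℕ) : K) • F k +
      ∑ k ∈ range (j + 1), ∑ l ∈ range k, F (j + a - l) =
    (j : K) • ∑ k ∈ range (j + 1), F k + ∑ l ∈ range a, ((j + a - l : ℕ) : K) • F (j + a - l) +
      ∑ l ∈ range a, ∑ k ∈ range (l + 1), F k := by
  obtain ⟨h, hh⟩ : ∃ h : ℕ → V, h = fun t => ∑ q ∈ range t, F q := ⟨_, rfl⟩
  have hh' : ∀ t, ∑ q ∈ range t, F q = h t := fun t => by rw [hh]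
  have k4 : ∀ t, t ≤ j + a + 1 → ∑ l ∈ range t, F (j + a - l) = h (j + a + 1) - h (j + a + 1 - t) := by
    intro t ht
    have h1 := ms4 F (j + a + 1 - t) t
    have h2 : j + a + 1 - t + t = j + a + 1 := by omega
    rw [h2, hh', hh'] at h1
    rw [eq_sub_iff_add_eq, ← h1]
    congr 1
    apply sum_congr rfl
    intro l _
    congr 1
    omega
  have kk : ∀ s t, ∑ i ∈ range t, h (s + t - i) = ∑ k ∈ range (s + t), h (k + 1) -
      ∑ k ∈ range s, h (k + 1) := by
    intro s t
    rw [eq_sub_iff_add_eq, ← ms4 (fun k => h (k + 1)) s t]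
    congr 1
    apply sum_congr rfl
    intro i hi
    have hi' := mem_range.1 hi
    congr 1
    omega
  have g1 : ∀ (G : ℕ → V) (t : ℕ), t ≤ j + a + 1 → ∑ k ∈ range t, ((j + a - k : ℕ) : K) • G k =
      ((j : K) + a) • ∑ k ∈ range t, G k - ∑ k ∈ range t, (k : K) • G k := by
    intro G t ht
    rw [smul_sum, ← sum_sub_distrib]
    apply sum_congr rfl
    intro k hk
    have hk' := mem_range.1 hk
    rw [Nat.cast_sub (by omega)]
    push_cast
    module
  have s2 : ∀ (G : ℕ → V) (t : ℕ), ∑ k ∈ range t, (k : K) • G k =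
      (t : K) • ∑ q ∈ range t, G q - ∑ k ∈ range t, ∑ q ∈ range (k + 1), G q := by
    intro G t
    rw [eq_sub_iff_add_eq]
    exact ms2 G t
  have e1 : ∑ k ∈ range (j + 1), ∑ l ∈ range k, F (j + a - l) =
      ∑ i ∈ range (j + 1), (h (j + a + 1) - h (a + (j + 1) - i)) := by
    apply sum_congr rfl
    intro i hi
    have hi' := mem_range.1 hi
    rw [k4 _ (by omega)]
    congr 2
    omega
  have e2 : ∑ k ∈ range a, ∑ q ∈ range (k + 1), F (j + a - q) =
      ∑ k ∈ range a, (h (j + a + 1) - h (j + a - k)) := by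
    apply sum_congr rfl
    intro i hi
    have hi' := mem_range.1 hi
    rw [k4 _ (by omega)]
    congr 2
    omega
  have e3 : ∑ l ∈ range a, F (j + a - l) = h (j + a + 1) - h (j + 1) := by
    rw [k4 _ (by omega)]
    congr 2
    omega
  rw [g1 F (j + 1) (by omega), g1 (fun k => F (j + a - k)) a (by omega), s2 F, s2 (fun k => F (j + a - k)),
    e1, e2, e3]
  simp only [hh', sum_sub_distrib, sum_const, card_range, kk]
  have e4 : a + (j + 1) = j + a + 1 := by omega
  rw [e4, sum_range_succ _ (j + a), sum_range_succ _ j]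
  push_cast
  module

end ms

variable {K : Type} [Field K] {al kap : K}

/-! ### Derivations -/

theorem oA_p (k : ℕ) : oA kap (X (Sum.inl k)) = (k : K) • wA ^ k := by
  rw [oA, mkDerivation_X]

theorem oA_y (c : ℕ) : oA kap (X (Sum.inr c)) = Ow kap c := by
  rw [oA, mkDerivation_X]

theorem o0_p (k : ℕ) : o0 kap (X (Sum.inl k)) = (k : K) • wA ^ k := by
  rw [o0, mkDerivation_X]

theorem o0_y (c : ℕ) : o0 kap (X (Sum.inr c)) = Ow0 kap c := by
  rw [o0, mkDerivation_X]

theorem o1_p (k : ℕ) : o1 kap (X (Sum.inl k)) = 0 := by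
  rw [o1, mkDerivation_X]

theorem o1_y (c : ℕ) : o1 kap (X (Sum.inr c)) = wA ^ c * mA := by
  rw [o1, mkDerivation_X]

/-! ### Reversal -/

theorem rv_w_pow (k : ℕ) : rv (wA ^ k : AM K kap) = wA ^ k := by
  rw [w_pow, rv_inl]

theorem rv_ksmul (c : K) (x : AM K kap) : rv (c • x) = c • rv x := by
  rw [ksmul, ksmul, map_smul]

theorem cA_ksmul (c : K) (x : AM K kap) : cA (c • x) = c • cA x := by
  rw [ksmul, map_smul, smul_eq_mul, smul_eq_C_mul]

theorem rv_mm (s t : ℕ) : rv (wA ^ s * mA * wA ^ t : AM K kap) = wA ^ t * mA * wA ^ s := by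
  rw [rv_mul, rv_mul, rv_w_pow, rv_w_pow, rv_m, mul_assoc]

theorem rv_Ow (c : ℕ) : rv (Ow kap c) = Ow kap c := by
  unfold Ow
  rw [map_sum, ← sum_range_reflect]
  apply sum_congr rfl
  intro l hl
  have hl' : l ≤ c := Nat.lt_succ_iff.1 (mem_range.1 hl)
  rw [rv_mm]
  have h1 : c + 1 - 1 - l = c - l := by omega
  have h2 : c - (c - l) = l := by omega
  rw [h1, h2]

theorem rv_oA (f : CM K) : rv (oA kap f) = oA kap f := by
  have h : (rv : AM K kap →ₗ[CM K] AM K kap).compDer (oA kap) = oA kap := by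
    apply MvPolynomial.derivation_ext
    intro v
    change rv (oA kap (X v)) = oA kap (X v)
    rcases v with k | c
    · rw [oA_p, rv_ksmul, rv_w_pow]
    · rw [oA_y, rv_Ow]
  have h2 := congrArg (fun D => D f) h
  exact h2

/-! ### The end gap -/

theorem Rb_apply (x : AM K kap) : Rb al kap x = rv (Rop al kap (rv x)) := rfl

theorem Rb_smul (hR : RSt K al kap) (f : CM K) (x : AM K kap) :
    Rb al kap (f • x) = f • Rb al kap x + al • (x * oA kap f) := by
  rw [Rb_apply, Rb_apply, map_smul, hR.smul, map_add, map_smul, rv_ksmul, rv_mul, rv_rv, rv_oA]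

theorem Rb_one (hR : RSt K al kap) : Rb al kap 1 = 0 := by
  rw [Rb_apply, rv_one, hR.one, map_zero]

theorem Rb_w (hR : RSt K al kap) (x : AM K kap) : Rb al kap (wA * x) =
    wA * Rb al kap x + cA (wA * x) • (1 : AM K kap) + (al - 1) • (rv x * wA) := by
  rw [Rb_apply, Rb_apply, rv_mul, rv_w, hR.w, map_add, map_add, rv_mul, rv_w, map_smul, rv_one,
    rv_ksmul, rv_rv]
  congr 3
  rw [cA_comm, ← cA_rv (wA * x), rv_mul, rv_w, cA_comm]

theorem Rb_m (hR : RSt K al kap) (x : AM K kap) : Rb al kap (mA * x) =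
    mA * Rb al kap x + cA (mA * x) • (1 : AM K kap) + (al - 1) • (rv x * mA) := by
  rw [Rb_apply, Rb_apply, rv_mul, rv_m, hR.m, map_add, map_add, rv_mul, rv_m, map_smul, rv_one,
    rv_ksmul, rv_rv]
  congr 3
  rw [cA_comm, ← cA_rv (mA * x), rv_mul, rv_m, cA_comm]

theorem Rb_w_pow (hR : RSt K al kap) (x : AM K kap) (k : ℕ) : Rb al kap (wA ^ k * x) =
    wA ^ k * Rb al kap x + ∑ i ∈ range k, cA (wA ^ (k - i) * x) • (wA ^ i : AM K kap) +
      (al - 1) • ∑ i ∈ range k, wA ^ i * rv x * wA ^ (k - i) := by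
  induction k with
  | zero => simp
  | succ k ih =>
    rw [pow_succ', mul_assoc, Rb_w hR, ih, sum_range_succ' _ k, sum_range_succ' _ k, mul_add,
      mul_add, mul_sum, mul_smul_comm, mul_sum, rv_mul, rv_w_pow]
    have e1 : ∑ i ∈ range k, wA * (cA (wA ^ (k - i) * x) • (wA ^ i : AM K kap)) =
        ∑ i ∈ range k, cA (wA ^ (k + 1 - (i + 1)) * x) • (wA ^ (i + 1) : AM K kap) := by
      apply sum_congr rfl
      intro i _
      rw [mul_smul_comm, ← pow_succ', Nat.add_sub_add_right]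
    have e2 : ∑ i ∈ range k, wA * (wA ^ i * rv x * wA ^ (k - i)) =
        ∑ i ∈ range k, (wA ^ (i + 1) * rv x * wA ^ (k + 1 - (i + 1)) : AM K kap) := by
      apply sum_congr rfl
      intro i _
      rw [← mul_assoc, ← mul_assoc, ← pow_succ', Nat.add_sub_add_right]
    have e3 : wA * (wA ^ k * x) = wA ^ (k + 1) * x := by rw [← mul_assoc, ← pow_succ']
    have e4 : wA * (wA ^ k * Rb al kap x) = wA ^ (k + 1) * Rb al kap x := by
      rw [← mul_assoc, ← pow_succ']
    rw [e1, e2, e3, e4, Nat.sub_zero, pow_zero, one_mul, mul_assoc (rv x), ← pow_succ,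
      ← pow_succ']
    module

theorem T0_w_pow (hT : TSt K al kap) (x : AM K kap) (k : ℕ) : T0 al kap (x * wA ^ k) =
    T0 al kap x * wA ^ k + ∑ i ∈ range k, cA (x * wA ^ (k - i)) • (wA ^ i : AM K kap) +
      (al - 1) • ∑ i ∈ range k, wA ^ i * rv x * wA ^ (k - i) := by
  induction k with
  | zero => simp
  | succ k ih =>
    rw [pow_succ, ← mul_assoc, hT.w0, ih, sum_range_succ' _ k, sum_range_succ _ k, add_mul,
      add_mul, sum_mul, smul_mul_assoc, sum_mul, rv_mul, rv_w_pow]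
    have e1 : ∑ i ∈ range k, cA (x * wA ^ (k - i)) • (wA ^ i : AM K kap) * wA =
        ∑ i ∈ range k, cA (x * wA ^ (k + 1 - (i + 1))) • (wA ^ (i + 1) : AM K kap) := by
      apply sum_congr rfl
      intro i _
      rw [smul_mul_assoc, ← pow_succ, Nat.add_sub_add_right]
    have e2 : ∑ i ∈ range k, wA ^ i * rv x * wA ^ (k - i) * wA =
        ∑ i ∈ range k, (wA ^ i * rv x * wA ^ (k + 1 - i) : AM K kap) := by
      apply sum_congr rfl
      intro i hi
      have hi' := mem_range.1 hi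
      have h3 : k + 1 - i = (k - i) + 1 := by omega
      rw [h3, pow_succ, mul_assoc (wA ^ i * rv x)]
    rw [e1, e2, Nat.sub_zero, pow_zero, mul_assoc x, ← pow_succ, Nat.add_sub_cancel_left, pow_one,
      mul_assoc (T0 al kap x), ← pow_succ]
    module

theorem T1_w_pow (hT : TSt K al kap) (x : AM K kap) (k : ℕ) :
    T1 al kap (x * wA ^ k) = T1 al kap x * wA ^ k := by
  induction k with
  | zero => simp
  | succ k ih => rw [pow_succ, ← mul_assoc, hT.w1, ih, mul_assoc]

/-! ### First order terms -/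

/-- all pairs of exponents -/
theorem Rb_wmw (hR : RSt K al kap) (x : AM K kap) (l t : ℕ) :
    Rb al kap (wA ^ l * mA * wA ^ t * x) = wA ^ l * mA * wA ^ t * Rb al kap x +
      ∑ i ∈ range t, cA (wA ^ (t - i) * x) • (wA ^ l * mA * wA ^ i : AM K kap) +
      (al - 1) • ∑ i ∈ range t, wA ^ l * mA * wA ^ i * rv x * wA ^ (t - i) +
      ∑ i ∈ range (l + 1), cA (wA ^ (l - i) * mA * wA ^ t * x) • (wA ^ i : AM K kap) +
      (al - 1) • ∑ i ∈ range (l + 1), wA ^ i * rv x * wA ^ t * mA * wA ^ (l - i) := by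
  have e0 : wA ^ l * mA * wA ^ t * x = wA ^ l * (mA * (wA ^ t * x)) := by
    simp only [mul_assoc]
  rw [e0, Rb_w_pow hR, Rb_m hR, Rb_w_pow hR, sum_range_succ _ l, sum_range_succ _ l]
  have e1 : wA ^ l * (mA * (wA ^ t * Rb al kap x)) = wA ^ l * mA * wA ^ t * Rb al kap x := by
    simp only [mul_assoc]
  have e2 : wA ^ l * (mA * ∑ i ∈ range t, cA (wA ^ (t - i) * x) • (wA ^ i : AM K kap)) =
      ∑ i ∈ range t, cA (wA ^ (t - i) * x) • (wA ^ l * mA * wA ^ i : AM K kap) := by
    rw [← mul_assoc, mul_sum]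
    exact sum_congr rfl fun i _ => mul_smul_comm _ _ _
  have e3 : wA ^ l * (mA * ∑ i ∈ range t, wA ^ i * rv x * wA ^ (t - i)) =
      ∑ i ∈ range t, (wA ^ l * mA * wA ^ i * rv x * wA ^ (t - i) : AM K kap) := by
    rw [← mul_assoc, mul_sum]
    exact sum_congr rfl fun i _ => by simp only [mul_assoc]
  have e4 : rv (wA ^ t * x) = rv x * wA ^ t := by rw [rv_mul, rv_w_pow]
  have e5 : rv (mA * (wA ^ t * x)) = rv x * wA ^ t * mA := by rw [rv_mul, e4, rv_m]
  have e6 : ∀ i, cA (wA ^ (l - i) * (mA * (wA ^ t * x))) =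
      cA (wA ^ (l - i) * mA * wA ^ t * x) := by
    intro i
    simp only [mul_assoc]
  have e7 : ∀ i, wA ^ i * (rv x * wA ^ t * mA) * wA ^ (l - i) =
      wA ^ i * rv x * wA ^ t * mA * wA ^ (l - i) := by
    intro i
    simp only [mul_assoc]
  have e8 : cA (mA * (wA ^ t * x)) = cA (wA ^ (l - l) * mA * wA ^ t * x) := by
    rw [Nat.sub_self, pow_zero, one_mul, mul_assoc]
  have e9 : wA ^ l * (rv x * wA ^ t * mA) = wA ^ l * rv x * wA ^ t * mA * wA ^ (l - l) := by
    rw [Nat.sub_self, pow_zero, mul_one]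
    simp only [mul_assoc]
  simp only [mul_add, mul_smul_comm, e1, e2, e3, e4, e5, e6, e7, mul_one]
  rw [e8, e9]
  module

theorem T0_wmw (hT : TSt K al kap) (x : AM K kap) (l t : ℕ) :
    T0 al kap (x * (wA ^ l * mA * wA ^ t)) = T0 al kap x * (wA ^ l * mA * wA ^ t) +
      ∑ i ∈ range l, cA (wA ^ (l - i) * x) • (wA ^ i * mA * wA ^ t : AM K kap) +
      (al - 1) • ∑ i ∈ range l, wA ^ i * rv x * wA ^ (l - i) * mA * wA ^ t +
      ∑ i ∈ range t, cA (wA ^ l * mA * wA ^ (t - i) * x) • (wA ^ i : AM K kap) +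
      (al - 1) • ∑ i ∈ range t, wA ^ i * mA * wA ^ l * rv x * wA ^ (t - i) := by
  have e0 : x * (wA ^ l * mA * wA ^ t) = x * wA ^ l * mA * wA ^ t := by
    simp only [mul_assoc]
  rw [e0, T0_w_pow hT, hT.m0, T0_w_pow hT, rv_mul, rv_m, rv_mul, rv_w_pow]
  have e1 : T0 al kap x * (wA ^ l * mA * wA ^ t) = T0 al kap x * wA ^ l * mA * wA ^ t := by
    simp only [mul_assoc]
  have e2 : (∑ i ∈ range l, cA (x * wA ^ (l - i)) • (wA ^ i : AM K kap)) * mA * wA ^ t =
      ∑ i ∈ range l, cA (wA ^ (l - i) * x) • (wA ^ i * mA * wA ^ t : AM K kap) := by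
    rw [sum_mul, sum_mul]
    exact sum_congr rfl fun i _ => by rw [smul_mul_assoc, smul_mul_assoc, cA_comm]
  have e3 : (∑ i ∈ range l, wA ^ i * rv x * wA ^ (l - i)) * mA * wA ^ t =
      ∑ i ∈ range l, (wA ^ i * rv x * wA ^ (l - i) * mA * wA ^ t : AM K kap) := by
    rw [sum_mul, sum_mul]
  have e4 : ∀ i, cA (x * wA ^ l * mA * wA ^ (t - i)) = cA (wA ^ l * mA * wA ^ (t - i) * x) := by
    intro i
    rw [cA_comm (wA ^ l * mA * wA ^ (t - i)) x]
    simp only [mul_assoc]
  have e5 : ∀ i, wA ^ i * (mA * (wA ^ l * rv x)) * wA ^ (t - i) =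
      wA ^ i * mA * wA ^ l * rv x * wA ^ (t - i) := by
    intro i
    simp only [mul_assoc]
  simp only [add_mul, smul_mul_assoc, e1, e2, e3, e4, e5]

/-- Opening at the zeros, the difference of the two sides. -/
def Hd (al kap : K) (T : AM K kap →ₗ[K] AM K kap) (d : Derivation K (CM K) (AM K kap))
    (x : AM K kap) (f : CM K) : AM K kap :=
  Rb al kap (d f * x) - d f * Rb al kap x - (T (x * oA kap f) - T x * oA kap f)

theorem Hd_add (T : AM K kap →ₗ[K] AM K kap) (d : Derivation K (CM K) (AM K kap))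
    (x : AM K kap) (f g : CM K) : Hd al kap T d x (f + g) = Hd al kap T d x f + Hd al kap T d x g := by
  unfold Hd
  rw [map_add, map_add, add_mul, add_mul, mul_add, mul_add, map_add, map_add]
  abel

theorem Hd_C (T : AM K kap →ₗ[K] AM K kap) (d : Derivation K (CM K) (AM K kap))
    (x : AM K kap) (c : K) : Hd al kap T d x (C c) = 0 := by
  have h : (C c : CM K) = algebraMap K (CM K) c := rfl
  unfold Hd
  rw [h, Derivation.map_algebraMap, Derivation.map_algebraMap]
  simp

theorem Hd_mul (hR : RSt K al kap) (T : AM K kap →ₗ[K] AM K kap)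
    (d : Derivation K (CM K) (AM K kap))
    (hT : ∀ (f : CM K) (x : AM K kap), T (f • x) = f • T x + al • (d f * x))
    (x : AM K kap) (f g : CM K) :
    Hd al kap T d x (f * g) = f • Hd al kap T d x g + g • Hd al kap T d x f := by
  unfold Hd
  rw [Derivation.leibniz, Derivation.leibniz]
  simp only [add_mul, mul_add, smul_mul_assoc, mul_smul_comm, map_add, Rb_smul hR, hT]
  have e1 : d f * (x * oA kap g) = d f * x * oA kap g := (mul_assoc _ _ _).symm
  have e2 : d g * (x * oA kap f) = d g * x * oA kap f := (mul_assoc _ _ _).symm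
  rw [e1, e2]
  module

/-- It is enough to know the generators. -/
theorem Hd_zero (hR : RSt K al kap) (T : AM K kap →ₗ[K] AM K kap)
    (d : Derivation K (CM K) (AM K kap))
    (hT : ∀ (f : CM K) (x : AM K kap), T (f • x) = f • T x + al • (d f * x))
    (x : AM K kap) (hX : ∀ v, Hd al kap T d x (X v) = 0) (f : CM K) : Hd al kap T d x f = 0 := by
  induction f using MvPolynomial.induction_on with
  | C c => exact Hd_C _ _ _ _
  | add p q hp hq => rw [Hd_add, hp, hq, add_zero]
  | mul_X p v hp => rw [Hd_mul hR T d hT, hp, hX, smul_zero, smul_zero, add_zero]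

/-- The commutator is linear over the closed states. -/
theorem comm_smul (hR : RSt K al kap) (T : AM K kap →ₗ[K] AM K kap)
    (d : Derivation K (CM K) (AM K kap))
    (hT : ∀ (f : CM K) (x : AM K kap), T (f • x) = f • T x + al • (d f * x))
    (hX : ∀ x v, Hd al kap T d x (X v) = 0) (f : CM K) (x : AM K kap)
    (hx : Rb al kap (T x) = T (Rb al kap x)) : Rb al kap (T (f • x)) = T (Rb al kap (f • x)) := by
  have h := Hd_zero hR T d hT x (hX x) f
  unfold Hd at h
  rw [hT, Rb_smul hR, map_add, map_add, Rb_smul hR, hT, hx, map_smul, map_smul]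
  have h2 : Rb al kap (d f * x) = d f * Rb al kap x + T (x * oA kap f) - T x * oA kap f := by
    rw [sub_eq_zero] at h
    rw [sub_eq_iff_eq_add'.1 h, add_sub_assoc]
  rw [h2]
  module

/-! ### Generators -/

theorem Hd0_p (hR : RSt K al kap) (hT : TSt K al kap) (x : AM K kap) (k : ℕ) :
    Hd al kap (T0 al kap) (o0 kap) x (X (Sum.inl k)) = 0 := by
  unfold Hd
  rw [o0_p, oA_p, smul_mul_assoc, mul_smul_comm, map_smul, map_smul, smul_mul_assoc,
    mul_smul_comm, Rb_w_pow hR, T0_w_pow hT]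
  have e1 : ∀ i, cA (x * wA ^ (k - i)) = cA (wA ^ (k - i) * x) := fun i => cA_comm _ _
  simp only [e1]
  module

theorem Hd1_p (hT : TSt K al kap) (x : AM K kap) (k : ℕ) :
    Hd al kap (T1 al kap) (o1 kap) x (X (Sum.inl k)) = 0 := by
  unfold Hd
  rw [o1_p, oA_p, mul_smul_comm, map_smul, mul_smul_comm, T1_w_pow hT]
  simp

theorem Hd1_y (hR : RSt K al kap) (hT : TSt K al kap) (x : AM K kap) (c : ℕ) :
    Hd al kap (T1 al kap) (o1 kap) x (X (Sum.inr c)) = 0 := by
  unfold Hd
  rw [o1_y, oA_y]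
  have h1 := Rb_wmw hR x c 0
  rw [pow_zero, mul_one, range_zero, sum_empty, sum_empty, smul_zero, add_zero, add_zero] at h1
  have h2 : T1 al kap (x * Ow kap c) = T1 al kap x * Ow kap c +
      ∑ i ∈ range (c + 1), cA (wA ^ (c - i) * mA * x) • (wA ^ i : AM K kap) +
      (al - 1) • ∑ i ∈ range (c + 1), wA ^ i * rv x * mA * wA ^ (c - i) := by
    unfold Ow
    rw [mul_sum, map_sum, mul_sum]
    have e1 : ∀ l, T1 al kap (x * (wA ^ l * mA * wA ^ (c - l))) =
        T1 al kap x * (wA ^ l * mA * wA ^ (c - l)) +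
          cA (wA ^ l * mA * x) • (wA ^ (c - l) : AM K kap) +
          (al - 1) • (wA ^ l * rv x * mA * wA ^ (c - l)) := by
      intro l
      have e2 : x * (wA ^ l * mA * wA ^ (c - l)) = x * wA ^ l * mA * wA ^ (c - l) := by
        simp only [mul_assoc]
      have e3 : cA (x * wA ^ l * mA) = cA (wA ^ l * mA * x) := by
        rw [cA_comm (wA ^ l * mA) x, mul_assoc]
      rw [e2, T1_w_pow hT, hT.m1, T1_w_pow hT, rv_mul, rv_w_pow, e3]
      simp only [add_mul, smul_mul_assoc, one_mul, mul_assoc]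
    simp only [e1, sum_add_distrib]
    congr 2
    · rw [← sum_range_reflect]
      apply sum_congr rfl
      intro i hi
      have hi' := mem_range.1 hi
      have h3 : c + 1 - 1 - i = c - i := by omega
      have h4 : c - (c - i) = i := by omega
      rw [h3, h4]
    · rw [smul_sum]
  rw [h1, h2]
  simp only [mul_one]
  abel

theorem Hd0_y (hR : RSt K al kap) (hT : TSt K al kap) (x : AM K kap) (c : ℕ) :
    Hd al kap (T0 al kap) (o0 kap) x (X (Sum.inr c)) = 0 := by
  unfold Hd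
  rw [o0_y, oA_y]
  have h1 : Rb al kap (Ow0 kap c * x) = Ow0 kap c * Rb al kap x +
      ∑ l ∈ range c, ∑ i ∈ range (c - l),
        cA (wA ^ (c - l - i) * x) • (wA ^ l * mA * wA ^ i : AM K kap) +
      (al - 1) • ∑ l ∈ range c, ∑ i ∈ range (c - l),
        wA ^ l * mA * wA ^ i * rv x * wA ^ (c - l - i) +
      ∑ l ∈ range c, ∑ i ∈ range (l + 1),
        cA (wA ^ (l - i) * mA * wA ^ (c - l) * x) • (wA ^ i : AM K kap) +
      (al - 1) • ∑ l ∈ range c, ∑ i ∈ range (l + 1),
        wA ^ i * rv x * wA ^ (c - l) * mA * wA ^ (l - i) := by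
    unfold Ow0
    rw [sum_mul, map_sum, sum_mul]
    simp only [Rb_wmw hR, sum_add_distrib, smul_sum]
  have h2 : T0 al kap (x * Ow kap c) = T0 al kap x * Ow kap c +
      ∑ l ∈ range (c + 1), ∑ i ∈ range l,
        cA (wA ^ (l - i) * x) • (wA ^ i * mA * wA ^ (c - l) : AM K kap) +
      (al - 1) • ∑ l ∈ range (c + 1), ∑ i ∈ range l,
        wA ^ i * rv x * wA ^ (l - i) * mA * wA ^ (c - l) +
      ∑ l ∈ range (c + 1), ∑ i ∈ range (c - l),
        cA (wA ^ l * mA * wA ^ (c - l - i) * x) • (wA ^ i : AM K kap) +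
      (al - 1) • ∑ l ∈ range (c + 1), ∑ i ∈ range (c - l),
        wA ^ i * mA * wA ^ l * rv x * wA ^ (c - l - i) := by
    unfold Ow
    rw [mul_sum, map_sum, mul_sum]
    simp only [T0_wmw hT, sum_add_distrib, smul_sum]
  rw [h1, h2,
    tri1 c (fun l i d => cA (wA ^ d * x) • (wA ^ l * mA * wA ^ i : AM K kap)),
    tri2 c (fun l i d => (wA ^ l * mA * wA ^ i * rv x * wA ^ d : AM K kap)),
    tri3 c (fun a b i => cA (wA ^ a * mA * wA ^ b * x) • (wA ^ i : AM K kap)),
    tri4 c (fun i a b => (wA ^ i * rv x * wA ^ a * mA * wA ^ b : AM K kap))]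
  module

theorem Hd0_X (hR : RSt K al kap) (hT : TSt K al kap) (x : AM K kap) (v : ℕ ⊕ ℕ) :
    Hd al kap (T0 al kap) (o0 kap) x (X v) = 0 := by
  rcases v with k | c
  · exact Hd0_p hR hT x k
  · exact Hd0_y hR hT x c

theorem Hd1_X (hR : RSt K al kap) (hT : TSt K al kap) (x : AM K kap) (v : ℕ ⊕ ℕ) :
    Hd al kap (T1 al kap) (o1 kap) x (X v) = 0 := by
  rcases v with k | c
  · exact Hd1_p hT x k
  · exact Hd1_y hR hT x c

/-- It is enough to know the basis. -/
theorem comm_of_basis (hR : RSt K al kap) (T : AM K kap →ₗ[K] AM K kap)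
    (d : Derivation K (CM K) (AM K kap))
    (hT : ∀ (f : CM K) (x : AM K kap), T (f • x) = f • T x + al • (d f * x))
    (hX : ∀ x v, Hd al kap T d x (X v) = 0)
    (hw : ∀ j, Rb al kap (T (wA ^ j)) = T (Rb al kap (wA ^ j)))
    (hm : ∀ j a, Rb al kap (T (wA ^ j * mA * wA ^ a)) = T (Rb al kap (wA ^ j * mA * wA ^ a)))
    (x : AM K kap) : Rb al kap (T x) = T (Rb al kap x) := by
  refine sg_induction (P := fun x => Rb al kap (T x) = T (Rb al kap x)) x ?_ ?_ ?_
  · rw [map_zero, map_zero, map_zero]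
  · intro x y hx hy
    rw [map_add, map_add, map_add, map_add, hx, hy]
  · intro i f
    rcases i with j | ⟨j, a⟩
    · rw [sg_inl]
      exact comm_smul hR T d hT hX f _ (hw j)
    · rw [sg_inr]
      exact comm_smul hR T d hT hX f _ (hm j a)

/-! ### The basis -/

/-- a word with one mark -/
def mm (kap : K) (s t : ℕ) : AM K kap := wA ^ s * mA * wA ^ t

def Rr (kap : K) (k : ℕ) : AM K kap := ∑ i ∈ range k, (X (Sum.inl (k - i)) : CM K) • wA ^ i

def Yn (kap : K) (n t : ℕ) : AM K kap := ∑ i ∈ range t, (X (Sum.inr (n - i)) : CM K) • wA ^ i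

def Ms (kap : K) (n t : ℕ) : AM K kap := ∑ l ∈ range t, mm kap l (n - l)

def Mt (kap : K) (n t : ℕ) : AM K kap := ∑ k ∈ range t, mm kap (n - k) k

theorem mm_w (s t k : ℕ) : mm kap s t * wA ^ k = mm kap s (t + k) := by
  unfold mm
  rw [mul_assoc, ← pow_add]

theorem w_mm (s t k : ℕ) : wA ^ k * mm kap s t = mm kap (k + s) t := by
  unfold mm
  rw [← mul_assoc, ← mul_assoc, ← pow_add]

theorem cA_w_pow (k : ℕ) (hk : k ≠ 0) : cA (wA ^ k : AM K kap) = X (Sum.inl k) := by
  rw [w_pow, cA_inl, if_neg hk, one_mul]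

theorem cA_mm (s t : ℕ) : cA (mm kap s t) = X (Sum.inr (s + t)) := by
  have h := sg_inr (kap := kap) s t (1 : CM K)
  rw [one_smul] at h
  unfold mm
  rw [← h, cA_inr, one_mul]

theorem Rr_eq (k : ℕ) : Rr kap k = ∑ i ∈ range k, cA (wA ^ (k - i) : AM K kap) • (wA ^ i : AM K kap) := by
  unfold Rr
  apply sum_congr rfl
  intro i hi
  have hi' := mem_range.1 hi
  rw [cA_w_pow _ (by omega)]

theorem sum_w (k : ℕ) : ∑ i ∈ range k, (wA ^ i * wA ^ (k - i) : AM K kap) = (k : K) • wA ^ k := by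
  have h : ∀ i ∈ range k, (wA ^ i * wA ^ (k - i) : AM K kap) = wA ^ k := by
    intro i hi
    have hi' := mem_range.1 hi
    rw [← pow_add]
    congr 1
    omega
  rw [sum_congr rfl h, sum_const, card_range, Nat.cast_smul_eq_nsmul]

theorem T0_p (hT : TSt K al kap) (k : ℕ) :
    T0 al kap (wA ^ k) = Rr kap k + ((al - 1) * k) • wA ^ k := by
  have h := T0_w_pow hT 1 k
  rw [one_mul, hT.one0, zero_mul, rv_one] at h
  simp only [one_mul, mul_one] at h
  rw [h, sum_w, Rr_eq]
  module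

theorem Rb_p (hR : RSt K al kap) (k : ℕ) :
    Rb al kap (wA ^ k) = Rr kap k + ((al - 1) * k) • wA ^ k := by
  have h := Rb_w_pow hR 1 k
  rw [mul_one, Rb_one hR, mul_zero, rv_one] at h
  simp only [mul_one] at h
  rw [h, sum_w, Rr_eq]
  module

theorem T1_p (hT : TSt K al kap) (k : ℕ) : T1 al kap (wA ^ k) = 0 := by
  have h := T1_w_pow hT 1 k
  rw [one_mul, hT.one1, zero_mul] at h
  exact h

theorem T0_mm (hT : TSt K al kap) (s t : ℕ) : T0 al kap (mm kap s t) =
    Rr kap s * mA * wA ^ t + ((al - 1) * s) • mm kap s t + Yn kap (s + t) t +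
      (al - 1) • Ms kap (s + t) t := by
  have h := T0_wmw hT 1 s t
  rw [one_mul, hT.one0, zero_mul, rv_one] at h
  simp only [mul_one] at h
  have e1 : ∑ i ∈ range s, cA (wA ^ (s - i) : AM K kap) • (wA ^ i * mA * wA ^ t : AM K kap) =
      Rr kap s * mA * wA ^ t := by
    rw [Rr_eq, sum_mul, sum_mul]
    exact sum_congr rfl fun i _ => by rw [smul_mul_assoc, smul_mul_assoc]
  have e2 : ∑ i ∈ range s, (wA ^ i * wA ^ (s - i) * mA * wA ^ t : AM K kap) =
      (s : K) • mm kap s t := by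
    rw [← sum_mul, ← sum_mul, sum_w, smul_mul_assoc, smul_mul_assoc]
    rfl
  have e3 : ∑ i ∈ range t, cA (wA ^ s * mA * wA ^ (t - i) : AM K kap) • (wA ^ i : AM K kap) =
      Yn kap (s + t) t := by
    unfold Yn
    apply sum_congr rfl
    intro i hi
    have hi' := mem_range.1 hi
    have h1 := cA_mm (kap := kap) s (t - i)
    unfold mm at h1
    rw [h1]
    congr 3
    omega
  have e4 : ∑ i ∈ range t, (wA ^ i * mA * wA ^ s * wA ^ (t - i) : AM K kap) =
      Ms kap (s + t) t := by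
    unfold Ms mm
    apply sum_congr rfl
    intro i hi
    have hi' := mem_range.1 hi
    rw [mul_assoc _ (wA ^ s), ← pow_add]
    congr 2
    omega
  rw [e1, e2, e3, e4] at h
  unfold mm at h ⊢
  rw [h]
  module

theorem Rb_mm (hR : RSt K al kap) (s t : ℕ) : Rb al kap (mm kap s t) =
    wA ^ s * mA * Rr kap t + ((al - 1) * t) • mm kap s t + Yn kap (s + t) (s + 1) +
      (al - 1) • Mt kap (s + t) (s + 1) := by
  have h := Rb_wmw hR 1 s t
  rw [mul_one, Rb_one hR, mul_zero, rv_one] at h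
  simp only [mul_one] at h
  have e1 : ∑ i ∈ range t, cA (wA ^ (t - i) : AM K kap) • (wA ^ s * mA * wA ^ i : AM K kap) =
      wA ^ s * mA * Rr kap t := by
    rw [Rr_eq, mul_sum]
    exact sum_congr rfl fun i _ => by rw [mul_smul_comm]
  have e2 : ∑ i ∈ range t, (wA ^ s * mA * wA ^ i * wA ^ (t - i) : AM K kap) =
      (t : K) • mm kap s t := by
    have h2 : ∀ i, (wA ^ s * mA * wA ^ i * wA ^ (t - i) : AM K kap) =
        wA ^ s * mA * (wA ^ i * wA ^ (t - i)) := fun i => mul_assoc _ _ _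
    simp only [h2]
    rw [← mul_sum, sum_w, mul_smul_comm]
    rfl
  have e3 : ∑ i ∈ range (s + 1), cA (wA ^ (s - i) * mA * wA ^ t : AM K kap) •
      (wA ^ i : AM K kap) = Yn kap (s + t) (s + 1) := by
    unfold Yn
    apply sum_congr rfl
    intro i hi
    have hi' := mem_range.1 hi
    have h1 := cA_mm (kap := kap) (s - i) t
    unfold mm at h1
    rw [h1]
    congr 3
    omega
  have e4 : ∑ i ∈ range (s + 1), (wA ^ i * wA ^ t * mA * wA ^ (s - i) : AM K kap) =
      Mt kap (s + t) (s + 1) := by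
    unfold Mt mm
    rw [← sum_range_reflect]
    apply sum_congr rfl
    intro i hi
    have hi' := mem_range.1 hi
    rw [← pow_add]
    have h1 : s + 1 - 1 - i + t = s + t - i := by omega
    have h2 : s - (s + 1 - 1 - i) = i := by omega
    rw [h1, h2]
  rw [e1, e2, e3, e4] at h
  unfold mm at h ⊢
  rw [h]
  module

theorem rv_Rr (k : ℕ) : rv (Rr kap k) = Rr kap k := by
  unfold Rr
  rw [map_sum]
  exact sum_congr rfl fun i _ => by rw [map_smul, rv_w_pow]

theorem rv_Ms (n t : ℕ) : rv (Ms kap n t) = Mt kap n t := by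
  unfold Ms Mt mm
  rw [map_sum]
  exact sum_congr rfl fun i _ => rv_mm _ _

theorem Rr_mm (k t : ℕ) : Rr kap k * mA * wA ^ t =
    ∑ i ∈ range k, (X (Sum.inl (k - i)) : CM K) • mm kap i t := by
  unfold Rr mm
  rw [sum_mul, sum_mul]
  exact sum_congr rfl fun i _ => by rw [smul_mul_assoc, smul_mul_assoc]

theorem mm_Rr (k t : ℕ) : wA ^ k * mA * Rr kap t =
    ∑ i ∈ range t, (X (Sum.inl (t - i)) : CM K) • mm kap k i := by
  unfold Rr mm
  rw [mul_sum]
  exact sum_congr rfl fun i _ => by rw [mul_smul_comm]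

theorem pm (n t : ℕ) : ∑ k ∈ range t, Rr kap (n - k) * mA * wA ^ k +
    ∑ i ∈ range n, (X (Sum.inl (n - i)) : CM K) • Ms kap i (i + 1 - t) =
    ∑ i ∈ range n, (X (Sum.inl (n - i)) : CM K) • Ow kap i := by
  induction t with
  | zero =>
    rw [range_zero, sum_empty, zero_add]
    rfl
  | succ t ih =>
    have e1 : ∀ i ∈ range n, (X (Sum.inl (n - i)) : CM K) • Ms kap i (i + 1 - t) =
        (X (Sum.inl (n - i)) : CM K) • Ms kap i (i + 1 - (t + 1)) +
        (X (Sum.inl (n - i)) : CM K) • (if t ≤ i then mm kap (i - t) t else 0) := by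
      intro i _
      rw [← smul_add]
      refine congrArg (fun z => (X (Sum.inl (n - i)) : CM K) • z) ?_
      split_ifs with h
      · have h1 : i + 1 - t = (i - t) + 1 := by omega
        have h2 : i + 1 - (t + 1) = i - t := by omega
        have h3 : i - (i - t) = t := by omega
        unfold Ms
        rw [h1, h2, sum_range_succ, h3]
      · have h1 : i + 1 - t = 0 := by omega
        have h2 : i + 1 - (t + 1) = 0 := by omega
        rw [h1, h2, add_zero]
    suffices e2 : ∑ i ∈ range (n - t), (X (Sum.inl (n - t - i)) : CM K) • mm kap i t =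
        ∑ i ∈ range n, (X (Sum.inl (n - i)) : CM K) •
          (if t ≤ i then mm kap (i - t) t else 0) by
      rw [← ih, sum_range_succ, sum_congr rfl e1, sum_add_distrib, Rr_mm, e2]
      abel
    rcases le_total t n with htn | htn
    · have h4 : n = t + (n - t) := by omega
      have h5 : ∑ i ∈ range n, (X (Sum.inl (n - i)) : CM K) •
          (if t ≤ i then mm kap (i - t) t else 0) =
          ∑ i ∈ range (t + (n - t)), (X (Sum.inl (n - i)) : CM K) •
          (if t ≤ i then mm kap (i - t) t else 0) := by rw [← h4]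
      rw [h5, sum_range_add]
      have h6 : ∑ i ∈ range t, (X (Sum.inl (n - i)) : CM K) •
          (if t ≤ i then mm kap (i - t) t else 0) = 0 := by
        apply sum_eq_zero
        intro i hi
        have hi' := mem_range.1 hi
        rw [if_neg (by omega), smul_zero]
      rw [h6, zero_add]
      apply sum_congr rfl
      intro i _
      rw [if_pos (by omega), Nat.add_sub_cancel_left, Nat.sub_sub]
    · have h4 : n - t = 0 := by omega
      rw [h4, range_zero, sum_empty]
      symm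
      apply sum_eq_zero
      intro i hi
      have hi' := mem_range.1 hi
      rw [if_neg (by omega), smul_zero]

theorem pm' (n t : ℕ) : ∑ k ∈ range t, wA ^ k * mA * Rr kap (n - k) +
    ∑ i ∈ range n, (X (Sum.inl (n - i)) : CM K) • Mt kap i (i + 1 - t) =
    ∑ i ∈ range n, (X (Sum.inl (n - i)) : CM K) • Ow kap i := by
  have h := congrArg rv (pm (kap := kap) n t)
  rw [map_add, map_sum, map_sum, map_sum] at h
  simp only [map_smul, rv_Ms, rv_Ow, rv_mul, rv_Rr, rv_w_pow, rv_m] at h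
  simp only [← mul_assoc] at h
  exact h

theorem pm1 (j a : ℕ) : ∑ k ∈ range (j + 1), Rr kap (j + a - k) * mA * wA ^ k +
    ∑ i ∈ range a, (X (Sum.inl (a - i)) : CM K) • Ms kap (j + i) i =
    ∑ i ∈ range (j + a), (X (Sum.inl (j + a - i)) : CM K) • Ow kap i := by
  rw [← pm (j + a) (j + 1), sum_range_add _ j a]
  refine congrArg (HAdd.hAdd _) ?_
  have h6 : ∑ i ∈ range j, (X (Sum.inl (j + a - i)) : CM K) • Ms kap i (i + 1 - (j + 1)) = 0 := by
    apply sum_eq_zero
    intro i hi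
    have hi' := mem_range.1 hi
    have h7 : i + 1 - (j + 1) = 0 := by omega
    rw [h7]
    unfold Ms
    rw [range_zero, sum_empty, smul_zero]
  rw [h6, zero_add]
  apply sum_congr rfl
  intro i _
  have h7 : j + i + 1 - (j + 1) = i := by omega
  have h8 : j + a - (j + i) = a - i := by omega
  rw [h7, h8]

theorem pm1' (j a : ℕ) : ∑ k ∈ range a, wA ^ k * mA * Rr kap (j + a - k) +
    ∑ i ∈ range j, (X (Sum.inl (j - i)) : CM K) • Mt kap (i + a) (i + 1) =
    ∑ i ∈ range (j + a), (X (Sum.inl (j + a - i)) : CM K) • Ow kap i := by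
  rw [← pm' (j + a) a]
  refine congrArg (HAdd.hAdd _) ?_
  rw [add_comm j a, sum_range_add _ a j]
  have h6 : ∑ i ∈ range a, (X (Sum.inl (a + j - i)) : CM K) • Mt kap i (i + 1 - a) = 0 := by
    apply sum_eq_zero
    intro i hi
    have hi' := mem_range.1 hi
    have h7 : i + 1 - a = 0 := by omega
    rw [h7]
    unfold Mt
    rw [range_zero, sum_empty, smul_zero]
  rw [h6, zero_add]
  apply sum_congr rfl
  intro i _
  have h7 : a + i + 1 - a = i + 1 := by omega
  have h8 : a + j - (a + i) = j - i := by omega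
  rw [h7, h8, add_comm i a]

theorem py (n t : ℕ) : ∑ i ∈ range t, (X (Sum.inl (t - i)) : CM K) • Yn kap (n - (t - i)) i =
    ∑ k ∈ range t, (X (Sum.inr (n - k)) : CM K) • Rr kap k := by
  unfold Yn Rr
  simp only [smul_sum, smul_smul]
  rw [sum_sigma', sum_sigma']
  refine sum_nbij' (fun x => ⟨t - x.1 + x.2, x.2⟩) (fun x => ⟨t - x.1 + x.2, x.2⟩) ?_ ?_ ?_ ?_ ?_
  · rintro ⟨l, i⟩ h
    simp only [mem_sigma, mem_range] at h ⊢
    omega
  · rintro ⟨l, i⟩ h
    simp only [mem_sigma, mem_range] at h ⊢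
    omega
  · rintro ⟨l, i⟩ h
    simp only [mem_sigma, mem_range] at h ⊢
    have h1 : t - (t - l + i) + i = l := by omega
    rw [h1]
  · rintro ⟨l, i⟩ h
    simp only [mem_sigma, mem_range] at h ⊢
    have h1 : t - (t - l + i) + i = l := by omega
    rw [h1]
  · rintro ⟨l, i⟩ h
    simp only [mem_sigma, mem_range] at h ⊢
    have h1 : t - l + i - i = t - l := by omega
    have h2 : n - (t - l) - i = n - (t - l + i) := by omega
    rw [h1, h2, mul_comm]

theorem basis1 (hR : RSt K al kap) (hT : TSt K al kap) (j a : ℕ) :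
    Rb al kap (T1 al kap (mm kap j a)) = T1 al kap (Rb al kap (mm kap j a)) := by
  have e1 : ∀ s t, T1 al kap (mm kap s t) =
      (X (Sum.inr s) : CM K) • (wA ^ t : AM K kap) + (al - 1) • mm kap s t := by
    intro s t
    unfold mm
    have h1 := cA_mm (kap := kap) s 0
    unfold mm at h1
    rw [pow_zero, mul_one, add_zero] at h1
    rw [T1_w_pow hT, hT.m1, T1_p hT, zero_mul, zero_add, h1, rv_w_pow]
    simp only [add_mul, smul_mul_assoc, one_mul]
  have e2 : T1 al kap (wA ^ j * mA * Rr kap a) = (X (Sum.inr j) : CM K) • Rr kap a +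
      (al - 1) • (wA ^ j * mA * Rr kap a) := by
    rw [mm_Rr, map_sum, smul_sum]
    conv_rhs => rw [Rr, smul_sum, ← sum_add_distrib]
    apply sum_congr rfl
    intro i _
    rw [hT.smul1, o1_p, e1, zero_mul, smul_zero, add_zero]
    module
  have e3 : T1 al kap (Yn kap (j + a) (j + 1)) = al • Mt kap (j + a) (j + 1) := by
    rw [Yn, Mt, map_sum, smul_sum]
    apply sum_congr rfl
    intro i _
    rw [hT.smul1, o1_y, T1_p hT, smul_zero, zero_add]
    rfl
  have e4 : T1 al kap (Mt kap (j + a) (j + 1)) = Yn kap (j + a) (j + 1) +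
      (al - 1) • Mt kap (j + a) (j + 1) := by
    rw [Mt, Yn, map_sum, smul_sum, ← sum_add_distrib]
    exact sum_congr rfl fun i _ => e1 _ _
  have e5 : wA ^ a * Ow kap j = Mt kap (j + a) (j + 1) := by
    unfold Ow Mt
    rw [mul_sum, ← sum_range_reflect]
    apply sum_congr rfl
    intro l hl
    have hl' := mem_range.1 hl
    have h2 := w_mm (kap := kap) (j + 1 - 1 - l) (j - (j + 1 - 1 - l)) a
    have h3 : a + (j + 1 - 1 - l) = j + a - l := by omega
    have h4 : j - (j + 1 - 1 - l) = l := by omega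
    rw [h3, h4] at h2
    rw [h4]
    exact h2
  rw [e1, map_add, Rb_smul hR, map_smul, oA_y, Rb_p hR, e5, Rb_mm hR, map_add, map_add, map_add,
    map_smul, map_smul, e2, e1, e3, e4]
  module

theorem L1 (hT : TSt K al kap) (j a : ℕ) : T0 al kap (wA ^ j * mA * Rr kap a) =
    Rr kap j * mA * Rr kap a + ((al - 1) * j) • (wA ^ j * mA * Rr kap a) +
      ∑ i ∈ range a, (X (Sum.inl (a - i)) : CM K) • Yn kap (j + i) i +
      (al - 1) • ∑ i ∈ range a, (X (Sum.inl (a - i)) : CM K) • Ms kap (j + i) i +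
      al • ∑ i ∈ range a, ((a - i : ℕ) : K) • mm kap (j + a - i) i := by
  have e0 : Rr kap j * mA * Rr kap a =
      ∑ i ∈ range a, (X (Sum.inl (a - i)) : CM K) • (Rr kap j * mA * wA ^ i) := by
    conv_lhs => rw [Rr, Rr]
    rw [mul_sum]
    exact sum_congr rfl fun i _ => by rw [mul_smul_comm]; rfl
  rw [e0, mm_Rr, map_sum, smul_sum, smul_sum, smul_sum, ← sum_add_distrib, ← sum_add_distrib,
    ← sum_add_distrib, ← sum_add_distrib]
  apply sum_congr rfl
  intro i hi
  have hi' := mem_range.1 hi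
  rw [hT.smul0, o0_p, T0_mm hT, smul_mul_assoc, w_mm]
  have h1 : a - i + j = j + a - i := by omega
  rw [h1]
  module

theorem L1' (hR : RSt K al kap) (j a : ℕ) : Rb al kap (Rr kap j * mA * wA ^ a) =
    Rr kap j * mA * Rr kap a + ((al - 1) * a) • (Rr kap j * mA * wA ^ a) +
      ∑ i ∈ range j, (X (Sum.inl (j - i)) : CM K) • Yn kap (i + a) (i + 1) +
      (al - 1) • ∑ i ∈ range j, (X (Sum.inl (j - i)) : CM K) • Mt kap (i + a) (i + 1) +
      al • ∑ i ∈ range j, ((j - i : ℕ) : K) • mm kap i (j + a - i) := by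
  have e0 : Rr kap j * mA * Rr kap a =
      ∑ i ∈ range j, (X (Sum.inl (j - i)) : CM K) • (wA ^ i * mA * Rr kap a) := by
    conv_lhs => rw [Rr]
    rw [sum_mul, sum_mul]
    exact sum_congr rfl fun i _ => by rw [smul_mul_assoc, smul_mul_assoc]
  rw [e0, Rr_mm, map_sum, smul_sum, smul_sum, smul_sum, ← sum_add_distrib, ← sum_add_distrib,
    ← sum_add_distrib, ← sum_add_distrib]
  apply sum_congr rfl
  intro i hi
  have hi' := mem_range.1 hi
  rw [Rb_smul hR, oA_p, Rb_mm hR, mul_smul_comm, mm_w]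
  have h1 : a + (j - i) = j + a - i := by omega
  rw [h1]
  module

theorem L3 (hT : TSt K al kap) (n t : ℕ) : T0 al kap (Yn kap n t) =
    ∑ i ∈ range t, (X (Sum.inr (n - i)) : CM K) • Rr kap i +
      (al - 1) • ∑ i ∈ range t, (i : K) • ((X (Sum.inr (n - i)) : CM K) • (wA ^ i : AM K kap)) +
      al • ∑ i ∈ range t, Ms kap n (n - i) := by
  rw [Yn, map_sum, smul_sum, smul_sum, ← sum_add_distrib, ← sum_add_distrib]
  apply sum_congr rfl
  intro i hi
  have hi' := mem_range.1 hi
  have h1 : Ow0 kap (n - i) * wA ^ i = Ms kap n (n - i) := by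
    unfold Ow0 Ms
    rw [sum_mul]
    apply sum_congr rfl
    intro l hl
    have hl' := mem_range.1 hl
    have h2 := mm_w (kap := kap) l (n - i - l) i
    have h3 : n - i - l + i = n - l := by omega
    rw [h3] at h2
    exact h2
  rw [hT.smul0, o0_y, T0_p hT, h1]
  module

theorem L3' (hR : RSt K al kap) (n t : ℕ) (ht : t ≤ n + 1) : Rb al kap (Yn kap n t) =
    ∑ i ∈ range t, (X (Sum.inr (n - i)) : CM K) • Rr kap i +
      (al - 1) • ∑ i ∈ range t, (i : K) • ((X (Sum.inr (n - i)) : CM K) • (wA ^ i : AM K kap)) +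
      al • ∑ i ∈ range t, Mt kap n (n - i + 1) := by
  rw [Yn, map_sum, smul_sum, smul_sum, ← sum_add_distrib, ← sum_add_distrib]
  apply sum_congr rfl
  intro i hi
  have hi' := mem_range.1 hi
  have h1 : wA ^ i * Ow kap (n - i) = Mt kap n (n - i + 1) := by
    unfold Ow Mt
    rw [mul_sum, ← sum_range_reflect]
    apply sum_congr rfl
    intro l hl
    have hl' := mem_range.1 hl
    have h2 := w_mm (kap := kap) (n - i + 1 - 1 - l) (n - i - (n - i + 1 - 1 - l)) i
    have h3 : i + (n - i + 1 - 1 - l) = n - l := by omega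
    have h4 : n - i - (n - i + 1 - 1 - l) = l := by omega
    rw [h3, h4] at h2
    rw [h4]
    exact h2
  rw [Rb_smul hR, oA_y, Rb_p hR, h1]
  module

theorem L4 (hT : TSt K al kap) (n t : ℕ) (ht : t ≤ n + 1) : T0 al kap (Mt kap n t) =
    ∑ k ∈ range t, Rr kap (n - k) * mA * wA ^ k +
      (al - 1) • ∑ k ∈ range t, ((n - k : ℕ) : K) • mm kap (n - k) k +
      ∑ k ∈ range t, Yn kap n k + (al - 1) • ∑ k ∈ range t, Ms kap n k := by
  rw [Mt, map_sum, smul_sum, smul_sum, ← sum_add_distrib, ← sum_add_distrib, ← sum_add_distrib]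
  apply sum_congr rfl
  intro k hk
  have hk' := mem_range.1 hk
  have h1 : n - k + k = n := by omega
  rw [T0_mm hT, h1]
  module

theorem L4' (hR : RSt K al kap) (n t : ℕ) (ht : t ≤ n + 1) : Rb al kap (Ms kap n t) =
    ∑ k ∈ range t, wA ^ k * mA * Rr kap (n - k) +
      (al - 1) • ∑ k ∈ range t, ((n - k : ℕ) : K) • mm kap k (n - k) +
      ∑ k ∈ range t, Yn kap n (k + 1) + (al - 1) • ∑ k ∈ range t, Mt kap n (k + 1) := by
  rw [Ms, map_sum, smul_sum, smul_sum, ← sum_add_distrib, ← sum_add_distrib, ← sum_add_distrib]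
  apply sum_congr rfl
  intro k hk
  have hk' := mem_range.1 hk
  have h1 : k + (n - k) = n := by omega
  rw [Rb_mm hR, h1]
  module

theorem py1 (j a : ℕ) : ∑ i ∈ range a, (X (Sum.inl (a - i)) : CM K) • Yn kap (j + i) i =
    ∑ k ∈ range a, (X (Sum.inr (j + a - k)) : CM K) • Rr kap k := by
  rw [← py (j + a) a]
  apply sum_congr rfl
  intro i hi
  have hi' := mem_range.1 hi
  have h1 : j + a - (a - i) = j + i := by omega
  rw [h1]

theorem py1' (j a : ℕ) : ∑ i ∈ range j, (X (Sum.inl (j - i)) : CM K) • Yn kap (i + a) (i + 1) =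
    ∑ k ∈ range (j + 1), (X (Sum.inr (j + a - k)) : CM K) • Rr kap k := by
  rw [← py (j + a) (j + 1), sum_range_succ']
  have h0 : Yn kap (j + a - (j + 1 - 0)) 0 = 0 := by
    unfold Yn
    rw [range_zero, sum_empty]
  rw [h0, smul_zero, add_zero]
  apply sum_congr rfl
  intro i hi
  have hi' := mem_range.1 hi
  have h1 : j + a - (j + 1 - (i + 1)) = i + a := by omega
  have h2 : j + 1 - (i + 1) = j - i := by omega
  rw [h1, h2]

theorem Ms_eq (j a t : ℕ) (ht : t ≤ j + a + 1) :
    ∑ l ∈ range t, mm kap (j + a - (j + a - l)) (j + a - l) = Ms kap (j + a) t := by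
  unfold Ms
  apply sum_congr rfl
  intro l hl
  have hl' := mem_range.1 hl
  have h1 : j + a - (j + a - l) = l := by omega
  rw [h1]

theorem s3 (j a : ℕ) : ∑ i ∈ range a, ((a - i : ℕ) : K) • mm kap (j + a - i) i +
      ∑ i ∈ range (j + 1), Ms kap (j + a) (j + a - i) =
    ∑ i ∈ range j, ((j - i : ℕ) : K) • mm kap i (j + a - i) +
      ∑ i ∈ range a, Mt kap (j + a) (j + a - i + 1) := by
  have h := msal (K := K) (fun k => mm kap (j + a - k) k) j a
  beta_reduce at h
  have e1 : ∑ i ∈ range (j + 1), ∑ l ∈ range (j + a - i),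
      mm kap (j + a - (j + a - l)) (j + a - l) =
      ∑ i ∈ range (j + 1), Ms kap (j + a) (j + a - i) :=
    sum_congr rfl fun i _ => Ms_eq _ _ _ (by omega)
  have e2 : ∑ i ∈ range j, ((j - i : ℕ) : K) • mm kap (j + a - (j + a - i)) (j + a - i) =
      ∑ i ∈ range j, ((j - i : ℕ) : K) • mm kap i (j + a - i) := by
    apply sum_congr rfl
    intro l hl
    have hl' := mem_range.1 hl
    have h1 : j + a - (j + a - l) = l := by omega
    rw [h1]
  rw [e1, e2] at h
  exact h

theorem s4 (j a : ℕ) : (a : K) • Ms kap (j + a) a +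
      ∑ k ∈ range (j + 1), ((j + a - k : ℕ) : K) • mm kap (j + a - k) k +
      ∑ k ∈ range (j + 1), Ms kap (j + a) k =
    (j : K) • Mt kap (j + a) (j + 1) +
      ∑ l ∈ range a, ((j + a - l : ℕ) : K) • mm kap l (j + a - l) +
      ∑ l ∈ range a, Mt kap (j + a) (l + 1) := by
  have h := msbb (K := K) (fun k => mm kap (j + a - k) k) j a
  beta_reduce at h
  have e0 := Ms_eq (kap := kap) j a a (by omega)
  have e1 : ∑ k ∈ range (j + 1), ∑ l ∈ range k,
      mm kap (j + a - (j + a - l)) (j + a - l) =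
      ∑ k ∈ range (j + 1), Ms kap (j + a) k := by
    apply sum_congr rfl
    intro k hk
    have hk' := mem_range.1 hk
    exact Ms_eq _ _ _ (by omega)
  have e2 : ∑ l ∈ range a, ((j + a - l : ℕ) : K) • mm kap (j + a - (j + a - l)) (j + a - l) =
      ∑ l ∈ range a, ((j + a - l : ℕ) : K) • mm kap l (j + a - l) := by
    apply sum_congr rfl
    intro l hl
    have hl' := mem_range.1 hl
    have h1 : j + a - (j + a - l) = l := by omega
    rw [h1]
  rw [e0, e1, e2] at h
  exact h

theorem basis0 (hR : RSt K al kap) (hT : TSt K al kap) (j a : ℕ) :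
    Rb al kap (T0 al kap (mm kap j a)) = T0 al kap (Rb al kap (mm kap j a)) := by
  rw [T0_mm hT, Rb_mm hR, map_add, map_add, map_add, map_add, map_add, map_add, map_smul,
    map_smul, map_smul, map_smul, L1 hT, L1' hR, L3 hT _ _, L3' hR _ _ (by omega),
    L4 hT _ _ (by omega), L4' hR _ _ (by omega), T0_mm hT, Rb_mm hR, py1, py1']
  have h1 : ∑ k ∈ range (j + 1), (k : K) •
      ((X (Sum.inr (j + a - k)) : CM K) • (wA ^ k : AM K kap)) +
      ∑ k ∈ range (j + 1), Yn kap (j + a) k = (j : K) • Yn kap (j + a) (j + 1) :=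
    ms1 (K := K) (fun i => (X (Sum.inr (j + a - i)) : CM K) • (wA ^ i : AM K kap)) j
  have h2 : ∑ k ∈ range a, (k : K) •
      ((X (Sum.inr (j + a - k)) : CM K) • (wA ^ k : AM K kap)) +
      ∑ k ∈ range a, Yn kap (j + a) (k + 1) = (a : K) • Yn kap (j + a) a :=
    ms2 (K := K) (fun i => (X (Sum.inr (j + a - i)) : CM K) • (wA ^ i : AM K kap)) a
  have h3 := s3 (kap := kap) j a
  have h4 := s4 (kap := kap) j a
  have p1 := pm1 (kap := kap) j a
  have p2 := pm1' (kap := kap) j a
  rw [← p1] at p2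
  generalize ∑ k ∈ range (j + 1), (k : K) •
      ((X (Sum.inr (j + a - k)) : CM K) • (wA ^ k : AM K kap)) = z1 at *
  generalize ∑ k ∈ range a, (k : K) •
      ((X (Sum.inr (j + a - k)) : CM K) • (wA ^ k : AM K kap)) = z2 at *
  linear_combination (norm := module) (al - 1) • h2 - (al - 1) • h1 + (al - 1) • p2 - al • h3 -
    ((al - 1) * (al - 1)) • h4

theorem basisW0 (hR : RSt K al kap) (hT : TSt K al kap) (j : ℕ) :
    Rb al kap (T0 al kap (wA ^ j)) = T0 al kap (Rb al kap (wA ^ j)) := by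
  rw [T0_p hT, Rb_p hR, map_add, map_add, map_smul, map_smul, T0_p hT, Rb_p hR]
  refine congrArg (fun z => z + _) ?_
  rw [Rr, map_sum, map_sum]
  apply sum_congr rfl
  intro i _
  rw [hT.smul0, Rb_smul hR, o0_p, oA_p, T0_p hT, Rb_p hR, smul_mul_assoc, mul_smul_comm, ← pow_add,
    ← pow_add, add_comm i]

theorem basisW1 (hR : RSt K al kap) (hT : TSt K al kap) (j : ℕ) :
    Rb al kap (T1 al kap (wA ^ j)) = T1 al kap (Rb al kap (wA ^ j)) := by
  rw [T1_p hT, Rb_p hR, map_zero, map_add, map_smul, T1_p hT, smul_zero, add_zero, Rr, map_sum]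
  symm
  apply sum_eq_zero
  intro i _
  rw [hT.smul1, o1_p, T1_p hT, smul_zero, zero_mul, smul_zero, add_zero]

end Thx

/-- The touches of the end gap commute with the touches of the letters. -/
theorem theta {K : Type} [Field K] [CharZero K] {al kap : K} (hR : RSt K al kap)
    (hT : TSt K al kap) : ThetaSt K al kap where
  t0 := Thx.comm_of_basis hR (T0 al kap) (o0 kap) hT.smul0 (Thx.Hd0_X hR hT)
    (Thx.basisW0 hR hT) (Thx.basis0 hR hT)
  t1 := Thx.comm_of_basis hR (T1 al kap) (o1 kap) hT.smul1 (Thx.Hd1_X hR hT)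
    (Thx.basisW1 hR hT) (Thx.basis1 hR hT)

end

end Pool.Agent.MJX
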