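import Pool.Agent.MJX.XDefs
import Pool.Agent.MJX.Asm
import Pool.Agent.MJX.Close
import Pool.Agent.MJX.Theta
import Pool.Agent.MJX.Base
import Pool.Agent.MJX.EMod

/-!
The process of the arc model.
-/

namespace Pool.Agent.MJX

open MvPolynomial Pool.Agent.MJR Pool.Agent.MJT

noncomputable section

/-- The relations of the arc model. -/
theorem rel_arc {K : Type} [Field K] [CharZero K] {al kap : K}
    (hk : al * kap ^ 2 = (al - 1) * kap + 1) (u v : K) :
    Rel al (Aop al kap u v) (Rop al kap) (D0 al kap) (bh al kap u v) (Dc al kap) (bc al u v)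
      (iA kap) (cK : AM K kap →ₗ[K] CM K) 1 := by
  have hR := rSt al hk
  have hT := tSt al hk
  have hF := fullSt al hk hR
  exact relX hR hT hF (theta hR hT) (base hR hT hF) (close hR hF) (eSt al hk) u v

open AbsM in
/-- The abstract theorem, with the rooted part. -/
theorem absMainZ {K : Type} [Field K] [CharZero K] {al : K} (hal : al ≠ 0) {M N : Type}
    [AddCommGroup M] [Module K M] [AddCommGroup N] [Module K N]
    {A R D0 bh : M →ₗ[K] M} {D bc : N →ₗ[K] N} {i : N →ₗ[K] M} {cl : M →ₗ[K] N} {e : N}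
    (h : Rel al A R D0 bh D bc i cl e) (F : M →ₗ[K] LW K) (Fc : N →ₗ[K] Lam K)
    (hR : ∀ x, F (R x) = Zf al (F x)) (hcl : ∀ x, Fc (cl x) = Tr (F x))
    (hi : ∀ x, F (i x) = Polynomial.C (Fc x)) :
    ∃ Kc : Lam K →ₗ[K] N, Kc 1 = e ∧
      (∀ k f, k ≠ 0 → Kc (X k * f) = cl ((A ^ k) (i (Kc f)))) ∧
      (∀ f, Kc (X 0 * f) = 0) ∧
      (∀ r f, Fc (Kc (H al r f)) = H al r (Fc (Kc f))) ∧
      ∀ G : LW K, F (Kh A i Kc (Zf al G)) = Zf al (F (Kh A i Kc G)) := by
  obtain ⟨Kc, h1, hK⟩ := exists_Kc (Bj A i cl) (fun j k x => Bj_comm h hal j k x) e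
  have hZG : ∀ G : LW K, F (Kh A i Kc (Zf al G)) = Zf al (F (Kh A i Kc G)) := by
    intro G
    rw [← hR, R_Kh h hal Kc h1 hK]
  refine ⟨Kc, h1, fun k f hk => by rw [hK, Bj_apply hk], fun f => ?_, fun r f => ?_, hZG⟩
  · rw [hK, Bj_zero, LinearMap.zero_apply]
  have hTr : ∀ G : LW K, Tr (F (Kh A i Kc G)) = Fc (Kc (Tr G)) := by
    intro G
    induction G using Polynomial.induction_on' with
    | add p q hp hq => rw [map_add, map_add, map_add, map_add, map_add, map_add, hp, hq]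
    | monomial m f =>
      rcases eq_or_ne m 0 with rfl | hm
      · rw [Polynomial.monomial_zero_left, Kh_C, hi, Tr_C, Tr_C, map_zero, map_zero]
      · rw [← hcl, Kh_monomial, Tr_monomial m hm, hK, Bj_apply hm]
  have hZf : ∀ G : LW K, Zf al G = Z al G + Polynomial.C (Tr G) := fun _ => rfl
  have hZ : ∀ G : LW K, Z al (F (Kh A i Kc G)) = F (Kh A i Kc (Z al G)) := by
    intro G
    have e1 := hZG G
    rw [hZf, hZf, map_add, map_add, Kh_C, hi, hTr] at e1
    exact (add_right_cancel e1).symm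
  have hZp : ∀ (s : ℕ) (G : LW K), (Z al ^ s) (F (Kh A i Kc G)) =
      F (Kh A i Kc ((Z al ^ s) G)) := by
    intro s G
    induction s with
    | zero => rfl
    | succ s ih => rw [pow_succ', Module.End.mul_apply, Module.End.mul_apply, ih, hZ]
  have hC : (Polynomial.C (Fc (Kc f)) : LW K) = F (Kh A i Kc (Polynomial.C f)) := by
    rw [Kh_C, hi]
  rw [H_apply, H_apply, hC, hZp, hTr]

/-- The process of the arc model. -/
theorem arcMain {K : Type} [Field K] [CharZero K] {al kap : K} (hal : al ≠ 0)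
    (hk : al * kap ^ 2 = (al - 1) * kap + 1) {T : CM K →ₗ[K] Lam K} {That : AM K kap →ₗ[K] LW K}
    (hh : HatSt K al kap T That) (u v : K) :
    ∃ Kc : Lam K →ₗ[K] CM K, Kc 1 = 1 ∧
      (∀ k f, k ≠ 0 → Kc (X k * f) = cA ((Aop al kap u v ^ k) (iA kap (Kc f)))) ∧
      (∀ f, Kc (X 0 * f) = 0) ∧
      (∀ r f, T (Kc (H al r f)) = H al r (T (Kc f))) ∧
      ∀ G : LW K, That (AbsM.Kh (Aop al kap u v) (iA kap) Kc (Zf al G)) =
        Zf al (That (AbsM.Kh (Aop al kap u v) (iA kap) Kc G)) :=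
  absMainZ hal (rel_arc hk u v) That T hh.r hh.c hh.i

end

end Pool.Agent.MJX
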