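import Pool.Agent.MJX.XMod
import Pool.Agent.MJT.Proj

/-!
The `p_1^n` row of the process of the arc model.
-/

namespace Pool.Agent.MJX

open MvPolynomial Pool.Agent.MJR Pool.Agent.MJT

noncomputable section

variable {K : Type} [Field K] {kap : K}

/-! ### Uniqueness of `T` -/

theorem T_unique {V : Type} [AddCommGroup V] [Module K V] (D : CM K →ₗ[K] V) (tau : K)
    (h1 : D 1 = 0) (hp : ∀ (k : ℕ) (f : CM K), D f = 0 → D (X (Sum.inl k) * f) = 0)
    (hy : ∀ (a : ℕ) (f : CM K), D (X (Sum.inr a) * f) = D (Lop tau a f)) : D = 0 := by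
  have main : ∀ (n : ℕ) (l : List (ℕ ⊕ ℕ)), l.length ≤ n → D ((l.map X).prod) = 0 := by
    intro n
    induction n with
    | zero =>
      intro l hl
      have : l = [] := List.eq_nil_of_length_eq_zero (by omega)
      rw [this, List.map_nil, List.prod_nil, h1]
    | succ n ih =>
      intro l hl
      rcases l with _ | ⟨v, l⟩
      · rw [List.map_nil, List.prod_nil, h1]
      · have hl' : l.length ≤ n := by simpa using hl
        rw [List.map_cons, List.prod_cons]
        rcases v with k | a
        · exact hp _ _ (ih l hl')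
        · have e : Lop tau a ((l.map X).prod) = X (Sum.inl (a + 1)) * (l.map X).prod +
              tau • dl K a ((l.map X).prod) := rfl
          rw [hy, e, map_add, hp _ _ (ih l hl'), map_smul, zero_add]
          have key : ∀ (l : List (ℕ ⊕ ℕ)) (l₀ : List (ℕ ⊕ ℕ)), l₀.length + l.length ≤ n →
              D (((l₀.map X).prod : CM K) * dl K a ((l.map X).prod)) = 0 := by
            intro l
            induction l with
            | nil =>
              intro l₀ _
              rw [List.map_nil, List.prod_nil, Derivation.map_one_eq_zero, mul_zero, map_zero]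
            | cons v l ihl =>
              intro l₀ hl₀
              rw [List.length_cons] at hl₀
              rw [List.map_cons, List.prod_cons, Derivation.leibniz, smul_eq_mul, smul_eq_mul,
                mul_add, map_add]
              have e1 : ((l₀.map X).prod : CM K) * (X v * dl K a ((l.map X).prod)) =
                  ((v :: l₀).map X).prod * dl K a ((l.map X).prod) := by
                rw [List.map_cons, List.prod_cons]
                ring
              rw [e1, ihl (v :: l₀) (by rw [List.length_cons]; omega), zero_add]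
              rcases v with k | c
              · have e2 : dl K a (X (Sum.inl k)) = 0 := by
                  unfold dl
                  rw [mkDerivation_X]
                rw [e2, mul_zero, mul_zero, map_zero]
              · have e2 : dl K a (X (Sum.inr c)) = X (Sum.inr (a + c + 1)) := by
                  unfold dl
                  rw [mkDerivation_X]
                rw [e2]
                have e1 : ((l₀.map X).prod : CM K) * ((l.map X).prod * X (Sum.inr (a + c + 1))) =
                    ((l₀ ++ (Sum.inr (a + c + 1) :: l)).map X).prod := by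
                  rw [List.map_append, List.prod_append, List.map_cons, List.prod_cons]
                  ring
                rw [e1]
                refine ih _ ?_
                rw [List.length_append, List.length_cons]
                omega
          have h3 := key l [] (by simpa using hl')
          rw [List.map_nil, List.prod_nil, one_mul] at h3
          rw [h3, smul_zero]
  apply LinearMap.ext
  intro f
  rw [LinearMap.zero_apply]
  induction f using MvPolynomial.induction_on' with
  | monomial e c =>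
    have e3 : monomial e c = c • (((Finsupp.toMultiset e).toList.map X).prod : CM K) := by
      have e4 : ∀ l : List (ℕ ⊕ ℕ), ((l.map X).prod : CM K) =
          monomial (Multiset.toFinsupp (l : Multiset (ℕ ⊕ ℕ))) 1 := by
        intro l
        induction l with
        | nil => simp
        | cons a l ih =>
          rw [List.map_cons, List.prod_cons, ih, ← Multiset.cons_coe, ← Multiset.singleton_add,
            map_add, Multiset.toFinsupp_singleton, X, monomial_mul, one_mul]
      rw [e4, Multiset.coe_toList, Finsupp.toMultiset_toFinsupp, smul_monomial, smul_eq_mul,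
        mul_one]
    rw [e3, map_smul, main _ _ le_rfl, smul_zero]
  | add p q hp hq => rw [map_add, hp, hq, add_zero]

/-! ### The evaluations -/

/-- `p_1 ↦ t`, `p_k ↦ 0` for the other `k`. -/
def thL (K : Type) [Field K] : Lam K →ₐ[K] Polynomial K :=
  aeval fun k => if k = 1 then Polynomial.X else 0

/-- `p_1 ↦ t`, `y_0 ↦ t`, the other variables are mapped to `0`. -/
def thC (K : Type) [Field K] : CM K →ₐ[K] Polynomial K :=
  aeval (Sum.elim (fun k => if k = 1 then Polynomial.X else 0)
    fun a => if a = 0 then Polynomial.X else 0)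

theorem thL_X (k : ℕ) : thL K (X k) = if k = 1 then Polynomial.X else 0 := by
  unfold thL
  rw [aeval_X]

theorem thC_inl (k : ℕ) : thC K (X (Sum.inl k)) = if k = 1 then Polynomial.X else 0 := by
  unfold thC
  rw [aeval_X, Sum.elim_inl]

theorem thC_inr (a : ℕ) : thC K (X (Sum.inr a)) = if a = 0 then Polynomial.X else 0 := by
  unfold thC
  rw [aeval_X, Sum.elim_inr]

theorem thC_dl (a : ℕ) (f : CM K) : thC K (dl K a f) = 0 := by
  induction f using MvPolynomial.induction_on with
  | C c => rw [← algebraMap_eq, Derivation.map_algebraMap, map_zero]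
  | add p q hp hq => rw [map_add, map_add, hp, hq, add_zero]
  | mul_X p v hp =>
    rw [Derivation.leibniz, smul_eq_mul, smul_eq_mul, map_add, map_mul, map_mul, hp, mul_zero,
      add_zero]
    rcases v with k | c
    · have e2 : dl K a (X (Sum.inl k)) = 0 := by
        unfold dl
        rw [mkDerivation_X]
      rw [e2, map_zero, mul_zero]
    · have e2 : dl K a (X (Sum.inr c)) = X (Sum.inr (a + c + 1)) := by
        unfold dl
        rw [mkDerivation_X]
      rw [e2, thC_inr, if_neg (Nat.succ_ne_zero _), mul_zero]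

/-- Forgetting the marks does not change the evaluation. -/
theorem thL_T {tau : K} {T : CM K →ₗ[K] Lam K} (hT : IsT tau T) (f : CM K) :
    thL K (T f) = thC K f := by
  have h := T_unique ((thL K).toLinearMap ∘ₗ T - (thC K).toLinearMap) tau (by
      change thL K (T 1) - thC K 1 = 0
      rw [hT.one, map_one, map_one, sub_self]) (by
      intro k f hf
      change thL K (T (X (Sum.inl k) * f)) - thC K (X (Sum.inl k) * f) = 0
      change thL K (T f) - thC K f = 0 at hf
      rw [hT.p, map_mul, map_mul, thL_X, thC_inl, ← mul_sub, hf, mul_zero]) (by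
      intro a f
      change thL K (T (X (Sum.inr a) * f)) - thC K (X (Sum.inr a) * f) =
        thL K (T (Lop tau a f)) - thC K (Lop tau a f)
      have e : Lop tau a f = X (Sum.inl (a + 1)) * f + tau • dl K a f := rfl
      rw [hT.y]
      congr 1
      rw [e, map_add, map_smul, thC_dl, smul_zero, add_zero, map_mul, map_mul, thC_inl, thC_inr]
      simp only [Nat.add_eq_right])
  have h2 := LinearMap.congr_fun h f
  exact sub_eq_zero.mp h2

/-- The coefficient of `p_1^n`. -/
theorem coeff_ones (n : ℕ) (f : Lam K) : coeff (expo (ones n)) f = (thL K f).coeff n := by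
  classical
  have e0 : expo (ones n) = Finsupp.single 1 n := by
    unfold expo
    change Multiset.toFinsupp (Multiset.replicate n 1) = _
    rw [← Multiset.nsmul_singleton, map_nsmul, Multiset.toFinsupp_singleton, Finsupp.smul_single,
      smul_eq_mul, mul_one]
  rw [e0]
  induction f using MvPolynomial.induction_on' with
  | monomial e c =>
    unfold thL
    rw [coeff_monomial, aeval_monomial]
    by_cases h : ∀ k ∈ e.support, k = 1
    · have he : e = Finsupp.single 1 (e 1) := by
        ext k
        by_cases hk : k = 1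
        · rw [hk, Finsupp.single_eq_same]
        · rw [Finsupp.single_apply, if_neg (Ne.symm hk)]
          by_contra h2
          exact hk (h k (Finsupp.mem_support_iff.mpr h2))
      have h5 : (Finsupp.single 1 (e 1)).prod (fun (i k : ℕ) =>
          (if i = 1 then (Polynomial.X : Polynomial K) else 0) ^ k) = Polynomial.X ^ (e 1) := by
        rw [Finsupp.prod_single_index, if_pos rfl]
        rw [if_pos rfl, pow_zero]
      rw [he, h5, ← Polynomial.C_eq_algebraMap, Polynomial.coeff_C_mul, Polynomial.coeff_X_pow]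
      by_cases h3 : e 1 = n
      · rw [h3, if_pos rfl, if_pos rfl, mul_one]
      · rw [if_neg (fun h4 => h3 (by simpa using (Finsupp.single_injective 1 h4))),
          if_neg (Ne.symm h3), mul_zero]
    · push Not at h
      obtain ⟨k, hk, hk1⟩ := h
      rw [if_neg, Finsupp.prod, Finset.prod_eq_zero hk, mul_zero, Polynomial.coeff_zero]
      · rw [if_neg hk1, zero_pow (Finsupp.mem_support_iff.mp hk)]
      · intro h4
        rw [h4, Finsupp.mem_support_iff, Finsupp.single_apply, if_neg (Ne.symm hk1)] at hk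
        exact hk rfl
  | add p q hp hq => rw [coeff_add, map_add, Polynomial.coeff_add, hp, hq]

/-! ### The root functionals -/

/-- The coefficient of the root word `y`. -/
def c0 (kap : K) (y : Ix) : AM K kap →ₗ[K] Polynomial K :=
  (thC K).toLinearMap ∘ₗ (lcb (K := K) (kap := kap) (M := CM K)
    fun x => if x = y then 1 else 0).restrictScalars K

theorem c0_sg (y x : Ix) (f : CM K) :
    c0 kap y (sg x f) = if x = y then thC K f else 0 := by
  change thC K (lcb (K := K) (kap := kap) (M := CM K) (fun x => if x = y then 1 else 0)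
    (sg x f)) = _
  rw [lcb_sg, smul_eq_mul]
  split_ifs
  · rw [mul_one]
  · rw [mul_zero, map_zero]

/-- Linear maps on `AM` agree if they agree on the basis. -/
theorem sg_ext {M : Type} [AddCommGroup M] [Module K M] {F G : AM K kap →ₗ[K] M}
    (h : ∀ x f, F (sg x f) = G (sg x f)) (x : AM K kap) : F x = G x := by
  refine sg_induction (P := fun x => F x = G x) x ?_ ?_ h
  · rw [map_zero, map_zero]
  · intro x y hx hy
    rw [map_add, map_add, hx, hy]

theorem w_sg_inl (j : ℕ) (f : CM K) :
    (wA * sg (Sum.inl j) f : AM K kap) = sg (Sum.inl (j + 1)) f := by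
  rw [wA, sg_mul_sg, bp, one_mul, ← sg_eq, add_comm]

theorem w_sg_inr (j a : ℕ) (f : CM K) :
    (wA * sg (Sum.inr (j, a)) f : AM K kap) = sg (Sum.inr (j + 1, a)) f := by
  rw [wA, sg_mul_sg, bp, one_mul, ← sg_eq, add_comm 1 j]

theorem m_sg_inl (j : ℕ) (f : CM K) :
    (mA * sg (Sum.inl j) f : AM K kap) = sg (Sum.inr (0, j)) f := by
  rw [mA, sg_mul_sg, bp, one_mul, ← sg_eq, zero_add]

theorem m_sg_inr (j a : ℕ) (f : CM K) :
    (mA * sg (Sum.inr (j, a)) f : AM K kap) =
      sg (Sum.inr (0, a)) (f * (C kap * X (Sum.inr j))) := by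
  rw [mA, sg_mul_sg, bp, one_mul, zero_add, smul_sg]

/-- The root word `1`. -/
abbrev i1 : Ix := Sum.inl 0
/-- The root word `w`. -/
abbrev iw : Ix := Sum.inl 1
/-- The root word `m`. -/
abbrev im : Ix := Sum.inr (0, 0)

theorem c0_w (y : AM K kap) : c0 kap i1 (wA * y) = 0 ∧ c0 kap iw (wA * y) = c0 kap i1 y ∧
    c0 kap im (wA * y) = 0 := by
  refine ⟨?_, ?_, ?_⟩
  · refine sg_ext (F := c0 kap i1 ∘ₗ LinearMap.mulLeft K wA) (G := 0) ?_ y
    intro x f
    rw [LinearMap.comp_apply, LinearMap.mulLeft_apply, LinearMap.zero_apply]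
    rcases x with j | ⟨j, a⟩
    · rw [w_sg_inl, c0_sg, if_neg (by simp)]
    · rw [w_sg_inr, c0_sg, if_neg (by simp)]
  · refine sg_ext (F := c0 kap iw ∘ₗ LinearMap.mulLeft K wA) (G := c0 kap i1) ?_ y
    intro x f
    rw [LinearMap.comp_apply, LinearMap.mulLeft_apply]
    rcases x with j | ⟨j, a⟩
    · rw [w_sg_inl, c0_sg, c0_sg]
      simp only [Sum.inl.injEq, Nat.add_eq_right]
    · rw [w_sg_inr, c0_sg, c0_sg, if_neg (by simp), if_neg (by simp)]
  · refine sg_ext (F := c0 kap im ∘ₗ LinearMap.mulLeft K wA) (G := 0) ?_ y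
    intro x f
    rw [LinearMap.comp_apply, LinearMap.mulLeft_apply, LinearMap.zero_apply]
    rcases x with j | ⟨j, a⟩
    · rw [w_sg_inl, c0_sg, if_neg (by simp)]
    · rw [w_sg_inr, c0_sg, if_neg (by simp)]

theorem c0_m (y : AM K kap) : c0 kap i1 (mA * y) = 0 ∧ c0 kap iw (mA * y) = 0 ∧
    c0 kap im (mA * y) = c0 kap i1 y + (Polynomial.C kap * Polynomial.X) * c0 kap im y := by
  refine ⟨?_, ?_, ?_⟩
  · refine sg_ext (F := c0 kap i1 ∘ₗ LinearMap.mulLeft K mA) (G := 0) ?_ y
    intro x f
    rw [LinearMap.comp_apply, LinearMap.mulLeft_apply, LinearMap.zero_apply]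
    rcases x with j | ⟨j, a⟩
    · rw [m_sg_inl, c0_sg, if_neg (by simp)]
    · rw [m_sg_inr, c0_sg, if_neg (by simp)]
  · refine sg_ext (F := c0 kap iw ∘ₗ LinearMap.mulLeft K mA) (G := 0) ?_ y
    intro x f
    rw [LinearMap.comp_apply, LinearMap.mulLeft_apply, LinearMap.zero_apply]
    rcases x with j | ⟨j, a⟩
    · rw [m_sg_inl, c0_sg, if_neg (by simp)]
    · rw [m_sg_inr, c0_sg, if_neg (by simp)]
  · have hext : ∀ x f, (c0 kap im ∘ₗ LinearMap.mulLeft K mA) (sg x f) =
        (c0 kap i1 + LinearMap.mulLeft K (Polynomial.C kap * Polynomial.X) ∘ₗ c0 kap im)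
          (sg x f) := ?_
    · have h := sg_ext hext y
      rw [LinearMap.comp_apply, LinearMap.mulLeft_apply, LinearMap.add_apply,
        LinearMap.comp_apply, LinearMap.mulLeft_apply] at h
      exact h
    intro x f
    rw [LinearMap.comp_apply, LinearMap.mulLeft_apply, LinearMap.add_apply, LinearMap.comp_apply,
      LinearMap.mulLeft_apply]
    rcases x with j | ⟨j, a⟩
    · rw [m_sg_inl, c0_sg, c0_sg, c0_sg, if_neg (by simp : ¬ (Sum.inl j : Ix) = im), mul_zero,
        add_zero]
      simp only [Sum.inr.injEq, Prod.mk.injEq, true_and, Sum.inl.injEq]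
    · rw [m_sg_inr, c0_sg, c0_sg, c0_sg, if_neg (by simp : ¬ (Sum.inr (j, a) : Ix) = i1), zero_add,
        map_mul, map_mul, thC_inr]
      have e : thC K (C kap) = Polynomial.C kap := by
        rw [← algebraMap_eq, AlgHom.commutes, Polynomial.C_eq_algebraMap]
      rw [e]
      by_cases ha : a = 0 <;> by_cases hj : j = 0 <;> simp [ha, hj] <;> ring

theorem thC_cA (y : AM K kap) :
    thC K (cA y) = Polynomial.X * (c0 kap iw y + c0 kap im y) := by
  refine sg_ext (F := (thC K).toLinearMap ∘ₗ (cK : AM K kap →ₗ[K] CM K))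
    (G := LinearMap.mulLeft K Polynomial.X ∘ₗ (c0 kap iw + c0 kap im)) ?_ y
  intro x f
  rw [LinearMap.comp_apply, LinearMap.comp_apply, LinearMap.mulLeft_apply, LinearMap.add_apply]
  change thC K (cA (sg x f)) = _
  rcases x with j | ⟨j, a⟩
  · rw [cA_inl, c0_sg, c0_sg, if_neg (by simp : ¬ (Sum.inl j : Ix) = im), add_zero, map_mul]
    by_cases hj : j = 0
    · rw [if_pos hj, map_zero, mul_zero, if_neg (by simp [hj]), mul_zero]
    · rw [if_neg hj, thC_inl]
      by_cases hj1 : j = 1
      · rw [if_pos hj1, if_pos (by rw [hj1]), mul_comm]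
      · rw [if_neg hj1, if_neg (by simpa using hj1), mul_zero, mul_zero]
  · rw [cA_inr, c0_sg, c0_sg, if_neg (by simp : ¬ (Sum.inr (j, a) : Ix) = iw), zero_add, map_mul,
      thC_inr]
    by_cases ha : a = 0 <;> by_cases hj : j = 0 <;> simp [ha, hj]
    ring

theorem c0_xw (y : AM K kap) : c0 kap i1 (y * wA) = 0 ∧ c0 kap iw (y * wA) = c0 kap i1 y := by
  refine ⟨?_, ?_⟩
  · refine sg_ext (F := c0 kap i1 ∘ₗ LinearMap.mulRight K wA) (G := 0) ?_ y
    intro x f
    rw [LinearMap.comp_apply, LinearMap.mulRight_apply, LinearMap.zero_apply]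
    rcases x with j | ⟨j, a⟩
    · rw [sg_mul_w, c0_sg, if_neg (by simp)]
    · rw [sg1_mul_w, c0_sg, if_neg (by simp)]
  · refine sg_ext (F := c0 kap iw ∘ₗ LinearMap.mulRight K wA) (G := c0 kap i1) ?_ y
    intro x f
    rw [LinearMap.comp_apply, LinearMap.mulRight_apply]
    rcases x with j | ⟨j, a⟩
    · rw [sg_mul_w, c0_sg, c0_sg]
      simp only [Sum.inl.injEq, Nat.add_eq_right]
    · rw [sg1_mul_w, c0_sg, c0_sg, if_neg (by simp), if_neg (by simp)]

theorem c0_xm (y : AM K kap) : c0 kap i1 (y * mA) = 0 ∧ c0 kap iw (y * mA) = 0 := by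
  refine ⟨?_, ?_⟩
  · refine sg_ext (F := c0 kap i1 ∘ₗ LinearMap.mulRight K mA) (G := 0) ?_ y
    intro x f
    rw [LinearMap.comp_apply, LinearMap.mulRight_apply, LinearMap.zero_apply]
    rcases x with j | ⟨j, a⟩
    · rw [sg_mul_m, c0_sg, if_neg (by simp)]
    · rw [sg1_mul_m, c0_sg, if_neg (by simp)]
  · refine sg_ext (F := c0 kap iw ∘ₗ LinearMap.mulRight K mA) (G := 0) ?_ y
    intro x f
    rw [LinearMap.comp_apply, LinearMap.mulRight_apply, LinearMap.zero_apply]
    rcases x with j | ⟨j, a⟩
    · rw [sg_mul_m, c0_sg, if_neg (by simp)]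
    · rw [sg1_mul_m, c0_sg, if_neg (by simp)]

theorem c0_xw' (y : AM K kap) : c0 kap im (y * wA) = 0 := by
  refine sg_ext (F := c0 kap im ∘ₗ LinearMap.mulRight K wA) (G := 0) ?_ y
  intro x f
  rw [LinearMap.comp_apply, LinearMap.mulRight_apply, LinearMap.zero_apply]
  rcases x with j | ⟨j, a⟩
  · rw [sg_mul_w, c0_sg, if_neg (by simp)]
  · rw [sg1_mul_w, c0_sg, if_neg (by simp)]

theorem c0_smul (i : Ix) (f : CM K) (y : AM K kap) :
    c0 kap i (f • y) = thC K f * c0 kap i y := by
  refine sg_induction (P := fun y => c0 kap i (f • y) = thC K f * c0 kap i y) y ?_ ?_ ?_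
  · rw [smul_zero, map_zero, mul_zero]
  · intro x y hx hy
    rw [smul_add, map_add, map_add, hx, hy, mul_add]
  · intro x g
    rw [smul_sg, c0_sg, c0_sg]
    split_ifs
    · rw [map_mul]
    · rw [mul_zero]

/-- Opening a cycle never gives the empty root word. -/
theorem c0_o0 (f : CM K) : c0 kap i1 (o0 kap f) = 0 := by
  induction f using MvPolynomial.induction_on with
  | C c => rw [← algebraMap_eq, Derivation.map_algebraMap, map_zero]
  | add p q hp hq => rw [map_add, map_add, hp, hq, add_zero]
  | mul_X p v hp =>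
    rw [Derivation.leibniz, map_add, c0_smul, c0_smul, hp, mul_zero, add_zero]
    rcases v with k | c
    · rw [o0_inl]
      rcases k with _ | k
      · rw [Nat.cast_zero, zero_smul, map_zero, mul_zero]
      · rw [LinearMap.map_smul, pow_succ, (c0_xw _).1, smul_zero, mul_zero]
    · rw [o0_inr]
      unfold Ow0
      rw [map_sum, Finset.sum_eq_zero, mul_zero]
      intro l hl
      have hl' := Finset.mem_range.mp hl
      have e : c - l = (c - l - 1) + 1 := by omega
      rw [e, pow_succ, ← mul_assoc, (c0_xw _).1]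

theorem c0_T0 {al : K} (hT : TSt K al kap) (y : AM K kap) :
    c0 kap i1 (T0 al kap y) = Polynomial.X * c0 kap iw y := by
  have hone : ∀ i : Ix, i ≠ i1 → c0 kap i (1 : AM K kap) = 0 := by
    intro i hi
    rw [one_def, c0_sg, if_neg (Ne.symm hi)]
  have hone1 : c0 kap i1 (1 : AM K kap) = 1 := by
    rw [one_def, c0_sg, if_pos rfl, map_one]
  have hext : c0 kap i1 ∘ₗ T0 al kap = LinearMap.mulLeft K Polynomial.X ∘ₗ c0 kap iw := by
    apply lin_ext
    · intro f
      rw [LinearMap.comp_apply, LinearMap.comp_apply, LinearMap.mulLeft_apply, hT.smul0, hT.one0,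
        smul_zero, zero_add, mul_one, LinearMap.map_smul, c0_o0, smul_zero, c0_smul,
        hone iw (by simp), mul_zero, mul_zero]
    · intro x _
      have h1 : c0 kap i1 (rv x * wA) = 0 := (c0_xw _).1
      rw [LinearMap.comp_apply, LinearMap.comp_apply, LinearMap.mulLeft_apply, hT.w0, map_add,
        map_add, (c0_xw _).1, LinearMap.map_smul, h1, c0_smul, hone1, mul_one, smul_zero, add_zero,
        zero_add, thC_cA, (c0_xw _).2, c0_xw', add_zero]
    · intro x _
      rw [LinearMap.comp_apply, LinearMap.comp_apply, LinearMap.mulLeft_apply, hT.m0,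
        (c0_xm _).1, (c0_xm _).2, mul_zero]
  exact LinearMap.congr_fun hext y

/-- One insertion. -/
theorem c0_A {al : K} (hT : TSt K al kap) (u v : K) (y : AM K kap) :
    c0 kap i1 (Aop al kap u v y) = 0 ∧
    c0 kap iw (Aop al kap u v y) = u • c0 kap i1 y + Polynomial.X * c0 kap iw y ∧
    c0 kap im (Aop al kap u v y) = v • (c0 kap i1 y +
      (Polynomial.C kap * Polynomial.X) * c0 kap im y) := by
  rw [A_apply, map_add, map_add, map_add, LinearMap.map_smul, LinearMap.map_smul,
    LinearMap.map_smul, (c0_w _).1, (c0_w _).2.1, (c0_w _).2.2, (c0_m _).1, (c0_m _).2.1,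
    (c0_m _).2.2, map_add, LinearMap.map_smul, c0_T0 hT]
  refine ⟨?_, ?_, ?_⟩
  · rw [smul_zero, add_zero]
  · rw [smul_zero, add_zero]
  · rw [zero_add]

theorem c0_pow {al : K} (hT : TSt K al kap) (u v : K) (g : CM K) (k : ℕ) :
    c0 kap i1 ((Aop al kap u v ^ (k + 1)) (iA kap g)) = 0 ∧
    c0 kap iw ((Aop al kap u v ^ (k + 1)) (iA kap g)) =
      Polynomial.C u * Polynomial.X ^ k * thC K g ∧
    c0 kap im ((Aop al kap u v ^ (k + 1)) (iA kap g)) =
      Polynomial.C (v * (v * kap) ^ k) * Polynomial.X ^ k * thC K g := by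
  have hi : iA kap g = sg i1 g := by
    change g • (1 : AM K kap) = _
    rw [one_def, ← sg_eq]
  induction k with
  | zero =>
    rw [zero_add, pow_one, (c0_A hT u v _).1, (c0_A hT u v _).2.1, (c0_A hT u v _).2.2, hi, c0_sg,
      c0_sg, c0_sg, if_pos rfl, if_neg (by simp), if_neg (by simp), mul_zero, add_zero, mul_zero,
      add_zero]
    simp only [Polynomial.smul_eq_C_mul, pow_zero, mul_one, and_self]
  | succ k ih =>
    rw [pow_succ' (Aop al kap u v), Module.End.mul_apply, (c0_A hT u v _).1,
      (c0_A hT u v _).2.1, (c0_A hT u v _).2.2, ih.1, ih.2.1, ih.2.2]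
    refine ⟨rfl, ?_, ?_⟩
    · rw [smul_zero, zero_add]
      ring
    · rw [zero_add, Polynomial.smul_eq_C_mul]
      simp only [map_mul, map_pow]
      ring

/-- The row: one factor. -/
theorem row_step {al : K} (hT : TSt K al kap) (u v : K) (g : CM K) {k : ℕ} (hk : k ≠ 0) :
    thC K (cA ((Aop al kap u v ^ k) (iA kap g))) =
      Polynomial.C (u + v * (v * kap) ^ (k - 1)) * Polynomial.X ^ k * thC K g := by
  obtain ⟨j, rfl⟩ := Nat.exists_eq_succ_of_ne_zero hk
  have h := c0_pow (kap := kap) hT u v g j
  rw [thC_cA, Nat.succ_eq_add_one, h.2.1, h.2.2, Nat.add_sub_cancel]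
  simp only [map_add]
  ring

/-- The row. -/
theorem row_mon {al : K} (hT : TSt K al kap) (u v : K) (Kc : Lam K →ₗ[K] CM K) (h1 : Kc 1 = 1)
    (hK : ∀ k f, k ≠ 0 → Kc (X k * f) = cA ((Aop al kap u v ^ k) (iA kap (Kc f))))
    (s : Multiset ℕ) (h0 : 0 ∉ s) : thC K (Kc (GradeM.mon K s)) =
      Polynomial.C (s.map fun k => u + v * (v * kap) ^ (k - 1)).prod * Polynomial.X ^ s.sum := by
  induction s using Multiset.induction_on with
  | empty => rw [GradeM.mon_zero, h1, map_one]; simp
  | cons k s ih =>
    rw [Multiset.mem_cons, not_or] at h0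
    rw [GradeM.mon_cons, hK _ _ (Ne.symm h0.1), row_step hT u v _ (Ne.symm h0.1), ih h0.2,
      Multiset.map_cons, Multiset.prod_cons, Multiset.sum_cons, map_mul, pow_add]
    ring

/-- Theorem X. -/
theorem thmX {n : ℕ} {J : n.Partition → n.Partition → QA} (hJ : IsJack RatFunc.X n J)
    (c : n.Partition → n.Partition → n.Partition → QA)
    (hc : ∀ l m v, ∑ p, J l p * c p m v = J l m * J l v) {kap : QA}
    (hk : RatFunc.X * kap ^ 2 = (RatFunc.X - 1) * kap + 1) {tau : QA}
    {T : CM QA →ₗ[QA] Lam QA} {That : AM QA kap →ₗ[QA] LW QA} (hI : IsT tau T)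
    (hh : HatSt QA RatFunc.X kap T That) (u v : QA) :
    ∃ Kc : Lam QA →ₗ[QA] CM QA, Kc 1 = 1 ∧
      (∀ k f, k ≠ 0 → Kc (X k * f) = cA ((Aop RatFunc.X kap u v ^ k) (iA kap (Kc f)))) ∧
      ∀ p m : n.Partition, ∑ r, (r.parts.map fun k => u + v * (v * kap) ^ (k - 1)).prod * c p m r =
        coeff (expo m) (T (Kc (pp QA p))) := by
  obtain ⟨Kc, h1, hK, h0, hH, hZ⟩ := arcMain RatFunc.X_ne_zero hk hh u v
  refine ⟨Kc, h1, hK, fun p m => ?_⟩
  have h := jackOpP hJ c hc (T ∘ₗ Kc) (fun r f => by
    rw [LinearMap.comp_apply, LinearMap.comp_apply, hH]) p m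
  rw [LinearMap.comp_apply] at h
  rw [h]
  refine Finset.sum_congr rfl fun r _ => ?_
  rw [LinearMap.comp_apply, coeff_ones, thL_T hI]
  have h2 := row_mon (tSt _ hk) u v Kc h1 hK r.parts
    (fun h => absurd (r.parts_pos h) (lt_irrefl 0))
  have h3 : (pp QA r : Lam QA) = GradeM.mon QA r.parts := rfl
  rw [h3, h2, Polynomial.coeff_C_mul, Polynomial.coeff_X_pow, r.parts_sum, if_pos rfl, mul_one]

end

end Pool.Agent.MJX
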