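import Pool.Agent.MJX.RMod

/-!
The rules for the touches of the letters.
-/

namespace Pool.Agent.MJX

open MvPolynomial Pool.Agent.MJR

noncomputable section

variable {K : Type} [Field K] {kap : K}

theorem T0_inl (al : K) (j : ℕ) (f : CM K) : T0 al kap (sg (Sum.inl j) f) =
    f • rW (al - 1) kap j + al • o0 kap f * sg (Sum.inl j) 1 := by
  unfold T0
  exact FO_sg _ _ _ _

theorem T0_inr (al : K) (j a : ℕ) (f : CM K) : T0 al kap (sg (Sum.inr (j, a)) f) =
    f • tM (al - 1) kap j a + al • o0 kap f * sg (Sum.inr (j, a)) 1 := by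
  unfold T0
  exact FO_sg _ _ _ _

theorem T1_inl (al : K) (j : ℕ) (f : CM K) : T1 al kap (sg (Sum.inl j) f) =
    al • o1 kap f * sg (Sum.inl j) 1 := by
  have h : T1 al kap (sg (Sum.inl j) f) =
    f • 0 + al • o1 kap f * sg (Sum.inl j) 1 := by
    unfold T1
    exact FO_sg _ _ _ _
  rw [h, smul_zero, zero_add]

theorem T1_inr (al : K) (j a : ℕ) (f : CM K) : T1 al kap (sg (Sum.inr (j, a)) f) =
    f • sM (al - 1) kap j a + al • o1 kap f * sg (Sum.inr (j, a)) 1 := by
  unfold T1
  exact FO_sg _ _ _ _

/-- The key identity for `T0`. -/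
theorem keyT0 (al : K) (hk : al * kap ^ 2 = (al - 1) * kap + 1) (j a : ℕ) :
    tM (al - 1) kap j a * mA =
    (C kap * X (Sum.inr a) : CM K) • (rW (al - 1) kap j * mA)
      + al • ((C kap : CM K) • (Ow0 kap a * (wA ^ j * mA))) := by
  have h1 : tM (al - 1) kap j a * mA =
      (C kap * X (Sum.inr a) : CM K) • (rW (al - 1) kap j * mA)
      + (Qs kap j a a + (C (al - 1) * C kap : CM K) • Qs kap j a a) := by
    rw [tM_eq, add_mul, Finset.sum_mul]
    congr 1
    · rw [mul_assoc, mul_assoc, ← mul_assoc mA, m_w_m, AM_mul_smul]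
    · have h2 : Qs kap j a a = ∑ r ∈ Finset.range a, (X (Sum.inr (j + (a - r))) : CM K) •
          (wA ^ r * mA : AM K kap) := rfl
      rw [Qs_refl, ← Qs_refl, h2, Finset.smul_sum, ← h2, Qs_refl, ← Finset.sum_add_distrib]
      refine Finset.sum_congr rfl fun r hr => ?_
      have hr' := Finset.mem_range.mp hr
      rw [add_mul, smul_mul_assoc, smul_mul_assoc]
      congr 1
      have e : j + 1 + (a - 1 - r) = j + (a - r) := by omega
      have h2 : (wA ^ r * mA * wA ^ (j + 1) * wA ^ (a - 1 - r) * mA : AM K kap) =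
          (C kap * X (Sum.inr (j + (a - r))) : CM K) • (wA ^ r * mA) := by
        rw [mul_assoc (wA ^ r * mA), ← pow_add, mul_assoc (wA ^ r),
          mul_assoc (wA ^ r), m_w_m, AM_mul_smul, e]
      rw [h2, ksmul, smul_smul, smul_smul, mul_assoc]
  rw [h1, Ow0_mul]
  have h7 := kk al hk
  have h8 : (al • (C kap : CM K) • (C kap : CM K) • Qs kap j a a) =
      ((1 + C (al - 1) * C kap : CM K)) • Qs kap j a a := by
    rw [ksmul, smul_smul, smul_smul, ← h7, mul_assoc]
  rw [h8]
  module

theorem tSt [CharZero K] (al : K) (hk : al * kap ^ 2 = (al - 1) * kap + 1) : TSt K al kap := by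
  have hsm0 : ∀ (f : CM K) (x : AM K kap),
      T0 al kap (f • x) = f • T0 al kap x + al • (o0 kap f * x) := by
    intro f x
    unfold T0
    rw [FO_smul _ (al_der al _)]
    congr 1
    rw [LinearMap.smul_apply, smul_mul_assoc]
    rfl
  have hsm1 : ∀ (f : CM K) (x : AM K kap),
      T1 al kap (f • x) = f • T1 al kap x + al • (o1 kap f * x) := by
    intro f x
    unfold T1
    rw [FO_smul _ (al_der al _)]
    congr 1
    rw [LinearMap.smul_apply, smul_mul_assoc]
    rfl
  have ho1 : T0 al kap (1 : AM K kap) = 0 := by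
    rw [one_def, T0_inl, rW, smul_zero, zero_add, Derivation.map_one_eq_zero, smul_zero,
      zero_mul]
  have ho2 : T1 al kap (1 : AM K kap) = 0 := by
    rw [one_def, T1_inl, Derivation.map_one_eq_zero, smul_zero, zero_mul]
  have hw0 : ∀ x : AM K kap, T0 al kap (x * wA) =
      T0 al kap x * wA + cA (x * wA) • (1 : AM K kap) + (al - 1) • (rv x * wA) := by
    intro x
    refine sg_induction (P := fun x => T0 al kap (x * wA) =
      T0 al kap x * wA + cA (x * wA) • (1 : AM K kap) + (al - 1) • (rv x * wA)) x ?_ ?_ ?_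
    · simp
    · intro x y hx hy
      rw [add_mul, map_add, map_add, map_add, map_add, hx, hy, add_mul, add_mul, add_smul,
        smul_add]
      abel
    · intro i f
      rcases i with j | ⟨j, a⟩
      · rw [sg_mul_w, T0_inl, T0_inl, rv_inl, cA_inl, if_neg (Nat.succ_ne_zero j), add_mul,
          mul_assoc, sg_mul_w, sg_mul_w, sg_inl (j + 1) f]
        simp only [rW, smul_add, smul_mul_assoc, smul_smul, ksmul]
        module
      · rw [sg1_mul_w, T0_inr, T0_inr, rv_inr, cA_inr, add_mul, mul_assoc, sg1_mul_w, sg1_mul_w,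
          sg_inr a (j + 1) f]
        simp only [tM, smul_add, smul_mul_assoc, smul_smul, ksmul]
        module
  have hm0 : ∀ x : AM K kap, T0 al kap (x * mA) = T0 al kap x * mA := by
    intro x
    refine sg_induction (P := fun x => T0 al kap (x * mA) = T0 al kap x * mA) x ?_ ?_ ?_
    · simp
    · intro x y hx hy
      rw [add_mul, map_add, map_add, hx, hy, add_mul]
    · intro i f
      rcases i with j | ⟨j, a⟩
      · rw [sg_mul_m, T0_inr, T0_inl, add_mul, mul_assoc, sg_mul_m]
        simp only [tM, smul_mul_assoc]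
      · have hX : (o0 kap) (X (Sum.inr a)) = Ow0 kap a := by
          unfold o0
          rw [mkDerivation_X]
        have hd : o0 kap (f * (C kap * X (Sum.inr a))) =
            (f * C kap) • Ow0 kap a + (C kap * X (Sum.inr a) : CM K) • (o0 kap) f := by
          rw [Derivation.leibniz, Derivation.leibniz, ← algebraMap_eq, Derivation.map_algebraMap,
            smul_zero, add_zero, algebraMap_eq, hX, smul_smul]
        have h1 := keyT0 al hk j a
        have h2 : (al • (o0 kap) f * (wA ^ j * mA * wA ^ a)) * mA =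
            (C kap * X (Sum.inr a) : CM K) • (al • (o0 kap) f * (wA ^ j * mA)) := by
          rw [mul_assoc, mul_assoc (wA ^ j), mul_assoc (wA ^ j), m_w_m, AM_mul_smul, AM_mul_smul]
        rw [sg1_mul_m, T0_inr, T0_inr, hd, sg_inr j 0 1, sg_inr j a 1, pow_zero, mul_one,
          one_smul, one_smul, add_mul (f • _), h2, smul_add, add_mul, AM_smul_mul f, h1, tM]
        simp only [smul_mul_assoc, smul_smul, ksmul, smul_add]
        module
  have hw1 : ∀ x : AM K kap, T1 al kap (x * wA) = T1 al kap x * wA := by
    intro x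
    refine sg_induction (P := fun x => T1 al kap (x * wA) = T1 al kap x * wA) x ?_ ?_ ?_
    · simp
    · intro x y hx hy
      rw [add_mul, map_add, map_add, hx, hy, add_mul]
    · intro i f
      rcases i with j | ⟨j, a⟩
      · rw [sg_mul_w, T1_inl, T1_inl, mul_assoc, sg_mul_w]
      · rw [sg1_mul_w, T1_inr, T1_inr, add_mul, mul_assoc, sg1_mul_w]
        simp only [sM, smul_mul_assoc, add_mul, mul_assoc, ← pow_succ]
  have hm1 : ∀ x : AM K kap, T1 al kap (x * mA) =
      T1 al kap x * mA + cA (x * mA) • (1 : AM K kap) + (al - 1) • (rv x * mA) := by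
    intro x
    refine sg_induction (P := fun x => T1 al kap (x * mA) =
      T1 al kap x * mA + cA (x * mA) • (1 : AM K kap) + (al - 1) • (rv x * mA)) x ?_ ?_ ?_
    · simp
    · intro x y hx hy
      rw [add_mul, map_add, map_add, map_add, map_add, hx, hy, add_mul, add_mul, add_smul,
        smul_add]
      abel
    · intro i f
      rcases i with j | ⟨j, a⟩
      · rw [sg_mul_m, T1_inr, T1_inl, rv_inl, cA_inr, sg_mul_m, mul_assoc, sg_mul_m,
          sg_inr j 0 f, pow_zero, mul_one, add_zero, sM, pow_zero, mul_one]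
        simp only [smul_add, smul_smul, ksmul]
        module
      · have hX : (o1 kap) (X (Sum.inr a)) = wA ^ a * mA := by
          unfold o1
          rw [mkDerivation_X]
        have hd : o1 kap (f * (C kap * X (Sum.inr a))) =
            (f * C kap) • (wA ^ a * mA) + (C kap * X (Sum.inr a) : CM K) • (o1 kap) f := by
          rw [Derivation.leibniz, Derivation.leibniz, ← algebraMap_eq, Derivation.map_algebraMap,
            smul_zero, add_zero, algebraMap_eq, hX, smul_smul]
        have h2 : (al • (o1 kap) f * (wA ^ j * mA * wA ^ a)) * mA =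
            (C kap * X (Sum.inr a) : CM K) • (al • (o1 kap) f * (wA ^ j * mA)) := by
          rw [mul_assoc, mul_assoc (wA ^ j), mul_assoc (wA ^ j), m_w_m, AM_mul_smul, AM_mul_smul]
        have h3 : (wA ^ a * mA * (wA ^ j * mA) : AM K kap) =
            (C kap * X (Sum.inr j) : CM K) • (wA ^ a * mA) := by
          rw [mul_assoc, ← mul_assoc mA, m_w_m, AM_mul_smul]
        have h4 : (wA ^ j * mA * wA ^ a * mA : AM K kap) =
            (C kap * X (Sum.inr a) : CM K) • (wA ^ j * mA) := by
          rw [mul_assoc, mul_assoc, ← mul_assoc mA, m_w_m, AM_mul_smul]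
        rw [sg1_mul_m, T1_inr, T1_inr, hd, sg_inr j 0 1, sg_inr j a 1, pow_zero, mul_one,
          one_smul, one_smul, add_mul (f • _), h2, smul_add, add_mul, rv_inr, cA_inr,
          sg1_mul_m, sg_inr a 0, pow_zero, mul_one, add_zero, sM, sM, pow_zero, mul_one]
        simp only [smul_mul_assoc, smul_smul, ksmul, smul_add, add_mul, h3, h4]
        have h7 := kk (K := K) al hk
        have h8 : (C al * (f * C kap) * (C kap * X (Sum.inr j)) : CM K) =
            f * X (Sum.inr j) + C (al - 1) * (f * (C kap * X (Sum.inr j))) := by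
          have : (C al * (f * C kap) * (C kap * X (Sum.inr j)) : CM K) =
            (C al * C kap * C kap) * (f * X (Sum.inr j)) := by ring
          rw [this, h7]
          ring
        rw [h8]
        module
  refine ⟨hsm0, ho1, hw0, hm0, hsm1, ho2, hw1, hm1, ?_⟩
  have hR := rSt al hk
  have hX0 : oA kap = o0 kap + o1 kap := by
    apply MvPolynomial.derivation_ext
    rintro (k | c)
    · rw [Derivation.add_apply, oA, o0, o1, mkDerivation_X, mkDerivation_X, mkDerivation_X]
      simp
    · rw [Derivation.add_apply, oA, o0, o1, mkDerivation_X, mkDerivation_X, mkDerivation_X]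
      simp only [Ow, Ow0, Finset.sum_range_succ, Nat.sub_self, pow_zero, mul_one]
  have h : Rop al kap = T0 al kap + T1 al kap + (al - 1) • (rvK - LinearMap.id) := by
    apply lin_ext
    · intro f
      rw [hR.smul, hR.one, hX0]
      change _ = T0 al kap (f • 1) + T1 al kap (f • 1) + (al - 1) • (rv (f • 1) - f • 1)
      rw [hsm0, hsm1, ho1, ho2, map_smul, rv_one, sub_self]
      simp only [smul_zero, zero_add, add_zero, mul_one, Derivation.add_apply, smul_add]
    · intro x hx
      change Rop al kap x = T0 al kap x + T1 al kap x + (al - 1) • (rv x - x) at hx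
      change Rop al kap (x * wA) = T0 al kap (x * wA) + T1 al kap (x * wA)
        + (al - 1) • (rv (x * wA) - x * wA)
      rw [hR.w, hw0, hw1, hx]
      simp only [add_mul, smul_mul_assoc, sub_mul, smul_sub]
      abel
    · intro x hx
      change Rop al kap x = T0 al kap x + T1 al kap x + (al - 1) • (rv x - x) at hx
      change Rop al kap (x * mA) = T0 al kap (x * mA) + T1 al kap (x * mA)
        + (al - 1) • (rv (x * mA) - x * mA)
      rw [hR.m, hm0, hm1, hx]
      simp only [add_mul, smul_mul_assoc, sub_mul, smul_sub]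
      abel
  intro x
  rw [h]
  rfl

end

end Pool.Agent.MJX
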