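import Pool.Agent.MJX.Ring

/-!
The operators of the arc model.
-/

namespace Pool.Agent.MJX

open MvPolynomial Pool.Agent.MJR

noncomputable section

variable {K : Type} [Field K] {kap : K}

/-! ### Openings -/

/-- Opening a cycle with one mark and `c` zeros at all gaps. -/
def Ow (kap : K) (c : ℕ) : AM K kap := ∑ l ∈ Finset.range (c + 1), wA ^ l * mA * wA ^ (c - l)

/-- Opening after a zero. -/
def Ow0 (kap : K) (c : ℕ) : AM K kap := ∑ l ∈ Finset.range c, wA ^ l * mA * wA ^ (c - l)

/-- Opening a closed state at all gaps. -/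
def oA (kap : K) : Derivation K (CM K) (AM K kap) :=
  mkDerivation K fun v => match v with
    | Sum.inl k => (k : K) • wA ^ k
    | Sum.inr c => Ow kap c

/-- Opening a closed state after a zero. -/
def o0 (kap : K) : Derivation K (CM K) (AM K kap) :=
  mkDerivation K fun v => match v with
    | Sum.inl k => (k : K) • wA ^ k
    | Sum.inr c => Ow0 kap c

/-- Opening a closed state after a mark. -/
def o1 (kap : K) : Derivation K (CM K) (AM K kap) :=
  mkDerivation K fun v => match v with
    | Sum.inl _ => 0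
    | Sum.inr c => wA ^ c * mA

/-- Operators of first order: `f e_x ↦ f r_x + (d f) e_x`. -/
def FO (d : CM K →ₗ[K] AM K kap) (r : Ix → AM K kap) : AM K kap →ₗ[K] AM K kap :=
  Finsupp.lsum K fun x =>
    ((LinearMap.toSpanSingleton (CM K) (AM K kap) (r x)).restrictScalars K) +
      LinearMap.mulRight K (sg x 1 : AM K kap) ∘ₗ d

/-- The touches of the front gap inside the root word `w^j`. -/
def rW (b kap : K) : ℕ → AM K kap
  | 0 => 0
  | j + 1 => rW b kap j * wA + (X (Sum.inl (j + 1)) : CM K) • (1 : AM K kap) + b • wA ^ (j + 1)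

/-- The touches of the front gap inside the root word `w^j m w^a`. -/
def rM (b kap : K) (j : ℕ) : ℕ → AM K kap
  | 0 => rW b kap j * mA + (X (Sum.inr j) : CM K) • (1 : AM K kap) + b • (mA * wA ^ j)
  | a + 1 => rM b kap j a * wA + (X (Sum.inr (j + (a + 1))) : CM K) • (1 : AM K kap)
      + b • (wA ^ (a + 1) * mA * wA ^ j)

/-- The touches of zeros inside the root word `w^j m w^a`. -/
def tM (b kap : K) (j : ℕ) : ℕ → AM K kap
  | 0 => rW b kap j * mA
  | a + 1 => tM b kap j a * wA + (X (Sum.inr (j + (a + 1))) : CM K) • (1 : AM K kap)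
      + b • (wA ^ a * mA * wA ^ (j + 1))

/-- The touches of the mark inside the root word `w^j m w^a`. -/
def sM (b kap : K) (j a : ℕ) : AM K kap :=
  (X (Sum.inr j) : CM K) • wA ^ a + b • (wA ^ j * mA * wA ^ a)

/-- The touch of the front gap. -/
def Rop (al kap : K) : AM K kap →ₗ[K] AM K kap :=
  FO (al • (oA kap).toLinearMap) fun x => match x with
    | Sum.inl j => rW (al - 1) kap j
    | Sum.inr (j, a) => rM (al - 1) kap j a

/-- The touch of the zeros. -/
def T0 (al kap : K) : AM K kap →ₗ[K] AM K kap :=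
  FO (al • (o0 kap).toLinearMap) fun x => match x with
    | Sum.inl j => rW (al - 1) kap j
    | Sum.inr (j, a) => tM (al - 1) kap j a

/-- The touch of the marks. -/
def T1 (al kap : K) : AM K kap →ₗ[K] AM K kap :=
  FO (al • (o1 kap).toLinearMap) fun x => match x with
    | Sum.inl _ => 0
    | Sum.inr (j, a) => sM (al - 1) kap j a

/-- Reversal as a linear map over `K`. -/
def rvK : AM K kap →ₗ[K] AM K kap := (rv (K := K) (kap := kap)).restrictScalars K

/-- The touch of the end gap. -/
def Rb (al kap : K) : AM K kap →ₗ[K] AM K kap := rvK ∘ₗ Rop al kap ∘ₗ rvK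

/-- Closing, as a linear map over `K`. -/
def cK : AM K kap →ₗ[K] CM K := (cA (K := K) (kap := kap)).restrictScalars K

/-- A closed state as a root state with empty root. -/
def iA (kap : K) : CM K →ₗ[K] AM K kap :=
  (LinearMap.toSpanSingleton (CM K) (AM K kap) 1).restrictScalars K

/-- All pairs of gaps of a closed state. -/
def Dc (al kap : K) : CM K →ₗ[K] CM K :=
  (2 : K)⁻¹ • (cK ∘ₗ Rop al kap ∘ₗ (oA kap).toLinearMap
    - (al - 1) • (cK ∘ₗ (oA kap).toLinearMap))

/-- All pairs of gaps, root word `w^j`. -/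
def FW (al kap : K) : ℕ → CM K →ₗ[K] AM K kap
  | 0 => iA kap ∘ₗ Dc al kap + al • (oA kap).toLinearMap
  | j + 1 => LinearMap.mulRight K wA ∘ₗ FW al kap j
      + Rb al kap ∘ₗ LinearMap.mulRight K (wA ^ (j + 1)) ∘ₗ iA kap

/-- All pairs of gaps, root word `w^j m w^a`. -/
def FM (al kap : K) (j : ℕ) : ℕ → CM K →ₗ[K] AM K kap
  | 0 => LinearMap.mulRight K mA ∘ₗ FW al kap j
      + Rb al kap ∘ₗ LinearMap.mulRight K (wA ^ j * mA) ∘ₗ iA kap
  | a + 1 => LinearMap.mulRight K wA ∘ₗ FM al kap j a
      + Rb al kap ∘ₗ LinearMap.mulRight K (wA ^ j * mA * wA ^ (a + 1)) ∘ₗ iA kap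

/-- All pairs of gaps. -/
def Full (al kap : K) : AM K kap →ₗ[K] AM K kap :=
  Finsupp.lsum K fun x => match x with
    | Sum.inl j => FW al kap j
    | Sum.inr (j, a) => FM al kap j a

/-- All pairs of gaps without the front gap. -/
def D0 (al kap : K) : AM K kap →ₗ[K] AM K kap := Full al kap - Rop al kap

/-! ### Doubling -/

/-- Doubling a zero in a closed state. -/
def Ec (K : Type) [Field K] : Derivation K (CM K) (CM K) :=
  mkDerivation K fun v => match v with
    | Sum.inl k => (k : K) • (X (Sum.inl (k + 1)) : CM K)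
    | Sum.inr c => (c : K) • (X (Sum.inr (c + 1)) : CM K)

/-- Doubling a zero. -/
def EA (kap : K) : AM K kap →ₗ[K] AM K kap :=
  FO (iA kap ∘ₗ (Ec K).toLinearMap) fun x => match x with
    | Sum.inl j => (j : K) • wA ^ (j + 1)
    | Sum.inr (j, a) => (j : K) • (wA ^ (j + 1) * mA * wA ^ a)
        + (a : K) • (wA ^ j * mA * wA ^ (a + 1))

/-- Multiplication by a closed state. -/
def mc (f : CM K) : AM K kap →ₗ[K] AM K kap := LinearMap.mulLeft K (f • (1 : AM K kap))

/-- The insertion. -/
def Aop (al kap u v : K) : AM K kap →ₗ[K] AM K kap :=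
  LinearMap.mulLeft K wA ∘ₗ (u • LinearMap.id + T0 al kap) + v • LinearMap.mulLeft K mA

/-- The insertion of a new cycle. -/
def bh (al kap u v : K) : AM K kap →ₗ[K] AM K kap :=
  u • mc (X (Sum.inl 1)) + v • mc (X (Sum.inr 0)) + al • EA kap

/-- The insertion of a new cycle in a closed state. -/
def bc (al u v : K) : CM K →ₗ[K] CM K :=
  u • LinearMap.mulLeft K (X (Sum.inl 1) : CM K) + v • LinearMap.mulLeft K (X (Sum.inr 0) : CM K)
    + al • (Ec K).toLinearMap

/-! ### Recolouring -/

/-- `y_c ↦ y_(a+c+1)`. -/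
def dl (K : Type) [Field K] (a : ℕ) : Derivation K (CM K) (CM K) :=
  mkDerivation K fun v => match v with
    | Sum.inl _ => 0
    | Sum.inr c => (X (Sum.inr (a + c + 1)) : CM K)

/-- `L_a = p_(a+1) + tau dl_a`. -/
def Lop (tau : K) (a : ℕ) : CM K →ₗ[K] CM K :=
  LinearMap.mulLeft K (X (Sum.inl (a + 1)) : CM K) + tau • (dl K a).toLinearMap

/-- The derivatives with respect to the `y_c`. -/
def dy (K : Type) [Field K] : Derivation K (CM K) (ℕ →₀ CM K) :=
  mkDerivation K fun v => match v with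
    | Sum.inl _ => 0
    | Sum.inr c => (Finsupp.single c 1 : ℕ →₀ CM K)

/-- Recolouring of one mark into a zero, closed states. -/
def zc (tau : K) : CM K →ₗ[K] CM K :=
  (Finsupp.lsum K fun c => Lop tau c) ∘ₗ (dy K).toLinearMap

/-- `y_c ↦ w^(j+c+1) m w^a + w^j m w^(a+c+1)`. -/
def zd (kap : K) (j a : ℕ) : Derivation K (CM K) (AM K kap) :=
  mkDerivation K fun v => match v with
    | Sum.inl _ => 0
    | Sum.inr c => wA ^ (j + c + 1) * mA * wA ^ a + wA ^ j * mA * wA ^ (a + c + 1)

/-- Recolouring of one mark into a zero, root states. -/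
def zA (tau kap : K) : AM K kap →ₗ[K] AM K kap :=
  Finsupp.lsum K fun x => match x with
    | Sum.inl j => LinearMap.mulRight K (wA ^ j) ∘ₗ iA kap ∘ₗ zc tau
    | Sum.inr (j, a) => LinearMap.mulRight K (wA ^ j * mA * wA ^ a) ∘ₗ iA kap ∘ₗ zc tau
        + LinearMap.mulRight K (wA ^ (j + a + 1)) ∘ₗ iA kap + tau • (zd kap j a).toLinearMap

/-- The operator forgetting the marks. -/
structure IsT (tau : K) (T : CM K →ₗ[K] Lam K) : Prop where
  one : T 1 = 1
  p : ∀ (k : ℕ) (f : CM K), T (X (Sum.inl k) * f) = X k * T f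
  y : ∀ (a : ℕ) (f : CM K), T (X (Sum.inr a) * f) = T (Lop tau a f)

end

end Pool.Agent.MJX
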