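import Pool.Agent.MJX.St

/-!
Forgetting the marks.
-/

namespace Pool.Agent.MJX

open MvPolynomial Pool.Agent.MJR

noncomputable section

namespace ForgetM

/-! ### Functions on lists -/

/-- The sum over the positions `i` of a list of the value of `F` at the list whose `i`-th entry
is modified by `f`. -/
def msum {S : Type} [AddCommMonoid S] : (List ℕ → S) → (ℕ → ℕ) → List ℕ → S
  | _, _, [] => 0
  | F, f, c :: l => F (f c :: l) + msum (fun l' => F (c :: l')) f l

section

variable {S : Type} [AddCommMonoid S]

lemma msum_congr (f : ℕ → ℕ) (l : List ℕ) : ∀ (F G : List ℕ → S),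
    (∀ l' : List ℕ, l'.length = l.length → F l' = G l') → msum F f l = msum G f l := by
  induction l with
  | nil => intro F G _; rfl
  | cons c l ih =>
    intro F G h
    change F (f c :: l) + msum (fun l' => F (c :: l')) f l =
      G (f c :: l) + msum (fun l' => G (c :: l')) f l
    rw [h (f c :: l) rfl, ih _ (fun l' => G (c :: l')) fun l' hl' => h _ (by simp [hl'])]

lemma msum_add (f : ℕ → ℕ) (l : List ℕ) : ∀ (F G : List ℕ → S),
    msum (fun l' => F l' + G l') f l = msum F f l + msum G f l := by
  induction l with
  | nil => intro F G; exact (add_zero 0).symm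
  | cons c l ih =>
    intro F G
    change (F (f c :: l) + G (f c :: l)) + msum (fun l' => F (c :: l') + G (c :: l')) f l =
      (F (f c :: l) + msum (fun l' => F (c :: l')) f l) +
        (G (f c :: l) + msum (fun l' => G (c :: l')) f l)
    rw [ih]
    abel

/-- Two modifications commute. -/
lemma msum_comm (f g : ℕ → ℕ) (hfg : ∀ c, f (g c) = g (f c)) (l : List ℕ) :
    ∀ (F : List ℕ → S), msum (fun l' => msum F f l') g l = msum (fun l' => msum F g l') f l := by
  induction l with
  | nil => intro F; rfl
  | cons c l ih =>
    intro F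
    change (F (f (g c) :: l) + msum (fun l' => F (g c :: l')) f l) +
        msum (fun l' => F (f c :: l') + msum (fun l'' => F (c :: l'')) f l') g l =
      (F (g (f c) :: l) + msum (fun l' => F (f c :: l')) g l) +
        msum (fun l' => F (g c :: l') + msum (fun l'' => F (c :: l'')) g l') f l
    rw [msum_add, msum_add, hfg, ih]
    abel

lemma msum_perm (f : ℕ → ℕ) {l l' : List ℕ} (h : l.Perm l') : ∀ (F : List ℕ → S),
    (∀ m m' : List ℕ, m.length = l.length → m.Perm m' → F m = F m') →
      msum F f l = msum F f l' := by
  induction h with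
  | nil => intro F _; rfl
  | cons c h ih =>
    rename_i l₁ l₂
    intro F hF
    change F (f c :: l₁) + msum (fun l' => F (c :: l')) f l₁ =
      F (f c :: l₂) + msum (fun l' => F (c :: l')) f l₂
    rw [hF (f c :: l₁) (f c :: l₂) rfl (h.cons _),
      ih (fun l' => F (c :: l')) fun m m' hm hmm => hF _ _ (by simp [hm]) (hmm.cons _)]
  | swap a c l₁ =>
    intro F hF
    change F (f c :: a :: l₁) + (F (c :: f a :: l₁) + msum (fun l' => F (c :: a :: l')) f l₁) =
      F (f a :: c :: l₁) + (F (a :: f c :: l₁) + msum (fun l' => F (a :: c :: l')) f l₁)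
    rw [hF (f c :: a :: l₁) (a :: f c :: l₁) rfl (List.Perm.swap _ _ _),
      hF (c :: f a :: l₁) (f a :: c :: l₁) rfl (List.Perm.swap _ _ _),
      msum_congr f l₁ (fun l' => F (c :: a :: l')) (fun l' => F (a :: c :: l'))
        fun l' hl' => hF _ _ (by simp [hl']) (List.Perm.swap _ _ _)]
    abel
  | trans h₁ h₂ ih₁ ih₂ =>
    intro F hF
    rw [ih₁ F hF, ih₂ F fun m m' hm hmm => hF m m' (by rw [hm, h₁.length_eq]) hmm]

end

section

variable {K : Type} [Field K] {S : Type} [CommRing S] [Algebra K S]

/-- The values on monomials. -/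
def tlN (q : ℕ → S) (tau : K) : ℕ → List ℕ → S
  | 0, _ => 1
  | _ + 1, [] => 1
  | n + 1, a :: l => q a * tlN q tau n l + tau • msum (tlN q tau n) (fun c => a + c + 1) l

lemma msum_smul (c : K) (f : ℕ → ℕ) (l : List ℕ) : ∀ (F : List ℕ → S),
    msum (fun l' => c • F l') f l = c • msum F f l := by
  induction l with
  | nil => intro F; exact (smul_zero c).symm
  | cons d l ih =>
    intro F
    change c • F (f d :: l) + msum (fun l' => c • F (d :: l')) f l =
      c • (F (f d :: l) + msum (fun l' => F (d :: l')) f l)
    rw [ih, smul_add]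

lemma msum_mul (c : S) (f : ℕ → ℕ) (l : List ℕ) : ∀ (F : List ℕ → S),
    msum (fun l' => c * F l') f l = c * msum F f l := by
  induction l with
  | nil => intro F; exact (mul_zero c).symm
  | cons d l ih =>
    intro F
    change c * F (f d :: l) + msum (fun l' => c * F (d :: l')) f l =
      c * (F (f d :: l) + msum (fun l' => F (d :: l')) f l)
    rw [ih, mul_add]

lemma msum_length (f : ℕ → ℕ) (l : List ℕ) : ∀ (F : ℕ → List ℕ → S),
    msum (fun l' => F l'.length l') f l = msum (F l.length) f l := by
  intro F
  apply msum_congr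
  intro l' hl'
  rw [hl']

lemma tlN_perm (q : ℕ → S) (tau : K) : ∀ (n : ℕ) (l l' : List ℕ), l.length = n → l.Perm l' →
    tlN q tau n l = tlN q tau n l' := by
  intro n
  induction n with
  | zero => intro l l' _ _; rfl
  | succ n ih =>
    intro l l' hl h
    induction h with
    | nil => rfl
    | @cons a l₁ l₂ h _ =>
      have hl1 : l₁.length = n := by simpa using hl
      change q a * tlN q tau n l₁ + tau • msum (tlN q tau n) (fun c => a + c + 1) l₁ =
        q a * tlN q tau n l₂ + tau • msum (tlN q tau n) (fun c => a + c + 1) l₂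
      rw [ih l₁ l₂ hl1 h, msum_perm _ h (tlN q tau n) fun m m' hm hmm =>
        ih m m' (by rw [hm, hl1]) hmm]
    | swap a c l₁ =>
      have hl1 : l₁.length + 1 = n := by simpa using hl
      obtain ⟨k, rfl⟩ : ∃ k, n = k + 1 := ⟨l₁.length, hl1.symm⟩
      have hk : l₁.length = k := by omega
      have key : ∀ a c : ℕ, tlN q tau (k + 1 + 1) (c :: a :: l₁) =
          q c * (q a * tlN q tau k l₁ + tau • msum (tlN q tau k) (fun d => a + d + 1) l₁) +
          tau • (tlN q tau (k + 1) ((c + a + 1) :: l₁) +
            (q a * msum (tlN q tau k) (fun d => c + d + 1) l₁ +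
              tau • msum (fun l' => msum (tlN q tau k) (fun d => a + d + 1) l')
                (fun d => c + d + 1) l₁)) := by
        intro a c
        change q c * (q a * tlN q tau k l₁ + tau • msum (tlN q tau k) (fun d => a + d + 1) l₁) +
          tau • (tlN q tau (k + 1) ((c + a + 1) :: l₁) +
            msum (fun l' => q a * tlN q tau k l' + tau • msum (tlN q tau k)
              (fun d => a + d + 1) l') (fun d => c + d + 1) l₁) = _
        rw [msum_add, msum_mul, msum_smul]
      rw [key a c, key c a, msum_comm (fun d => a + d + 1) (fun d => c + d + 1)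
        (by intro d; ring) l₁, add_comm c a]
      simp only [mul_add, smul_add, mul_smul_comm]
      ring
    | trans h₁ h₂ ih₁ ih₂ =>
      exact (ih₁ hl).trans (ih₂ (by rw [← h₁.length_eq]; exact hl))

/-- The value on a multiset. -/
def tm (q : ℕ → S) (tau : K) (s : Multiset ℕ) : S :=
  Quot.liftOn s (fun l => tlN q tau l.length l) (by
    intro l l' h
    rw [tlN_perm q tau l.length l l' rfl h, (show l.Perm l' from h).length_eq])

lemma tm_coe (q : ℕ → S) (tau : K) (l : List ℕ) :
    tm q tau (l : Multiset ℕ) = tlN q tau l.length l := rfl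

/-- The linear map on polynomials in the `y_a` over `S`. -/
def T1S (q : ℕ → S) (tau : K) : MvPolynomial ℕ S →ₗ[S] S :=
  (basisMonomials ℕ S).constr S fun e => tm q tau (Finsupp.toMultiset e)

/-- product of variables -/
def my (S : Type) [CommRing S] (l : List ℕ) : MvPolynomial ℕ S := (l.map X).prod

lemma my_eq (l : List ℕ) : my S l = monomial (Multiset.toFinsupp (l : Multiset ℕ)) 1 := by
  induction l with
  | nil =>
    unfold my
    simp
  | cons a l ih =>
    unfold my at *
    rw [List.map_cons, List.prod_cons, ih, ← Multiset.cons_coe, ← Multiset.singleton_add,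
      map_add, Multiset.toFinsupp_singleton, X, monomial_mul, one_mul]

lemma T1S_my (q : ℕ → S) (tau : K) (l : List ℕ) :
    T1S q tau (my S l) = tlN q tau l.length l := by
  rw [my_eq]
  unfold T1S
  have h := (basisMonomials ℕ S).constr_basis S
    (fun e => tm q tau (Finsupp.toMultiset e)) (Multiset.toFinsupp (l : Multiset ℕ))
  rw [coe_basisMonomials] at h
  rw [h, Multiset.toFinsupp_toMultiset, tm_coe]

/-- `y_c ↦ y_(a+c+1)` over `S`. -/
def dS (S : Type) [CommRing S] (a : ℕ) : Derivation S (MvPolynomial ℕ S) (MvPolynomial ℕ S) :=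
  mkDerivation S fun c => X (a + c + 1)

lemma dS_my (q : ℕ → S) (tau : K) (a : ℕ) (l : List ℕ) : ∀ l₀ : List ℕ,
    T1S q tau (my S l₀ * dS S a (my S l)) =
      msum (fun l' => T1S q tau (my S l₀ * my S l')) (fun c => a + c + 1) l := by
  induction l with
  | nil =>
    intro l₀
    have h : my S [] = 1 := rfl
    rw [h, Derivation.map_one_eq_zero, mul_zero, map_zero]
    rfl
  | cons c l ih =>
    intro l₀
    have h1 : ∀ (c : ℕ) (l : List ℕ), my S (c :: l) = X c * my S l := fun c l => rfl
    have h2 : my S l₀ * (X c * dS S a (my S l)) = my S (c :: l₀) * dS S a (my S l) := by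
      rw [h1]
      ring
    have h3 : dS S a (my S (c :: l)) = X (a + c + 1) * my S l + X c * dS S a (my S l) := by
      rw [h1, Derivation.leibniz, smul_eq_mul, smul_eq_mul]
      unfold dS
      rw [mkDerivation_X]
      ring
    rw [h3, mul_add, map_add, h2, ih (c :: l₀)]
    change _ = T1S q tau (my S l₀ * my S ((a + c + 1) :: l)) +
      msum (fun l' => T1S q tau (my S l₀ * my S (c :: l'))) (fun c => a + c + 1) l
    congr 1
    apply msum_congr
    intro l' _
    rw [h1, h1]
    congr 1
    ring

lemma T1S_X_my (q : ℕ → S) (tau : K) (a : ℕ) (l : List ℕ) :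
    T1S q tau (X a * my S l) = q a * T1S q tau (my S l) + tau • T1S q tau (dS S a (my S l)) := by
  have h1 : X a * my S l = my S (a :: l) := rfl
  have h2 := dS_my q tau a l []
  have h3 : my S [] = 1 := rfl
  rw [h3, one_mul] at h2
  simp only [one_mul] at h2
  rw [h1, T1S_my, h2, T1S_my, List.length_cons]
  change q a * tlN q tau l.length l + tau • msum (tlN q tau l.length) (fun c => a + c + 1) l = _
  congr 2
  apply msum_congr
  intro l' hl'
  rw [T1S_my, hl']

lemma T1S_X (q : ℕ → S) (tau : K) (a : ℕ) (g : MvPolynomial ℕ S) :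
    T1S q tau (X a * g) = q a * T1S q tau g + tau • T1S q tau (dS S a g) := by
  induction g using MvPolynomial.induction_on' with
  | monomial e c =>
    obtain ⟨l, hl⟩ : ∃ l : List ℕ, my S l = monomial e 1 := by
      refine ⟨(Finsupp.toMultiset e).toList, ?_⟩
      rw [my_eq, Multiset.coe_toList, Finsupp.toMultiset_toFinsupp]
    have h1 : monomial e c = c • my S l := by
      rw [hl, smul_monomial, smul_eq_mul, mul_one]
    rw [h1, mul_smul_comm, map_smul, map_smul, Derivation.map_smul, map_smul, T1S_X_my]
    simp only [smul_eq_mul]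
    rw [mul_add, mul_smul_comm]
    ring
  | add p q' hp hq =>
    rw [mul_add, map_add, map_add, map_add, map_add, hp, hq, mul_add, smul_add]
    ring

/-- The substitution. -/
def phiS (K : Type) [Field K] {S : Type} [CommRing S] [Algebra K S] (P : ℕ → S) :
    CM K →ₐ[K] MvPolynomial ℕ S :=
  aeval fun v => match v with
    | Sum.inl k => C (P k)
    | Sum.inr a => X a

lemma phiS_inl (P : ℕ → S) (k : ℕ) : phiS K P (X (Sum.inl k)) = C (P k) := by
  unfold phiS
  rw [aeval_X]

lemma phiS_inr (P : ℕ → S) (a : ℕ) : phiS K P (X (Sum.inr a)) = X a := by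
  unfold phiS
  rw [aeval_X]

lemma dl_inl (a k : ℕ) : dl K a (X (Sum.inl k)) = 0 := by
  unfold dl
  rw [mkDerivation_X]

lemma dl_inr (a c : ℕ) : dl K a (X (Sum.inr c)) = X (Sum.inr (a + c + 1)) := by
  unfold dl
  rw [mkDerivation_X]

lemma phiS_dl (P : ℕ → S) (a : ℕ) (f : CM K) :
    phiS K P (dl K a f) = dS S a (phiS K P f) := by
  induction f using MvPolynomial.induction_on with
  | C c =>
    have e1 : (C c : CM K) = algebraMap K (CM K) c := rfl
    rw [e1, Derivation.map_algebraMap, map_zero, AlgHom.commutes]
    have e2 : algebraMap K (MvPolynomial ℕ S) c = algebraMap S (MvPolynomial ℕ S)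
      (algebraMap K S c) := rfl
    rw [e2, Derivation.map_algebraMap]
  | add p q hp hq => simp only [map_add, hp, hq]
  | mul_X p v hp =>
    rw [Derivation.leibniz, map_add, smul_eq_mul, smul_eq_mul, map_mul, map_mul, map_mul,
      Derivation.leibniz, smul_eq_mul, smul_eq_mul, hp]
    congr 1
    rcases v with k | c
    · rw [dl_inl, map_zero, phiS_inl]
      have e2 : (C (P k) : MvPolynomial ℕ S) = algebraMap S (MvPolynomial ℕ S) (P k) := rfl
      rw [e2, Derivation.map_algebraMap]
    · rw [dl_inr, phiS_inr, phiS_inr]
      unfold dS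
      rw [mkDerivation_X]

end

end ForgetM

open ForgetM in
/-- Forgetting the marks, general form. -/
theorem exists_T {K : Type} [Field K] {S : Type} [CommRing S] [Algebra K S] (P q : ℕ → S)
    (tau : K) : ∃ T : CM K →ₗ[K] S, T 1 = 1 ∧
      (∀ (k : ℕ) (f : CM K), T (X (Sum.inl k) * f) = P k * T f) ∧
      ∀ (a : ℕ) (f : CM K), T (X (Sum.inr a) * f) = q a * T f + tau • T (dl K a f) := by
  refine ⟨(T1S q tau).restrictScalars K ∘ₗ (phiS K P).toLinearMap, ?_, ?_, ?_⟩
  · change T1S q tau (phiS K P 1) = 1
    rw [map_one]
    have h := T1S_my q tau (K := K) []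
    exact h
  · intro k f
    change T1S q tau (phiS K P (X (Sum.inl k) * f)) = P k * T1S q tau (phiS K P f)
    rw [map_mul, phiS_inl, ← smul_eq_C_mul, map_smul, smul_eq_mul]
  · intro a f
    change T1S q tau (phiS K P (X (Sum.inr a) * f)) = q a * T1S q tau (phiS K P f) +
      tau • T1S q tau (phiS K P (dl K a f))
    rw [map_mul, phiS_inr, T1S_X, phiS_dl]

namespace ForgetM

variable {K : Type} [Field K]

lemma prodX_eq (l : List (ℕ ⊕ ℕ)) :
    ((l.map X).prod : CM K) = monomial (Multiset.toFinsupp (l : Multiset (ℕ ⊕ ℕ))) 1 := by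
  induction l with
  | nil => simp
  | cons a l ih =>
    rw [List.map_cons, List.prod_cons, ih, ← Multiset.cons_coe, ← Multiset.singleton_add,
      map_add, Multiset.toFinsupp_singleton, X, monomial_mul, one_mul]

/-- The marks in a monomial. -/
lemma T_pos {al tau : K} (ht : tau ∈ Nb al) {T : CM K →ₗ[K] Lam K} (h1 : T 1 = 1)
    (hp : ∀ (k : ℕ) (f : CM K), T (X (Sum.inl k) * f) = X k * T f)
    (hy : ∀ (a : ℕ) (f : CM K), T (X (Sum.inr a) * f) = X (a + 1) * T f + tau • T (dl K a f)) :
    ∀ (n : ℕ) (l : List (ℕ ⊕ ℕ)), l.length ≤ n → T ((l.map X).prod) ∈ PS al := by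
  intro n
  induction n with
  | zero =>
    intro l hl
    have : l = [] := List.eq_nil_of_length_eq_zero (by omega)
    rw [this, List.map_nil, List.prod_nil, h1]
    exact one_mem _
  | succ n ih =>
    intro l hl
    rcases l with _ | ⟨v, l⟩
    · rw [List.map_nil, List.prod_nil, h1]
      exact one_mem _
    · have hl' : l.length ≤ n := by simpa using hl
      rw [List.map_cons, List.prod_cons]
      rcases v with k | a
      · rw [hp]
        exact mul_mem (X_mem_PS al k) (ih l hl')
      · rw [hy]
        refine add_mem (mul_mem (X_mem_PS al _) (ih l hl')) ?_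
        rw [smul_eq_C_mul]
        refine mul_mem (C_mem_PS al ht) ?_
        -- the derivation of a product
        have key : ∀ (l : List (ℕ ⊕ ℕ)) (l₀ : List (ℕ ⊕ ℕ)), l₀.length + l.length ≤ n →
            T (((l₀.map X).prod : CM K) * dl K a ((l.map X).prod)) ∈ PS al := by
          intro l
          induction l with
          | nil =>
            intro l₀ _
            rw [List.map_nil, List.prod_nil, Derivation.map_one_eq_zero, mul_zero, map_zero]
            exact zero_mem _
          | cons v l ihl =>
            intro l₀ hl₀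
            rw [List.length_cons] at hl₀
            rw [List.map_cons, List.prod_cons, Derivation.leibniz, smul_eq_mul, smul_eq_mul,
              mul_add, map_add]
            refine add_mem ?_ ?_
            · have e1 : ((l₀.map X).prod : CM K) * (X v * dl K a ((l.map X).prod)) =
                  ((v :: l₀).map X).prod * dl K a ((l.map X).prod) := by
                rw [List.map_cons, List.prod_cons]
                ring
              rw [e1]
              exact ihl (v :: l₀) (by rw [List.length_cons]; omega)
            · rcases v with k | c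
              · rw [dl_inl, mul_zero, mul_zero, map_zero]
                exact zero_mem _
              · rw [dl_inr]
                have e1 : ((l₀.map X).prod : CM K) * ((l.map X).prod * X (Sum.inr (a + c + 1))) =
                    ((l₀ ++ (Sum.inr (a + c + 1) :: l)).map X).prod := by
                  rw [List.map_append, List.prod_append, List.map_cons, List.prod_cons]
                  ring
                rw [e1]
                refine ih _ ?_
                rw [List.length_append, List.length_cons]
                omega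
        have h3 := key l [] (by simpa using hl')
        rw [List.map_nil, List.prod_nil, one_mul] at h3
        exact h3

end ForgetM

open ForgetM in
theorem forget {K : Type} [Field K] (al tau : K) : ForgetSt K al tau := by
  obtain ⟨T, h1, hp, hy⟩ := exists_T (S := Lam K) (K := K) (fun k => X k) (fun a => X (a + 1)) tau
  refine ⟨T, ⟨h1, hp, fun a f => ?_⟩, fun ht f hf => ?_⟩
  · have e : Lop tau a f = X (Sum.inl (a + 1)) * f + tau • dl K a f := rfl
    rw [hy, e, map_add, hp, map_smul]
  · have e1 : T f = ∑ e ∈ f.support, C (coeff e f) * T (monomial e 1) := by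
      conv_lhs => rw [f.as_sum]
      rw [map_sum]
      refine Finset.sum_congr rfl fun e _ => ?_
      have e2 : monomial e (coeff e f) = coeff e f • monomial e (1 : K) := by
        rw [smul_monomial, smul_eq_mul, mul_one]
      rw [e2, map_smul, smul_eq_C_mul]
    rw [e1]
    refine sum_mem fun e _ => mul_mem (C_mem_PS al (hf e)) ?_
    have e3 : monomial e (1 : K) = (((Finsupp.toMultiset e).toList.map X).prod : CM K) := by
      rw [prodX_eq, Multiset.coe_toList, Finsupp.toMultiset_toFinsupp]
    rw [e3]
    exact T_pos ht h1 hp hy _ _ le_rfl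

end

end Pool.Agent.MJX
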