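import Pool.Agent.MJX.TMod

/-!
The rules for the pairs of gaps.
-/

namespace Pool.Agent.MJX

open MvPolynomial Pool.Agent.MJR

noncomputable section

variable {K : Type} [Field K] {kap : K}

theorem oA_inl (k : ℕ) : oA kap (X (Sum.inl k)) = (k : K) • wA ^ k := by
  unfold oA
  rw [mkDerivation_X]

theorem oA_inr (c : ℕ) : oA kap (X (Sum.inr c)) = Ow kap c := by
  unfold oA
  rw [mkDerivation_X]

theorem rv_w_pow (j : ℕ) : rv (wA ^ j : AM K kap) = wA ^ j := by
  rw [w_pow, rv_inl]

theorem rv_Ow (c : ℕ) : rv (Ow kap c) = Ow kap c := by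
  unfold Ow
  rw [map_sum, ← Finset.sum_range_reflect]
  refine Finset.sum_congr rfl fun l hl => ?_
  have hl' := Finset.mem_range.mp hl
  have e : c - (c + 1 - 1 - l) = l := by omega
  have e2 : c + 1 - 1 - l = c - l := by omega
  rw [rv_wmw, e, e2]

theorem rv_ksmul (c : K) (x : AM K kap) : rv (c • x) = c • rv x := by
  rw [ksmul, map_smul, ← ksmul]

theorem cA_smul (f : CM K) (x : AM K kap) : cA (f • x) = f * cA x := by
  rw [map_smul, smul_eq_mul]

theorem cA_ksmul (c : K) (x : AM K kap) : cA (c • x) = C c * cA x := by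
  rw [ksmul, cA_smul]

/-- Openings are symmetric. -/
theorem rv_oA (f : CM K) : rv (oA kap f) = oA kap f := by
  induction f using MvPolynomial.induction_on with
  | C a =>
    rw [← algebraMap_eq, Derivation.map_algebraMap, map_zero]
  | add p q hp hq => rw [map_add, map_add, hp, hq]
  | mul_X p v hp =>
    rw [Derivation.leibniz, map_add, map_smul, map_smul, hp]
    rcases v with k | c
    · rw [oA_inl, rv_ksmul, rv_w_pow]
    · rw [oA_inr, rv_Ow]

theorem Rb_apply (al : K) (x : AM K kap) : Rb al kap x = rv (Rop al kap (rv x)) := rfl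

theorem Rb_smul {al : K} (hR : RSt K al kap) (f : CM K) (x : AM K kap) :
    Rb al kap (f • x) = f • Rb al kap x + al • (x * oA kap f) := by
  rw [Rb_apply, Rb_apply, map_smul, hR.smul, map_add, map_smul, rv_ksmul, rv_mul, rv_rv, rv_oA]

theorem Rb_one {al : K} (hR : RSt K al kap) : Rb al kap (1 : AM K kap) = 0 := by
  rw [Rb_apply, rv_one, hR.one, map_zero]

theorem Rb_w {al : K} (hR : RSt K al kap) (x : AM K kap) : Rb al kap (wA * x) =
    wA * Rb al kap x + cA (wA * x) • (1 : AM K kap) + (al - 1) • rv (wA * x) := by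
  rw [Rb_apply, Rb_apply, rv_mul, rv_w, hR.w, map_add, map_add, rv_mul, rv_w, map_smul, rv_one,
    rv_ksmul, rv_mul, rv_w, rv_rv, rv_mul, rv_w]
  congr 3
  rw [← cA_rv, rv_mul, rv_rv, rv_w]

theorem Rb_m {al : K} (hR : RSt K al kap) (x : AM K kap) : Rb al kap (mA * x) =
    mA * Rb al kap x + cA (mA * x) • (1 : AM K kap) + (al - 1) • rv (mA * x) := by
  rw [Rb_apply, Rb_apply, rv_mul, rv_m, hR.m, map_add, map_add, rv_mul, rv_m, map_smul, rv_one,
    rv_ksmul, rv_mul, rv_m, rv_rv, rv_mul, rv_m]
  congr 3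
  rw [← cA_rv, rv_mul, rv_rv, rv_m]

theorem Dc_apply (al : K) (f : CM K) : Dc al kap f =
    (2 : K)⁻¹ • (cA (Rop al kap (oA kap f)) - (al - 1) • cA (oA kap f)) := rfl

theorem Dc_mul' [CharZero K] {al : K} (hR : RSt K al kap) (f g : CM K) : Dc al kap (f * g) =
    f * Dc al kap g + g * Dc al kap f + al • cA (oA kap f * oA kap g) := by
  rw [Dc_apply, Dc_apply, Dc_apply, Derivation.leibniz, map_add, hR.smul, hR.smul, map_add,
    map_add, map_add, map_add, cA_smul, cA_smul, cA_smul, cA_smul, cA_ksmul, cA_ksmul,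
    cA_comm (oA kap g) (oA kap f)]
  have h2 : (2 : K) ≠ 0 := two_ne_zero
  have h3 : (C (2 : K)⁻¹ : CM K) * C 2 = 1 := by
    rw [← C_mul, inv_mul_cancel₀ h2, C_1]
  simp only [smul_eq_C_mul]
  have h4 : (C (2 : K) : CM K) = 2 := by
    rw [map_ofNat]
  rw [h4] at h3
  linear_combination (C al * cA (oA kap f * oA kap g)) * h3

theorem Full_inl (al : K) (j : ℕ) (f : CM K) : Full al kap (sg (Sum.inl j) f) = FW al kap j f := by
  have h := Finsupp.lsum_single K (fun x : Ix => match x with
    | Sum.inl j => FW al kap j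
    | Sum.inr (j, a) => FM al kap j a) (Sum.inl j) f
  exact h

theorem Full_inr (al : K) (j a : ℕ) (f : CM K) :
    Full al kap (sg (Sum.inr (j, a)) f) = FM al kap j a f := by
  have h := Finsupp.lsum_single K (fun x : Ix => match x with
    | Sum.inl j => FW al kap j
    | Sum.inr (j, a) => FM al kap j a) (Sum.inr (j, a)) f
  exact h

theorem FW_zero (al : K) (f : CM K) :
    FW al kap 0 f = Dc al kap f • (1 : AM K kap) + al • oA kap f := rfl

theorem FW_succ (al : K) (j : ℕ) (f : CM K) :
    FW al kap (j + 1) f = FW al kap j f * wA + Rb al kap (sg (Sum.inl (j + 1)) f) := by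
  rw [sg_inl (j + 1) f, ← one_mul (wA ^ (j + 1) : AM K kap), ← AM_smul_mul]
  rfl

theorem FM_zero (al : K) (j : ℕ) (f : CM K) :
    FM al kap j 0 f = FW al kap j f * mA + Rb al kap (sg (Sum.inr (j, 0)) f) := by
  rw [sg_inr j 0 f, pow_zero, mul_one, ← one_mul (wA ^ j * mA : AM K kap), ← AM_smul_mul]
  rfl

theorem FM_succ (al : K) (j a : ℕ) (f : CM K) :
    FM al kap j (a + 1) f = FM al kap j a f * wA + Rb al kap (sg (Sum.inr (j, a + 1)) f) := by
  rw [sg_inr j (a + 1) f, ← one_mul (wA ^ j * mA * wA ^ (a + 1) : AM K kap), ← AM_smul_mul]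
  rfl

theorem FM_eq (al : K) (j a : ℕ) (f : CM K) : FM al kap j a f =
    FW al kap j f * mA * wA ^ a + ∑ q ∈ Finset.range (a + 1),
      Rb al kap (sg (Sum.inr (j, q)) f) * wA ^ (a - q) := by
  induction a with
  | zero =>
    rw [FM_zero, Finset.sum_range_one, pow_zero, mul_one, mul_one]
  | succ a ih =>
    have h1 : ∀ q ∈ Finset.range (a + 1), Rb al kap (sg (Sum.inr (j, q)) f) * wA ^ (a - q) * wA =
        Rb al kap (sg (Sum.inr (j, q)) f) * wA ^ (a + 1 - q) := by
      intro q hq
      have hq' := Finset.mem_range.mp hq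
      have e : a + 1 - q = (a - q) + 1 := by omega
      rw [e, mul_assoc, ← pow_succ]
    have h2 := Finset.sum_range_succ (fun q => Rb al kap (sg (Sum.inr (j, q)) f) *
      (wA ^ (a + 1 - q) : AM K kap)) (a + 1)
    rw [h2, FM_succ, ih, Nat.sub_self, pow_zero, mul_one, add_mul,
      mul_assoc _ (wA ^ a) wA, ← pow_succ, Finset.sum_mul, add_assoc, Finset.sum_congr rfl h1]

theorem FW_smul [CharZero K] {al : K} (hR : RSt K al kap) (j : ℕ) (g f : CM K) :
    FW al kap j (g * f) = g • FW al kap j f + Dc al kap g • sg (Sum.inl j) f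
      + al • (cA (oA kap g * oA kap f) • (wA ^ j : AM K kap))
      + al • (f • ∑ q ∈ Finset.range (j + 1), wA ^ q * oA kap g * wA ^ (j - q)) := by
  induction j with
  | zero =>
    rw [FW_zero, FW_zero, Dc_mul' hR, Derivation.leibniz, Finset.sum_range_one, pow_zero,
      mul_one, one_mul, sg_inl 0 f, pow_zero]
    simp only [smul_add, add_smul, smul_smul, ksmul, smul_eq_C_mul]
    module
  | succ j ih =>
    rw [FW_succ, FW_succ, ih, ← smul_sg, Rb_smul hR, Finset.sum_range_succ _ (j + 1),
      Nat.sub_self, pow_zero, mul_one, add_mul, add_mul, add_mul, smul_mul_assoc g,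
      smul_mul_assoc (Dc al kap g), sg_mul_w, smul_mul_assoc al, smul_mul_assoc al,
      smul_mul_assoc, ← pow_succ, smul_mul_assoc f, Finset.sum_mul, sg_inl (j + 1) f,
      smul_mul_assoc f]
    have h1 : ∀ q ∈ Finset.range (j + 1), (wA ^ q * oA kap g * wA ^ (j - q)) * wA =
        wA ^ q * oA kap g * wA ^ (j + 1 - q) := by
      intro q hq
      have hq' := Finset.mem_range.mp hq
      have e : j + 1 - q = (j - q) + 1 := by omega
      rw [e, mul_assoc, ← pow_succ]
    rw [Finset.sum_congr rfl h1]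
    simp only [smul_add]
    abel

theorem rW_comm (b : K) (j : ℕ) : rW b kap j * wA = wA * rW b kap j := by
  induction j with
  | zero => rw [rW, zero_mul, mul_zero]
  | succ j ih =>
    rw [rW, add_mul, add_mul, mul_add, mul_add, ← mul_assoc wA, ← ih, smul_mul_assoc,
      mul_smul_comm, one_mul, mul_one, smul_mul_assoc, mul_smul_comm, ← pow_succ, ← pow_succ']

theorem rW_comm_pow (b : K) (j n : ℕ) : rW b kap j * wA ^ n = wA ^ n * rW b kap j := by
  induction n with
  | zero => rw [pow_zero, one_mul, mul_one]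
  | succ n ih => rw [pow_succ, ← mul_assoc, ih, mul_assoc, rW_comm, ← mul_assoc]

theorem rv_rW (b : K) (j : ℕ) : rv (rW b kap j) = rW b kap j := by
  induction j with
  | zero => rw [rW, map_zero]
  | succ j ih =>
    rw [rW, map_add, map_add, rv_mul, ih, rv_w, map_smul, rv_one, rv_ksmul, rv_w_pow, rW_comm]

/-- the second half of the cuts -/
theorem cut_half (b : K) (l n : ℕ) :
    X (Sum.inr l) * cA (wA ^ n : AM K kap) + ∑ r ∈ Finset.range n,
      (X (Sum.inr (l + (r + 1))) * cA (wA ^ (n - 1 - r) : AM K kap)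
        + C b * X (Sum.inr (l + n))) = cA (wA ^ l * mA * rW b kap n) := by
  induction n generalizing l with
  | zero =>
    rw [pow_zero, Finset.sum_range_zero, add_zero, rW, mul_zero, map_zero, ← one_smul (CM K)
      (1 : AM K kap), cA_one, mul_zero]
  | succ n ih =>
    have h1 : cA (wA ^ l * mA * (rW b kap n * wA)) = cA (wA ^ (l + 1) * mA * rW b kap n) := by
      rw [← mul_assoc, cA_comm, ← mul_assoc, ← mul_assoc, ← pow_succ']
    have h2 : cA (wA ^ (n + 1) : AM K kap) = X (Sum.inl (n + 1)) := by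
      rw [w_pow, cA_inl, if_neg (Nat.succ_ne_zero n), one_mul]
    rw [rW, mul_add, mul_add, map_add, map_add, h1, ← ih (l + 1), Finset.sum_range_succ' _ n, h2,
      mul_smul_comm, mul_one, map_smul, smul_eq_mul, mul_smul_comm, cA_ksmul, cA_wmw]
    have h0 : cA (wA ^ l * mA : AM K kap) = X (Sum.inr l) := by
      have h := cA_wmw (K := K) (kap := kap) l 0
      rwa [pow_zero, mul_one, add_zero] at h
    rw [h0]
    have e1 : n + 1 - 1 - 0 = n := by omega
    have h3 : ∀ r ∈ Finset.range n, (X (Sum.inr (l + 1 + (r + 1))) *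
          cA (wA ^ (n - 1 - r) : AM K kap) + C b * X (Sum.inr (l + 1 + n)) : CM K)
        = X (Sum.inr (l + (r + 1 + 1))) * cA (wA ^ (n + 1 - 1 - (r + 1)) : AM K kap)
          + C b * X (Sum.inr (l + (n + 1))) := by
      intro r hr
      have e2 : l + 1 + (r + 1) = l + (r + 1 + 1) := by omega
      have e3 : n + 1 - 1 - (r + 1) = n - 1 - r := by omega
      have e4 : l + 1 + n = l + (n + 1) := by omega
      rw [e2, e3, e4]
    rw [Finset.sum_congr rfl h3, e1, zero_add]
    ring

theorem DcY [CharZero K] {al : K} (a : ℕ) : Dc al kap (X (Sum.inr a)) =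
    ∑ q ∈ Finset.range (a + 1), cA (rW (al - 1) kap q * mA * wA ^ (a - q)) := by
  have h1 : ∀ l ∈ Finset.range (a + 1), cA (Rop al kap (wA ^ l * mA * wA ^ (a - l))) =
      cA (rW (al - 1) kap l * mA * wA ^ (a - l)) + cA (wA ^ l * mA * rW (al - 1) kap (a - l))
        + C (al - 1) * X (Sum.inr a) := by
    intro l hl
    have hl' : l ≤ a := by have := Finset.mem_range.mp hl; omega
    have e1 : l + (a - l) = a := by omega
    have h0 : oA kap (1 : CM K) = 0 := Derivation.map_one_eq_zero _
    rw [w_m_w, Rop_inr, one_smul, h0, smul_zero, zero_mul, add_zero, rM_eq, add_mul, add_mul, smul_mul_assoc, one_mul, smul_mul_assoc,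
      ← cut_half, map_add, map_add, map_add, cA_smul, cA_ksmul, map_sum,
      mul_assoc mA, ← pow_add, e1]
    have h2 : cA (mA * wA ^ a : AM K kap) = X (Sum.inr a) := by
      have h := cA_wmw (K := K) (kap := kap) 0 a
      rwa [pow_zero, one_mul, zero_add] at h
    rw [h2]
    have h3 : ∀ r ∈ Finset.range (a - l), cA ((X (Sum.inr (l + (r + 1))) : CM K) •
          (wA ^ (a - l - 1 - r) : AM K kap)
        + (al - 1) • (wA ^ (r + 1) * mA * wA ^ l * wA ^ (a - l - 1 - r))) =
        X (Sum.inr (l + (r + 1))) * cA (wA ^ (a - l - 1 - r) : AM K kap)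
          + C (al - 1) * X (Sum.inr a) := by
      intro r hr
      have hr' := Finset.mem_range.mp hr
      have e2 : r + 1 + (l + (a - l - 1 - r)) = a := by omega
      rw [map_add, cA_smul, cA_ksmul, mul_assoc _ (wA ^ l), ← pow_add, cA_wmw, e2]
    rw [Finset.sum_congr rfl h3]
    ring
  have h4 : ∑ l ∈ Finset.range (a + 1), cA (wA ^ l * mA * rW (al - 1) kap (a - l)) =
      ∑ q ∈ Finset.range (a + 1), cA (rW (al - 1) kap q * mA * wA ^ (a - q)) := by
    rw [← Finset.sum_range_reflect]
    refine Finset.sum_congr rfl fun l hl => ?_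
    have hl' := Finset.mem_range.mp hl
    have e1 : a - (a + 1 - 1 - l) = l := by omega
    have e2 : a + 1 - 1 - l = a - l := by omega
    rw [e1, e2, ← cA_rv, rv_mul, rv_mul, rv_rW, rv_m, rv_w_pow, ← mul_assoc]
  have h5 : cA (Ow kap a) = ∑ _l ∈ Finset.range (a + 1), X (Sum.inr a) := by
    unfold Ow
    rw [map_sum]
    refine Finset.sum_congr rfl fun l hl => ?_
    have hl' := Finset.mem_range.mp hl
    have e1 : l + (a - l) = a := by omega
    rw [cA_wmw, e1]
  rw [Dc_apply, oA_inr, h5]
  unfold Ow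
  rw [map_sum, map_sum, Finset.sum_congr rfl h1, Finset.sum_add_distrib, Finset.sum_add_distrib,
    h4, Finset.smul_sum]
  simp only [smul_eq_C_mul]
  have h2 : (2 : K) ≠ 0 := two_ne_zero
  have h3 : (C (2 : K)⁻¹ : CM K) * C 2 = 1 := by
    rw [← C_mul, inv_mul_cancel₀ h2, C_1]
  have h6 : (C (2 : K) : CM K) = 2 := by
    rw [map_ofNat]
  rw [h6] at h3
  linear_combination (∑ q ∈ Finset.range (a + 1), cA (rW (al - 1) kap q * mA * wA ^ (a - q))) * h3

theorem Rb_wmw {al : K} (hR : RSt K al kap) (j q : ℕ) (f : CM K) :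
    Rb al kap (sg (Sum.inr (j, q)) f) =
      f • rv (rM (al - 1) kap q j) + al • (wA ^ j * mA * wA ^ q * oA kap f) := by
  have h0 : oA kap (1 : CM K) = 0 := Derivation.map_one_eq_zero _
  rw [sg_inr, Rb_smul hR, Rb_apply, rv_wmw, w_m_w, Rop_inr, one_smul, h0, smul_zero, zero_mul,
    add_zero]

/-- one summand of the key identity for `Full` -/
theorem keyF1 (b : K) (j a q : ℕ) (_hq : q ≤ a) :
    rv (rM b kap q j) * (wA ^ (a - q) * mA) =
      (C kap * cA (rW b kap q * mA * wA ^ (a - q)) : CM K) • (wA ^ j * mA)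
      + ∑ r ∈ Finset.range (j + 1), ((X (Sum.inr (q + r)) : CM K) • (wA ^ (j - r + (a - q)) * mA)
        + (C b * C kap * X (Sum.inr (r + (a - q))) : CM K) • (wA ^ (j - r + q) * mA)) := by
  rw [rM_eq, map_add, map_sum, rv_mul, rv_w_pow, map_add, map_add, rv_mul, rv_m, rv_rW, map_smul,
    rv_one, rv_ksmul, rv_mul, rv_w_pow, rv_m, add_mul, Finset.sum_range_succ']
  have h1 : wA ^ j * (mA * rW b kap q + (X (Sum.inr q) : CM K) • (1 : AM K kap)
      + b • (wA ^ q * mA)) * (wA ^ (a - q) * mA) =
      (C kap * cA (rW b kap q * mA * wA ^ (a - q)) : CM K) • (wA ^ j * mA)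
      + ((X (Sum.inr (q + 0)) : CM K) • (wA ^ (j - 0 + (a - q)) * mA)
        + (C b * C kap * X (Sum.inr (0 + (a - q))) : CM K) • (wA ^ (j - 0 + q) * mA)) := by
    have h2 : mA * rW b kap q * (wA ^ (a - q) * mA) =
        (C kap * cA (rW b kap q * mA * wA ^ (a - q)) : CM K) • mA := by
      have h3 : mA * rW b kap q * (wA ^ (a - q) * mA) = mA * (rW b kap q * wA ^ (a - q)) * mA := by
        simp only [mul_assoc]
      have h4 : cA (mA * (rW b kap q * wA ^ (a - q))) = cA (rW b kap q * mA * wA ^ (a - q)) := by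
        rw [cA_comm, rW_comm_pow, mul_assoc, cA_comm, mul_assoc]
      rw [h3, mxm, h4]
    rw [mul_assoc, add_mul, add_mul, h2, mul_add, mul_add, AM_mul_smul, smul_mul_assoc, one_mul,
      AM_mul_smul, smul_mul_assoc, mul_smul_comm, ← mul_assoc, ← pow_add, add_zero, zero_add,
      Nat.sub_zero, add_assoc]
    congr 2
    rw [mul_assoc (wA ^ q), ← mul_assoc mA, m_w_m, AM_mul_smul, AM_mul_smul, ← mul_assoc,
      ← pow_add, ksmul, smul_smul, mul_assoc]
  rw [h1, Finset.sum_mul]
  have h5 : ∀ r ∈ Finset.range j,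
      rv ((X (Sum.inr (q + (r + 1))) : CM K) • (wA ^ (j - 1 - r) : AM K kap)
        + b • (wA ^ (r + 1) * mA * wA ^ q * wA ^ (j - 1 - r))) * (wA ^ (a - q) * mA) =
      (X (Sum.inr (q + (r + 1))) : CM K) • (wA ^ (j - (r + 1) + (a - q)) * mA)
        + (C b * C kap * X (Sum.inr (r + 1 + (a - q))) : CM K) • (wA ^ (j - (r + 1) + q) * mA) := by
    intro r hr
    have hr' := Finset.mem_range.mp hr
    have e : j - 1 - r = j - (r + 1) := by omega
    have h6 : rv (wA ^ (r + 1) * mA * wA ^ q * wA ^ (j - (r + 1))) * (wA ^ (a - q) * mA) =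
        (C kap * X (Sum.inr (r + 1 + (a - q))) : CM K) •
          (wA ^ (j - (r + 1) + q) * mA : AM K kap) := by
      have e2 : (wA ^ (r + 1) * mA * wA ^ q * wA ^ (j - (r + 1)) : AM K kap) =
          wA ^ (r + 1) * mA * wA ^ (j - (r + 1) + q) := by
        rw [mul_assoc, ← pow_add, add_comm q]
      have e3 : (wA ^ (j - (r + 1) + q) * mA * wA ^ (r + 1) * (wA ^ (a - q) * mA) : AM K kap) =
          wA ^ (j - (r + 1) + q) * (mA * wA ^ (r + 1 + (a - q)) * mA) := by
        rw [pow_add wA (r + 1)]
        simp only [mul_assoc]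
      rw [e2, rv_wmw, e3, m_w_m, AM_mul_smul]
    rw [e, map_add, map_smul, rv_ksmul, rv_w_pow, add_mul, smul_mul_assoc, smul_mul_assoc, h6,
      ← mul_assoc, ← pow_add, ksmul, smul_smul, mul_assoc (C b)]
  rw [Finset.sum_congr rfl h5]
  abel

/-- the double sum of the key identity -/
def SS2 (kap : K) (j a : ℕ) : AM K kap :=
  ∑ q ∈ Finset.range (a + 1), ∑ r ∈ Finset.range (j + 1),
    (X (Sum.inr (q + r)) : CM K) • (wA ^ (j - r + (a - q)) * mA)

theorem keyF2 (j a : ℕ) :
    (∑ q ∈ Finset.range (j + 1), wA ^ q * Ow kap a * wA ^ (j - q)) * mA =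
      (C kap : CM K) • SS2 kap j a := by
  unfold SS2 Ow
  rw [Finset.sum_mul, Finset.sum_comm, Finset.smul_sum, ← Finset.sum_range_reflect]
  refine Finset.sum_congr rfl fun q hq => ?_
  have hq' := Finset.mem_range.mp hq
  rw [Finset.mul_sum, Finset.sum_mul, Finset.sum_mul, Finset.smul_sum, ← Finset.sum_range_reflect]
  refine Finset.sum_congr rfl fun l hl => ?_
  have hl' := Finset.mem_range.mp hl
  have e1 : j + 1 - 1 - q = j - q := by omega
  have e2 : a + 1 - 1 - l = a - l := by omega
  have e3 : j - (j - q) = q := by omega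
  have e4 : a - (a - l) = l := by omega
  rw [e1, e2, e3, e4, smul_smul]
  have h : (wA ^ (j - q) * (wA ^ (a - l) * mA * wA ^ l) * wA ^ q * mA : AM K kap) =
      wA ^ (j - q + (a - l)) * (mA * wA ^ (l + q) * mA) := by
    rw [pow_add, pow_add]
    simp only [mul_assoc]
  rw [h, m_w_m, AM_mul_smul]

/-- The key identity for `Full`. -/
theorem keyF [CharZero K] (al : K) (hk : al * kap ^ 2 = (al - 1) * kap + 1) (j a : ℕ) :
    ∑ q ∈ Finset.range (a + 1), rv (rM (al - 1) kap q j) * (wA ^ (a - q) * mA) =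
      (C kap * Dc al kap (X (Sum.inr a)) : CM K) • (wA ^ j * mA)
      + al • ((∑ q ∈ Finset.range (j + 1),
          wA ^ q * ((C kap : CM K) • Ow kap a) * wA ^ (j - q)) * mA) := by
  have h1 : ∀ q ∈ Finset.range (a + 1), rv (rM (al - 1) kap q j) * (wA ^ (a - q) * mA) =
      (C kap * cA (rW (al - 1) kap q * mA * wA ^ (a - q)) : CM K) • (wA ^ j * mA)
      + ((∑ r ∈ Finset.range (j + 1), (X (Sum.inr (q + r)) : CM K) •
          (wA ^ (j - r + (a - q)) * mA))
        + (C (al - 1) * C kap : CM K) • ∑ r ∈ Finset.range (j + 1),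
            (X (Sum.inr (r + (a - q))) : CM K) • (wA ^ (j - r + q) * mA)) := by
    intro q hq
    have hq' := Finset.mem_range.mp hq
    rw [keyF1 _ j a q (by omega), Finset.sum_add_distrib, Finset.smul_sum]
    congr 2
    refine Finset.sum_congr rfl fun r _ => ?_
    rw [smul_smul]
  have h2 : (∑ q ∈ Finset.range (a + 1), ∑ r ∈ Finset.range (j + 1),
            (X (Sum.inr (r + (a - q))) : CM K) • (wA ^ (j - r + q) * mA : AM K kap)) =
      SS2 kap j a := by
    unfold SS2
    rw [← Finset.sum_range_reflect]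
    refine Finset.sum_congr rfl fun q hq => ?_
    have hq' := Finset.mem_range.mp hq
    have e1 : a + 1 - 1 - q = a - q := by omega
    have e2 : a - (a - q) = q := by omega
    rw [e1, e2]
    refine Finset.sum_congr rfl fun r _ => ?_
    rw [add_comm r q]
  have h3 : (∑ q ∈ Finset.range (j + 1), wA ^ q * ((C kap : CM K) • Ow kap a) * wA ^ (j - q)) * mA =
      (C kap * C kap : CM K) • SS2 kap j a := by
    rw [← smul_smul, ← keyF2, ← smul_mul_assoc, Finset.smul_sum]
    congr 1
    refine Finset.sum_congr rfl fun q _ => ?_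
    rw [AM_mul_smul, AM_smul_mul]
  rw [Finset.sum_congr rfl h1, Finset.sum_add_distrib, Finset.sum_add_distrib, ← Finset.smul_sum,
    h2, h3, DcY, ← Finset.sum_smul, Finset.mul_sum, ksmul, smul_smul]
  have h7 := kk (K := K) al hk
  rw [← mul_assoc, h7, add_smul, one_smul]
  rfl

theorem Full_m_inr [CharZero K] {al : K} (hk : al * kap ^ 2 = (al - 1) * kap + 1)
    (hR : RSt K al kap) (j a : ℕ) (f : CM K) :
    FW al kap j (f * (C kap * X (Sum.inr a))) * mA = FM al kap j a f * mA := by
  have hg : Dc al kap (C kap * X (Sum.inr a)) = C kap * Dc al kap (X (Sum.inr a)) := by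
    rw [← smul_eq_C_mul, map_smul, smul_eq_C_mul]
  have ho : oA kap (C kap * X (Sum.inr a)) = (C kap : CM K) • Ow kap a := by
    rw [← smul_eq_C_mul, Derivation.map_smul, oA_inr, ksmul]
  have h2 : (∑ q ∈ Finset.range (a + 1), Rb al kap (sg (Sum.inr (j, q)) f) * wA ^ (a - q)) * mA =
      f • (∑ q ∈ Finset.range (a + 1), rv (rM (al - 1) kap q j) * (wA ^ (a - q) * mA))
      + al • ((C kap * cA (Ow kap a * oA kap f) : CM K) • (wA ^ j * mA)) := by
    have h3 : (C kap * cA (Ow kap a * oA kap f) : CM K) • (wA ^ j * mA : AM K kap) =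
        ∑ q ∈ Finset.range (a + 1), wA ^ j * mA * wA ^ q * oA kap f * (wA ^ (a - q) * mA) := by
      unfold Ow
      rw [Finset.sum_mul, map_sum, Finset.mul_sum, Finset.sum_smul, ← Finset.sum_range_reflect]
      refine Finset.sum_congr rfl fun q hq => ?_
      have hq' := Finset.mem_range.mp hq
      have e1 : a + 1 - 1 - q = a - q := by omega
      have e2 : a - (a - q) = q := by omega
      have h4 : wA ^ j * mA * wA ^ q * oA kap f * (wA ^ (a - q) * mA) =
          wA ^ j * (mA * (wA ^ q * oA kap f * wA ^ (a - q)) * mA) := by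
        simp only [mul_assoc]
      have h5 : cA (mA * (wA ^ q * oA kap f * wA ^ (a - q))) =
          cA (wA ^ (a - q) * mA * wA ^ q * oA kap f) := by
        rw [← mul_assoc, cA_comm]
        simp only [mul_assoc]
      rw [e1, e2, h4, mxm, h5, AM_mul_smul]
    rw [h3, Finset.smul_sum, Finset.smul_sum, ← Finset.sum_add_distrib, Finset.sum_mul]
    refine Finset.sum_congr rfl fun q _ => ?_
    rw [Rb_wmw hR, mul_assoc, add_mul, smul_mul_assoc, smul_mul_assoc]
  rw [mul_comm f, FW_smul hR, hg, ho, FM_eq, add_mul (FW al kap j f * mA * wA ^ a), h2,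
    keyF al hk j a, add_mul, add_mul, add_mul, smul_mul_assoc _ (FW al kap j f),
    smul_mul_assoc _ (sg _ _), sg_inl, smul_mul_assoc al, smul_mul_assoc _ (wA ^ j),
    smul_mul_assoc al (f • _), smul_mul_assoc f]
  have h6 : FW al kap j f * mA * wA ^ a * mA =
      (C kap * X (Sum.inr a) : CM K) • (FW al kap j f * mA) := by
    rw [mul_assoc, mul_assoc, ← mul_assoc mA, m_w_m, AM_mul_smul]
  rw [h6, smul_mul_assoc (C kap : CM K) (Ow kap a), cA_smul, smul_mul_assoc _ (wA ^ j)]
  simp only [smul_add, smul_smul, ksmul]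
  module

theorem fullSt [CharZero K] (al : K) (hk : al * kap ^ 2 = (al - 1) * kap + 1)
    (hR : RSt K al kap) : FullSt K al kap := by
  have h0 : oA kap (1 : CM K) = 0 := Derivation.map_one_eq_zero _
  have hone : ∀ f : CM K, Full al kap (f • (1 : AM K kap)) =
      Dc al kap f • (1 : AM K kap) + al • oA kap f := by
    intro f
    rw [one_def, ← sg_eq, Full_inl, FW_zero, one_def]
  have hw : ∀ x : AM K kap, Full al kap (x * wA) = Full al kap x * wA + Rb al kap (x * wA) := by
    intro x
    refine sg_induction (P := fun x => Full al kap (x * wA) =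
      Full al kap x * wA + Rb al kap (x * wA)) x ?_ ?_ ?_
    · simp
    · intro x y hx hy
      rw [add_mul, map_add, map_add, map_add, hx, hy, add_mul]
      abel
    · intro i f
      rcases i with j | ⟨j, a⟩
      · rw [sg_mul_w, Full_inl, Full_inl, FW_succ]
      · rw [sg1_mul_w, Full_inr, Full_inr, FM_succ]
  have hm : ∀ x : AM K kap, Full al kap (x * mA) = Full al kap x * mA + Rb al kap (x * mA) := by
    intro x
    refine sg_induction (P := fun x => Full al kap (x * mA) =
      Full al kap x * mA + Rb al kap (x * mA)) x ?_ ?_ ?_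
    · simp
    · intro x y hx hy
      rw [add_mul, map_add, map_add, map_add, hx, hy, add_mul]
      abel
    · intro i f
      rcases i with j | ⟨j, a⟩
      · rw [sg_mul_m, Full_inl, Full_inr, FM_zero]
      · rw [sg1_mul_m, Full_inr, Full_inr, FM_zero, Full_m_inr hk hR]
  have hl : ∀ l : AM K kap, (∀ f : CM K, f • (1 : AM K kap) * l = f • l) → rv l = l →
      (∀ x : AM K kap, Full al kap (x * l) = Full al kap x * l + Rb al kap (x * l)) →
      (∀ x : AM K kap, Rb al kap (l * x) = l * Rb al kap x + cA (l * x) • (1 : AM K kap)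
        + (al - 1) • rv (l * x)) →
      (∀ x : AM K kap, Rop al kap (x * l) = Rop al kap x * l + cA (x * l) • (1 : AM K kap)
        + (al - 1) • rv (x * l)) →
      ∀ x : AM K kap, Full al kap (l * x) = l * Full al kap x + Rop al kap (l * x) := by
    intro l _ hrl hFl hRbl hRl x
    have hext : Full al kap ∘ₗ LinearMap.mulLeft K l =
        LinearMap.mulLeft K l ∘ₗ Full al kap + Rop al kap ∘ₗ LinearMap.mulLeft K l := by
      have key : ∀ (l' : AM K kap), (∀ x : AM K kap, Full al kap (x * l') =
          Full al kap x * l' + Rb al kap (x * l')) → (∀ x : AM K kap, Rop al kap (x * l') =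
          Rop al kap x * l' + cA (x * l') • (1 : AM K kap) + (al - 1) • rv (x * l')) →
          ∀ x, Full al kap (l * x) = l * Full al kap x + Rop al kap (l * x) →
          Full al kap (l * (x * l')) = l * Full al kap (x * l') + Rop al kap (l * (x * l')) := by
        intro l' h1 h2 x hx
        rw [← mul_assoc, h1, hx, h1 x, mul_assoc l x l', hRbl, ← mul_assoc l x l', h2, add_mul,
          mul_add, mul_assoc l (Full al kap x)]
        abel
      apply lin_ext
      · intro f
        change Full al kap (l * (f • 1)) = l * Full al kap (f • 1) + Rop al kap (l * (f • 1))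
        have e1 : l * (f • (1 : AM K kap)) = f • (1 : AM K kap) * l := by
          rw [AM_mul_smul, AM_smul_mul, mul_one, one_mul]
        have e2 : Rb al kap (f • (1 : AM K kap) * l) =
            f • Rb al kap l + al • (l * oA kap f) := by
          rw [AM_smul_mul, one_mul, Rb_smul hR]
        have e3 : Rb al kap l = cA l • (1 : AM K kap) + (al - 1) • rv l := by
          have h := hRbl 1
          rw [mul_one, Rb_one hR, mul_zero, zero_add] at h
          exact h
        have e4 : Rop al kap l = cA l • (1 : AM K kap) + (al - 1) • rv l := by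
          have h := hRl 1
          rw [one_mul, hR.one, zero_mul, zero_add] at h
          exact h
        have e5 : Rop al kap (f • (1 : AM K kap) * l) = f • Rop al kap l + al • (oA kap f * l) := by
          rw [AM_smul_mul, one_mul, hR.smul]
        rw [e1, hFl, e2, e5, hone, e3, e4, add_mul, mul_add, AM_smul_mul, one_mul, AM_mul_smul,
          mul_one, smul_mul_assoc, mul_smul_comm]
        abel
      · intro x hx
        exact key wA hw hR.w x hx
      · intro x hx
        exact key mA hm hR.m x hx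
    exact LinearMap.congr_fun hext x
  have hwl : ∀ x : AM K kap, Full al kap (wA * x) = wA * Full al kap x + Rop al kap (wA * x) :=
    hl wA (fun f => by rw [AM_smul_mul, one_mul]) rv_w hw (Rb_w hR) hR.w
  have hml : ∀ x : AM K kap, Full al kap (mA * x) = mA * Full al kap x + Rop al kap (mA * x) :=
    hl mA (fun f => by rw [AM_smul_mul, one_mul]) rv_m hm (Rb_m hR) hR.m
  refine ⟨?_, Dc_mul' hR, hone, hw, hm, hwl, hml, ?_⟩
  · rw [Dc_apply, h0, map_zero, map_zero, smul_zero, sub_zero, smul_zero]
  · have hext : rvK ∘ₗ Full al kap ∘ₗ rvK = Full al kap := by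
      apply lin_ext
      · intro f
        change rv (Full al kap (rv (f • 1))) = Full al kap (f • 1)
        rw [map_smul, rv_one, hone, map_add, map_smul, rv_one, rv_ksmul, rv_oA]
      · intro x hx
        change rv (Full al kap (rv x)) = Full al kap x at hx
        change rv (Full al kap (rv (x * wA))) = Full al kap (x * wA)
        rw [rv_mul, rv_w, hwl, map_add, rv_mul, rv_w, hx, hw, Rb_apply, rv_mul, rv_w]
      · intro x hx
        change rv (Full al kap (rv x)) = Full al kap x at hx
        change rv (Full al kap (rv (x * mA))) = Full al kap (x * mA)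
        rw [rv_mul, rv_m, hml, map_add, rv_mul, rv_m, hx, hm, Rb_apply, rv_mul, rv_m]
    intro x
    have h := LinearMap.congr_fun hext x
    change rv (Full al kap (rv x)) = Full al kap x at h
    rw [← h, rv_rv]

end

end Pool.Agent.MJX
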