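import Pool.Agent.MJX.Pos

/-!
The marginal sums of the coefficients.
-/

namespace Pool.Agent.MJX

open MvPolynomial Pool.Agent.MJR Pool.Agent.MJT

noncomputable section

namespace MargM

variable {K : Type} [Field K]

/-- Polynomials in two variables are determined by their values. -/
lemma poly2_ext [CharZero K] {F G : Polynomial (Polynomial K)}
    (h : ∀ u s : K, (F.eval (Polynomial.C u)).eval s = (G.eval (Polynomial.C u)).eval s) :
    F = G := by
  have h1 : ∀ u : K, (F - G).eval (Polynomial.C u) = 0 := by
    intro u
    apply Polynomial.funext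
    intro s
    rw [Polynomial.eval_sub, Polynomial.eval_sub, h, sub_self, Polynomial.eval_zero]
  have h2 : F - G = 0 := by
    apply Polynomial.eq_zero_of_infinite_isRoot
    have h3 : (Set.range fun u : K => (Polynomial.C u : Polynomial K)) ⊆ {x | (F - G).IsRoot x} := by
      rintro _ ⟨u, rfl⟩
      exact h1 u
    exact (Set.infinite_range_of_injective Polynomial.C_injective).mono h3
  exact sub_eq_zero.mp h2

lemma fam_poly {al : K} {g : K → K → K} (hg : g ∈ Fam (Nb al).toAddSubmonoid) :
    ∃ F : Polynomial (Polynomial K), (∀ i j, (F.coeff i).coeff j ∈ Nb al) ∧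
      ∀ u s, (F.eval (Polynomial.C u)).eval s = g u s := by
  induction hg using AddSubmonoid.closure_induction with
  | mem g hg =>
    obtain ⟨i, j, x, hx, rfl⟩ := hg
    refine ⟨Polynomial.monomial i (Polynomial.monomial j x), fun a b => ?_, fun u s => ?_⟩
    · rw [Polynomial.coeff_monomial]
      split_ifs
      · rw [Polynomial.coeff_monomial]
        split_ifs
        · exact hx
        · exact zero_mem _
      · rw [Polynomial.coeff_zero]
        exact zero_mem _
    · rw [Polynomial.eval_monomial, Polynomial.eval_mul, Polynomial.eval_monomial,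
        Polynomial.eval_pow, Polynomial.eval_C]
      change _ = (u ^ i * s ^ j) * x
      ring
  | zero =>
    refine ⟨0, fun a b => ?_, fun u s => ?_⟩
    · rw [Polynomial.coeff_zero, Polynomial.coeff_zero]
      exact zero_mem _
    · rw [Polynomial.eval_zero, Polynomial.eval_zero]
      rfl
  | add f g _ _ hf hg =>
    obtain ⟨F, hF, hF'⟩ := hf
    obtain ⟨G, hG, hG'⟩ := hg
    refine ⟨F + G, fun a b => ?_, fun u s => ?_⟩
    · rw [Polynomial.coeff_add, Polynomial.coeff_add]
      exact add_mem (hF a b) (hG a b)
    · rw [Polynomial.eval_add, Polynomial.eval_add, hF', hG']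
      rfl

/-- The product over the parts. -/
def pr (K : Type) [Field K] (s : Multiset ℕ) : Polynomial (Polynomial K) :=
  (s.map fun k => Polynomial.X + Polynomial.C ((Polynomial.X : Polynomial K) ^ k)).prod

lemma eval_pr (s : Multiset ℕ) (u v : K) : ((pr K s).eval (Polynomial.C u)).eval v =
    (s.map fun k => u + v ^ k).prod := by
  unfold pr
  induction s using Multiset.induction_on with
  | empty => simp
  | cons k s ih =>
    rw [Multiset.map_cons, Multiset.map_cons, Multiset.prod_cons, Multiset.prod_cons,
      Polynomial.eval_mul, Polynomial.eval_mul, ih]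
    simp

/-- The number of ways to choose `l` elements of `s` with sum `t`. -/
def cnt (s : Multiset ℕ) (l t : ℕ) : ℕ :=
  ((Multiset.powersetCard l s).filter fun a => a.sum = t).card

lemma coeff_pr (s : Multiset ℕ) (l j : ℕ) : ((pr K s).coeff l).coeff j =
    (((Multiset.powersetCard l s).filter fun a => a.sum + j = s.sum).card : K) := by
  induction s using Multiset.induction_on generalizing l j with
  | empty =>
    unfold pr
    rw [Multiset.map_zero, Multiset.prod_zero]
    rcases l with _ | l
    · rw [Multiset.powersetCard_zero_left, Polynomial.coeff_one_zero, Polynomial.coeff_one]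
      rw [Multiset.filter_singleton]
      simp only [Multiset.sum_zero, zero_add]
      split_ifs <;> simp
    · rw [Multiset.powersetCard_zero_right, Multiset.filter_zero, Multiset.card_zero,
        Nat.cast_zero, Polynomial.coeff_one, if_neg (Nat.succ_ne_zero l), Polynomial.coeff_zero]
  | cons k s ih =>
    have e : pr K (k ::ₘ s) = Polynomial.X * pr K s +
        Polynomial.C ((Polynomial.X : Polynomial K) ^ k) * pr K s := by
      unfold pr
      rw [Multiset.map_cons, Multiset.prod_cons, add_mul]
    have h1 : ∀ l, (((Polynomial.X : Polynomial K) ^ k) * (pr K s).coeff l).coeff j =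
        (((Multiset.powersetCard l s).filter fun a => a.sum + j = k + s.sum).card : K) := by
      intro l
      rw [Polynomial.coeff_X_pow_mul']
      split_ifs with hkj
      · rw [ih]
        congr 2
        refine Multiset.filter_congr fun a _ => ?_
        omega
      · rw [Multiset.filter_eq_nil.mpr, Multiset.card_zero, Nat.cast_zero]
        intro a ha h
        obtain ⟨b, rfl⟩ := Multiset.le_iff_exists_add.mp (Multiset.mem_powersetCard.mp ha).1
        rw [Multiset.sum_add] at h
        omega
    rw [e, Polynomial.coeff_add, Polynomial.coeff_C_mul, Polynomial.coeff_add, h1,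
      Multiset.sum_cons]
    rcases l with _ | l
    · rw [Polynomial.coeff_X_mul_zero, Polynomial.coeff_zero, zero_add,
        Multiset.powersetCard_zero_left, Multiset.powersetCard_zero_left]
    · rw [Polynomial.coeff_X_mul, ih, Multiset.powersetCard_cons, Multiset.filter_add,
        Multiset.card_add, Nat.cast_add, add_comm]
      congr 2
      rw [Multiset.filter_map, Multiset.card_map]
      congr 1
      refine Multiset.filter_congr fun a _ => ?_
      simp only [Function.comp_apply, Multiset.sum_cons]
      omega

end MargM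

open MargM in
/-- The marginal sums have coefficients in `ℕ[b]`. -/
theorem marg {n : ℕ} {J : n.Partition → n.Partition → QA} (hJ : IsJack RatFunc.X n J)
    (c : n.Partition → n.Partition → n.Partition → QA)
    (hc : ∀ l m v, ∑ p, J l p * c p m v = J l m * J l v)
    (hHat : ∃ (T : CM QA →ₗ[QA] Lam QA) (That : AM QA (1 : QA) →ₗ[QA] LW QA),
      IsT (RatFunc.X * 1) T ∧ (∀ f : CM QA, f ∈ PS (RatFunc.X : QA) → T f ∈ PS (RatFunc.X : QA)) ∧
      HatSt QA RatFunc.X 1 T That)
    (p m : n.Partition) (l t : ℕ) :
    ∑ r, (cnt r.parts l t : QA) * c p m r ∈ Nb (RatFunc.X : QA) := by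
  obtain ⟨T, That, hI, hTP, hh⟩ := hHat
  have hk : (RatFunc.X : QA) * 1 ^ 2 = (RatFunc.X - 1) * 1 + 1 := by ring
  have hX := fun u v => thmX hJ c hc hk hI hh u v
  choose Kc h1 hK hF using hX
  have hone : (1 : QA) ∈ Nb (RatFunc.X : QA) := one_mem _
  have hfam := Fam_mon (al := RatFunc.X) hone Kc h1 hK p.parts
    (fun h => absurd (p.parts_pos h) (lt_irrefl 0))
  have hfam2 : (fun u s => coeff (expo m) (T (Kc u s (pp QA p)))) ∈
      Fam (Nb (RatFunc.X : QA)).toAddSubmonoid :=
    Fam_map (P := (PS (RatFunc.X : QA) : Subsemiring (Lam QA)).toAddSubmonoid)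
      (MvPolynomial.lcoeff QA (expo m)) (fun x hx => (hx : ∀ q, coeff q x ∈ Nb RatFunc.X) (expo m))
      (Fam_map (P' := (PS (RatFunc.X : QA) : Subsemiring (Lam QA)).toAddSubmonoid) T hTP hfam)
  obtain ⟨F, hFp, hFe⟩ := fam_poly hfam2
  let G : Polynomial (Polynomial QA) :=
    ∑ r : n.Partition, Polynomial.C (Polynomial.C (c p m r)) * pr QA r.parts
  have hG : F = G := by
    apply poly2_ext
    intro u s
    rw [hFe, ← hF u s p m, Polynomial.eval_finsetSum, Polynomial.eval_finsetSum]
    refine Finset.sum_congr rfl fun r _ => ?_
    rw [Polynomial.eval_mul, Polynomial.eval_mul, Polynomial.eval_C, Polynomial.eval_C, eval_pr,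
      mul_comm]
    congr 2
    refine Multiset.map_congr rfl fun k hk => ?_
    have hk0 : k ≠ 0 := Nat.pos_iff_ne_zero.mp (r.parts_pos hk)
    rw [mul_one, mul_pow_sub_one hk0]
  by_cases ht : t ≤ n
  · have h2 := hFp l (n - t)
    rw [hG, Polynomial.finsetSum_coeff, Polynomial.finsetSum_coeff] at h2
    have h3 : ∀ r : n.Partition, ((Polynomial.C (Polynomial.C (c p m r)) *
        pr QA r.parts).coeff l).coeff (n - t) = (cnt r.parts l t : QA) * c p m r := by
      intro r
      rw [Polynomial.coeff_C_mul, Polynomial.coeff_C_mul, coeff_pr, mul_comm]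
      unfold cnt
      congr 3
      refine Multiset.filter_congr fun a _ => ?_
      rw [r.parts_sum]
      omega
    rw [Finset.sum_congr rfl fun r _ => h3 r] at h2
    exact h2
  · have h3 : ∀ r : n.Partition, (cnt r.parts l t : QA) * c p m r = 0 := by
      intro r
      have h4 : cnt r.parts l t = 0 := by
        unfold cnt
        rw [Multiset.card_eq_zero, Multiset.filter_eq_nil]
        intro a ha h
        have hs := r.parts_sum
        obtain ⟨b, hb⟩ := Multiset.le_iff_exists_add.mp (Multiset.mem_powersetCard.mp ha).1
        rw [hb, Multiset.sum_add] at hs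
        omega
      rw [h4, Nat.cast_zero, zero_mul]
    rw [Finset.sum_congr rfl fun r _ => h3 r, Finset.sum_const_zero]
    exact zero_mem _

end

end Pool.Agent.MJX
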