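import Pool.Agent.MJX.Row
import Pool.Agent.MJX.Forget

/-!
Positivity of the process of the arc model.
-/

namespace Pool.Agent.MJX

open MvPolynomial Pool.Agent.MJR Pool.Agent.MJT

noncomputable section

variable {K : Type} [Field K] {kap : K}

/-! ### Positive elements -/

/-- Root states with coefficients in `ℕ[b]`. -/
def PA (al kap : K) : AddSubmonoid (AM K kap) :=
  AddSubmonoid.closure {x | ∃ (i : Ix) (f : CM K), f ∈ PS al ∧ x = sg i f}

theorem sg_PA {al : K} (i : Ix) {f : CM K} (hf : f ∈ PS al) : (sg i f : AM K kap) ∈ PA al kap :=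
  AddSubmonoid.subset_closure ⟨i, f, hf, rfl⟩

theorem PA_map {al : K} {M : Type} [AddCommMonoid M] (L : AM K kap →+ M) (P : AddSubmonoid M)
    (h : ∀ i, ∀ f ∈ PS al, L (sg i f) ∈ P) {x : AM K kap} (hx : x ∈ PA al kap) : L x ∈ P := by
  induction hx using AddSubmonoid.closure_induction with
  | mem x hx =>
    obtain ⟨i, f, hf, rfl⟩ := hx
    exact h i f hf
  | zero => rw [map_zero]; exact zero_mem _
  | add x y _ _ hx hy => rw [map_add]; exact add_mem hx hy

theorem smul_PA {al : K} {f : CM K} (hf : f ∈ PS al) {x : AM K kap} (hx : x ∈ PA al kap) :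
    f • x ∈ PA al kap := by
  refine PA_map (al := al) (LinearMap.lsmul (CM K) (AM K kap) f).toAddMonoidHom _ ?_ hx
  intro i g hg
  change f • sg i g ∈ _
  rw [smul_sg]
  exact sg_PA i (mul_mem hf hg)

theorem ksmul_PA {al c : K} (hc : c ∈ Nb al) {x : AM K kap} (hx : x ∈ PA al kap) :
    c • x ∈ PA al kap := by
  rw [ksmul]
  exact smul_PA (C_mem_PS al hc) hx

theorem one_PA {al : K} : (1 : AM K kap) ∈ PA al kap := sg_PA _ (one_mem _)

theorem w_PA {al : K} : (wA : AM K kap) ∈ PA al kap := sg_PA _ (one_mem _)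

theorem m_PA {al : K} : (mA : AM K kap) ∈ PA al kap := sg_PA _ (one_mem _)

theorem mul_PA {al : K} (hkap : kap ∈ Nb al) {x y : AM K kap} (hx : x ∈ PA al kap)
    (hy : y ∈ PA al kap) : x * y ∈ PA al kap := by
  refine PA_map (al := al) (AddMonoidHom.mulRight y) _ ?_ hx
  intro i f hf
  refine PA_map (al := al) (AddMonoidHom.mulLeft (sg i f : AM K kap)) _ ?_ hy
  intro j g hg
  change sg i f * sg j g ∈ _
  rw [sg_mul_sg]
  refine smul_PA (mul_mem hf hg) ?_
  rcases i with j1 | ⟨j1, a1⟩ <;> rcases j with j2 | ⟨j2, a2⟩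
  · exact sg_PA _ (one_mem _)
  · exact sg_PA _ (one_mem _)
  · exact sg_PA _ (one_mem _)
  · exact sg_PA _ (mul_mem (C_mem_PS al hkap) (X_mem_PS al _))

theorem pow_PA {al : K} (hkap : kap ∈ Nb al) {x : AM K kap} (hx : x ∈ PA al kap) (n : ℕ) :
    x ^ n ∈ PA al kap := by
  induction n with
  | zero => rw [pow_zero]; exact one_PA
  | succ n ih => rw [pow_succ]; exact mul_PA hkap ih hx

theorem rv_PA {al : K} {x : AM K kap} (hx : x ∈ PA al kap) : rv x ∈ PA al kap := by
  refine PA_map (al := al) (rv (K := K) (kap := kap)).toAddMonoidHom _ ?_ hx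
  intro i f hf
  change rv (sg i f) ∈ _
  rcases i with j | ⟨j, a⟩
  · rw [rv_inl]; exact sg_PA _ hf
  · rw [rv_inr]; exact sg_PA _ hf

theorem cA_PA {al : K} {x : AM K kap} (hx : x ∈ PA al kap) : cA x ∈ PS al := by
  refine PA_map (al := al) (cA (K := K) (kap := kap)).toAddMonoidHom
    (PS al).toAddSubmonoid ?_ hx
  intro i f hf
  change cA (sg i f) ∈ PS al
  rcases i with j | ⟨j, a⟩
  · rw [cA_inl]
    refine mul_mem hf ?_
    split_ifs
    · exact zero_mem _
    · exact X_mem_PS al _
  · rw [cA_inr]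
    exact mul_mem hf (X_mem_PS al _)

theorem iA_PA {al : K} {f : CM K} (hf : f ∈ PS al) : iA kap f ∈ PA al kap := by
  change f • (1 : AM K kap) ∈ _
  exact smul_PA hf one_PA

/-- A linear map is positive if it is positive on monomials. -/
theorem PS_lin {al : K} {M : Type} [AddCommGroup M] [Module K M] (L : CM K →ₗ[K] M)
    (P : AddSubmonoid M) (hP : ∀ c ∈ Nb al, ∀ x ∈ P, c • x ∈ P)
    (h : ∀ l : List (ℕ ⊕ ℕ), L ((l.map X).prod) ∈ P) {f : CM K} (hf : f ∈ PS al) : L f ∈ P := by
  have e3 : ∀ (e : ℕ ⊕ ℕ →₀ ℕ) (c : K), monomial e c =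
      c • (((Finsupp.toMultiset e).toList.map X).prod : CM K) := by
    intro e c
    have e4 : ∀ l : List (ℕ ⊕ ℕ), ((l.map X).prod : CM K) =
        monomial (Multiset.toFinsupp (l : Multiset (ℕ ⊕ ℕ))) 1 := by
      intro l
      induction l with
      | nil => simp
      | cons a l ih =>
        rw [List.map_cons, List.prod_cons, ih, ← Multiset.cons_coe, ← Multiset.singleton_add,
          map_add, Multiset.toFinsupp_singleton, X, monomial_mul, one_mul]
    rw [e4, Multiset.coe_toList, Finsupp.toMultiset_toFinsupp, smul_monomial, smul_eq_mul,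
      mul_one]
  rw [f.as_sum, map_sum]
  refine sum_mem fun e _ => ?_
  rw [e3, map_smul]
  exact hP _ (hf e) _ (h _)

theorem list_PS {al : K} (l : List (ℕ ⊕ ℕ)) : ((l.map X).prod : CM K) ∈ PS al := by
  induction l with
  | nil => rw [List.map_nil, List.prod_nil]; exact one_mem _
  | cons a l ih => rw [List.map_cons, List.prod_cons]; exact mul_mem (X_mem_PS al a) ih

/-- Positive derivations. -/
theorem der_PA {al : K} (D : Derivation K (CM K) (AM K kap))
    (hD : ∀ v, D (X v) ∈ PA al kap) {f : CM K} (hf : f ∈ PS al) : D f ∈ PA al kap := by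
  refine PS_lin (al := al) D.toLinearMap _ (fun c hc x hx => ksmul_PA hc hx) ?_ hf
  intro l
  induction l with
  | nil =>
    rw [List.map_nil, List.prod_nil]
    have h : D.toLinearMap 1 = 0 := D.map_one_eq_zero
    rw [h]
    exact zero_mem _
  | cons v l ih =>
    rw [List.map_cons, List.prod_cons]
    have h : D.toLinearMap (X v * (l.map X).prod) =
        (X v : CM K) • D.toLinearMap ((l.map X).prod) + ((l.map X).prod : CM K) • D (X v) :=
      D.leibniz _ _
    rw [h]
    exact add_mem (smul_PA (X_mem_PS al v) ih) (smul_PA (list_PS l) (hD v))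

theorem o0_PA {al : K} (hkap : kap ∈ Nb al) {f : CM K} (hf : f ∈ PS al) :
    o0 kap f ∈ PA al kap := by
  refine der_PA _ ?_ hf
  intro v
  rcases v with k | c
  · rw [o0_inl]
    exact ksmul_PA (natCast_mem_Nb al k) (pow_PA hkap w_PA _)
  · rw [o0_inr]
    unfold Ow0
    exact sum_mem fun l _ => mul_PA hkap (mul_PA hkap (pow_PA hkap w_PA _) m_PA)
      (pow_PA hkap w_PA _)

theorem rW_PA {al : K} (hkap : kap ∈ Nb al) (j : ℕ) : rW (al - 1) kap j ∈ PA al kap := by
  induction j with
  | zero => rw [rW]; exact zero_mem _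
  | succ j ih =>
    rw [rW]
    exact add_mem (add_mem (mul_PA hkap ih w_PA) (smul_PA (X_mem_PS al _) one_PA))
      (ksmul_PA (b_mem_Nb al) (pow_PA hkap w_PA _))

theorem tM_PA {al : K} (hkap : kap ∈ Nb al) (j a : ℕ) : tM (al - 1) kap j a ∈ PA al kap := by
  induction a with
  | zero => rw [tM]; exact mul_PA hkap (rW_PA hkap j) m_PA
  | succ a ih =>
    rw [tM]
    exact add_mem (add_mem (mul_PA hkap ih w_PA) (smul_PA (X_mem_PS al _) one_PA))
      (ksmul_PA (b_mem_Nb al) (mul_PA hkap (mul_PA hkap (pow_PA hkap w_PA _) m_PA)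
        (pow_PA hkap w_PA _)))

theorem T0_PA {al : K} (hkap : kap ∈ Nb al) {x : AM K kap} (hx : x ∈ PA al kap) :
    T0 al kap x ∈ PA al kap := by
  refine PA_map (al := al) (T0 al kap).toAddMonoidHom _ ?_ hx
  intro i f hf
  change T0 al kap (sg i f) ∈ _
  have h1 : ∀ y ∈ PA al kap, al • o0 kap f * y ∈ PA al kap := fun y hy =>
    mul_PA hkap (ksmul_PA (al_mem_Nb al) (o0_PA hkap hf)) hy
  rcases i with j | ⟨j, a⟩
  · rw [T0_inl]
    exact add_mem (smul_PA hf (rW_PA hkap j)) (h1 _ (sg_PA _ (one_mem _)))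
  · rw [T0_inr]
    exact add_mem (smul_PA hf (tM_PA hkap j a)) (h1 _ (sg_PA _ (one_mem _)))

/-! ### Families -/

section

variable {M M' : Type} [AddCommGroup M] [Module K M] [AddCommGroup M'] [Module K M']

/-- Polynomial families with coefficients in `P`. -/
def Fam (P : AddSubmonoid M) : AddSubmonoid (K → K → M) :=
  AddSubmonoid.closure {g | ∃ (i j : ℕ) (x : M), x ∈ P ∧ g = fun u s => (u ^ i * s ^ j) • x}

theorem mem_Fam (P : AddSubmonoid M) (i j : ℕ) {x : M} (hx : x ∈ P) :
    (fun u s : K => (u ^ i * s ^ j) • x) ∈ Fam P :=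
  AddSubmonoid.subset_closure ⟨i, j, x, hx, rfl⟩

theorem const_Fam (P : AddSubmonoid M) {x : M} (hx : x ∈ P) :
    (fun _ _ : K => x) ∈ Fam P := by
  have h := mem_Fam (K := K) P 0 0 hx
  simp only [pow_zero, mul_one, one_smul] at h
  exact h

theorem Fam_map {P : AddSubmonoid M} {P' : AddSubmonoid M'} (L : M →ₗ[K] M')
    (h : ∀ x ∈ P, L x ∈ P') {g : K → K → M} (hg : g ∈ Fam P) :
    (fun u s => L (g u s)) ∈ Fam P' := by
  induction hg using AddSubmonoid.closure_induction with
  | mem g hg =>
    obtain ⟨i, j, x, hx, rfl⟩ := hg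
    simp only [map_smul]
    exact mem_Fam P' i j (h x hx)
  | zero =>
    have e : (fun u s : K => L ((0 : K → K → M) u s)) = 0 := by
      funext u s
      exact map_zero L
    rw [e]
    exact zero_mem _
  | add f g _ _ hf hg =>
    have e : (fun u s : K => L ((f + g) u s)) = (fun u s => L (f u s)) + fun u s => L (g u s) := by
      funext u s
      exact map_add L _ _
    rw [e]
    exact add_mem hf hg

theorem Fam_u {P : AddSubmonoid M} {g : K → K → M} (hg : g ∈ Fam P) :
    (fun u s => u • g u s) ∈ Fam P := by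
  induction hg using AddSubmonoid.closure_induction with
  | mem g hg =>
    obtain ⟨i, j, x, hx, rfl⟩ := hg
    have e : (fun u s : K => u • (u ^ i * s ^ j) • x) = fun u s => (u ^ (i + 1) * s ^ j) • x := by
      funext u s
      rw [smul_smul]
      congr 1
      ring
    rw [e]
    exact mem_Fam P _ _ hx
  | zero =>
    have e : (fun u s : K => u • ((0 : K → K → M) u s)) = 0 := by
      funext u s
      exact smul_zero u
    rw [e]
    exact zero_mem _
  | add f g _ _ hf hg =>
    have e : (fun u s : K => u • ((f + g) u s)) = (fun u s => u • f u s) + fun u s => u • g u s := by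
      funext u s
      exact smul_add u _ _
    rw [e]
    exact add_mem hf hg

theorem Fam_s {P : AddSubmonoid M} {g : K → K → M} (hg : g ∈ Fam P) :
    (fun u s => s • g u s) ∈ Fam P := by
  induction hg using AddSubmonoid.closure_induction with
  | mem g hg =>
    obtain ⟨i, j, x, hx, rfl⟩ := hg
    have e : (fun u s : K => s • (u ^ i * s ^ j) • x) = fun u s => (u ^ i * s ^ (j + 1)) • x := by
      funext u s
      rw [smul_smul]
      congr 1
      ring
    rw [e]
    exact mem_Fam P _ _ hx
  | zero =>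
    have e : (fun u s : K => s • ((0 : K → K → M) u s)) = 0 := by
      funext u s
      exact smul_zero s
    rw [e]
    exact zero_mem _
  | add f g _ _ hf hg =>
    have e : (fun u s : K => s • ((f + g) u s)) = (fun u s => s • f u s) + fun u s => s • g u s := by
      funext u s
      exact smul_add s _ _
    rw [e]
    exact add_mem hf hg

end

/-- One insertion. -/
theorem Fam_A {al : K} (hkap : kap ∈ Nb al) {g : K → K → AM K kap} (hg : g ∈ Fam (PA al kap)) :
    (fun u s => Aop al kap u s (g u s)) ∈ Fam (PA al kap) := by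
  have e : (fun u s : K => Aop al kap u s (g u s)) =
      (fun u s => LinearMap.mulLeft K wA ((fun u s => u • g u s) u s)) +
      ((fun u s => LinearMap.mulLeft K wA ((fun u s => T0 al kap (g u s)) u s)) +
      fun u s => LinearMap.mulLeft K mA ((fun u s => s • g u s) u s)) := by
    funext u s
    change Aop al kap u s (g u s) = wA * (u • g u s) + (wA * T0 al kap (g u s) + mA * (s • g u s))
    rw [A_apply, mul_add, mul_smul_comm s]
    abel
  rw [e]
  refine add_mem ?_ (add_mem ?_ ?_)
  · exact Fam_map _ (fun x hx => mul_PA hkap w_PA hx) (Fam_u hg)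
  · exact Fam_map _ (fun x hx => mul_PA hkap w_PA hx) (Fam_map _ (fun x hx => T0_PA hkap hx) hg)
  · exact Fam_map _ (fun x hx => mul_PA hkap m_PA hx) (Fam_s hg)

theorem Fam_A_pow {al : K} (hkap : kap ∈ Nb al) {g : K → K → AM K kap}
    (hg : g ∈ Fam (PA al kap)) (k : ℕ) :
    (fun u s => (Aop al kap u s ^ k) (g u s)) ∈ Fam (PA al kap) := by
  induction k with
  | zero => exact hg
  | succ k ih =>
    have h := Fam_A hkap ih
    have e : (fun u s => (Aop al kap u s ^ (k + 1)) (g u s)) =
        fun u s => Aop al kap u s ((Aop al kap u s ^ k) (g u s)) := by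
      funext u s
      rw [pow_succ', Module.End.mul_apply]
    rw [e]
    exact h

/-- The closed states of the process. -/
theorem Fam_mon {al : K} (hkap : kap ∈ Nb al) (Kc : K → K → Lam K →ₗ[K] CM K)
    (h1 : ∀ u s, Kc u s 1 = 1)
    (hK : ∀ u s k f, k ≠ 0 → Kc u s (X k * f) = cA ((Aop al kap u s ^ k) (iA kap (Kc u s f))))
    (t : Multiset ℕ) (h0 : 0 ∉ t) :
    (fun u s => Kc u s (GradeM.mon K t)) ∈ Fam (PS al).toAddSubmonoid := by
  induction t using Multiset.induction_on with
  | empty =>
    have e : (fun u s => Kc u s (GradeM.mon K 0)) = fun _ _ => 1 := by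
      funext u s
      rw [GradeM.mon_zero, h1]
    rw [e]
    exact const_Fam _ (one_mem (PS al))
  | cons k t ih =>
    rw [Multiset.mem_cons, not_or] at h0
    have e : (fun u s => Kc u s (GradeM.mon K (k ::ₘ t))) = fun u s =>
        (cK : AM K kap →ₗ[K] CM K) ((Aop al kap u s ^ k) (iA kap (Kc u s (GradeM.mon K t)))) := by
      funext u s
      rw [GradeM.mon_cons, hK _ _ _ _ (Ne.symm h0.1)]
      rfl
    rw [e]
    refine Fam_map _ (fun x hx => cA_PA hx) (Fam_A_pow hkap ?_ k)
    exact Fam_map _ (fun x hx => iA_PA hx) (ih h0.2)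

end

end Pool.Agent.MJX
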