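import Pool.Agent.MJX.St

/-!
The rules for the touches of the front gap and of the letters.
-/

namespace Pool.Agent.MJX

open MvPolynomial Pool.Agent.MJR

noncomputable section

variable {K : Type} [Field K] {kap : K}

theorem FO_sg (d : CM K →ₗ[K] AM K kap) (r : Ix → AM K kap) (x : Ix) (f : CM K) :
    FO d r (sg x f) = f • r x + d f * sg x 1 := by
  have h := Finsupp.lsum_single K (fun x =>
    ((LinearMap.toSpanSingleton (CM K) (AM K kap) (r x)).restrictScalars K) +
      LinearMap.mulRight K (sg x 1 : AM K kap) ∘ₗ d) x f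
  exact h

theorem FO_smul (d : CM K →ₗ[K] AM K kap) (hd : ∀ f g, d (f * g) = f • d g + g • d f)
    (r : Ix → AM K kap) (f : CM K) (x : AM K kap) :
    FO d r (f • x) = f • FO d r x + d f * x := by
  refine sg_induction (P := fun x => FO d r (f • x) = f • FO d r x + d f * x) x ?_ ?_ ?_
  · rw [smul_zero, map_zero, smul_zero, mul_zero, add_zero]
  · intro x y hx hy
    rw [smul_add, map_add, map_add, hx, hy, smul_add, mul_add]
    abel
  · intro i g
    rw [smul_sg, FO_sg, FO_sg, hd, sg_eq i g, AM_mul_smul, add_mul, AM_smul_mul, AM_smul_mul,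
      smul_add, mul_smul]
    abel

theorem al_der (al : K) (D : Derivation K (CM K) (AM K kap)) (f g : CM K) :
    (al • D.toLinearMap) (f * g) = f • (al • D.toLinearMap) g + g • (al • D.toLinearMap) f := by
  rw [LinearMap.smul_apply, LinearMap.smul_apply, LinearMap.smul_apply]
  change al • D (f * g) = f • (al • D g) + g • (al • D f)
  rw [D.leibniz, smul_add, smul_comm al f, smul_comm al g]

theorem w_m_w (j a : ℕ) :
    (wA ^ j * mA * wA ^ a : AM K kap) = sg (Sum.inr (j, a)) 1 := by
  rw [sg_inr, one_smul]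

theorem cA_wmw (j a : ℕ) : cA (wA ^ j * mA * wA ^ a : AM K kap) = X (Sum.inr (j + a)) := by
  rw [w_m_w, cA_inr, one_mul]

theorem rv_wmw (j a : ℕ) : rv (wA ^ j * mA * wA ^ a : AM K kap) = wA ^ a * mA * wA ^ j := by
  rw [w_m_w, rv_inr, w_m_w]

theorem m_w_m (a : ℕ) :
    (mA * wA ^ a * mA : AM K kap) = (C kap * X (Sum.inr a) : CM K) • mA := by
  rw [mxm]
  congr 2
  have h := cA_wmw (K := K) (kap := kap) 0 a
  rw [pow_zero, one_mul, zero_add] at h
  exact h

/-- `rM` by a sum. -/
theorem rM_eq (b : K) (j a : ℕ) : rM b kap j a =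
    (rW b kap j * mA + (X (Sum.inr j) : CM K) • (1 : AM K kap) + b • (mA * wA ^ j)) * wA ^ a
      + ∑ r ∈ Finset.range a, ((X (Sum.inr (j + (r + 1))) : CM K) • (wA ^ (a - 1 - r) : AM K kap)
        + b • (wA ^ (r + 1) * mA * wA ^ j * wA ^ (a - 1 - r))) := by
  induction a with
  | zero => simp [rM]
  | succ a ih =>
    rw [rM, ih, Finset.sum_range_succ, add_mul, mul_assoc, ← pow_succ, Finset.sum_mul]
    have h1 : ∀ r ∈ Finset.range a,
        ((X (Sum.inr (j + (r + 1))) : CM K) • (wA ^ (a - 1 - r) : AM K kap)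
        + b • (wA ^ (r + 1) * mA * wA ^ j * wA ^ (a - 1 - r))) * wA
        = ((X (Sum.inr (j + (r + 1))) : CM K) • (wA ^ (a + 1 - 1 - r) : AM K kap)
        + b • (wA ^ (r + 1) * mA * wA ^ j * wA ^ (a + 1 - 1 - r))) := by
      intro r hr
      have hr' := Finset.mem_range.mp hr
      have e : a + 1 - 1 - r = (a - 1 - r) + 1 := by omega
      rw [e, pow_succ wA (a - 1 - r), add_mul, smul_mul_assoc, smul_mul_assoc, ← mul_assoc]
    rw [Finset.sum_congr rfl h1]
    have e2 : a + 1 - 1 - a = 0 := by omega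
    rw [e2, pow_zero, mul_one]
    abel

/-- `tM` by a sum. -/
theorem tM_eq (b : K) (j a : ℕ) : tM b kap j a =
    rW b kap j * mA * wA ^ a
      + ∑ r ∈ Finset.range a, ((X (Sum.inr (j + (r + 1))) : CM K) • (wA ^ (a - 1 - r) : AM K kap)
        + b • (wA ^ r * mA * wA ^ (j + 1) * wA ^ (a - 1 - r))) := by
  induction a with
  | zero => simp [tM]
  | succ a ih =>
    rw [tM, ih, Finset.sum_range_succ, add_mul, mul_assoc (rW b kap j * mA), ← pow_succ,
      Finset.sum_mul]
    have h1 : ∀ r ∈ Finset.range a,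
        ((X (Sum.inr (j + (r + 1))) : CM K) • (wA ^ (a - 1 - r) : AM K kap)
        + b • (wA ^ r * mA * wA ^ (j + 1) * wA ^ (a - 1 - r))) * wA
        = ((X (Sum.inr (j + (r + 1))) : CM K) • (wA ^ (a + 1 - 1 - r) : AM K kap)
        + b • (wA ^ r * mA * wA ^ (j + 1) * wA ^ (a + 1 - 1 - r))) := by
      intro r hr
      have hr' := Finset.mem_range.mp hr
      have e : a + 1 - 1 - r = (a - 1 - r) + 1 := by omega
      rw [e, pow_succ wA (a - 1 - r), add_mul, smul_mul_assoc, smul_mul_assoc, ← mul_assoc]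
    rw [Finset.sum_congr rfl h1]
    have e2 : a + 1 - 1 - a = 0 := by omega
    rw [e2, pow_zero, mul_one]
    abel

/-- a sum which occurs in all checks -/
def Qs (kap : K) (j a n : ℕ) : AM K kap :=
  ∑ l ∈ Finset.range n, (X (Sum.inr (j + (a - l))) : CM K) • (wA ^ l * mA : AM K kap)

theorem Qs_a (j a l : ℕ) (_hl : l ≤ a) : (wA ^ l * mA * wA ^ (a - l) * wA ^ j * mA : AM K kap) =
    (C kap : CM K) • ((X (Sum.inr (j + (a - l))) : CM K) • (wA ^ l * mA : AM K kap)) := by
  rw [mul_assoc (wA ^ l * mA), ← pow_add, mul_assoc (wA ^ l), mul_assoc (wA ^ l), m_w_m,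
    AM_mul_smul, smul_smul, add_comm j]

theorem Ow_mul (j a : ℕ) : Ow kap a * (wA ^ j * mA) = (C kap : CM K) • Qs kap j a (a + 1) := by
  unfold Ow Qs
  rw [Finset.sum_mul, Finset.smul_sum]
  refine Finset.sum_congr rfl fun l hl => ?_
  rw [← mul_assoc, Qs_a j a l (by have := Finset.mem_range.mp hl; omega)]

theorem Ow0_mul (j a : ℕ) : Ow0 kap a * (wA ^ j * mA) = (C kap : CM K) • Qs kap j a a := by
  unfold Ow0 Qs
  rw [Finset.sum_mul, Finset.smul_sum]
  refine Finset.sum_congr rfl fun l hl => ?_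
  rw [← mul_assoc, Qs_a j a l (by have := Finset.mem_range.mp hl; omega)]

/-- reflected sum -/
theorem Qs_refl (j a : ℕ) : Qs kap j a a =
    ∑ r ∈ Finset.range a, (X (Sum.inr (j + (r + 1))) : CM K) •
      (wA ^ (a - 1 - r) * mA : AM K kap) := by
  unfold Qs
  rw [← Finset.sum_range_reflect]
  refine Finset.sum_congr rfl fun r hr => ?_
  have hr' := Finset.mem_range.mp hr
  have e : a - (a - 1 - r) = r + 1 := by omega
  rw [e]

theorem kk (al : K) (hk : al * kap ^ 2 = (al - 1) * kap + 1) :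
    (C al * C kap * C kap : CM K) = 1 + C (al - 1) * C kap := by
  rw [← C_1, ← C_mul, ← C_mul, ← C_mul, ← C_add]
  congr 1
  rw [mul_assoc, ← pow_two, hk]
  ring

/-- The key identity for `Rop`. -/
theorem keyR (al : K) (hk : al * kap ^ 2 = (al - 1) * kap + 1) (j a : ℕ) :
    rM (al - 1) kap j a * mA + (C kap * X (Sum.inr a) * X (Sum.inr j) : CM K) • (1 : AM K kap)
      + (al - 1) • ((C kap * X (Sum.inr a) : CM K) • (mA * wA ^ j : AM K kap)) =
    (C kap * X (Sum.inr a) : CM K) • rM (al - 1) kap j 0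
      + al • ((C kap : CM K) • (Ow kap a * (wA ^ j * mA))) := by
  have h1 : rM (al - 1) kap j a * mA =
      (C kap * X (Sum.inr a) : CM K) • (rW (al - 1) kap j * mA)
      + (X (Sum.inr j) : CM K) • (wA ^ a * mA)
      + (C (al - 1) * (C kap * X (Sum.inr (j + a))) : CM K) • mA
      + (Qs kap j a a + (C (al - 1) * C kap : CM K) •
          ∑ r ∈ Finset.range a, (X (Sum.inr (j + (a - (r + 1)))) : CM K) •
            (wA ^ (r + 1) * mA : AM K kap)) := by
    rw [rM_eq, add_mul, Finset.sum_mul]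
    congr 1
    · rw [mul_assoc, add_mul, add_mul, mul_assoc (rW (al - 1) kap j), ← mul_assoc mA, m_w_m,
        AM_mul_smul, smul_mul_assoc, one_mul, smul_mul_assoc, mul_assoc mA, ← mul_assoc (wA ^ j),
        ← pow_add, ← mul_assoc mA, m_w_m, ksmul, smul_smul]
    · rw [Qs_refl, Finset.smul_sum, ← Finset.sum_add_distrib]
      refine Finset.sum_congr rfl fun r hr => ?_
      have hr' := Finset.mem_range.mp hr
      rw [add_mul, smul_mul_assoc, smul_mul_assoc]
      congr 1
      have e : a - 1 - r = a - (r + 1) := by omega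
      have h2 : (wA ^ (r + 1) * mA * wA ^ j * wA ^ (a - 1 - r) * mA : AM K kap) =
          (C kap * X (Sum.inr (j + (a - (r + 1)))) : CM K) • (wA ^ (r + 1) * mA) := by
        rw [mul_assoc (wA ^ (r + 1) * mA), ← pow_add, mul_assoc (wA ^ (r + 1)),
          mul_assoc (wA ^ (r + 1)), m_w_m, AM_mul_smul, e]
      rw [h2, ksmul, smul_smul, smul_smul, mul_assoc]
  have h3 : Qs kap j a (a + 1) = (X (Sum.inr (j + a)) : CM K) • mA +
      ∑ r ∈ Finset.range a, (X (Sum.inr (j + (a - (r + 1)))) : CM K) •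
            (wA ^ (r + 1) * mA : AM K kap) := by
    unfold Qs
    rw [Finset.sum_range_succ', add_comm, Nat.sub_zero, pow_zero, one_mul]
  have h4 : Qs kap j a (a + 1) = Qs kap j a a + (X (Sum.inr j) : CM K) • (wA ^ a * mA) := by
    unfold Qs
    rw [Finset.sum_range_succ, Nat.sub_self, add_zero]
  have h5 : (∑ r ∈ Finset.range a, (X (Sum.inr (j + (a - (r + 1)))) : CM K) •
            (wA ^ (r + 1) * mA : AM K kap)) =
      Qs kap j a (a + 1) - (X (Sum.inr (j + a)) : CM K) • mA := by
    rw [h3]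
    abel
  have h6 : Qs kap j a a = Qs kap j a (a + 1) - (X (Sum.inr j) : CM K) • (wA ^ a * mA) := by
    rw [h4]
    abel
  rw [h1, h5, h6, Ow_mul, rM, ksmul, ksmul, ksmul]
  have h7 := kk al hk
  have h8 : ((C al : CM K) • (C kap : CM K) • (C kap : CM K) • Qs kap j a (a + 1)) =
      ((1 + C (al - 1) * C kap : CM K)) • Qs kap j a (a + 1) := by
    rw [smul_smul, smul_smul, ← h7, mul_assoc]
  rw [h8]
  module

theorem Rop_inl (al : K) (j : ℕ) (f : CM K) : Rop al kap (sg (Sum.inl j) f) =
    f • rW (al - 1) kap j + al • oA kap f * sg (Sum.inl j) 1 := by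
  unfold Rop
  exact FO_sg _ _ _ _

theorem Rop_inr (al : K) (j a : ℕ) (f : CM K) : Rop al kap (sg (Sum.inr (j, a)) f) =
    f • rM (al - 1) kap j a + al • oA kap f * sg (Sum.inr (j, a)) 1 := by
  unfold Rop
  exact FO_sg _ _ _ _

theorem rSt [CharZero K] (al : K) (hk : al * kap ^ 2 = (al - 1) * kap + 1) : RSt K al kap where
  smul := by
    intro f x
    unfold Rop
    rw [FO_smul _ (al_der al _)]
    congr 1
    rw [LinearMap.smul_apply, smul_mul_assoc]
    rfl
  one := by
    rw [one_def, Rop_inl, rW, smul_zero, zero_add, Derivation.map_one_eq_zero, smul_zero,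
      zero_mul]
  w := by
    intro x
    refine sg_induction (P := fun x => Rop al kap (x * wA) =
      Rop al kap x * wA + cA (x * wA) • (1 : AM K kap) + (al - 1) • rv (x * wA)) x ?_ ?_ ?_
    · simp
    · intro x y hx hy
      rw [add_mul, map_add, map_add, map_add, map_add, hx, hy, add_mul, add_smul, smul_add]
      abel
    · intro i f
      rcases i with j | ⟨j, a⟩
      · rw [sg_mul_w, Rop_inl, Rop_inl, rv_inl, cA_inl, if_neg (Nat.succ_ne_zero j), add_mul,
          mul_assoc, sg_mul_w, sg_inl (j + 1) f]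
        simp only [rW, smul_add, smul_mul_assoc, smul_smul, ksmul]
        module
      · rw [sg1_mul_w, Rop_inr, Rop_inr, rv_inr, cA_inr, add_mul, mul_assoc, sg1_mul_w,
          sg_inr (a + 1) j f]
        simp only [rM, smul_add, smul_mul_assoc, smul_smul, ksmul]
        module
  m := by
    intro x
    refine sg_induction (P := fun x => Rop al kap (x * mA) =
      Rop al kap x * mA + cA (x * mA) • (1 : AM K kap) + (al - 1) • rv (x * mA)) x ?_ ?_ ?_
    · simp
    · intro x y hx hy
      rw [add_mul, map_add, map_add, map_add, map_add, hx, hy, add_mul, add_smul, smul_add]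
      abel
    · intro i f
      rcases i with j | ⟨j, a⟩
      · rw [sg_mul_m, Rop_inr, Rop_inl, rv_inr, cA_inr, add_mul, mul_assoc, sg_mul_m,
          sg_inr 0 j f, pow_zero, one_mul, add_zero]
        simp only [rM, smul_add, smul_mul_assoc, smul_smul, ksmul]
        module
      · have hX : (oA kap) (X (Sum.inr a)) = Ow kap a := by
          unfold oA
          rw [mkDerivation_X]
        have hd : oA kap (f * (C kap * X (Sum.inr a))) =
            (f * C kap) • Ow kap a + (C kap * X (Sum.inr a) : CM K) • (oA kap) f := by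
          rw [Derivation.leibniz, Derivation.leibniz, ← algebraMap_eq, Derivation.map_algebraMap,
            smul_zero, add_zero, algebraMap_eq, hX, smul_smul]
        have h1 := keyR al hk j a
        rw [sg1_mul_m, Rop_inr, Rop_inr, hd, rv_inr, cA_inr, sg_inr j 0 1, sg_inr j a 1,
          sg_inr 0 j, pow_zero, one_mul, mul_one, one_smul, one_smul, add_zero]
        have h2 : (al • (oA kap) f * (wA ^ j * mA * wA ^ a)) * mA =
            (C kap * X (Sum.inr a) : CM K) • (al • (oA kap) f * (wA ^ j * mA)) := by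
          rw [mul_assoc, mul_assoc (wA ^ j), mul_assoc (wA ^ j), m_w_m, AM_mul_smul, AM_mul_smul]
        have h3 := congrArg (fun z => f • z) h1
        simp only [smul_add] at h3
        rw [add_mul (f • _), h2, smul_add, add_mul]
        simp only [smul_mul_assoc, smul_smul, ksmul] at h3 ⊢
        have h4 : ∀ (a1 a2 a3 b1 b2 d1 d2 a3' a2' b1' b2' d2' : AM K kap), a1 + a2 + a3 = b1 + b2 →
            a2 = a2' → a3 = a3' → b1 = b1' → b2 = b2' → d1 = d2' → d2 = d2' →
            b1' + (b2' + d1) = a1 + d2 + a2' + a3' := by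
          intro a1 a2 a3 b1 b2 d1 d2 a3' a2' b1' b2' d2' h h2 h3 h4 h5 h6 h7
          rw [← h2, ← h3, ← h4, ← h5, h6, h7, add_right_comm a1, add_right_comm _ _ a3, h]
          abel
        refine h4 _ _ _ _ _ _ _ _ _ _ _ _ h3 ?_ ?_ ?_ ?_ rfl ?_ <;> congr 1 <;> ring

end

end Pool.Agent.MJX
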