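import Pool.Agent.MJR.Basic

/-!
The ring of root states of the arc model.

`CM K` is the ring of closed states, `X (inl k)` is the cycle `p_k` (`k ≥ 1`), `X (inr a)` is the
cycle `y_a` with one mark and `a` zeros.  `AM K kap` is the ring generated over `CM K` by `w`
(a zero) and `m` (a mark), with `m w^a m = kap y_a m`; its basis is `w^j`, `w^j m w^a`.
-/

namespace Pool.Agent.MJX

open MvPolynomial Pool.Agent.MJR

noncomputable section

/-- Closed states. -/
abbrev CM (K : Type) [Field K] := MvPolynomial (ℕ ⊕ ℕ) K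

/-- The basis of the root states. -/
abbrev Ix := ℕ ⊕ (ℕ × ℕ)

/-- Root states. -/
def AM (K : Type) [Field K] (_kap : K) := Ix →₀ CM K

variable {K : Type} [Field K] {kap : K}

instance : AddCommGroup (AM K kap) := inferInstanceAs (AddCommGroup (Ix →₀ CM K))
instance : Module (CM K) (AM K kap) := inferInstanceAs (Module (CM K) (Ix →₀ CM K))
instance : Module K (AM K kap) := inferInstanceAs (Module K (Ix →₀ CM K))
instance : IsScalarTower K (CM K) (AM K kap) :=
  inferInstanceAs (IsScalarTower K (CM K) (Ix →₀ CM K))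

/-- `f` times the basis element `x`. -/
def sg (x : Ix) (f : CM K) : AM K kap := Finsupp.single x f

/-- Basis products. -/
def bp (kap : K) : Ix → Ix → AM K kap
  | Sum.inl j, Sum.inl j' => sg (Sum.inl (j + j')) 1
  | Sum.inl j, Sum.inr (j', a) => sg (Sum.inr (j + j', a)) 1
  | Sum.inr (j, a), Sum.inl j' => sg (Sum.inr (j, a + j')) 1
  | Sum.inr (j, a), Sum.inr (j', a') => sg (Sum.inr (j, a')) (C kap * X (Sum.inr (a + j')))

/-- Linear maps given on the basis. -/
def lcb {M : Type} [AddCommGroup M] [Module (CM K) M] (v : Ix → M) : AM K kap →ₗ[CM K] M :=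
  Finsupp.linearCombination (CM K) v

theorem lcb_sg {M : Type} [AddCommGroup M] [Module (CM K) M] (v : Ix → M) (x : Ix) (f : CM K) :
    lcb (kap := kap) v (sg x f) = f • v x := Finsupp.linearCombination_single _ _ _

theorem sg_eq (x : Ix) (f : CM K) : (sg x f : AM K kap) = f • sg x 1 := by
  unfold sg
  change _ = f • (Finsupp.single x 1 : Ix →₀ CM K)
  rw [Finsupp.smul_single, smul_eq_mul, mul_one]

theorem sg_add (x : Ix) (f g : CM K) : (sg x (f + g) : AM K kap) = sg x f + sg x g :=
  Finsupp.single_add _ _ _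

theorem smul_sg (x : Ix) (f g : CM K) : (f • sg x g : AM K kap) = sg x (f * g) := by
  rw [sg_eq x g, smul_smul, ← sg_eq]

/-- Induction over the basis. -/
theorem sg_induction {P : AM K kap → Prop} (x : AM K kap) (h0 : P 0)
    (ha : ∀ x y, P x → P y → P (x + y)) (hs : ∀ i f, P (sg i f)) : P x :=
  Finsupp.induction_linear x h0 ha hs

/-- The product. -/
def mulL : AM K kap →ₗ[CM K] AM K kap →ₗ[CM K] AM K kap :=
  lcb fun x => lcb fun y => bp kap x y

instance : Mul (AM K kap) := ⟨fun x y => mulL x y⟩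

theorem mul_def (x y : AM K kap) : x * y = mulL x y := rfl

theorem sg_mul_sg (x y : Ix) (f g : CM K) :
    (sg x f * sg y g : AM K kap) = (f * g) • bp kap x y := by
  rw [mul_def, mulL, lcb_sg, LinearMap.smul_apply, lcb_sg, smul_smul]

instance : One (AM K kap) := ⟨sg (Sum.inl 0) 1⟩

theorem one_def : (1 : AM K kap) = sg (Sum.inl 0) 1 := rfl

theorem AM_add_mul (x y z : AM K kap) : (x + y) * z = x * z + y * z := by
  rw [mul_def, map_add]; rfl

theorem AM_mul_add (x y z : AM K kap) : x * (y + z) = x * y + x * z := by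
  rw [mul_def, map_add]; rfl

theorem AM_zero_mul (x : AM K kap) : 0 * x = 0 := by
  rw [mul_def, map_zero]; rfl

theorem AM_mul_zero (x : AM K kap) : x * 0 = 0 := by
  rw [mul_def, map_zero]

theorem AM_smul_mul (f : CM K) (x y : AM K kap) : (f • x) * y = f • (x * y) := by
  rw [mul_def, map_smul]; rfl

theorem AM_mul_smul (f : CM K) (x y : AM K kap) : x * (f • y) = f • (x * y) := by
  rw [mul_def, map_smul]; rfl

theorem AM_one_mul (x : AM K kap) : 1 * x = x := by
  refine sg_induction (P := fun x => 1 * x = x) x (AM_mul_zero 1) ?_ ?_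
  · intro x y hx hy
    rw [AM_mul_add, hx, hy]
  · intro i f
    rw [one_def, sg_mul_sg]
    rcases i with j | ⟨j, a⟩
    · simp only [bp, zero_add, one_mul, ← sg_eq]
    · simp only [bp, zero_add, one_mul, ← sg_eq]

theorem AM_mul_one (x : AM K kap) : x * 1 = x := by
  refine sg_induction (P := fun x => x * 1 = x) x (AM_zero_mul 1) ?_ ?_
  · intro x y hx hy
    rw [AM_add_mul, hx, hy]
  · intro i f
    rw [one_def, sg_mul_sg]
    rcases i with j | ⟨j, a⟩
    · simp only [bp, add_zero, mul_one, ← sg_eq]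
    · simp only [bp, add_zero, mul_one, ← sg_eq]

theorem bp_assoc (x y z : Ix) :
    (bp kap x y * sg z 1 : AM K kap) = sg x 1 * bp kap y z := by
  rcases x with j | ⟨j, a⟩ <;> rcases y with j' | ⟨j', a'⟩ <;> rcases z with j'' | ⟨j'', a''⟩ <;>
    simp only [bp, sg_mul_sg, smul_sg, one_mul, mul_one, add_assoc]
  ring_nf

theorem AM_mul_assoc (x y z : AM K kap) : x * y * z = x * (y * z) := by
  refine sg_induction (P := fun x => x * y * z = x * (y * z)) x ?_ ?_ ?_
  · rw [AM_zero_mul, AM_zero_mul, AM_zero_mul]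
  · intro x x' hx hx'
    rw [AM_add_mul, AM_add_mul, AM_add_mul, hx, hx']
  · intro i f
    refine sg_induction (P := fun y => sg i f * y * z = sg i f * (y * z)) y ?_ ?_ ?_
    · rw [AM_mul_zero, AM_zero_mul, AM_mul_zero]
    · intro y y' hy hy'
      rw [AM_mul_add, AM_add_mul, AM_add_mul, AM_mul_add, hy, hy']
    · intro j g
      refine sg_induction (P := fun z => sg i f * sg j g * z = sg i f * (sg j g * z)) z ?_ ?_ ?_
      · rw [AM_mul_zero, AM_mul_zero, AM_mul_zero]
      · intro z z' hz hz'
        rw [AM_mul_add, AM_mul_add, AM_mul_add, hz, hz']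
      · intro k h
        rw [sg_mul_sg, sg_mul_sg, AM_smul_mul, AM_mul_smul, sg_eq k h, sg_eq i f, AM_mul_smul,
          AM_smul_mul, bp_assoc, smul_smul, smul_smul]
        congr 1
        ring

instance : Ring (AM K kap) where
  __ := (inferInstance : AddCommGroup (AM K kap))
  mul := (· * ·)
  one := 1
  left_distrib := AM_mul_add
  right_distrib := AM_add_mul
  zero_mul := AM_zero_mul
  mul_zero := AM_mul_zero
  mul_assoc := AM_mul_assoc
  one_mul := AM_one_mul
  mul_one := AM_mul_one

instance : Algebra (CM K) (AM K kap) :=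
  Algebra.ofModule AM_smul_mul AM_mul_smul

theorem ksmul (c : K) (x : AM K kap) : c • x = (C c : CM K) • x := by
  rw [← smul_one_smul (CM K) c x, smul_eq_C_mul, mul_one]

instance : Algebra K (AM K kap) :=
  Algebra.ofModule (fun c x y => by rw [ksmul, ksmul, AM_smul_mul])
    (fun c x y => by rw [ksmul, ksmul, AM_mul_smul])

/-- a zero -/
def wA : AM K kap := sg (Sum.inl 1) 1

/-- a mark -/
def mA : AM K kap := sg (Sum.inr (0, 0)) 1

theorem sg_mul_w (j : ℕ) (f : CM K) : (sg (Sum.inl j) f * wA : AM K kap) = sg (Sum.inl (j + 1)) f := by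
  rw [wA, sg_mul_sg, bp, mul_one, ← sg_eq]

theorem sg_mul_m (j : ℕ) (f : CM K) :
    (sg (Sum.inl j) f * mA : AM K kap) = sg (Sum.inr (j, 0)) f := by
  rw [mA, sg_mul_sg, bp, mul_one, add_zero, ← sg_eq]

theorem sg1_mul_w (j a : ℕ) (f : CM K) :
    (sg (Sum.inr (j, a)) f * wA : AM K kap) = sg (Sum.inr (j, a + 1)) f := by
  rw [wA, sg_mul_sg, bp, mul_one, ← sg_eq]

theorem sg1_mul_m (j a : ℕ) (f : CM K) :
    (sg (Sum.inr (j, a)) f * mA : AM K kap) =
      sg (Sum.inr (j, 0)) (f * (C kap * X (Sum.inr a))) := by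
  rw [mA, sg_mul_sg, bp, mul_one, add_zero, smul_sg]

theorem w_pow (j : ℕ) : (wA ^ j : AM K kap) = sg (Sum.inl j) 1 := by
  induction j with
  | zero => rw [pow_zero, one_def]
  | succ j ih => rw [pow_succ, ih, sg_mul_w]

theorem sg_inl (j : ℕ) (f : CM K) : (sg (Sum.inl j) f : AM K kap) = f • wA ^ j := by
  rw [w_pow, ← sg_eq]

theorem sg_inr (j a : ℕ) (f : CM K) :
    (sg (Sum.inr (j, a)) f : AM K kap) = f • (wA ^ j * mA * wA ^ a) := by
  induction a with
  | zero => rw [pow_zero, mul_one, w_pow, sg_mul_m, ← sg_eq]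
  | succ a ih => rw [pow_succ, ← mul_assoc, ← AM_smul_mul, ← ih, sg1_mul_w]

/-- Words are generated from the right. -/
theorem word_induction {P : AM K kap → Prop} (x : AM K kap) (ha : ∀ x y, P x → P y → P (x + y))
    (h1 : ∀ f : CM K, P (f • 1)) (hw : ∀ x, P x → P (x * wA)) (hm : ∀ x, P x → P (x * mA)) :
    P x := by
  have hW : ∀ (j : ℕ) (f : CM K), P (sg (Sum.inl j) f) := by
    intro j f
    induction j with
    | zero =>
      have h := h1 f
      rwa [one_def, ← sg_eq] at h
    | succ j ih =>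
      rw [← sg_mul_w]
      exact hw _ ih
  refine sg_induction (P := P) x ?_ ha ?_
  · have h := h1 0
    rwa [zero_smul] at h
  · intro i f
    rcases i with j | ⟨j, a⟩
    · exact hW j f
    · induction a with
      | zero =>
        rw [← sg_mul_m]
        exact hm _ (hW j f)
      | succ a ih =>
        rw [← sg1_mul_w]
        exact hw _ ih

/-- Two linear maps agree if they agree on closed states and this is inherited by words. -/
theorem lin_ext {M : Type} [AddCommGroup M] [Module K M] {F G : AM K kap →ₗ[K] M}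
    (h1 : ∀ f : CM K, F (f • 1) = G (f • 1))
    (hw : ∀ x, F x = G x → F (x * wA) = G (x * wA))
    (hm : ∀ x, F x = G x → F (x * mA) = G (x * mA)) : F = G := by
  apply LinearMap.ext
  intro x
  refine word_induction (P := fun x => F x = G x) x ?_ h1 hw hm
  intro x y hx hy
  rw [map_add, map_add, hx, hy]

/-! ### Trace and reversal -/

/-- Closing a root state. -/
def cA : AM K kap →ₗ[CM K] CM K :=
  lcb fun x => match x with
    | Sum.inl j => if j = 0 then 0 else X (Sum.inl j)
    | Sum.inr (j, a) => X (Sum.inr (j + a))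

theorem cA_inl (j : ℕ) (f : CM K) :
    cA (sg (Sum.inl j) f : AM K kap) = f * (if j = 0 then 0 else X (Sum.inl j)) := by
  rw [cA, lcb_sg, smul_eq_mul]

theorem cA_inr (j a : ℕ) (f : CM K) :
    cA (sg (Sum.inr (j, a)) f : AM K kap) = f * X (Sum.inr (j + a)) := by
  rw [cA, lcb_sg, smul_eq_mul]

theorem cA_one (f : CM K) : cA (f • (1 : AM K kap)) = 0 := by
  rw [one_def, ← sg_eq, cA_inl, if_pos rfl, mul_zero]

theorem cA_comm (x y : AM K kap) : cA (x * y) = cA (y * x) := by
  refine sg_induction (P := fun x => cA (x * y) = cA (y * x)) x ?_ ?_ ?_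
  · rw [zero_mul, mul_zero]
  · intro x x' hx hx'
    rw [add_mul, mul_add, map_add, map_add, hx, hx']
  · intro i f
    refine sg_induction (P := fun y => cA (sg i f * y) = cA (y * sg i f)) y ?_ ?_ ?_
    · rw [zero_mul, mul_zero]
    · intro y y' hy hy'
      rw [add_mul, mul_add, map_add, map_add, hy, hy']
    · intro k g
      rw [sg_mul_sg, sg_mul_sg, map_smul, map_smul, smul_eq_mul, smul_eq_mul]
      rcases i with j | ⟨j, a⟩ <;> rcases k with j' | ⟨j', a'⟩
      · simp only [bp, cA_inl, add_comm j j']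
        ring
      · simp only [bp, cA_inr]
        have : j + j' + a' = j' + (a' + j) := by ring
        rw [this]
        ring
      · simp only [bp, cA_inr]
        have : j' + j + a = j + (a + j') := by ring
        rw [this]
        ring
      · simp only [bp, cA_inr, add_comm a' j, add_comm j' a]
        ring

/-- Reversal. -/
def rv : AM K kap →ₗ[CM K] AM K kap :=
  lcb fun x => match x with
    | Sum.inl j => sg (Sum.inl j) 1
    | Sum.inr (j, a) => sg (Sum.inr (a, j)) 1

theorem rv_inl (j : ℕ) (f : CM K) : rv (sg (Sum.inl j) f : AM K kap) = sg (Sum.inl j) f := by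
  rw [rv, lcb_sg, ← sg_eq]

theorem rv_inr (j a : ℕ) (f : CM K) :
    rv (sg (Sum.inr (j, a)) f : AM K kap) = sg (Sum.inr (a, j)) f := by
  rw [rv, lcb_sg, ← sg_eq]

theorem rv_one : rv (1 : AM K kap) = 1 := by rw [one_def, rv_inl]

theorem rv_w : rv (wA : AM K kap) = wA := by rw [wA, rv_inl]

theorem rv_m : rv (mA : AM K kap) = mA := by rw [mA, rv_inr]

theorem rv_rv (x : AM K kap) : rv (rv x) = x := by
  refine sg_induction (P := fun x => rv (rv x) = x) x ?_ ?_ ?_
  · rw [map_zero, map_zero]
  · intro x y hx hy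
    rw [map_add, map_add, hx, hy]
  · intro i f
    rcases i with j | ⟨j, a⟩
    · rw [rv_inl, rv_inl]
    · rw [rv_inr, rv_inr]

theorem rv_mul (x y : AM K kap) : rv (x * y) = rv y * rv x := by
  refine sg_induction (P := fun x => rv (x * y) = rv y * rv x) x ?_ ?_ ?_
  · rw [zero_mul, map_zero, mul_zero]
  · intro x x' hx hx'
    rw [add_mul, map_add, map_add, mul_add, hx, hx']
  · intro i f
    refine sg_induction (P := fun y => rv (sg i f * y) = rv y * rv (sg i f)) y ?_ ?_ ?_
    · rw [mul_zero, map_zero, zero_mul]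
    · intro y y' hy hy'
      rw [mul_add, map_add, map_add, add_mul, hy, hy']
    · intro k g
      rw [sg_mul_sg, map_smul]
      rcases i with j | ⟨j, a⟩ <;> rcases k with j' | ⟨j', a'⟩
      · rw [rv_inl, rv_inl, sg_mul_sg, bp, bp, rv_inl, add_comm j' j, mul_comm g f]
      · rw [rv_inl, rv_inr, sg_mul_sg, bp, bp, rv_inr, add_comm j' j, mul_comm g f]
      · rw [rv_inl, rv_inr, sg_mul_sg, bp, bp, rv_inr, add_comm j' a, mul_comm g f]
      · rw [rv_inr, rv_inr, sg_mul_sg, bp, bp, rv_inr, add_comm j' a, mul_comm g f]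

theorem cA_rv (x : AM K kap) : cA (rv x) = cA x := by
  refine sg_induction (P := fun x => cA (rv x) = cA x) x ?_ ?_ ?_
  · rw [map_zero]
  · intro x y hx hy
    rw [map_add, map_add, map_add, hx, hy]
  · intro i f
    rcases i with j | ⟨j, a⟩
    · rw [rv_inl]
    · rw [rv_inr, cA_inr, cA_inr, add_comm]

/-- The mark is of rank one. -/
theorem mxm (x : AM K kap) : mA * x * mA = (C kap * cA (mA * x)) • (mA : AM K kap) := by
  refine sg_induction (P := fun x => mA * x * mA = (C kap * cA (mA * x)) • (mA : AM K kap)) x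
    ?_ ?_ ?_
  · rw [mul_zero, zero_mul, map_zero, mul_zero, zero_smul]
  · intro x y hx hy
    rw [mul_add, add_mul, map_add, mul_add, add_smul, hx, hy]
  · intro i f
    rcases i with j | ⟨j, a⟩
    · rw [mA, sg_mul_sg, bp, AM_smul_mul, sg_mul_sg, bp, smul_smul, smul_sg, smul_sg, map_smul,
        cA_inr, one_mul, smul_eq_mul]
      congr 1
      simp only [zero_add, add_zero]
      ring
    · rw [mA, sg_mul_sg, bp, AM_smul_mul, sg_mul_sg, bp, smul_smul, smul_sg, smul_sg, map_smul,
        cA_inr, smul_eq_mul]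
      congr 1
      simp only [zero_add, add_zero]
      ring

end

end Pool.Agent.MJX
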