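import Pool.Agent.MJX.Defs

/-!
The statements of the modules of the arc model.
-/

namespace Pool.Agent.MJX

open MvPolynomial Pool.Agent.MJR

noncomputable section

/-- The rules for `Rop`. -/
structure RSt (K : Type) [Field K] (al kap : K) : Prop where
  smul : ∀ (f : CM K) (x : AM K kap), Rop al kap (f • x) = f • Rop al kap x + al • (oA kap f * x)
  one : Rop al kap 1 = 0
  w : ∀ x : AM K kap, Rop al kap (x * wA) =
    Rop al kap x * wA + cA (x * wA) • (1 : AM K kap) + (al - 1) • rv (x * wA)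
  m : ∀ x : AM K kap, Rop al kap (x * mA) =
    Rop al kap x * mA + cA (x * mA) • (1 : AM K kap) + (al - 1) • rv (x * mA)

/-- The rules for `T0` and `T1`. -/
structure TSt (K : Type) [Field K] (al kap : K) : Prop where
  smul0 : ∀ (f : CM K) (x : AM K kap), T0 al kap (f • x) = f • T0 al kap x + al • (o0 kap f * x)
  one0 : T0 al kap 1 = 0
  w0 : ∀ x : AM K kap, T0 al kap (x * wA) =
    T0 al kap x * wA + cA (x * wA) • (1 : AM K kap) + (al - 1) • (rv x * wA)
  m0 : ∀ x : AM K kap, T0 al kap (x * mA) = T0 al kap x * mA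
  smul1 : ∀ (f : CM K) (x : AM K kap), T1 al kap (f • x) = f • T1 al kap x + al • (o1 kap f * x)
  one1 : T1 al kap 1 = 0
  w1 : ∀ x : AM K kap, T1 al kap (x * wA) = T1 al kap x * wA
  m1 : ∀ x : AM K kap, T1 al kap (x * mA) =
    T1 al kap x * mA + cA (x * mA) • (1 : AM K kap) + (al - 1) • (rv x * mA)
  sum : ∀ x : AM K kap, Rop al kap x = T0 al kap x + T1 al kap x + (al - 1) • (rv x - x)

/-- The rules for `Dc` and `Full`. -/
structure FullSt (K : Type) [Field K] (al kap : K) : Prop where
  Dc_one : Dc al kap 1 = 0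
  Dc_mul : ∀ f g : CM K, Dc al kap (f * g) =
    f * Dc al kap g + g * Dc al kap f + al • cA (oA kap f * oA kap g)
  one : ∀ f : CM K, Full al kap (f • (1 : AM K kap)) =
    Dc al kap f • (1 : AM K kap) + al • oA kap f
  w : ∀ x : AM K kap, Full al kap (x * wA) = Full al kap x * wA + Rb al kap (x * wA)
  m : ∀ x : AM K kap, Full al kap (x * mA) = Full al kap x * mA + Rb al kap (x * mA)
  wl : ∀ x : AM K kap, Full al kap (wA * x) = wA * Full al kap x + Rop al kap (wA * x)
  ml : ∀ x : AM K kap, Full al kap (mA * x) = mA * Full al kap x + Rop al kap (mA * x)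
  rev : ∀ x : AM K kap, Full al kap (rv x) = rv (Full al kap x)

/-- The touches of the end gap commute with the touches of the letters. -/
structure ThetaSt (K : Type) [Field K] (al kap : K) : Prop where
  t0 : ∀ x : AM K kap, Rb al kap (T0 al kap x) = T0 al kap (Rb al kap x)
  t1 : ∀ x : AM K kap, Rb al kap (T1 al kap x) = T1 al kap (Rb al kap x)

/-- Opening and the pairs of gaps. -/
structure BaseSt (K : Type) [Field K] (al kap : K) : Prop where
  b0 : ∀ f : CM K, Full al kap (o0 kap f) = o0 kap (Dc al kap f) + T0 al kap (oA kap f)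
  b1 : ∀ f : CM K, Full al kap (o1 kap f) = o1 kap (Dc al kap f) + T1 al kap (oA kap f)

/-- Closing. -/
structure CloseSt (K : Type) [Field K] (al kap : K) : Prop where
  cR : ∀ x : AM K kap, cA (Rop al kap x) = cA (Rb al kap x)
  cD : ∀ x : AM K kap, cA (D0 al kap x) = Dc al kap (cA x)

/-- Doubling. -/
structure ESt (K : Type) [Field K] (al kap : K) : Prop where
  smul : ∀ (f : CM K) (x : AM K kap), EA kap (f • x) = f • EA kap x + Ec K f • x
  one : EA kap (1 : AM K kap) = 0
  w : ∀ x : AM K kap, EA kap (x * wA) = EA kap x * wA + x * wA * wA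
  m : ∀ x : AM K kap, EA kap (x * mA) = EA kap x * mA
  wl : ∀ x : AM K kap, EA kap (wA * x) = wA * EA kap x + wA * wA * x
  ml : ∀ x : AM K kap, EA kap (mA * x) = mA * EA kap x
  c : ∀ x : AM K kap, cA (EA kap x) = Ec K (cA x)
  rev : ∀ x : AM K kap, rv (EA kap x) = EA kap (rv x)
  co : ∀ f : CM K, cA (wA * o0 kap f) = Ec K f
  t0 : ∀ x : AM K kap, T0 al kap (EA kap x) = EA kap (T0 al kap x) + wA * T0 al kap x
  r : ∀ x : AM K kap, Rop al kap (EA kap x) = EA kap (Rop al kap x) + wA * T0 al kap x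

/-- Recolouring. -/
structure ZSt (K : Type) [Field K] (al kap : K) : Prop where
  one : ∀ f : CM K, zA (al * kap) kap (f • (1 : AM K kap)) = zc (al * kap) f • (1 : AM K kap)
  c : ∀ x : AM K kap, cA (zA (al * kap) kap x) = zc (al * kap) (cA x)
  r : ∀ x : AM K kap, Rop al kap (zA (al * kap) kap x) = zA (al * kap) kap (Rop al kap x)

/-- Forgetting the marks. -/
def ForgetSt (K : Type) [Field K] (al tau : K) : Prop :=
  ∃ T : CM K →ₗ[K] Lam K, IsT tau T ∧ (tau ∈ Nb al → ∀ f : CM K, f ∈ PS al → T f ∈ PS al)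

end

end Pool.Agent.MJX
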