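import Pool.Agent.MJX.RMod

/-!
The rules for recolouring.
-/

namespace Pool.Agent.MJX

open MvPolynomial Pool.Agent.MJR

noncomputable section

variable {K : Type} [Field K] {kap : K}

namespace ZModM

theorem iA_apply (f : CM K) : iA kap f = f • (1 : AM K kap) := rfl

theorem dl_mul (c : ℕ) (f g : CM K) : dl K c (f * g) = f * dl K c g + g * dl K c f :=
  (dl K c).leibniz f g

theorem dl_inl (c k : ℕ) : dl K c (X (Sum.inl k)) = 0 := by
  unfold dl
  rw [mkDerivation_X]

theorem dl_inr (c a : ℕ) : dl K c (X (Sum.inr a)) = X (Sum.inr (c + a + 1)) := by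
  unfold dl
  rw [mkDerivation_X]

theorem dl_C (c : ℕ) (t : K) : dl K c (C t) = 0 := by
  rw [← algebraMap_eq, Derivation.map_algebraMap]

theorem dy_mul (f g : CM K) : dy K (f * g) = f • dy K g + g • dy K f :=
  (dy K).leibniz f g

theorem dy_inl (k : ℕ) : dy K (X (Sum.inl k)) = 0 := by
  unfold dy
  rw [mkDerivation_X]

theorem dy_inr (a : ℕ) : dy K (X (Sum.inr a)) = Finsupp.single a 1 := by
  unfold dy
  rw [mkDerivation_X]

theorem dy_C (t : K) : dy K (C t) = 0 := by
  rw [← algebraMap_eq, Derivation.map_algebraMap]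

theorem oA_inl (k : ℕ) : oA kap (X (Sum.inl k)) = (k : K) • wA ^ k := by
  unfold oA
  rw [mkDerivation_X]

theorem oA_inr (c : ℕ) : oA kap (X (Sum.inr c)) = Ow kap c := by
  unfold oA
  rw [mkDerivation_X]

/-- the sum over the derivatives -/
theorem lc_dy (c : ℕ) (f : CM K) :
    Finsupp.linearCombination (CM K) (fun d => (X (Sum.inr (c + d + 1)) : CM K)) (dy K f) =
      dl K c f := by
  induction f using MvPolynomial.induction_on with
  | C t => rw [dy_C, dl_C, map_zero]
  | add p q hp hq => rw [map_add, map_add, map_add, hp, hq]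
  | mul_X p v hp =>
    rw [dy_mul, map_add, map_smul, map_smul, hp, dl_mul, smul_eq_mul, smul_eq_mul]
    rcases v with k | a
    · rw [dy_inl, dl_inl, map_zero]
    · rw [dy_inr, dl_inr, Finsupp.linearCombination_single, one_smul]

theorem Lop_apply (tau : K) (a : ℕ) (g : CM K) :
    Lop tau a g = X (Sum.inl (a + 1)) * g + tau • dl K a g := rfl

theorem zc_apply (tau : K) (f : CM K) :
    zc tau f = Finsupp.lsum K (fun c => Lop tau c) (dy K f) := rfl

theorem ls_single (tau : K) (d : ℕ) (g : CM K) :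
    Finsupp.lsum K (fun c => Lop tau c) (Finsupp.single d g : ℕ →₀ CM K) = Lop tau d g :=
  Finsupp.lsum_single K (fun c => Lop tau c) d g

theorem ls_inr (tau : K) (c : ℕ) (s : ℕ →₀ CM K) :
    Finsupp.lsum K (fun c => Lop tau c) ((X (Sum.inr c) : CM K) • s) =
      X (Sum.inr c) * Finsupp.lsum K (fun c => Lop tau c) s + tau •
        Finsupp.linearCombination (CM K) (fun d => (X (Sum.inr (c + d + 1)) : CM K)) s := by
  refine Finsupp.induction_linear s ?_ ?_ ?_
  · simp
  · intro s t hs ht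
    rw [smul_add, map_add, map_add, map_add, hs, ht, mul_add, smul_add]
    abel
  · intro d g
    have e : d + c + 1 = c + d + 1 := by ring
    rw [Finsupp.smul_single, ls_single, ls_single, Finsupp.linearCombination_single, smul_eq_mul,
      smul_eq_mul, Lop_apply, Lop_apply, dl_mul, dl_inr, e, mul_add, smul_add, ← mul_assoc,
      ← mul_assoc, mul_comm (X (Sum.inl (d + 1))), mul_smul_comm]
    abel

theorem ls_inl (tau : K) (k : ℕ) (s : ℕ →₀ CM K) :
    Finsupp.lsum K (fun c => Lop tau c) ((X (Sum.inl k) : CM K) • s) =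
      X (Sum.inl k) * Finsupp.lsum K (fun c => Lop tau c) s := by
  refine Finsupp.induction_linear s ?_ ?_ ?_
  · simp
  · intro s t hs ht
    rw [smul_add, map_add, map_add, hs, ht, mul_add]
  · intro d g
    rw [Finsupp.smul_single, ls_single, ls_single, smul_eq_mul, Lop_apply, Lop_apply, dl_mul,
      dl_inl, mul_zero, add_zero, mul_add, ← mul_assoc, ← mul_assoc,
      mul_comm (X (Sum.inl (d + 1))), mul_smul_comm]

theorem zc_inr (tau : K) (c : ℕ) (f : CM K) : zc tau (X (Sum.inr c) * f) =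
    X (Sum.inr c) * zc tau f + X (Sum.inl (c + 1)) * f + (2 * tau) • dl K c f := by
  rw [zc_apply, dy_mul, map_add, ls_inr, ← zc_apply, lc_dy, dy_inr, Finsupp.smul_single,
    ls_single, smul_eq_mul, mul_one, Lop_apply, mul_smul, two_smul]
  abel

theorem zc_inl (tau : K) (k : ℕ) (f : CM K) : zc tau (X (Sum.inl k) * f) =
    X (Sum.inl k) * zc tau f := by
  rw [zc_apply, dy_mul, map_add, ls_inl, ← zc_apply, dy_inl, smul_zero, map_zero, add_zero]

theorem zc_C (tau : K) (t : K) : zc tau (C t) = 0 := by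
  rw [zc_apply, dy_C, map_zero]

theorem zd_mul (j a : ℕ) (f g : CM K) :
    zd kap j a (f * g) = f • zd kap j a g + g • zd kap j a f := (zd kap j a).leibniz f g

theorem zd_inl (j a k : ℕ) : zd kap j a (X (Sum.inl k) : CM K) = 0 := by
  unfold zd
  rw [mkDerivation_X]

theorem zd_inr (j a c : ℕ) : zd kap j a (X (Sum.inr c) : CM K) =
    sg (Sum.inr (j + c + 1, a)) 1 + sg (Sum.inr (j, a + c + 1)) 1 := by
  unfold zd
  rw [mkDerivation_X, ← w_m_w, ← w_m_w]

theorem zd_C (j a : ℕ) (t : K) : zd kap j a (C t : CM K) = 0 := by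
  rw [← algebraMap_eq, Derivation.map_algebraMap]

theorem zd_w (j a : ℕ) (f : CM K) : zd kap j (a + 1) f = zd kap j a f * wA := by
  induction f using MvPolynomial.induction_on with
  | C t => rw [zd_C, zd_C, zero_mul]
  | add p q hp hq => rw [map_add, map_add, hp, hq, add_mul]
  | mul_X p v hp =>
    rw [zd_mul, zd_mul, hp, add_mul, smul_mul_assoc, smul_mul_assoc]
    rcases v with k | c
    · rw [zd_inl, zd_inl, zero_mul]
    · have e : a + 1 + c + 1 = a + c + 1 + 1 := by ring
      rw [zd_inr, zd_inr, add_mul, sg1_mul_w, sg1_mul_w, e]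

theorem zd_rv (j a : ℕ) (f : CM K) : rv (zd kap j a f) = zd kap a j f := by
  induction f using MvPolynomial.induction_on with
  | C t => rw [zd_C, zd_C, map_zero]
  | add p q hp hq => rw [map_add, map_add, map_add, hp, hq]
  | mul_X p v hp =>
    rw [zd_mul, zd_mul, map_add, map_smul, map_smul, hp]
    rcases v with k | c
    · rw [zd_inl, zd_inl, map_zero]
    · rw [zd_inr, zd_inr, map_add, rv_inr, rv_inr, add_comm (sg (Sum.inr (a, j + c + 1)) 1)]

theorem zd_c (j a : ℕ) (f : CM K) : cA (zd kap j a f) = 2 * dl K (j + a) f := by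
  induction f using MvPolynomial.induction_on with
  | C t => rw [zd_C, dl_C, map_zero, mul_zero]
  | add p q hp hq => rw [map_add, map_add, map_add, hp, hq, mul_add]
  | mul_X p v hp =>
    rw [zd_mul, dl_mul, map_add, map_smul, map_smul, hp, smul_eq_mul, smul_eq_mul]
    rcases v with k | c
    · rw [zd_inl, dl_inl, map_zero]
      ring
    · have e1 : j + c + 1 + a = j + a + c + 1 := by ring
      have e2 : j + (a + c + 1) = j + a + c + 1 := by ring
      rw [zd_inr, dl_inr, map_add, cA_inr, cA_inr, e1, e2]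
      ring

theorem zA_inl (tau : K) (j : ℕ) (f : CM K) :
    zA tau kap (sg (Sum.inl j) f) = zc tau f • wA ^ j := by
  have h : zA tau kap (sg (Sum.inl j) f) =
      (LinearMap.mulRight K (wA ^ j) ∘ₗ iA kap ∘ₗ zc tau) f :=
    Finsupp.lsum_single K _ _ _
  rw [h, LinearMap.comp_apply, LinearMap.comp_apply, iA_apply, LinearMap.mulRight_apply,
    AM_smul_mul, one_mul]

theorem zA_inr (tau : K) (j a : ℕ) (f : CM K) :
    zA tau kap (sg (Sum.inr (j, a)) f) = zc tau f • (wA ^ j * mA * wA ^ a) +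
      f • wA ^ (j + a + 1) + tau • zd kap j a f := by
  have h : zA tau kap (sg (Sum.inr (j, a)) f) =
      (LinearMap.mulRight K (wA ^ j * mA * wA ^ a) ∘ₗ iA kap ∘ₗ zc tau
        + LinearMap.mulRight K (wA ^ (j + a + 1)) ∘ₗ iA kap + tau • (zd kap j a).toLinearMap) f :=
    Finsupp.lsum_single K _ _ _
  rw [h, LinearMap.add_apply, LinearMap.add_apply, LinearMap.comp_apply, LinearMap.comp_apply,
    LinearMap.comp_apply, iA_apply, iA_apply, LinearMap.mulRight_apply,
    LinearMap.mulRight_apply, AM_smul_mul, one_mul, AM_smul_mul, one_mul]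
  rfl

theorem zA_w (tau : K) (x : AM K kap) : zA tau kap (x * wA) = zA tau kap x * wA := by
  refine sg_induction (P := fun x => zA tau kap (x * wA) = zA tau kap x * wA) x ?_ ?_ ?_
  · simp
  · intro x y hx hy
    rw [add_mul, map_add, map_add, hx, hy, add_mul]
  · intro i f
    rcases i with j | ⟨j, a⟩
    · rw [sg_mul_w, zA_inl, zA_inl, AM_smul_mul, ← pow_succ]
    · have e : j + (a + 1) + 1 = (j + a + 1) + 1 := by ring
      rw [sg1_mul_w, zA_inr, zA_inr, zd_w, add_mul, add_mul, AM_smul_mul, AM_smul_mul,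
        smul_mul_assoc, e, pow_succ wA (j + a + 1), pow_succ wA a, ← mul_assoc _ (wA ^ a) wA]

theorem rv_wp (j : ℕ) : rv (wA ^ j : AM K kap) = wA ^ j := by
  rw [w_pow, rv_inl]

theorem zA_rv (tau : K) (x : AM K kap) : rv (zA tau kap x) = zA tau kap (rv x) := by
  refine sg_induction (P := fun x => rv (zA tau kap x) = zA tau kap (rv x)) x ?_ ?_ ?_
  · simp
  · intro x y hx hy
    rw [map_add, map_add, map_add, map_add, hx, hy]
  · intro i f
    rcases i with j | ⟨j, a⟩
    · rw [rv_inl, zA_inl, map_smul, rv_wp]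
    · rw [rv_inr, zA_inr, zA_inr, map_add, map_add, map_smul, map_smul, rv_wmw, ksmul, map_smul,
        zd_rv, ← ksmul, rv_wp, add_comm j a]

theorem zA_wl (tau : K) (x : AM K kap) : zA tau kap (wA * x) = wA * zA tau kap x := by
  have h1 : wA * x = rv (rv x * wA) := by rw [rv_mul, rv_rv, rv_w]
  rw [h1, ← zA_rv, zA_w, rv_mul, rv_w, ← zA_rv, rv_rv]

theorem zA_c (tau : K) (x : AM K kap) : cA (zA tau kap x) = zc tau (cA x) := by
  refine sg_induction (P := fun x => cA (zA tau kap x) = zc tau (cA x)) x ?_ ?_ ?_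
  · simp
  · intro x y hx hy
    rw [map_add, map_add, map_add, map_add, hx, hy]
  · intro i f
    rcases i with j | ⟨j, a⟩
    · rw [zA_inl, map_smul, w_pow, cA_inl, cA_inl]
      by_cases hj : j = 0
      · rw [if_pos hj, mul_zero, mul_zero, smul_zero, map_zero]
      · rw [if_neg hj, mul_comm f, zc_inl, smul_eq_mul, one_mul, mul_comm]
    · rw [zA_inr, map_add, map_add, map_smul, map_smul, cA_wmw, ksmul, map_smul, zd_c, w_pow,
        cA_inl, cA_inr, if_neg (Nat.succ_ne_zero _), mul_comm f, zc_inr, smul_eq_mul,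
        smul_eq_mul, smul_eq_mul, smul_eq_C_mul, C_mul]
      have h2 : (C (2 : K) : CM K) = 2 := map_ofNat _ 2
      rw [h2]
      ring

/-- `m ↦ w^(c+1) m + m w^(c+1)`, a derivation. -/
def tt (kap : K) (c : ℕ) : AM K kap →ₗ[K] AM K kap :=
  FO ((2 : K) • (iA kap ∘ₗ (dl K c).toLinearMap)) fun x => match x with
    | Sum.inl _ => 0
    | Sum.inr (j, a) => sg (Sum.inr (j + c + 1, a)) 1 + sg (Sum.inr (j, a + c + 1)) 1

theorem two_C : (C (2 : K) : CM K) = 2 := map_ofNat _ 2

theorem tt_smul (c : ℕ) (f : CM K) (x : AM K kap) :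
    tt kap c (f • x) = f • tt kap c x + (2 * dl K c f) • x := by
  unfold tt
  rw [FO_smul _ ?_]
  · congr 1
    rw [LinearMap.smul_apply, LinearMap.comp_apply, iA_apply, ksmul, smul_smul, AM_smul_mul,
      one_mul, two_C]
    rfl
  · intro f g
    rw [LinearMap.smul_apply, LinearMap.smul_apply, LinearMap.smul_apply, LinearMap.comp_apply,
      LinearMap.comp_apply, LinearMap.comp_apply, iA_apply, iA_apply, iA_apply]
    change (2 : K) • (dl K c (f * g)) • (1 : AM K kap) = f • (2 : K) • (dl K c g) • 1 +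
      g • (2 : K) • (dl K c f) • 1
    rw [dl_mul, ksmul, ksmul, ksmul]
    module

theorem tt_e0 (c j : ℕ) : tt kap c (sg (Sum.inl j) 1) = 0 := by
  unfold tt
  rw [FO_sg, LinearMap.smul_apply, LinearMap.comp_apply, iA_apply, one_smul, zero_add]
  change (2 : K) • (dl K c 1) • (1 : AM K kap) * _ = 0
  rw [Derivation.map_one_eq_zero, zero_smul, smul_zero, zero_mul]

theorem tt_e1 (c j a : ℕ) : tt kap c (sg (Sum.inr (j, a)) 1) =
    sg (Sum.inr (j + c + 1, a)) 1 + sg (Sum.inr (j, a + c + 1)) 1 := by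
  unfold tt
  rw [FO_sg, LinearMap.smul_apply, LinearMap.comp_apply, iA_apply, one_smul]
  change _ + (2 : K) • (dl K c 1) • (1 : AM K kap) * _ = _
  rw [Derivation.map_one_eq_zero, zero_smul, smul_zero, zero_mul, add_zero]

theorem tt_bp (c : ℕ) (x y : Ix) : tt kap c (bp kap x y) =
    tt kap c (sg x 1) * sg y 1 + sg x 1 * tt kap c (sg y 1) := by
  rcases x with j | ⟨j, a⟩ <;> rcases y with j' | ⟨j', a'⟩
  · rw [bp, tt_e0, tt_e0, tt_e0, zero_mul, mul_zero, add_zero]
  · have e : j + j' + c + 1 = j + (j' + c + 1) := by ring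
    rw [bp, tt_e0, tt_e1, tt_e1, zero_mul, zero_add, mul_add, sg_mul_sg, sg_mul_sg, bp, bp, e,
      mul_one, one_smul, one_smul]
  · have e : a + j' + c + 1 = a + c + 1 + j' := by ring
    rw [bp, tt_e0, tt_e1, tt_e1, mul_zero, add_zero, add_mul, sg_mul_sg, sg_mul_sg, bp, bp, e,
      mul_one, one_smul, one_smul]
  · have h1 : dl K c (C kap * X (Sum.inr (a + j'))) = C kap * X (Sum.inr (c + (a + j') + 1)) := by
      rw [dl_mul, dl_C, dl_inr, mul_zero, add_zero]
    have e1 : a + c + 1 + j' = c + (a + j') + 1 := by ring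
    have e2 : a + (j' + c + 1) = c + (a + j') + 1 := by ring
    rw [bp, sg_eq, tt_smul, h1, tt_e1, tt_e1, tt_e1, add_mul, mul_add, sg_mul_sg, sg_mul_sg,
      sg_mul_sg, sg_mul_sg, bp, bp, bp, bp, e1, e2]
    rw [sg_eq (Sum.inr (j + c + 1, a')) (C kap * _), sg_eq (Sum.inr (j, a' + c + 1)) (C kap * _),
      sg_eq (Sum.inr (j, a')) (C kap * _)]
    module

theorem tt_mul (c : ℕ) (x y : AM K kap) :
    tt kap c (x * y) = tt kap c x * y + x * tt kap c y := by
  refine sg_induction (P := fun x => tt kap c (x * y) = tt kap c x * y + x * tt kap c y) x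
    ?_ ?_ ?_
  · simp
  · intro x x' hx hx'
    rw [add_mul, map_add, hx, hx', map_add, add_mul, add_mul]
    abel
  · intro i f
    refine sg_induction (P := fun y => tt kap c (sg i f * y) = tt kap c (sg i f) * y +
      sg i f * tt kap c y) y ?_ ?_ ?_
    · simp
    · intro y y' hy hy'
      rw [mul_add, map_add, hy, hy', map_add, mul_add, mul_add]
      abel
    · intro k g
      rw [sg_mul_sg, sg_eq i f, sg_eq k g, tt_smul, tt_smul, tt_smul, tt_bp, dl_mul]
      simp only [add_mul, mul_add, AM_smul_mul, AM_mul_smul, sg_mul_sg, smul_smul, smul_add,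
        mul_one, one_smul]
      module

theorem zA_y (tau : K) (c : ℕ) (x : AM K kap) :
    zA tau kap ((X (Sum.inr c) : CM K) • x) = (X (Sum.inr c) : CM K) • zA tau kap x +
      ((X (Sum.inl (c + 1)) : CM K) • x + tau • tt kap c x) := by
  refine sg_induction (P := fun x => zA tau kap ((X (Sum.inr c) : CM K) • x) =
    (X (Sum.inr c) : CM K) • zA tau kap x +
      ((X (Sum.inl (c + 1)) : CM K) • x + tau • tt kap c x)) x ?_ ?_ ?_
  · simp
  · intro x y hx hy
    rw [smul_add, map_add, hx, hy, map_add, map_add, smul_add, smul_add, smul_add]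
    abel
  · intro i f
    rcases i with j | ⟨j, a⟩
    · rw [smul_sg, zA_inl, zA_inl, zc_inr, sg_eq _ f, tt_smul, tt_e0, smul_zero, zero_add, ← w_pow,
        ksmul, smul_eq_C_mul, C_mul, two_C]
      module
    · rw [smul_sg, zA_inr, zA_inr, zc_inr, zd_mul, zd_inr, sg_eq _ f, tt_smul, tt_e1, ← w_m_w j a,
        ksmul, ksmul, ksmul, smul_eq_C_mul, C_mul, two_C]
      module

theorem zA_p (tau : K) (k : ℕ) (x : AM K kap) :
    zA tau kap ((X (Sum.inl k) : CM K) • x) = (X (Sum.inl k) : CM K) • zA tau kap x := by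
  refine sg_induction (P := fun x => zA tau kap ((X (Sum.inl k) : CM K) • x) =
    (X (Sum.inl k) : CM K) • zA tau kap x) x ?_ ?_ ?_
  · simp
  · intro x y hx hy
    rw [smul_add, map_add, hx, hy, map_add, smul_add]
  · intro i f
    rcases i with j | ⟨j, a⟩
    · rw [smul_sg, zA_inl, zA_inl, zc_inl, mul_smul]
    · rw [smul_sg, zA_inr, zA_inr, zc_inl, zd_mul, zd_inl, ksmul, ksmul]
      module

theorem zA_one (tau : K) (f : CM K) :
    zA tau kap (f • (1 : AM K kap)) = zc tau f • (1 : AM K kap) := by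
  rw [one_def, ← sg_eq, zA_inl, pow_zero, one_def]

theorem zA_1 (tau : K) : zA tau kap (1 : AM K kap) = 0 := by
  have h := zA_one (kap := kap) tau 1
  rwa [one_smul, ← C_1, zc_C, zero_smul] at h

theorem tt_p (c k : ℕ) (x : AM K kap) :
    tt kap c ((X (Sum.inl k) : CM K) • x) = (X (Sum.inl k) : CM K) • tt kap c x := by
  rw [tt_smul, dl_inl, mul_zero, zero_smul, add_zero]

theorem tt_y (c d : ℕ) (x : AM K kap) :
    tt kap c ((X (Sum.inr d) : CM K) • x) = (X (Sum.inr d) : CM K) • tt kap c x +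
      (2 : K) • ((X (Sum.inr (c + d + 1)) : CM K) • x) := by
  rw [tt_smul, dl_inr, ksmul, smul_smul, two_C]

theorem tt_wp (c j : ℕ) : tt kap c (wA ^ j) = 0 := by
  rw [w_pow, tt_e0]

theorem tt_1 (c : ℕ) : tt kap c (1 : AM K kap) = 0 := by
  rw [one_def, tt_e0]

theorem tt_m (c : ℕ) : tt kap c mA = wA ^ (c + 1) * mA + mA * wA ^ (c + 1) := by
  have h := tt_e1 (K := K) (kap := kap) c 0 0
  rw [← w_m_w, ← w_m_w, ← w_m_w, pow_zero, one_mul, mul_one, mul_one, zero_add] at h
  exact h

theorem tt_Ow (c d : ℕ) : tt kap d (Ow kap c) + tt kap c (Ow kap d) =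
    (2 : K) • Ow kap (c + d + 1) := by
  have h1 : ∀ c d : ℕ, tt kap d (Ow kap c) =
      ∑ l ∈ Finset.range (c + 1), sg (Sum.inr (d + 1 + l, c + d + 1 - (d + 1 + l))) 1 +
      ∑ l ∈ Finset.range (c + 1), (sg (Sum.inr (l, c + d + 1 - l)) 1 : AM K kap) := by
    intro c d
    unfold Ow
    rw [map_sum, ← Finset.sum_add_distrib]
    refine Finset.sum_congr rfl fun l hl => ?_
    have hl' := Finset.mem_range.mp hl
    have e1 : l + d + 1 = d + 1 + l := by omega
    have e2 : c - l = c + d + 1 - (d + 1 + l) := by omega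
    have e3 : c - l + d + 1 = c + d + 1 - l := by omega
    rw [w_m_w, tt_e1, e3, e1, e2]
  have h2 : ∀ c d : ℕ, Ow kap (c + d + 1) =
      ∑ l ∈ Finset.range (d + 1), (sg (Sum.inr (l, c + d + 1 - l)) 1 : AM K kap) +
      ∑ l ∈ Finset.range (c + 1), sg (Sum.inr (d + 1 + l, c + d + 1 - (d + 1 + l))) 1 := by
    intro c d
    have e : c + d + 1 + 1 = d + 1 + (c + 1) := by ring
    unfold Ow
    rw [e, Finset.sum_range_add]
    congr 1
    · refine Finset.sum_congr rfl fun l hl => ?_
      rw [w_m_w]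
    · refine Finset.sum_congr rfl fun l hl => ?_
      rw [w_m_w]
  have h3 := h2 c d
  have h4 := h2 d c
  have e : d + c + 1 = c + d + 1 := by ring
  rw [e] at h4
  rw [h1 c d, h1 d c, two_smul]
  nth_rewrite 1 [h3]
  rw [h4, e]
  abel

/-- The commutator with a cycle. -/
def Bc (al kap : K) (c : ℕ) (x : AM K kap) : AM K kap :=
  al • (Ow kap c * zA (al * kap) kap x) - al • zA (al * kap) kap (Ow kap c * x) +
    al • (((c + 1 : ℕ) : K) • (wA ^ (c + 1) * x)) +
    (al * kap) • (Rop al kap (tt kap c x) - tt kap c (Rop al kap x))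

/-- The commutator. -/
def Kc (al kap : K) (x : AM K kap) : AM K kap :=
  Rop al kap (zA (al * kap) kap x) - zA (al * kap) kap (Rop al kap x)

theorem Kc_add (al : K) (x y : AM K kap) : Kc al kap (x + y) = Kc al kap x + Kc al kap y := by
  unfold Kc
  simp only [map_add]
  abel

theorem Kc_C (al t : K) (x : AM K kap) :
    Kc al kap ((C t : CM K) • x) = (C t : CM K) • Kc al kap x := by
  unfold Kc
  rw [← ksmul, ← ksmul]
  simp only [map_smul, smul_sub]

theorem Kc_w {al : K} (hR : RSt K al kap) (x : AM K kap) :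
    Kc al kap (x * wA) = Kc al kap x * wA := by
  have h1 : cA (zA (al * kap) kap x * wA) = zc (al * kap) (cA (x * wA)) := by
    rw [← zA_w, zA_c]
  have h2 : zA (al * kap) kap (rv (x * wA)) = rv (zA (al * kap) kap x * wA) := by
    rw [← zA_rv, zA_w]
  unfold Kc
  rw [zA_w, hR.w, hR.w, map_add, map_add, LinearMap.map_smul (zA (al * kap) kap) (al - 1), zA_w,
    zA_one, h1, h2, sub_mul]
  abel

theorem Kc_p {al : K} (hR : RSt K al kap) (k : ℕ) (x : AM K kap) :
    Kc al kap ((X (Sum.inl k) : CM K) • x) = (X (Sum.inl k) : CM K) • Kc al kap x := by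
  have h1 : ∀ j : ℕ, ∀ y : AM K kap, zA (al * kap) kap (wA ^ j * y) =
      wA ^ j * zA (al * kap) kap y := by
    intro j
    induction j with
    | zero => intro y; rw [pow_zero, one_mul, one_mul]
    | succ j ih => intro y; rw [pow_succ', mul_assoc, zA_wl, ih, mul_assoc]
  unfold Kc
  rw [zA_p, hR.smul, hR.smul, map_add, zA_p, oA_inl, LinearMap.map_smul (zA (al * kap) kap) al,
    smul_mul_assoc, smul_mul_assoc, LinearMap.map_smul (zA (al * kap) kap) (k : K), h1, smul_sub]
  abel

theorem Kc_y {al : K} (hR : RSt K al kap) (c : ℕ) (x : AM K kap) :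
    Kc al kap ((X (Sum.inr c) : CM K) • x) =
      (X (Sum.inr c) : CM K) • Kc al kap x + Bc al kap c x := by
  unfold Kc Bc
  rw [zA_y, map_add, map_add, hR.smul, hR.smul (X (Sum.inl (c + 1))) x,
    hR.smul (X (Sum.inr c)) x, map_add (zA (al * kap) kap), zA_y, oA_inr,
    LinearMap.map_smul (zA (al * kap) kap) al, LinearMap.map_smul (Rop al kap) (al * kap),
    oA_inl, smul_mul_assoc, smul_sub, smul_sub]
  abel

theorem Bc_add (al : K) (c : ℕ) (x y : AM K kap) :
    Bc al kap c (x + y) = Bc al kap c x + Bc al kap c y := by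
  unfold Bc
  simp only [map_add, mul_add, smul_add, smul_sub]
  abel

theorem Bc_C (al t : K) (c : ℕ) (x : AM K kap) :
    Bc al kap c ((C t : CM K) • x) = (C t : CM K) • Bc al kap c x := by
  unfold Bc
  rw [← ksmul, ← ksmul]
  simp only [map_smul, mul_smul_comm, smul_add, smul_sub]
  rw [smul_comm t al, smul_comm t al, smul_comm t al, smul_comm t (al * kap),
    smul_comm t (al * kap), smul_comm t ((c + 1 : ℕ) : K)]

theorem Bc_w {al : K} (hR : RSt K al kap) (c : ℕ) (x : AM K kap) :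
    Bc al kap c (x * wA) = Bc al kap c x * wA := by
  have h1 := Kc_y hR c (x * wA)
  have h2 := Kc_y hR c x
  have h3 : (X (Sum.inr c) : CM K) • (x * wA) = ((X (Sum.inr c) : CM K) • x) * wA := by
    rw [AM_smul_mul]
  rw [h3, Kc_w hR, Kc_w hR, h2, add_mul, AM_smul_mul] at h1
  exact (add_left_cancel h1).symm

theorem Bc_p {al : K} (hR : RSt K al kap) (c k : ℕ) (x : AM K kap) :
    Bc al kap c ((X (Sum.inl k) : CM K) • x) = (X (Sum.inl k) : CM K) • Bc al kap c x := by
  unfold Bc
  rw [zA_p, AM_mul_smul, AM_mul_smul, AM_mul_smul, zA_p, tt_p, hR.smul, hR.smul, map_add, tt_p,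
    oA_inl, LinearMap.map_smul (tt kap c) al, smul_mul_assoc, smul_mul_assoc,
    LinearMap.map_smul (tt kap c) (k : K), tt_mul, tt_wp, zero_mul, zero_add]
  simp only [ksmul]
  module

theorem Bc_y {al : K} (hR : RSt K al kap) (c d : ℕ) (x : AM K kap) :
    Bc al kap c ((X (Sum.inr d) : CM K) • x) = (X (Sum.inr d) : CM K) • Bc al kap c x := by
  have h1 : (2 : K) • (Ow kap (c + d + 1) * x) =
      tt kap d (Ow kap c) * x + tt kap c (Ow kap d) * x := by
    rw [← add_mul, tt_Ow, smul_mul_assoc]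
  unfold Bc
  rw [zA_y, mul_add, mul_add, AM_mul_smul, AM_mul_smul, AM_mul_smul, AM_mul_smul, mul_smul_comm,
    zA_y, tt_y, map_add, hR.smul, hR.smul, map_add (tt kap c), tt_y, oA_inr,
    LinearMap.map_smul (tt kap c) al, LinearMap.map_smul (Rop al kap) (2 : K), hR.smul, oA_inr,
    tt_mul, tt_mul, smul_add (2 : K), smul_comm (2 : K) al, h1]
  simp only [ksmul]
  module

theorem Bc_f {al : K} (hR : RSt K al kap) (c : ℕ) (f : CM K) (x : AM K kap) :
    Bc al kap c (f • x) = f • Bc al kap c x := by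
  induction f using MvPolynomial.induction_on generalizing x with
  | C t => exact Bc_C al t c x
  | add p q hp hq => rw [add_smul, Bc_add, hp, hq, add_smul]
  | mul_X p v hp =>
    rw [mul_smul, hp]
    rcases v with k | d
    · rw [Bc_p hR, mul_smul]
    · rw [Bc_y hR, mul_smul]

theorem zA_e0 (tau : K) (j : ℕ) : zA tau kap (sg (Sum.inl j) 1) = 0 := by
  rw [zA_inl, ← C_1, zc_C, zero_smul]

theorem zA_e1 (tau : K) (j a : ℕ) : zA tau kap (sg (Sum.inr (j, a)) 1) = wA ^ (j + a + 1) := by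
  rw [zA_inr, ← C_1, zc_C, zero_smul, zero_add, zd_C, smul_zero, add_zero, C_1, one_smul]

theorem Bc_one {al : K} (hR : RSt K al kap) (c : ℕ) : Bc al kap c (1 : AM K kap) = 0 := by
  have h1 : zA (al * kap) kap (Ow kap c) = ((c + 1 : ℕ) : K) • wA ^ (c + 1) := by
    unfold Ow
    rw [map_sum]
    have h2 : ∀ l ∈ Finset.range (c + 1), zA (al * kap) kap (wA ^ l * mA * wA ^ (c - l)) =
        (wA ^ (c + 1) : AM K kap) := by
      intro l hl
      have hl' := Finset.mem_range.mp hl
      rw [w_m_w, zA_e1]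
      congr 1
      omega
    rw [Finset.sum_congr rfl h2, Finset.sum_const, Finset.card_range, Nat.cast_smul_eq_nsmul]
  unfold Bc
  rw [zA_1, tt_1, hR.one, mul_zero, mul_one, mul_one, h1, map_zero, map_zero]
  simp

theorem tt_rW (b : K) (c j : ℕ) : tt kap c (rW b kap j) = 0 := by
  induction j with
  | zero => rw [rW, map_zero]
  | succ j ih =>
    have h1 : tt kap c (wA : AM K kap) = 0 := by
      have h := tt_wp (kap := kap) c 1
      rwa [pow_one] at h
    rw [rW, map_add, map_add, tt_mul, ih, zero_mul, h1, mul_zero, tt_p, tt_1, smul_zero,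
      LinearMap.map_smul (tt kap c) b, tt_wp, smul_zero]
    simp

theorem rW_add (b : K) (j n : ℕ) : rW b kap (j + n) = rW b kap j * wA ^ n +
    ∑ r ∈ Finset.range n, (X (Sum.inl (j + r + 1)) : CM K) • (wA ^ (n - 1 - r) : AM K kap) +
    (n : K) • (b • wA ^ (j + n)) := by
  induction n with
  | zero => simp
  | succ n ih =>
    rw [← add_assoc, rW, ih, Finset.sum_range_succ, add_mul, add_mul, Finset.sum_mul, mul_assoc,
      ← pow_succ]
    have h1 : ∀ r ∈ Finset.range n,
        (X (Sum.inl (j + r + 1)) : CM K) • (wA ^ (n - 1 - r) : AM K kap) * wA =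
        (X (Sum.inl (j + r + 1)) : CM K) • (wA ^ (n + 1 - 1 - r) : AM K kap) := by
      intro r hr
      have hr' := Finset.mem_range.mp hr
      have e : n + 1 - 1 - r = (n - 1 - r) + 1 := by omega
      rw [e, pow_succ wA (n - 1 - r), smul_mul_assoc]
    have e2 : n + 1 - 1 - n = 0 := by omega
    rw [Finset.sum_congr rfl h1, e2, pow_zero, smul_mul_assoc, smul_mul_assoc, ← pow_succ,
      Nat.cast_add, Nat.cast_one]
    module

/-- the sum of the openings -/
def SG (kap : K) (j c : ℕ) : AM K kap :=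
  ∑ l ∈ Finset.range (c + 1), wA ^ l * mA * wA ^ (j + c + 1 - l)

/-- a sum -/
def SY (kap : K) (j c : ℕ) : AM K kap :=
  ∑ l ∈ Finset.range (c + 1), (X (Sum.inr (j + l)) : CM K) • (wA ^ (c + 1 - l) : AM K kap)

/-- a sum -/
def SP (kap : K) (j c : ℕ) : AM K kap :=
  ∑ l ∈ Finset.range (c + 1),
    (X (Sum.inl (j + l + 1)) : CM K) • (wA ^ (c - l) * mA : AM K kap)

theorem SG_shift (j c : ℕ) :
    (∑ r ∈ Finset.range (c + 1), wA ^ (r + 1) * mA * wA ^ j * wA ^ (c + 1 - 1 - r) : AM K kap) =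
      SG kap j c + wA ^ (c + 1) * mA * wA ^ j - mA * wA ^ (j + c + 1) := by
  have h1 : ∀ r ∈ Finset.range (c + 1),
      (wA ^ (r + 1) * mA * wA ^ j * wA ^ (c + 1 - 1 - r) : AM K kap) =
      wA ^ (r + 1) * mA * wA ^ (j + c + 1 - (r + 1)) := by
    intro r hr
    have hr' := Finset.mem_range.mp hr
    rw [mul_assoc (wA ^ (r + 1) * mA), ← pow_add]
    congr 2
    omega
  have h2 := Finset.sum_range_succ
    (fun l => (wA ^ l * mA * wA ^ (j + c + 1 - l) : AM K kap)) (c + 1)
  have h3 := Finset.sum_range_succ'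
    (fun l => (wA ^ l * mA * wA ^ (j + c + 1 - l) : AM K kap)) (c + 1)
  have e : j + c + 1 - (c + 1) = j := by omega
  rw [h3] at h2
  rw [pow_zero, one_mul, Nat.sub_zero, e] at h2
  rw [Finset.sum_congr rfl h1]
  unfold SG
  rw [← h2]
  abel

theorem SY_shift (j c : ℕ) :
    (∑ r ∈ Finset.range (c + 1), (X (Sum.inr (j + (r + 1))) : CM K) •
      (wA ^ (c + 1 - 1 - r) : AM K kap)) =
      SY kap j c + (X (Sum.inr (j + c + 1)) : CM K) • (1 : AM K kap) -
        (X (Sum.inr j) : CM K) • (wA ^ (c + 1) : AM K kap) := by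
  have h1 : ∀ r ∈ Finset.range (c + 1), (X (Sum.inr (j + (r + 1))) : CM K) •
      (wA ^ (c + 1 - 1 - r) : AM K kap) =
      (X (Sum.inr (j + (r + 1))) : CM K) • (wA ^ (c + 1 - (r + 1)) : AM K kap) := by
    intro r hr
    have e : c + 1 - 1 - r = c + 1 - (r + 1) := by omega
    rw [e]
  have h2 := Finset.sum_range_succ
    (fun l => (X (Sum.inr (j + l)) : CM K) • (wA ^ (c + 1 - l) : AM K kap)) (c + 1)
  have h3 := Finset.sum_range_succ'
    (fun l => (X (Sum.inr (j + l)) : CM K) • (wA ^ (c + 1 - l) : AM K kap)) (c + 1)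
  rw [h3] at h2
  rw [add_zero, Nat.sub_zero, Nat.sub_self, pow_zero, ← add_assoc] at h2
  rw [Finset.sum_congr rfl h1]
  unfold SY
  rw [← h2]
  abel

theorem Ow_wp (j c : ℕ) : Ow kap c * wA ^ (j + 1) = SG kap j c := by
  unfold Ow SG
  rw [Finset.sum_mul]
  refine Finset.sum_congr rfl fun l hl => ?_
  have hl' := Finset.mem_range.mp hl
  rw [mul_assoc (wA ^ l * mA), ← pow_add]
  congr 2
  omega

theorem zA_Qs (tau : K) (j c : ℕ) : zA tau kap (Qs kap j c (c + 1)) =
    SY kap j c + SP kap j c +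
      tau • (((c + 1 : ℕ) : K) • (wA ^ (j + c + 1) * mA) + SG kap j c) := by
  have h1 : ∀ l ∈ Finset.range (c + 1), zA tau kap ((X (Sum.inr (j + (c - l))) : CM K) •
      (wA ^ l * mA : AM K kap)) = (X (Sum.inr (j + (c - l))) : CM K) •
        (wA ^ (c + 1 - (c - l)) : AM K kap) +
      (X (Sum.inl (j + (c - l) + 1)) : CM K) • (wA ^ (c - (c - l)) * mA : AM K kap) +
      tau • (wA ^ (j + c + 1) * mA) + tau • (wA ^ l * mA * wA ^ (j + c + 1 - l)) := by
    intro l hl
    have hl' := Finset.mem_range.mp hl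
    have h2 : (wA ^ l * mA : AM K kap) = sg (Sum.inr (l, 0)) 1 := by
      rw [← w_m_w, pow_zero, mul_one]
    have e1 : l + (j + (c - l)) + 1 = j + c + 1 := by omega
    have e2 : 0 + (j + (c - l)) + 1 = j + c + 1 - l := by omega
    have e3 : l + 0 + 1 = c + 1 - (c - l) := by omega
    have e4 : c - (c - l) = l := by omega
    rw [zA_y, h2, zA_e1, tt_e1, e1, e2, e3, e4, ← h2, ← w_m_w, ← w_m_w, pow_zero, mul_one,
      smul_add]
    abel
  have hA : ∑ l ∈ Finset.range (c + 1), (X (Sum.inr (j + (c - l))) : CM K) •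
      (wA ^ (c + 1 - (c - l)) : AM K kap) = SY kap j c := by
    unfold SY
    rw [← Finset.sum_range_reflect]
    refine Finset.sum_congr rfl fun l hl => ?_
    have hl' := Finset.mem_range.mp hl
    have e : c - (c + 1 - 1 - l) = l := by omega
    rw [e]
  have hB : ∑ l ∈ Finset.range (c + 1), (X (Sum.inl (j + (c - l) + 1)) : CM K) •
      (wA ^ (c - (c - l)) * mA : AM K kap) = SP kap j c := by
    unfold SP
    rw [← Finset.sum_range_reflect]
    refine Finset.sum_congr rfl fun l hl => ?_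
    have hl' := Finset.mem_range.mp hl
    have e : c - (c + 1 - 1 - l) = l := by omega
    rw [e]
  have hD : ∑ l ∈ Finset.range (c + 1), tau • (wA ^ l * mA * wA ^ (j + c + 1 - l) : AM K kap) =
      tau • SG kap j c := by
    unfold SG
    rw [Finset.smul_sum]
  have hC : ∑ _l ∈ Finset.range (c + 1), tau • (wA ^ (j + c + 1) * mA : AM K kap) =
      tau • (((c + 1 : ℕ) : K) • (wA ^ (j + c + 1) * mA)) := by
    rw [Finset.sum_const, Finset.card_range, ← Nat.cast_smul_eq_nsmul K, smul_comm]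
  unfold Qs
  rw [map_sum, Finset.sum_congr rfl h1, Finset.sum_add_distrib, Finset.sum_add_distrib,
    Finset.sum_add_distrib, hA, hB, hC, hD, smul_add, add_assoc]

theorem R_sm {al : K} (hR : RSt K al kap) (j : ℕ) : Rop al kap (wA ^ j * mA) =
    rW (al - 1) kap j * mA + (X (Sum.inr j) : CM K) • (1 : AM K kap) +
      (al - 1) • (mA * wA ^ j) := by
  have h1 := hR.m (sg (Sum.inl j) 1)
  have h2 : Rop al kap (sg (Sum.inl j) 1) = rW (al - 1) kap j := by
    rw [Rop_inl, Derivation.map_one_eq_zero, smul_zero, zero_mul, add_zero, one_smul]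
  have h3 : (sg (Sum.inl j) 1 * mA : AM K kap) = wA ^ j * mA := by rw [← w_pow]
  have h4 : cA (wA ^ j * mA : AM K kap) = X (Sum.inr j) := by
    have h := cA_wmw (K := K) (kap := kap) j 0
    rwa [pow_zero, mul_one, add_zero] at h
  have h5 : rv (wA ^ j * mA : AM K kap) = mA * wA ^ j := by
    rw [rv_mul, rv_m, rv_wp]
  rwa [h2, h3, h4, h5] at h1

theorem R_e1 (al : K) (j a : ℕ) : Rop al kap (sg (Sum.inr (j, a)) 1) = rM (al - 1) kap j a := by
  rw [Rop_inr, Derivation.map_one_eq_zero, smul_zero, zero_mul, add_zero, one_smul]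

theorem Bc_m {al : K} (hk : al * kap ^ 2 = (al - 1) * kap + 1) (hR : RSt K al kap) (c j : ℕ) :
    Bc al kap c (wA ^ j * mA) = 0 := by
  have h2 : (wA ^ j * mA : AM K kap) = sg (Sum.inr (j, 0)) 1 := by
    rw [← w_m_w, pow_zero, mul_one]
  have hz : zA (al * kap) kap (wA ^ j * mA : AM K kap) = wA ^ (j + 1) := by
    rw [h2, zA_e1, add_zero]
  have e0 : 0 + c + 1 = c + 1 := by ring
  have ht : tt kap c (wA ^ j * mA : AM K kap) =
      sg (Sum.inr (j + c + 1, 0)) 1 + sg (Sum.inr (j, c + 1)) 1 := by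
    rw [h2, tt_e1, e0]
  have e1 : c + j + 1 = j + c + 1 := by ring
  -- the second touch
  have h3 : tt kap c (Rop al kap (wA ^ j * mA)) =
      rW (al - 1) kap j * (wA ^ (c + 1) * mA) + rW (al - 1) kap j * (mA * wA ^ (c + 1)) +
        (2 : K) • ((X (Sum.inr (j + c + 1)) : CM K) • (1 : AM K kap)) +
        (al - 1) • (wA ^ (c + 1) * mA * wA ^ j + mA * wA ^ (j + c + 1)) := by
    have e2 : c + 1 + j = j + c + 1 := by ring
    rw [R_sm hR, map_add, map_add, LinearMap.map_smul (tt kap c) (al - 1), tt_mul, tt_rW,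
      zero_mul, zero_add, tt_m, tt_y, tt_1, smul_zero, zero_add, e1, tt_mul, tt_m, tt_wp,
      mul_zero, add_zero, mul_add, add_mul, mul_assoc mA, ← pow_add, e2]
  have h4 : rM (al - 1) kap (j + c + 1) 0 = rW (al - 1) kap j * (wA ^ (c + 1) * mA) +
      SP kap j c + ((c + 1 : ℕ) : K) • ((al - 1) • (wA ^ (j + c + 1) * mA)) +
      (X (Sum.inr (j + c + 1)) : CM K) • (1 : AM K kap) +
      (al - 1) • (mA * wA ^ (j + c + 1)) := by
    rw [rM, add_assoc j c 1, rW_add, add_mul, add_mul, Finset.sum_mul, mul_assoc,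
      smul_mul_assoc, smul_mul_assoc, ← add_assoc j c 1]
    have h5 : ∑ r ∈ Finset.range (c + 1), (X (Sum.inl (j + r + 1)) : CM K) •
        (wA ^ (c + 1 - 1 - r) : AM K kap) * mA = SP kap j c := by
      unfold SP
      refine Finset.sum_congr rfl fun r hr => ?_
      rw [smul_mul_assoc, Nat.add_sub_cancel]
    rw [h5]
  have h6 : rM (al - 1) kap j (c + 1) = rW (al - 1) kap j * (mA * wA ^ (c + 1)) +
      (X (Sum.inr j) : CM K) • (wA ^ (c + 1) : AM K kap) + (al - 1) • (mA * wA ^ (j + c + 1)) +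
      (SY kap j c + (X (Sum.inr (j + c + 1)) : CM K) • (1 : AM K kap) -
        (X (Sum.inr j) : CM K) • (wA ^ (c + 1) : AM K kap)) +
      (al - 1) • (SG kap j c + wA ^ (c + 1) * mA * wA ^ j - mA * wA ^ (j + c + 1)) := by
    rw [rM_eq, Finset.sum_add_distrib, ← Finset.smul_sum, SY_shift, SG_shift, add_mul, add_mul,
      mul_assoc, smul_mul_assoc, one_mul, smul_mul_assoc, mul_assoc mA, ← pow_add,
      ← add_assoc j c 1, ← add_assoc]
  have h7 : al - al * kap * (al * kap) + al * kap * (al - 1) = 0 := by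
    have e : al - al * kap * (al * kap) + al * kap * (al - 1) =
        al * ((al - 1) * kap + 1 - al * kap ^ 2) := by ring
    rw [e, hk]
    ring
  have h8 : (wA ^ (c + 1) * (wA ^ j * mA) : AM K kap) = wA ^ (j + c + 1) * mA := by
    have e2 : c + 1 + j = j + c + 1 := by ring
    rw [← mul_assoc, ← pow_add, e2]
  unfold Bc
  rw [hz, Ow_wp, Ow_mul, ← ksmul, LinearMap.map_smul (zA (al * kap) kap) kap, zA_Qs, h8, ht,
    map_add, R_e1, R_e1, h3, h4, h6]
  have h9 : ∀ (G Y P M V0 V1 Z1 Z2 N1 N2 : AM K kap) (n : K),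
      al • G - al • (kap • (Y + P + (al * kap) • (n • M + G))) + al • (n • M) +
      (al * kap) • (Z1 + P + n • ((al - 1) • M) + V0 + (al - 1) • N1 +
        (Z2 + V1 + (al - 1) • N1 + (Y + V0 - V1) + (al - 1) • (G + N2 - N1)) -
        (Z1 + Z2 + (2 : K) • V0 + (al - 1) • (N2 + N1))) =
      (al - al * kap * (al * kap) + al * kap * (al - 1)) • (G + n • M) := by
    intro G Y P M V0 V1 Z1 Z2 N1 N2 n
    module
  rw [h9, h7, zero_smul]

theorem Bc_zero {al : K} (hk : al * kap ^ 2 = (al - 1) * kap + 1) (hR : RSt K al kap) (c : ℕ)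
    (x : AM K kap) : Bc al kap c x = 0 := by
  have hp : ∀ (n : ℕ) (y : AM K kap), Bc al kap c (y * wA ^ n) = Bc al kap c y * wA ^ n := by
    intro n y
    induction n with
    | zero => rw [pow_zero, mul_one, mul_one]
    | succ n ih => rw [pow_succ, ← mul_assoc, Bc_w hR, ih, mul_assoc]
  refine sg_induction (P := fun x => Bc al kap c x = 0) x ?_ ?_ ?_
  · have h := Bc_C al 0 c (0 : AM K kap)
    rwa [C_0, zero_smul, zero_smul] at h
  · intro x y hx hy
    rw [Bc_add, hx, hy, add_zero]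
  · intro i f
    rcases i with j | ⟨j, a⟩
    · have h := hp j 1
      rw [one_mul, Bc_one hR, zero_mul] at h
      rw [sg_inl, Bc_f hR, h, smul_zero]
    · have h := hp a (wA ^ j * mA)
      rw [Bc_m hk hR, zero_mul] at h
      rw [sg_inr, Bc_f hR, h, smul_zero]

theorem Kc_f {al : K} (hk : al * kap ^ 2 = (al - 1) * kap + 1) (hR : RSt K al kap) (f : CM K)
    (x : AM K kap) : Kc al kap (f • x) = f • Kc al kap x := by
  induction f using MvPolynomial.induction_on generalizing x with
  | C t => exact Kc_C al t x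
  | add p q hp hq => rw [add_smul, Kc_add, hp, hq, add_smul]
  | mul_X p v hp =>
    rw [mul_smul, hp]
    rcases v with k | d
    · rw [Kc_p hR, mul_smul]
    · rw [Kc_y hR, Bc_zero hk hR, add_zero, mul_smul]

theorem Kc_one {al : K} (hR : RSt K al kap) : Kc al kap (1 : AM K kap) = 0 := by
  unfold Kc
  rw [zA_1, hR.one, map_zero, map_zero, sub_zero]

theorem zA_wp (tau : K) (j : ℕ) (x : AM K kap) :
    zA tau kap (wA ^ j * x) = wA ^ j * zA tau kap x := by
  induction j with
  | zero => rw [pow_zero, one_mul, one_mul]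
  | succ j ih => rw [pow_succ', mul_assoc, zA_wl, ih, mul_assoc]

theorem zA_rW (tau b : K) (j : ℕ) (x : AM K kap) :
    zA tau kap (rW b kap j * x) = rW b kap j * zA tau kap x := by
  induction j generalizing x with
  | zero => rw [rW, zero_mul, zero_mul, map_zero]
  | succ j ih =>
    rw [rW, add_mul, add_mul, map_add, map_add, mul_assoc, ih, zA_wl, smul_mul_assoc, one_mul,
      zA_p, smul_mul_assoc, LinearMap.map_smul (zA tau kap) b, zA_wp, add_mul, add_mul,
      smul_mul_assoc, one_mul, smul_mul_assoc, mul_assoc]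

theorem Kc_m {al : K} (hR : RSt K al kap) (j : ℕ) : Kc al kap (wA ^ j * mA) = 0 := by
  have h2 : (wA ^ j * mA : AM K kap) = sg (Sum.inr (j, 0)) 1 := by
    rw [← w_m_w, pow_zero, mul_one]
  have hz : zA (al * kap) kap (wA ^ j * mA : AM K kap) = wA ^ (j + 1) := by
    rw [h2, zA_e1, add_zero]
  have hm : zA (al * kap) kap (mA : AM K kap) = wA := by
    have h := zA_e1 (kap := kap) (al * kap) 0 0
    rw [← w_m_w, pow_zero, one_mul, mul_one, zero_add, zero_add, pow_one] at h
    exact h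
  have hm2 : zA (al * kap) kap (mA * wA ^ j : AM K kap) = wA ^ (j + 1) := by
    have h := zA_e1 (kap := kap) (al * kap) 0 j
    rw [← w_m_w, pow_zero, one_mul, zero_add] at h
    exact h
  have h3 : Rop al kap (wA ^ (j + 1)) = rW (al - 1) kap (j + 1) := by
    rw [w_pow, Rop_inl, Derivation.map_one_eq_zero, smul_zero, zero_mul, add_zero, one_smul]
  unfold Kc
  rw [hz, h3, R_sm hR, map_add, map_add, zA_rW, hm, zA_y, zA_1, tt_1, smul_zero, smul_zero,
    zero_add, add_zero, LinearMap.map_smul (zA (al * kap) kap) (al - 1), hm2, rW, sub_self]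

theorem Kc_zero {al : K} (hk : al * kap ^ 2 = (al - 1) * kap + 1) (hR : RSt K al kap)
    (x : AM K kap) : Kc al kap x = 0 := by
  have hp : ∀ (n : ℕ) (y : AM K kap), Kc al kap (y * wA ^ n) = Kc al kap y * wA ^ n := by
    intro n y
    induction n with
    | zero => rw [pow_zero, mul_one, mul_one]
    | succ n ih => rw [pow_succ, ← mul_assoc, Kc_w hR, ih, mul_assoc]
  refine sg_induction (P := fun x => Kc al kap x = 0) x ?_ ?_ ?_
  · have h := Kc_C al 0 (0 : AM K kap)
    rwa [C_0, zero_smul, zero_smul] at h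
  · intro x y hx hy
    rw [Kc_add, hx, hy, add_zero]
  · intro i f
    rcases i with j | ⟨j, a⟩
    · have h := hp j 1
      rw [one_mul, Kc_one hR, zero_mul] at h
      rw [sg_inl, Kc_f hk hR, h, smul_zero]
    · have h := hp a (wA ^ j * mA)
      rw [Kc_m hR, zero_mul] at h
      rw [sg_inr, Kc_f hk hR, h, smul_zero]

end ZModM

open ZModM in
/-- The rules for recolouring. -/
theorem zSt [CharZero K] (al : K) (hk : al * kap ^ 2 = (al - 1) * kap + 1)
    (hR : RSt K al kap) : ZSt K al kap where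
  one := zA_one (al * kap)
  c := zA_c (al * kap)
  r := by
    intro x
    have h := Kc_zero hk hR x
    unfold Kc at h
    exact sub_eq_zero.mp h

end

end Pool.Agent.MJX
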